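import Pool.Agent.Lib.MP_ca7d12_nt.UnitsA

set_option autoImplicit false

namespace Pool.Agent.MP_ca7d12_nt

open UnitsA

namespace Ball

/-- The first three terms of the binomial expansion. -/
private theorem pow_expand {R : Type*} [CommRing R] (x y : R) (n : ℕ) :
    ∃ t : R, (x + y) ^ (n + 2) = x ^ (n + 2) + ((n + 2 : ℕ) : R) * x ^ (n + 1) * y +
      (((n + 2).choose 2 : ℕ) : R) * x ^ n * y ^ 2 + y ^ 3 * t := by
  induction n with
  | zero =>
    refine ⟨0, ?_⟩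
    simp
    ring
  | succ n ih =>
    obtain ⟨t, ht⟩ := ih
    have hc : (n + 1 + 2).choose 2 = (n + 2) + (n + 2).choose 2 := by
      rw [show n + 1 + 2 = (n + 2) + 1 by ring, Nat.choose_succ_succ' (n + 2) 1, Nat.choose_one_right]
    refine ⟨(((n + 2).choose 2 : ℕ) : R) * x ^ n + t * (x + y), ?_⟩
    rw [show (x + y) ^ (n + 1 + 2) = (x + y) ^ (n + 2) * (x + y) by ring, ht, hc]
    push_cast
    ring

private theorem dvdA {s p q : ℕ} (hp : p.Prime) (hq : q.Prime) (hps : p ∣ s) (hqs : q ∣ s)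
    (h4 : q = 2 → 4 ∣ s) : q * p ∣ q.choose 2 * s := by
  by_cases h2 : q = 2
  · subst h2
    rw [Nat.choose_self, one_mul]
    by_cases hp2 : p = 2
    · subst hp2
      exact h4 rfl
    · exact Nat.Coprime.mul_dvd_of_dvd_of_dvd
        ((Nat.coprime_primes Nat.prime_two hp).2 (Ne.symm hp2)) hqs hps
  · exact mul_dvd_mul (hq.dvd_choose_self two_ne_zero
      (lt_of_le_of_ne hq.two_le (Ne.symm h2))) hps

private theorem cop {c : ℤ} {s m : ℕ} (h : IsCoprime c (s : ℤ))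
    (hm : ∀ q : ℕ, q.Prime → q ∣ m → q ∣ s) : IsCoprime c (m : ℤ) := by
  rw [Int.isCoprime_iff_gcd_eq_one] at h ⊢
  by_contra hne
  obtain ⟨q, hq, hd⟩ := Nat.exists_prime_and_dvd hne
  have h1 : q ∣ c.natAbs := hd.trans (Nat.gcd_dvd_left _ _)
  have h2 : q ∣ m := hd.trans (Nat.gcd_dvd_right _ _)
  have h3 : q ∣ Int.gcd c (s : ℤ) := Nat.dvd_gcd h1 (hm q hq h2)
  rw [h] at h3
  exact hq.one_lt.ne' (Nat.dvd_one.1 h3)

end Ball

/-- If for each prime `p ∣ n` every `1 + s z` is modulo `s p` an integer times a unit, then the same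
holds at all levels `s m`, `m` composed of primes of `n`. -/
theorem fill_all {R : Type*} [CommRing R] (s n : ℕ) (h4 : 2 ∣ n → 4 ∣ s)
    (hf : ∀ p : ℕ, p.Prime → p ∣ n → p ∣ s ∧ ∀ z : R, TT ((s * p : ℕ) : ℤ) (1 + (s : R) * z))
    (m : ℕ) (hm : m ≠ 0) (hmn : ∀ q : ℕ, q.Prime → q ∣ m → q ∣ n) (p : ℕ) (hp : p.Prime)
    (hpn : p ∣ n) (z : R) :
    TT ((s * m * p : ℕ) : ℤ) (1 + ((s * m : ℕ) : R) * z) := by
  induction m using induction_on_primes generalizing z with
  | zero => exact absurd rfl hm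
  | one =>
    have := (hf p hp hpn).2 z
    rw [mul_one]
    exact this
  | prime_mul q m hq ih =>
    have hm0 : m ≠ 0 := right_ne_zero_of_mul hm
    have hqn : q ∣ n := hmn q hq (Dvd.intro _ rfl)
    obtain ⟨u, c, w, hx⟩ := ih hm0 (fun q' hq' hd => hmn q' hq' (Dvd.dvd.mul_left hd q)) z
    have hps : p ∣ s := (hf p hp hpn).1
    have hqs : q ∣ s := (hf q hq hqn).1
    obtain ⟨a, ha⟩ := Ball.dvdA hp hq hps hqs (fun h => h4 (h ▸ hqn))
    obtain ⟨b, hb⟩ : q * p ∣ s * s := mul_dvd_mul hqs hps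
    obtain ⟨k, rfl⟩ : ∃ k, q = k + 2 := ⟨q - 2, by have := hq.two_le; omega⟩
    obtain ⟨t1, ht1⟩ := Ball.pow_expand (1 : R) (((s * m : ℕ) : R) * z) k
    obtain ⟨t2, ht2⟩ := Ball.pow_expand ((c : R) * (u : R)) ((((s * m * p : ℕ) : ℤ) : R) * w) k
    rw [← hx, ht1] at ht2
    have ha' : (((k + 2).choose 2 : ℕ) : R) * (s : R) = ((k + 2 : ℕ) : R) * (p : R) * (a : R) := by
      have := congrArg (fun x : ℕ => (x : R)) ha
      push_cast at this
      push_cast
      exact this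
    have hb' : (s : R) * (s : R) = ((k + 2 : ℕ) : R) * (p : R) * (b : R) := by
      have := congrArg (fun x : ℕ => (x : R)) hb
      push_cast at this
      push_cast
      exact this
    refine ⟨u ^ (k + 2), c ^ (k + 2), ((c : R) * u) ^ (k + 1) * w +
      (a : R) * m * (p : R) ^ 2 * w ^ 2 * ((c : R) * u) ^ k + (b : R) * (m : R) ^ 2 * (p : R) ^ 3 *
        w ^ 3 * t2 - (a : R) * m * z ^ 2 - (b : R) * (m : R) ^ 2 * z ^ 3 * t1, ?_⟩
    rw [Units.val_pow_eq_pow_val]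
    set Q : R := ((k + 2 : ℕ) : R) with hQ
    set Ch : R := (((k + 2).choose 2 : ℕ) : R) with hCh
    have e1 : (((s * ((k + 2) * m) : ℕ) : ℕ) : R) = (s : R) * (Q * (m : R)) := by
      rw [hQ]; push_cast; ring
    have e2 : ((((s * ((k + 2) * m) * p : ℕ) : ℤ)) : R) = (s : R) * (Q * (m : R)) * (p : R) := by
      rw [hQ]; push_cast; ring
    have e3 : ((s * m : ℕ) : R) = (s : R) * (m : R) := by push_cast; ring
    have e4 : (((s * m * p : ℕ) : ℤ) : R) = (s : R) * (m : R) * (p : R) := by push_cast; ring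
    rw [e1, e2, Int.cast_pow, ← mul_pow]
    rw [e3, e4] at ht2
    simp only [one_pow, mul_one] at ht2
    linear_combination ht2 - (s : R) * (m : R) ^ 2 * z ^ 2 * ha' -
      (s : R) * (m : R) ^ 3 * z ^ 3 * t1 * hb' +
      (s : R) * (m : R) ^ 2 * (p : R) ^ 2 * w ^ 2 * ((c : R) * u) ^ k * ha' +
      (s : R) * (m : R) ^ 3 * (p : R) ^ 3 * w ^ 3 * t2 * hb'

/-- Under the same hypothesis every `1 + s z` is modulo `s m` an integer times a unit. -/
theorem fill_ball {R : Type*} [CommRing R] (hR : ∀ q : ℤ, IsUnit (q : R) → IsUnit q)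
    (s n : ℕ) (h4 : 2 ∣ n → 4 ∣ s)
    (hf : ∀ p : ℕ, p.Prime → p ∣ n → p ∣ s ∧ ∀ z : R, TT ((s * p : ℕ) : ℤ) (1 + (s : R) * z))
    (m : ℕ) (hm : m ≠ 0) (hmn : ∀ q : ℕ, q.Prime → q ∣ m → q ∣ n) (z : R) :
    TT ((s * m : ℕ) : ℤ) (1 + (s : R) * z) := by
  induction m using induction_on_primes with
  | zero => exact absurd rfl hm
  | one => exact ⟨1, 1, z, by push_cast; simp⟩
  | prime_mul q m hq ih =>
    have hm0 : m ≠ 0 := right_ne_zero_of_mul hm
    have hqn : q ∣ n := hmn q hq (Dvd.intro _ rfl)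
    have hmn' : ∀ q' : ℕ, q'.Prime → q' ∣ m → q' ∣ n :=
      fun q' hq' hd => hmn q' hq' (Dvd.dvd.mul_left hd q)
    obtain ⟨u, c, w, hx⟩ := ih hm0 hmn'
    have hcs : IsCoprime c (s : ℤ) := by
      refine coprime_of_unit hR c s (1 : R) ((m : R) * w - z) isUnit_one ⟨(u : R), ?_⟩
      push_cast at hx ⊢
      linear_combination hx
    have hcm : IsCoprime c (m : ℤ) :=
      Ball.cop hcs fun q' hq' hd => (hf q' hq' (hmn' q' hq' hd)).1
    have hcq : IsCoprime c (q : ℤ) := Ball.cop hcs fun q' hq' hd => by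
      rw [(Nat.prime_dvd_prime_iff_eq hq' hq).1 hd]
      exact (hf q hq hqn).1
    obtain ⟨cb, e, hce⟩ : IsCoprime c ((s : ℤ) * m * q) := (hcs.mul_right hcm).mul_right hcq
    have hce' : (cb : R) * (c : R) + (e : R) * ((s : R) * (m : R) * (q : R)) = 1 := by
      have := congrArg (fun z : ℤ => (z : R)) hce
      push_cast at this
      exact this
    obtain ⟨u', c', w', hx'⟩ := fill_all s n h4 hf m hm0 hmn' q hq hqn
      ((cb : R) * ((u⁻¹ : Rˣ) : R) * w - (e : R) * (q : R))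
    have huu : (u : R) * ((u⁻¹ : Rˣ) : R) = 1 := Units.mul_inv u
    refine ⟨u * u', c * c', (c : R) * (u : R) * w' + (e : R) * (1 + (s : R) * z), ?_⟩
    push_cast at hx hx' ⊢
    have h6 : 1 + (s : R) * (m : R) * ((cb : R) * ((u⁻¹ : Rˣ) : R) * w - (e : R) * (q : R)) =
        (cb : R) * ((u⁻¹ : Rˣ) : R) * (1 + (s : R) * z) := by
      rw [hx]
      linear_combination (-1 : R) * hce' - (cb : R) * (c : R) * huu
    have h7 : (1 + (s : R) * z) = (c : R) * (u : R) *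
        ((cb : R) * ((u⁻¹ : Rˣ) : R) * (1 + (s : R) * z)) +
        (e : R) * ((s : R) * (m : R) * (q : R)) * (1 + (s : R) * z) := by
      linear_combination (-(1 + (s : R) * z)) * hce' -
        (cb : R) * (c : R) * (1 + (s : R) * z) * huu
    rw [← h6, hx'] at h7
    linear_combination h7

end Pool.Agent.MP_ca7d12_nt
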