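import Pool.Agent.Lib.MP_ca7d12_nt.H.Defs

set_option autoImplicit false

namespace Pool.Agent.MP_ca7d12_nt

open NumberField

private theorem build_one_add_pow {R : Type*} [CommRing R] (x : R) (b : ℕ) :
    ∃ r : R, (1 + x) ^ b = 1 + b * x + x ^ 2 * r := by
  induction b with
  | zero => exact ⟨0, by simp⟩
  | succ b ih =>
    obtain ⟨r, hr⟩ := ih
    refine ⟨b + r + x * r, ?_⟩
    rw [pow_succ, hr]
    push_cast
    ring

private theorem build_inv {p : ℕ} (hp : p.Prime) {a a' : ℕ} (ha : a < p) (ha' : a' < p)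
    (hne : a ≠ a') : ∃ (b : ℕ) (m : ℤ), (b : ℤ) * ((a : ℤ) - a') = 1 + p * m := by
  have hcop : IsCoprime ((a : ℤ) - a') (p : ℤ) := by
    refine ((Nat.prime_iff_prime_int.1 hp).coprime_iff_not_dvd.2 ?_).symm
    intro hd
    have h1 : (a : ℤ) - a' ≠ 0 := by omega
    have h2 := Int.le_of_dvd (abs_pos.2 h1) ((dvd_abs _ _).2 hd)
    have h3 : |(a : ℤ) - a'| < p := by
      rw [abs_lt]
      constructor <;> omega
    omega
  obtain ⟨s, t, hst⟩ := hcop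
  have hp0 : (0 : ℤ) < p := by exact_mod_cast hp.pos
  refine ⟨(s % p).toNat, -t - (s / p) * ((a : ℤ) - a'), ?_⟩
  rw [Int.toNat_of_nonneg (Int.emod_nonneg _ hp0.ne')]
  have h4 : s % p = s - p * (s / p) := by
    have := Int.emod_add_mul_ediv s p
    linarith
  rw [h4]
  linear_combination hst

private theorem build_key {R : Type*} [CommRing R] [IsDomain R] {p : ℕ} (hp : p.Prime)
    (hp0 : (p : R) ≠ 0) (k : ℕ) (ζ : R)
    (hζ : ∀ (u : Rˣ) (c : ℤ) (w : R),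
      1 + (p : R) ^ (k + 1) * ζ ≠ (c : R) * (u : R) + (p : R) ^ (k + 1) * (p : R) * w)
    (z : R) {a a' : ℕ} (ha : a < p) (ha' : a' < p) (u : Rˣ) (c : ℤ) (v : R)
    (h : (1 + (p : R) * z) + (a : R) * ((p : R) ^ (k + 1) * ζ) =
      (c : R) * ((u : R) * ((1 + (p : R) * z) + (a' : R) * ((p : R) ^ (k + 1) * ζ))) +
        (p : R) ^ (k + 2) * v) : a = a' := by
  by_contra hne
  have h1 : (p : R) ^ (k + 1) ∣ (1 + (p : R) * z) * (1 - (c : R) * (u : R)) :=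
    ⟨(c : R) * (u : R) * (a' : R) * ζ - (a : R) * ζ + (p : R) * v, by
      linear_combination h⟩
  have hcop : IsCoprime ((p : R) ^ (k + 1)) (1 + (p : R) * z) :=
    IsCoprime.pow_left ⟨-z, 1, by ring⟩
  obtain ⟨V, hV⟩ := hcop.dvd_of_dvd_mul_left h1
  have h2 : (1 + (p : R) * z) * V =
      (c : R) * (u : R) * (a' : R) * ζ - (a : R) * ζ + (p : R) * v := by
    apply mul_left_cancel₀ (pow_ne_zero (k + 1) hp0)
    linear_combination h - (1 + (p : R) * z) * hV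
  obtain ⟨b, m, hb⟩ := build_inv hp ha ha' hne
  obtain ⟨Y, hY⟩ : ∃ Y : R, Y = -((p : R) ^ k * V * (a' : R) * ζ) + v - z * V := ⟨_, rfl⟩
  have h3 : V = ((a' : R) - (a : R)) * ζ + (p : R) * Y := by
    rw [hY]
    linear_combination h2 - (a' : R) * ζ * hV
  have h4 : (c : R) * (u : R) =
      1 + (p : R) ^ (k + 1) * (((a : R) - (a' : R)) * ζ - (p : R) * Y) := by
    linear_combination -hV + -(p : R) ^ (k + 1) * h3
  obtain ⟨t, ht⟩ : ∃ t : R, t = ((a : R) - (a' : R)) * ζ - (p : R) * Y := ⟨_, rfl⟩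
  rw [← ht] at h4
  obtain ⟨r, hr⟩ := build_one_add_pow ((p : R) ^ (k + 1) * t) b
  have hb' : (b : R) * ((a : R) - (a' : R)) = 1 + (p : R) * (m : R) := by
    have := congrArg (Int.cast : ℤ → R) hb
    push_cast at this
    exact this
  refine hζ (u ^ b) (c ^ b) (-((m : R) * ζ - (b : R) * Y + (p : R) ^ k * t ^ 2 * r)) ?_
  have h5 : ((c ^ b : ℤ) : R) * ((u ^ b : Rˣ) : R) = ((c : R) * (u : R)) ^ b := by
    push_cast
    rw [mul_pow]
  rw [h5, h4, hr]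
  have h6 : (b : R) * t = ζ + (p : R) * (m : R) * ζ - (b : R) * (p : R) * Y := by
    rw [ht]
    linear_combination ζ * hb'
  linear_combination -(p : R) ^ (k + 1) * h6

private theorem build_aux (K : Type*) [Field K] [NumberField K] (p : ℕ) (hp : p.Prime) (k : ℕ)
    (h : ∀ j : ℕ, 1 ≤ j → j < k + 1 → ¬ UnitsFill K (p ^ j) p) :
    ∃ H : Finset (𝓞 K), H.card = p ^ k ∧ (∀ γ ∈ H, ∃ z : 𝓞 K, γ = 1 + (p : 𝓞 K) * z) ∧
      ∀ γ ∈ H, ∀ γ' ∈ H, ∀ (u : (𝓞 K)ˣ) (c : ℤ) (v : 𝓞 K),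
        γ = (c : 𝓞 K) * ((u : 𝓞 K) * γ') + (p : 𝓞 K) ^ (k + 1) * v → γ = γ' := by
  classical
  induction k with
  | zero =>
    refine ⟨{1}, by simp, ?_, ?_⟩
    · intro γ hγ
      rw [Finset.mem_singleton] at hγ
      exact ⟨0, by rw [hγ, mul_zero, add_zero]⟩
    · intro γ hγ γ' hγ' _ _ _ _
      rw [Finset.mem_singleton] at hγ hγ'
      rw [hγ, hγ']
  | succ k ih =>
    obtain ⟨H, hcard, hone, hin⟩ := ih fun j h1 h2 => h j h1 (by omega)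
    have hp0 : (p : 𝓞 K) ≠ 0 := by exact_mod_cast hp.ne_zero
    obtain ⟨ζ, hζ⟩ : ∃ ζ : 𝓞 K, ∀ (u : (𝓞 K)ˣ) (c : ℤ) (w : 𝓞 K),
        1 + (p : 𝓞 K) ^ (k + 1) * ζ ≠
          (c : 𝓞 K) * (u : 𝓞 K) + (p : 𝓞 K) ^ (k + 1) * (p : 𝓞 K) * w := by
      by_contra hcon
      push Not at hcon
      refine h (k + 1) (by omega) (by omega) fun q hq hqp => ?_
      obtain rfl : q = p := (Nat.prime_dvd_prime_iff_eq hq hp).1 hqp
      refine ⟨dvd_pow_self q (Nat.succ_ne_zero k), fun z => ?_⟩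
      obtain ⟨u, c, w, hw⟩ := hcon z
      refine ⟨u, c, w, ?_⟩
      push_cast
      exact hw
    have key : ∀ γ ∈ H, ∀ γ' ∈ H, ∀ a < p, ∀ a' < p, ∀ (u : (𝓞 K)ˣ) (c : ℤ) (v : 𝓞 K),
        γ + (a : 𝓞 K) * ((p : 𝓞 K) ^ (k + 1) * ζ) =
          (c : 𝓞 K) * ((u : 𝓞 K) * (γ' + (a' : 𝓞 K) * ((p : 𝓞 K) ^ (k + 1) * ζ))) +
            (p : 𝓞 K) ^ (k + 2) * v → γ = γ' ∧ a = a' := by
      intro γ hγ γ' hγ' a ha a' ha' u c v hv
      have hγγ : γ = γ' := by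
        refine hin γ hγ γ' hγ' u c ((c : 𝓞 K) * (u : 𝓞 K) * (a' : 𝓞 K) * ζ - (a : 𝓞 K) * ζ +
          (p : 𝓞 K) * v) ?_
        linear_combination hv
      refine ⟨hγγ, ?_⟩
      subst hγγ
      obtain ⟨z, rfl⟩ := hone γ hγ
      exact build_key hp hp0 k ζ hζ z ha ha' u c v hv
    refine ⟨(H ×ˢ Finset.range p).image fun x => x.1 + (x.2 : 𝓞 K) * ((p : 𝓞 K) ^ (k + 1) * ζ),
      ?_, ?_, ?_⟩
    · rw [Finset.card_image_of_injOn, Finset.card_product, hcard, Finset.card_range, pow_succ]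
      rintro ⟨γ, a⟩ hx ⟨γ', a'⟩ hx' hxx
      rw [Finset.mem_coe, Finset.mem_product, Finset.mem_range] at hx hx'
      have h3 := key γ hx.1 γ' hx'.1 a hx.2 a' hx'.2 1 1 0 (by
        simp only [Int.cast_one, Units.val_one, one_mul, mul_zero, add_zero]
        exact hxx)
      exact Prod.ext h3.1 h3.2
    · intro γ hγ
      rw [Finset.mem_image] at hγ
      obtain ⟨⟨γ0, a⟩, hx, rfl⟩ := hγ
      rw [Finset.mem_product] at hx
      obtain ⟨z, hz⟩ := hone γ0 hx.1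
      refine ⟨z + (a : 𝓞 K) * ((p : 𝓞 K) ^ k * ζ), ?_⟩
      change γ0 + (a : 𝓞 K) * ((p : 𝓞 K) ^ (k + 1) * ζ) = _
      rw [hz]
      ring
    · intro γ hγ γ' hγ' u c v hv
      rw [Finset.mem_image] at hγ hγ'
      obtain ⟨⟨γ0, a⟩, hx, rfl⟩ := hγ
      obtain ⟨⟨γ0', a'⟩, hx', rfl⟩ := hγ'
      rw [Finset.mem_product, Finset.mem_range] at hx hx'
      have h3 := key γ0 hx.1 γ0' hx'.1 a hx.2 a' hx'.2 u c v hv
      change γ0 + (a : 𝓞 K) * ((p : 𝓞 K) ^ (k + 1) * ζ) =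
        γ0' + (a' : 𝓞 K) * ((p : 𝓞 K) ^ (k + 1) * ζ)
      rw [h3.1, h3.2]

/-- If the levels `p, p ^ 2, …, p ^ (w - 1)` are not filled then there are `p ^ (w - 1)` elements
`≡ 1 (mod p)` which are inequivalent modulo `p ^ w`, integers and units. -/
theorem exists_inequiv (K : Type*) [Field K] [NumberField K] (p : ℕ) (hp : p.Prime) (w : ℕ)
    (h : ∀ j : ℕ, 1 ≤ j → j < w → ¬ UnitsFill K (p ^ j) p) :
    ∃ H : Finset (𝓞 K), H.card = p ^ (w - 1) ∧ (∀ γ ∈ H, ∃ z : 𝓞 K, γ = 1 + (p : 𝓞 K) * z) ∧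
      ∀ γ ∈ H, ∀ γ' ∈ H, ∀ (u : (𝓞 K)ˣ) (c : ℤ) (v : 𝓞 K),
        γ = (c : 𝓞 K) * ((u : 𝓞 K) * γ') + ((p ^ w : ℕ) : 𝓞 K) * v → γ = γ' := by
  cases w with
  | zero =>
    refine ⟨{1}, by simp, ?_, ?_⟩
    · intro γ hγ
      rw [Finset.mem_singleton] at hγ
      exact ⟨0, by rw [hγ, mul_zero, add_zero]⟩
    · intro γ hγ γ' hγ' _ _ _ _
      rw [Finset.mem_singleton] at hγ hγ'
      rw [hγ, hγ']
  | succ k =>
    obtain ⟨H, hcard, hone, hin⟩ := build_aux K p hp k h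
    refine ⟨H, by rw [hcard, Nat.add_sub_cancel], hone, fun γ hγ γ' hγ' u c v hv => ?_⟩
    refine hin γ hγ γ' hγ' u c v ?_
    push_cast at hv
    exact hv

end Pool.Agent.MP_ca7d12_nt
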