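import Pool.Agent.Lib.MP_ca7d12_nt.H.CardUnitsA

set_option autoImplicit false

namespace Pool.Agent.MP_ca7d12_nt

open NumberField

private theorem card_units_mul {R : Type*} [CommRing R] {a b : ℕ} (hab : a.Coprime b) :
    Nat.card (R ⧸ Ideal.span {((a * b : ℕ) : R)})ˣ =
      Nat.card (R ⧸ Ideal.span {(a : R)})ˣ * Nat.card (R ⧸ Ideal.span {(b : R)})ˣ := by
  have h1 : Ideal.span {((a * b : ℕ) : R)} = Ideal.span {(a : R)} * Ideal.span {(b : R)} := by
    rw [Ideal.span_singleton_mul_span_singleton]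
    push_cast
    rfl
  have hcop : IsCoprime (Ideal.span {(a : R)}) (Ideal.span {(b : R)}) := by
    rw [Ideal.isCoprime_span_singleton_iff]
    exact_mod_cast (Nat.isCoprime_iff_coprime.2 hab).intCast
  rw [h1, ← Nat.card_prod]
  exact Nat.card_congr
    ((Units.mapEquiv (Ideal.quotientMulEquivQuotientProd _ _ hcop).toMulEquiv).trans
      MulEquiv.prodUnits).toEquiv

/-- The number of invertible classes modulo `n` is at least `n ^ 3 / 16 ^ ω(n)`. -/
theorem card_units_quot (K : Type*) [Field K] [NumberField K] (hK : Module.finrank ℚ K = 3)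
    (n : ℕ) (hn : n ≠ 0) :
    n ^ 3 ≤ Nat.card (𝓞 K ⧸ Ideal.span {(n : 𝓞 K)})ˣ * 16 ^ n.primeFactors.card := by
  induction n using Nat.recOnPosPrimePosCoprime with
  | zero => exact absurd rfl hn
  | one =>
    have h1 : Ideal.span {((1 : ℕ) : 𝓞 K)} = ⊤ := by
      rw [Nat.cast_one, Ideal.span_singleton_one]
    have h2 : 0 < Nat.card (𝓞 K ⧸ Ideal.span {((1 : ℕ) : 𝓞 K)})ˣ := by
      rw [h1]
      have h3 : Subsingleton (𝓞 K ⧸ (⊤ : Ideal (𝓞 K))) := Ideal.Quotient.subsingleton_iff.2 rfl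
      exact Nat.card_pos
    rw [Nat.primeFactors_one, Finset.card_empty, pow_zero, mul_one, one_pow]
    exact h2
  | prime_pow p k hp hk =>
    rw [Nat.primeFactors_prime_pow hk.ne' hp, Finset.card_singleton, pow_one]
    exact card_units_prime_pow K hK p k hp hk
  | coprime a b ha hb hab iha ihb =>
    have h1 := iha (by omega)
    have h2 := ihb (by omega)
    rw [card_units_mul hab, hab.primeFactors_mul,
      Finset.card_union_of_disjoint hab.disjoint_primeFactors, pow_add, mul_pow]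
    calc a ^ 3 * b ^ 3 ≤ (Nat.card (𝓞 K ⧸ Ideal.span {(a : 𝓞 K)})ˣ * 16 ^ a.primeFactors.card) *
          (Nat.card (𝓞 K ⧸ Ideal.span {(b : 𝓞 K)})ˣ * 16 ^ b.primeFactors.card) :=
          Nat.mul_le_mul h1 h2
      _ = _ := by ring

end Pool.Agent.MP_ca7d12_nt
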