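import Pool.Agent.Lib.MP_ca7d12_nt.G.OddA

set_option autoImplicit false

namespace Pool.Agent.MP_ca7d12_nt

open NumberField

private theorem cuA_card (K : Type*) [Field K] [NumberField K] (hK : Module.finrank ℚ K = 3)
    (n : ℕ) : Nat.card (𝓞 K ⧸ Ideal.span {((n : ℕ) : 𝓞 K)}) = n ^ 3 := by
  have hd : Module.finrank ℤ (𝓞 K) = 3 := by
    rw [RingOfIntegers.rank, hK]
  have h1 : Algebra.norm ℤ ((n : ℕ) : 𝓞 K) = (n : ℤ) ^ 3 := by
    have h2 := Algebra.norm_algebraMap (R := ℤ) (S := 𝓞 K) (n : ℤ)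
    rw [← hd, ← h2]
    congr 1
    simp
  rw [← Submodule.cardQuot_apply, ← Ideal.absNorm_apply, Ideal.absNorm_span_singleton, h1]
  exact_mod_cast Int.natAbs_natCast (n ^ 3)

private theorem cuA_lift {A : Type*} [CommRing A] (q : A) (k : ℕ) (a : A)
    (h : IsUnit (Ideal.Quotient.mk (Ideal.span {q}) a)) :
    IsUnit (Ideal.Quotient.mk (Ideal.span {q ^ k}) a) := by
  obtain ⟨b, hb⟩ := h.exists_right_inv
  obtain ⟨b, rfl⟩ := Ideal.Quotient.mk_surjective b
  rw [← map_mul, ← map_one (Ideal.Quotient.mk (Ideal.span {q})), Ideal.Quotient.eq,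
    Ideal.mem_span_singleton] at hb
  obtain ⟨c, hc⟩ := hb
  have h1 : IsCoprime a q := ⟨b, -c, by linear_combination hc⟩
  obtain ⟨u, v, huv⟩ := h1.pow_right (n := k)
  refine IsUnit.of_mul_eq_one (Ideal.Quotient.mk _ u) ?_
  rw [← map_mul, ← map_one (Ideal.Quotient.mk (Ideal.span {q ^ k})), Ideal.Quotient.eq,
    Ideal.mem_span_singleton]
  exact ⟨-v, by linear_combination huv⟩

private theorem cuA_mul {R R1 : Type*} [CommRing R] [CommRing R1] [Finite R] (φ : R →+* R1)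
    (hs : Function.Surjective φ) (hu : ∀ x, IsUnit (φ x) → IsUnit x) :
    ∃ c : ℕ, Nat.card R = c * Nat.card R1 ∧ c * Nat.card R1ˣ ≤ Nat.card Rˣ := by
  classical
  refine ⟨Nat.card φ.toAddMonoidHom.ker, ?_, ?_⟩
  · rw [AddSubgroup.card_eq_card_quotient_mul_card_addSubgroup φ.toAddMonoidHom.ker, mul_comm]
    congr 1
    exact Nat.card_congr (QuotientAddGroup.quotientKerEquivOfSurjective φ.toAddMonoidHom hs).toEquiv
  · rw [← Nat.card_prod]
    have hz : ∀ z : φ.toAddMonoidHom.ker, φ z = 0 := fun z => z.2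
    have hv : ∀ q : φ.toAddMonoidHom.ker × R1ˣ,
        φ (Function.surjInv hs (q.2 : R1) + (q.1 : R)) = q.2 := by
      intro q
      rw [map_add, Function.surjInv_eq hs, hz, add_zero]
    refine Nat.card_le_card_of_injective
      (fun q : φ.toAddMonoidHom.ker × R1ˣ =>
        (hu (Function.surjInv hs (q.2 : R1) + (q.1 : R)) (by rw [hv]; exact q.2.isUnit)).unit) ?_
    intro q q' h
    have h1 : Function.surjInv hs (q.2 : R1) + (q.1 : R) =
        Function.surjInv hs (q'.2 : R1) + (q'.1 : R) := by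
      have := congrArg (Units.val) h
      simpa using this
    have h2 : q.2 = q'.2 := by
      apply Units.ext
      rw [← hv q, ← hv q', h1]
    have h3 : q.1 = q'.1 := by
      apply Subtype.ext
      rw [h2] at h1
      exact add_left_cancel h1
    exact Prod.ext h3 h2

private theorem cuA_units {R1 : Type*} [CommRing R1] [Finite R1] :
    {x : R1 | IsUnit x}.ncard ≤ Nat.card R1ˣ := by
  rw [← Nat.card_coe_set_eq]
  refine Nat.card_le_card_of_injective (fun x : {x : R1 | IsUnit x} => x.2.unit) ?_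
  intro x y h
  apply Subtype.ext
  have := congrArg Units.val h
  simpa using this

private theorem cuA_ideal {R1 : Type*} [CommRing R1] [Finite R1] (p : ℕ) (hp : p.Prime)
    (hc : Nat.card R1 = p ^ 3) (I : Ideal R1) (hI : I ≠ ⊤) : (I : Set R1).ncard ≤ p ^ 2 := by
  have h1 : Nat.card I.toAddSubgroup ∣ p ^ 3 := by
    rw [← hc]
    exact AddSubgroup.card_addSubgroup_dvd_card _
  obtain ⟨j, hj, hj'⟩ := (Nat.dvd_prime_pow hp).1 h1
  have h2 : j ≠ 3 := by
    intro h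
    apply hI
    rw [h, ← hc] at hj'
    have h3 : I.toAddSubgroup = ⊤ := AddSubgroup.eq_top_of_card_eq _ hj'
    rw [Ideal.eq_top_iff_one]
    have h4 : (1 : R1) ∈ I.toAddSubgroup := by
      rw [h3]
      exact AddSubgroup.mem_top _
    exact h4
  have h5 : (I : Set R1).ncard = Nat.card I.toAddSubgroup := by
    rw [← Nat.card_coe_set_eq]
    rfl
  rw [h5, hj']
  exact Nat.pow_le_pow_right hp.pos (by omega)

private theorem cuA_big (K : Type*) [Field K] [NumberField K] (hK : Module.finrank ℚ K = 3)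
    (p : ℕ) (hp : p.Prime) (hf : Finite (𝓞 K ⧸ Ideal.span {((p : ℕ) : 𝓞 K)})) :
    p ^ 3 ≤ Nat.card (𝓞 K ⧸ Ideal.span {((p : ℕ) : 𝓞 K)})ˣ + 3 * p ^ 2 := by
  classical
  obtain ⟨T, hT3, hT⟩ := card_primes_le K hK p hp
  have hc := cuA_card K hK p
  set mk := Ideal.Quotient.mk (Ideal.span {((p : ℕ) : 𝓞 K)}) with hmk
  have hsub : {x : 𝓞 K ⧸ Ideal.span {((p : ℕ) : 𝓞 K)} | IsUnit x}ᶜ ⊆
      ⋃ Q ∈ T.filter (fun Q => Q.map mk ≠ ⊤), ((Q.map mk : Ideal _) : Set _) := by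
    intro x hx
    obtain ⟨I, hI, hxI⟩ := exists_max_ideal_of_mem_nonunits (a := x) hx
    have h1 : (I.comap mk).IsPrime := by
      have := hI.isPrime
      exact Ideal.comap_isPrime mk I
    have h2 : ((p : ℕ) : 𝓞 K) ∈ I.comap mk := by
      rw [Ideal.mem_comap]
      have : mk ((p : ℕ) : 𝓞 K) = 0 := by
        rw [hmk, Ideal.Quotient.eq_zero_iff_mem]
        exact Ideal.mem_span_singleton_self _
      rw [this]
      exact I.zero_mem
    have h3 : (I.comap mk).map mk = I :=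
      Ideal.map_comap_of_surjective mk Ideal.Quotient.mk_surjective I
    simp only [Set.mem_iUnion, Finset.mem_filter]
    refine ⟨I.comap mk, ⟨(hT _).1 ⟨h1, h2⟩, ?_⟩, ?_⟩
    · rw [h3]
      exact hI.ne_top
    · rw [h3]
      exact hxI
  have h1 : ({x : 𝓞 K ⧸ Ideal.span {((p : ℕ) : 𝓞 K)} | IsUnit x}ᶜ).ncard ≤ 3 * p ^ 2 := by
    refine le_trans (Set.ncard_le_ncard hsub (Set.toFinite _)) ?_
    refine le_trans (Finset.set_ncard_biUnion_le _ _) ?_
    refine le_trans (Finset.sum_le_card_nsmul _ _ (p ^ 2) ?_) ?_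
    · intro Q hQ
      exact cuA_ideal p hp hc _ (Finset.mem_filter.1 hQ).2
    · rw [smul_eq_mul]
      exact Nat.mul_le_mul_right _ (le_trans (Finset.card_filter_le _ _) hT3)
  have h2 := Set.ncard_add_ncard_compl
    {x : 𝓞 K ⧸ Ideal.span {((p : ℕ) : 𝓞 K)} | IsUnit x}
  have h3 := cuA_units (R1 := 𝓞 K ⧸ Ideal.span {((p : ℕ) : 𝓞 K)})
  rw [hc] at h2
  omega

private theorem cuA_base (K : Type*) [Field K] [NumberField K] (hK : Module.finrank ℚ K = 3)
    (p : ℕ) (hp : p.Prime) (hf : Finite (𝓞 K ⧸ Ideal.span {((p : ℕ) : 𝓞 K)})) :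
    p ^ 3 ≤ Nat.card (𝓞 K ⧸ Ideal.span {((p : ℕ) : 𝓞 K)})ˣ * 16 := by
  have hc := cuA_card K hK p
  have hpos : 1 ≤ Nat.card (𝓞 K ⧸ Ideal.span {((p : ℕ) : 𝓞 K)})ˣ := Nat.card_pos
  rcases Nat.lt_or_ge p 5 with h5 | h5
  · rcases Nat.lt_or_ge p 3 with h3 | h3
    · have : p = 2 := le_antisymm (by omega) hp.two_le
      subst this
      omega
    · have h4 : p = 3 := by
        rcases (by omega : p = 3 ∨ p = 4) with h | h
        · exact h
        · exfalso
          rw [h] at hp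
          revert hp
          decide
      have h6 : 2 ≤ Nat.card (𝓞 K ⧸ Ideal.span {((p : ℕ) : 𝓞 K)})ˣ := by
        rw [Nat.succ_le_iff, Finite.one_lt_card_iff_nontrivial]
        refine ⟨1, -1, ?_⟩
        intro h
        have h7 : (1 : 𝓞 K ⧸ Ideal.span {((p : ℕ) : 𝓞 K)}) = -1 := by
          have := congrArg Units.val h
          simpa using this
        have h8 : (2 : 𝓞 K ⧸ Ideal.span {((p : ℕ) : 𝓞 K)}) = 0 := by
          linear_combination h7
        have h9 : ((p : ℕ) : 𝓞 K ⧸ Ideal.span {((p : ℕ) : 𝓞 K)}) = 0 := by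
          have : Ideal.Quotient.mk (Ideal.span {((p : ℕ) : 𝓞 K)}) ((p : ℕ) : 𝓞 K) = 0 := by
            rw [Ideal.Quotient.eq_zero_iff_mem]
            exact Ideal.mem_span_singleton_self _
          rwa [map_natCast] at this
        have h10 : (1 : 𝓞 K ⧸ Ideal.span {((p : ℕ) : 𝓞 K)}) = 0 := by
          rw [h4] at h9 h8 ⊢
          push_cast at h9
          linear_combination h9 - h8
        have h11 : Subsingleton (𝓞 K ⧸ Ideal.span {((p : ℕ) : 𝓞 K)}) :=
          subsingleton_of_zero_eq_one h10.symm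
        have h12 : Nat.card (𝓞 K ⧸ Ideal.span {((p : ℕ) : 𝓞 K)}) = 1 :=
          Nat.card_unique
        rw [hc, h4] at h12
        norm_num at h12
      rw [h4] at h6 ⊢
      omega
  · have h6 := cuA_big K hK p hp hf
    have h7 : 5 * p ^ 2 ≤ p ^ 3 := by
      rw [pow_succ p 2, mul_comm (p ^ 2) p]
      exact Nat.mul_le_mul_right _ h5
    omega

/-- The number of invertible classes modulo a power of `p` is at least `p ^ (3 k) / 16`. -/
theorem card_units_prime_pow (K : Type*) [Field K] [NumberField K] (hK : Module.finrank ℚ K = 3)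
    (p k : ℕ) (hp : p.Prime) (hk : 1 ≤ k) :
    (p ^ k) ^ 3 ≤ Nat.card (𝓞 K ⧸ Ideal.span {((p ^ k : ℕ) : 𝓞 K)})ˣ * 16 := by
  have hc1 := cuA_card K hK p
  have hc2 := cuA_card K hK (p ^ k)
  have hf1 : Finite (𝓞 K ⧸ Ideal.span {((p : ℕ) : 𝓞 K)}) := by
    apply Nat.finite_of_card_ne_zero
    rw [hc1]
    exact pow_ne_zero _ hp.ne_zero
  have hf2 : Finite (𝓞 K ⧸ Ideal.span {((p ^ k : ℕ) : 𝓞 K)}) := by
    apply Nat.finite_of_card_ne_zero
    rw [hc2]
    exact pow_ne_zero _ (pow_ne_zero _ hp.ne_zero)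
  have hle : Ideal.span {((p ^ k : ℕ) : 𝓞 K)} ≤ Ideal.span {((p : ℕ) : 𝓞 K)} := by
    rw [Ideal.span_singleton_le_span_singleton, Nat.cast_pow]
    exact dvd_pow_self _ (by omega)
  have hs : Function.Surjective (Ideal.Quotient.factor hle) := Ideal.Quotient.factor_surjective hle
  obtain ⟨c, h1, h2⟩ := cuA_mul (Ideal.Quotient.factor hle) hs (by
    intro x hx
    obtain ⟨a, rfl⟩ := Ideal.Quotient.mk_surjective x
    rw [Ideal.Quotient.factor_mk] at hx
    have h3 := cuA_lift ((p : ℕ) : 𝓞 K) k a hx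
    have h4 : (((p : ℕ) : 𝓞 K)) ^ k = ((p ^ k : ℕ) : 𝓞 K) := by rw [Nat.cast_pow]
    rw [h4] at h3
    exact h3)
  have h3 := cuA_base K hK p hp hf1
  rw [hc1, hc2] at h1
  calc (p ^ k) ^ 3 = c * p ^ 3 := h1
    _ ≤ c * (Nat.card (𝓞 K ⧸ Ideal.span {((p : ℕ) : 𝓞 K)})ˣ * 16) := Nat.mul_le_mul_left _ h3
    _ = (c * Nat.card (𝓞 K ⧸ Ideal.span {((p : ℕ) : 𝓞 K)})ˣ) * 16 := by ring
    _ ≤ _ := Nat.mul_le_mul_right _ h2

end Pool.Agent.MP_ca7d12_nt
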