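import Pool.Agent.Lib.MP_ca7d12_nt.H.Defs

set_option autoImplicit false

namespace Pool.Agent.MP_ca7d12_nt

open NumberField

/-- The number of ideals of norm at most `X` is `O(X)`. -/
theorem exists_card_ideals (K : Type*) [Field K] [NumberField K] :
    ∃ C : ℕ, ∀ X : ℕ, 1 ≤ X → ∀ T : Finset (Ideal (𝓞 K)),
      (∀ I ∈ T, I ≠ ⊥ ∧ Ideal.absNorm I ≤ X) → T.card ≤ C * X := by
  obtain ⟨B, hB⟩ := ((NumberField.Ideal.tendsto_norm_le_div_atTop K).comp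
    tendsto_natCast_atTop_atTop).bddAbove_range
  refine ⟨⌈B⌉₊, fun X hX T hT => ?_⟩
  have h1 := hB ⟨X, rfl⟩
  simp only [Function.comp] at h1
  have hX0 : (0 : ℝ) < X := by exact_mod_cast hX
  rw [div_le_iff₀ hX0] at h1
  have hfin : {I : Ideal (𝓞 K) | Ideal.absNorm I ≤ X}.Finite := Ideal.finite_setOf_absNorm_le X
  have h3 : (T : Set (Ideal (𝓞 K))) ⊆ {I | (Ideal.absNorm I : ℝ) ≤ (X : ℝ)} := by
    intro I hI
    have h := (hT I hI).2
    change (Ideal.absNorm I : ℝ) ≤ (X : ℝ)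
    exact_mod_cast h
  have h4 : {I : Ideal (𝓞 K) | (Ideal.absNorm I : ℝ) ≤ (X : ℝ)}.Finite := by
    simpa using hfin
  have h2 : (T.card : ℝ) ≤
      (Nat.card {I : Ideal (𝓞 K) // (Ideal.absNorm I : ℝ) ≤ (X : ℝ)} : ℝ) := by
    have h5 := Set.ncard_le_ncard h3 h4
    rw [Set.ncard_coe_finset] at h5
    have h6 : {I : Ideal (𝓞 K) | (Ideal.absNorm I : ℝ) ≤ (X : ℝ)}.ncard =
        Nat.card {I : Ideal (𝓞 K) // (Ideal.absNorm I : ℝ) ≤ (X : ℝ)} := rfl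
    rw [h6] at h5
    exact_mod_cast h5
  have h7 : (T.card : ℝ) ≤ (⌈B⌉₊ : ℝ) * X :=
    h2.trans (h1.trans (mul_le_mul_of_nonneg_right (Nat.le_ceil B) hX0.le))
  exact_mod_cast h7

end Pool.Agent.MP_ca7d12_nt
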