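import Pool.Agent.Lib.MP_ca7d12_nt.H.FinalC

set_option autoImplicit false

namespace Pool.Agent.MP_ca7d12_nt

open NumberField UnitsA

/-- A unit of exact level `p ^ a` and a filled level `p ^ w`, `a ≤ w ≤ 2 a`, give a covered subgroup of
index at most `p ^ (w + a)` modulo each `p ^ k`, `k ≥ w`. -/
theorem cover_of_unit_fill (K : Type*) [Field K] [NumberField K] (hK : Module.finrank ℚ K = 3)
    (p : ℕ) (hp : p.Prime) (w a k : ℕ) (hp2 : p = 2 → 2 ≤ w) (haw : a ≤ w) (hwa : w ≤ 2 * a)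
    (hw : 1 ≤ w)
    (hwk : w ≤ k) (h1 : HasUnit K (p ^ a) p) (h2 : UnitsFill K (p ^ w) p) :
    ∃ L : AddSubgroup (𝓞 K), L.index ≤ p ^ (w + a) ∧ UnitsCover K (p ^ k) L := by
  have hR : ∀ q : ℤ, IsUnit (q : 𝓞 K) → IsUnit q := isUnit_of_isUnit_intCast K
  obtain ⟨u, cs, v, hu, hprim⟩ := h1
  have hp0 : p ≠ 0 := hp.ne_zero
  have ha1 : 1 ≤ a := by omega
  set n : ℕ := p ^ w with hnd
  set s : ℕ := p ^ a with hsd
  set f : ℕ := p ^ (w - a) with hfd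
  have hn : n ≠ 0 := pow_ne_zero w hp0
  have hs0 : s ≠ 0 := pow_ne_zero a hp0
  have hf0 : f ≠ 0 := pow_ne_zero _ hp0
  have hsf : n = s * f := by rw [hnd, hsd, hfd, ← pow_add]; congr 1; omega
  have hns : n ∣ s ^ 2 := by
    rw [hnd, hsd, ← pow_mul]
    exact pow_dvd_pow p (by omega)
  have hnR : (n : 𝓞 K) = (s : 𝓞 K) * (f : 𝓞 K) := by rw [hsf]; push_cast; rfl
  have hprim' : ∀ q : ℕ, q.Prime → q ∣ f → ∀ (i : ℤ) (w : 𝓞 K), v ≠ (i : 𝓞 K) + (q : 𝓞 K) * w := by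
    intro q hq hqf
    exact hprim q hq (hq.dvd_of_dvd_pow hqf)
  have hind : ∀ x y : ℤ, (n : 𝓞 K) ∣ (x : 𝓞 K) + (s : 𝓞 K) * (y : 𝓞 K) * v →
      (n : ℤ) ∣ x ∧ (f : ℤ) ∣ y := by
    rintro x y ⟨w, hw⟩
    have h1 : ((s : ℤ) : 𝓞 K) * ((f : 𝓞 K) * w - (y : 𝓞 K) * v) = (x : 𝓞 K) := by
      rw [hnR] at hw
      push_cast
      linear_combination -hw
    obtain ⟨x', hx'⟩ := exists_int_of_mul_eq K _ (s : ℤ) x (by exact_mod_cast hs0) h1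
    rw [hx'] at h1
    have h2 : x = (s : ℤ) * x' := by
      have : (((s : ℤ) * x' : ℤ) : 𝓞 K) = (x : 𝓞 K) := by push_cast at h1 ⊢; exact h1
      exact_mod_cast this.symm
    have h3 : (f : 𝓞 K) ∣ (x' : 𝓞 K) + (y : 𝓞 K) * v := ⟨w, by linear_combination -hx'⟩
    obtain ⟨h4, h5⟩ := indepS hR v f hf0 hprim' x' y h3
    refine ⟨?_, h5⟩
    rw [h2, hsf]
    push_cast
    exact mul_dvd_mul_left _ h4
  have hgen : ∀ y ∈ (⊤ : Ideal (𝓞 K)), ∃ z : 𝓞 K, ∃ y' ∈ (⊤ : Ideal (𝓞 K)),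
      y = 1 * z + (n : 𝓞 K) * y' := fun y _ => ⟨y, 0, Submodule.mem_top, by ring⟩
  have hidx := (index_G K hK ⊤ (by simp) n s f hn hf0 1 v hgen hind).2
  rw [Ideal.absNorm_top, one_mul] at hidx
  have hkR : ((p ^ k : ℕ) : 𝓞 K) = (n : 𝓞 K) * ((p ^ (k - w) : ℕ) : 𝓞 K) := by
    rw [hnd, ← Nat.cast_mul, ← pow_add]
    congr 2
    omega
  refine ⟨LL K ⊤ n 1 v 1 s, ?_, ⟨1, 0, 0, Submodule.mem_top, by push_cast; ring⟩,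
    fun z => ⟨0, 0, ((p ^ (k - w) : ℕ) : 𝓞 K) * z, Submodule.mem_top, by
      rw [hkR]; push_cast; ring⟩, ?_⟩
  · have h3 : n ^ 2 = p ^ (w + a) * f := by
      rw [hnd, hfd, ← pow_mul, ← pow_add]
      congr 1
      omega
    rw [h3] at hidx
    exact Nat.le_of_mul_le_mul_right hidx (Nat.pos_of_ne_zero hf0)
  rintro y ⟨c₁, t, z, hz, hyz⟩ hco
  have hpco : ∀ x : 𝓞 K, IsCoprime x ((p ^ k : ℕ) : 𝓞 K) → IsCoprime x (p : 𝓞 K) := by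
    intro x hx
    have h3 : ((p ^ k : ℕ) : 𝓞 K) = (p : 𝓞 K) * ((p ^ (k - 1) : ℕ) : 𝓞 K) := by
      rw [← Nat.cast_mul, ← pow_succ']
      congr 2
      omega
    rw [h3] at hx
    exact hx.of_mul_right_left
  have hcop : ∀ (c : ℤ) (x x' : 𝓞 K), IsCoprime ((c : 𝓞 K) * x + (p : 𝓞 K) * x') (p : 𝓞 K) →
      IsCoprime c (p : ℤ) := by
    intro c x x' h
    rw [isCoprime_comm, (Nat.prime_iff_prime_int.mp hp).coprime_iff_not_dvd]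
    rintro ⟨c', rfl⟩
    obtain ⟨b, b', hb⟩ := h
    have h3 : IsUnit ((p : ℤ) : 𝓞 K) := by
      refine IsUnit.of_mul_eq_one (b * ((c' : 𝓞 K) * x + x') + b') ?_
      push_cast at hb ⊢
      linear_combination hb
    exact (Nat.prime_iff_prime_int.1 hp).not_isUnit (hR _ h3)
  have hsp : (s : 𝓞 K) = (p : 𝓞 K) * ((p ^ (a - 1) : ℕ) : 𝓞 K) := by
    rw [hsd, ← Nat.cast_mul, ← pow_succ']
    congr 2
    omega
  have hnp : (n : 𝓞 K) = (p : 𝓞 K) * ((p ^ (w - 1) : ℕ) : 𝓞 K) := by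
    rw [hnd, ← Nat.cast_mul, ← pow_succ']
    congr 2
    omega
  have hcs : IsCoprime cs (n : ℤ) := by
    have h3 : IsCoprime cs (s : ℤ) := UnitsA.coprime_of_unit hR cs (s : ℤ) (u : 𝓞 K) v u.isUnit
      ⟨1, by rw [hu]; push_cast; ring⟩
    have h4 : (n : ℤ) ∣ (s : ℤ) ^ 2 := by exact_mod_cast hns
    exact (h3.pow_right (n := 2)).of_isCoprime_of_dvd_right h4
  have hc₁ : IsCoprime c₁ (n : ℤ) := by
    have h3 : IsCoprime c₁ (p : ℤ) := hcop c₁ 1 (((p ^ (a - 1) : ℕ) : 𝓞 K) * (t : 𝓞 K) * v +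
      ((p ^ (w - 1) : ℕ) : 𝓞 K) * z) (by
        have h4 := hpco y hco
        have h5 : y = (c₁ : 𝓞 K) * 1 + (p : 𝓞 K) * (((p ^ (a - 1) : ℕ) : 𝓞 K) * (t : 𝓞 K) * v +
            ((p ^ (w - 1) : ℕ) : 𝓞 K) * z) := by
          rw [hyz, hsp, hnp]
          push_cast
          ring
        rwa [h5] at h4)
    rw [hnd]
    push_cast
    exact h3.pow_right
  have hy : y = 1 * ((c₁ : 𝓞 K) + ((1 : ℤ) : 𝓞 K) * (s : 𝓞 K) * (t : 𝓞 K) * v) +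
      (n : 𝓞 K) * z := by
    rw [hyz]
    push_cast
    ring
  obtain ⟨u', c', b₁, b₂, e, hfin⟩ := KeyT.unit_part u cs 1 t c₁ s n hn v 1 y z
    (by rw [hu]; push_cast; ring) hns hcs hc₁ hy
  obtain ⟨x, hx⟩ : ∃ x, x = b₁ * y + b₂ * z + e * 1 := ⟨_, rfl⟩
  rw [← hx] at hfin
  have hc' : IsCoprime c' ((p ^ k : ℕ) : ℤ) := by
    have h3 : IsCoprime c' (p : ℤ) := hcop c' (u' : 𝓞 K) (((p ^ (w - 1) : ℕ) : 𝓞 K) * x) (by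
        have h4 := hpco y hco
        have h5 : y = (c' : 𝓞 K) * (u' : 𝓞 K) + (p : 𝓞 K) * (((p ^ (w - 1) : ℕ) : 𝓞 K) * x) := by
          rw [hfin, hnp]
          ring
        rwa [h5] at h4)
    push_cast
    exact h3.pow_right
  obtain ⟨b, e', hb⟩ := hc'
  have hb' : (b : 𝓞 K) * (c' : 𝓞 K) + (e' : 𝓞 K) * ((p ^ k : ℕ) : 𝓞 K) = 1 := by
    have := congrArg (fun z : ℤ => (z : 𝓞 K)) hb
    simpa using this
  have huu : ((u'⁻¹ : (𝓞 K)ˣ) : 𝓞 K) * (u' : 𝓞 K) = 1 := Units.inv_mul u'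
  obtain ⟨u₂, c₂, w₂, h₂⟩ := fill_ball hR n p (fun h => by
      have h7 := ((Nat.prime_dvd_prime_iff_eq Nat.prime_two hp).1 h).symm
      have h8 : (2 : ℕ) ^ 2 ∣ p ^ w := (pow_dvd_pow_of_dvd h 2).trans (pow_dvd_pow p (hp2 h7))
      rw [hnd]
      simpa using h8)
    (fun q hq hqp => ⟨(h2 q hq hqp).1, fun z => by
      obtain ⟨u, c, w, hu⟩ := (h2 q hq hqp).2 z
      exact ⟨u, c, w, by rw [hu]; push_cast; ring⟩⟩)
    (p ^ (k - w)) (pow_ne_zero _ hp0) (fun q hq hqk => hq.dvd_of_dvd_pow hqk)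
    ((b : 𝓞 K) * (((u'⁻¹ : (𝓞 K)ˣ) : 𝓞 K) * x) - (e' : 𝓞 K) * ((p ^ (k - w) : ℕ) : 𝓞 K))
  have hmod : ((((n * p ^ (k - w) : ℕ) : ℤ)) : 𝓞 K) = ((p ^ k : ℕ) : 𝓞 K) := by
    rw [hkR]
    push_cast
    rfl
  rw [hmod] at h₂
  refine ⟨u' * u₂, c' * c₂, (c' : 𝓞 K) * (u' : 𝓞 K) * w₂ + (e' : 𝓞 K) * y, ?_⟩
  have h6 : 1 + (n : 𝓞 K) * ((b : 𝓞 K) * (((u'⁻¹ : (𝓞 K)ˣ) : 𝓞 K) * x) -
      (e' : 𝓞 K) * ((p ^ (k - w) : ℕ) : 𝓞 K)) = (b : 𝓞 K) * ((u'⁻¹ : (𝓞 K)ˣ) : 𝓞 K) * y := by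
    rw [hkR] at hb'
    rw [hfin]
    linear_combination (-1 : 𝓞 K) * hb' - (b : 𝓞 K) * (c' : 𝓞 K) * huu
  rw [h6] at h₂
  push_cast at h₂ hb' ⊢
  linear_combination (c' : 𝓞 K) * (u' : 𝓞 K) * h₂ - y * hb' - (b : 𝓞 K) * (c' : 𝓞 K) * y * huu

end Pool.Agent.MP_ca7d12_nt
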