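import Pool.Agent.Lib.MP_ca7d12_nt.H.Defs
import Pool.Agent.Lib.MP_ca7d12_nt.CycAlg
import Pool.Agent.Lib.MP_ca7d12_nt.ExistsTau
import Pool.Agent.Lib.MP_ca7d12_nt.ExistsUnit
import Pool.Agent.Lib.MP_ca7d12_nt.SpanIndep

set_option autoImplicit false

namespace Pool.Agent.MP_ca7d12_nt

open NumberField

open UnitsA in
/-- First order: only `P ∣ D` is needed. -/
private theorem cycH_lin {R : Type*} [CommRing R] (hR : ∀ q : ℤ, IsUnit (q : R) → IsUnit q)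
    (P D : ℤ) (hP0 : P ≠ 0) (hPD : P ∣ D) (η : Rˣ) (c : ℤ) (v : R)
    (h : (η : R) = (c : R) + (D : R) * v) (a : ℤ) :
    TT (D * P) (1 + (D : R) * ((a : R) * v)) := by
  have hcD : IsCoprime c D := coprime_of_unit hR c D (η : R) v η.isUnit ⟨1, by rw [h]; ring⟩
  have hcP : IsCoprime c P := hcD.of_isCoprime_of_dvd_right hPD
  obtain ⟨cb, e, hce⟩ : IsCoprime c (D * P) := hcD.mul_right hcP
  -- natural exponent
  obtain ⟨t, m, htm⟩ : ∃ (t : ℕ) (m : ℤ), (t : ℤ) = a * c + P * m := by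
    refine ⟨(a * c % P).toNat, -(a * c / P), ?_⟩
    rw [Int.toNat_of_nonneg (Int.emod_nonneg _ hP0)]
    have := Int.emod_add_mul_ediv (a * c) P
    linarith
  have hce' : (cb : R) * (c : R) = 1 - (e : R) * ((D : R) * (P : R)) := by
    have := congrArg (fun z : ℤ => (z : R)) hce
    push_cast at this
    linear_combination this
  set X : R := (D : R) * ((cb : R) * v - (P : R) * (e : R)) with hX
  have h5 : (cb : R) * (η : R) = 1 + X := by
    rw [h, mul_add, hce', hX]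
    ring
  obtain ⟨q, hq⟩ := Polynomial.powAddExpansion (1 : R) X t
  obtain ⟨D', hD'⟩ := hPD
  have h7 : TT (D * P) (((cb : R) * (η : R)) ^ t) := by
    refine ⟨η ^ t, cb ^ t, 0, ?_⟩
    push_cast
    ring
  refine h7.congr ?_
  rw [h5, hq, one_pow, one_pow, mul_one]
  have ht : (t : R) = (a : R) * (c : R) + (P : R) * (m : R) := by
    have := congrArg (fun z : ℤ => (z : R)) htm
    simpa using this
  set Z : R := (cb : R) * v - (P : R) * (e : R) with hZ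
  refine ⟨(a : R) * (e : R) * (D : R) * v - (m : R) * (cb : R) * v + (t : R) * (e : R) -
    q * (D' : R) * Z ^ 2, ?_⟩
  have h8 : (t : R) * X = (D : R) * ((a : R) * ((cb : R) * (c : R)) * v) +
      (D : R) * (P : R) * ((m : R) * (cb : R) * v - (t : R) * (e : R)) := by
    have h8' : (t : R) * X = (D : R) * ((t : R) * (cb : R) * v) -
      (D : R) * (P : R) * ((t : R) * (e : R)) := by
      rw [hX, hZ]; ring
    have h8'' : (t : R) * (cb : R) = (a : R) * ((cb : R) * (c : R)) + (P : R) * ((m : R) * (cb : R)) := by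
      rw [ht]; ring
    rw [h8', h8'']
    ring
  have h9 : q * X ^ 2 = (D : R) * (P : R) * (q * (D' : R) * Z ^ 2) := by
    rw [hX]
    have : (D : R) = (P : R) * (D' : R) := by
      have := congrArg (fun z : ℤ => (z : R)) hD'
      push_cast at this
      exact this
    calc q * ((D : R) * Z) ^ 2 = (D : R) * (D : R) * (q * Z ^ 2) := by ring
      _ = (D : R) * ((P : R) * (D' : R)) * (q * Z ^ 2) := by rw [← this]
      _ = (D : R) * (P : R) * (q * (D' : R) * Z ^ 2) := by ring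
  rw [h8, h9, hce']
  push_cast
  ring

/-- In a cyclic cubic field, for primes `p ≡ 2 (mod 3)`, one unit of exact level `s` fills the
level. -/
theorem fill_of_cyclic (K : Type*) [Field K] [NumberField K] (hK : Module.finrank ℚ K = 3)
    [IsGalois ℚ K] (s n : ℕ) (hs0 : s ≠ 0)
    (hn : ∀ p : ℕ, p.Prime → p ∣ n → p % 3 = 2 ∧ p ∣ s) (h : HasUnit K s n) :
    UnitsFill K s n := by
  intro p hp hpn
  obtain ⟨hp3, hps⟩ := hn p hp hpn
  refine ⟨hps, fun z => ?_⟩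
  obtain ⟨u, c, v, hu, hv⟩ := h
  obtain ⟨τ, hτ, htr⟩ := exists_tau K hK
  have hR : ∀ q : ℤ, IsUnit (q : 𝓞 K) → IsUnit q := isUnit_of_isUnit_intCast K
  have hSc : ¬ CycAlg.Sc p v := by
    rintro ⟨i, w, hi⟩
    exact hv p hp hpn i w hi
  obtain ⟨i, a, b, w, hz⟩ := span_of_indep K hK {p} (by simpa using hp) v (τ v) (by
    intro p' hp' i a b w hw
    rw [Finset.mem_singleton] at hp'
    subst hp'
    exact CycAlg.indep hR τ hτ htr p' hp (by omega) v hSc (by intro h3; omega) i a b w hw) z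
  rw [Finset.prod_singleton] at hz
  have hp0 : ((p : ℕ) : ℤ) ≠ 0 := by exact_mod_cast hp.ne_zero
  have hpD : ((p : ℕ) : ℤ) ∣ ((s : ℕ) : ℤ) := by exact_mod_cast hps
  have hu' : (u : 𝓞 K) = (c : 𝓞 K) + (((s : ℕ) : ℤ) : 𝓞 K) * v := by
    rw [hu]
    push_cast
    ring
  have e1 := cycH_lin hR (p : ℤ) (s : ℤ) hp0 hpD u c v hu' a
  have e2 := cycH_lin hR (p : ℤ) (s : ℤ) hp0 hpD (Units.map (τ : 𝓞 K →* 𝓞 K) u) c (τ v) (by
    have h1 : ((Units.map (τ : 𝓞 K →* 𝓞 K) u : (𝓞 K)ˣ) : 𝓞 K) = τ (u : 𝓞 K) := rfl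
    rw [h1, hu', map_add, map_mul, map_intCast, map_intCast]) b
  have e0 : UnitsA.TT ((s : ℤ) * (p : ℤ)) (1 + (((s : ℕ) : ℤ) : 𝓞 K) * (i : 𝓞 K)) := by
    have := UnitsA.TT.int (R := 𝓞 K) ((s : ℤ) * (p : ℤ)) (1 + (s : ℤ) * i)
    push_cast at this ⊢
    exact this
  obtain ⟨s', hs'⟩ := hpD
  have hs'' : (((s : ℕ) : ℤ) : 𝓞 K) = (((p : ℕ) : ℤ) : 𝓞 K) * (s' : 𝓞 K) := by
    have := congrArg (fun z : ℤ => (z : 𝓞 K)) hs'
    push_cast at this ⊢
    exact this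
  obtain ⟨u', c', w', hx⟩ := ((e0.mul e1).mul e2).congr (y := 1 + (((s : ℕ) : ℤ) : 𝓞 K) * z) (by
    refine ⟨w - (s' : 𝓞 K) * ((i : 𝓞 K) * ((a : 𝓞 K) * v) + (i : 𝓞 K) * ((b : 𝓞 K) * τ v) +
      ((a : 𝓞 K) * v) * ((b : 𝓞 K) * τ v) +
      (((s : ℕ) : ℤ) : 𝓞 K) * ((i : 𝓞 K) * ((a : 𝓞 K) * v) * ((b : 𝓞 K) * τ v))), ?_⟩
    have h1 : (((((s : ℕ) : ℤ) * ((p : ℕ) : ℤ) : ℤ)) : 𝓞 K) =
        (((s : ℕ) : ℤ) : 𝓞 K) * (((p : ℕ) : ℤ) : 𝓞 K) := by push_cast; ring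
    rw [h1, hz]
    generalize (((s : ℕ) : ℤ) : 𝓞 K) = S at *
    generalize (((p : ℕ) : ℤ) : 𝓞 K) = P at *
    rw [hs'']
    ring)
  refine ⟨u', c', w', ?_⟩
  push_cast at hx
  exact hx

end Pool.Agent.MP_ca7d12_nt
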