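import Pool.Agent.Lib.MP_ca7d12_nt.G.Defs

set_option autoImplicit false

namespace Pool.Agent.MP_ca7d12_nt

open NumberField

/-- For every prime divisor `p` of `n`: `p` divides `s`, and every element `1 + s z` of `𝓞_K` is
congruent modulo `s p` to an integer multiple of a unit. -/
def UnitsFill (K : Type*) [Field K] [NumberField K] (s n : ℕ) : Prop :=
  ∀ p : ℕ, p.Prime → p ∣ n → p ∣ s ∧ ∀ z : 𝓞 K, ∃ (u : (𝓞 K)ˣ) (c : ℤ) (w : 𝓞 K),
    1 + (s : 𝓞 K) * z = (c : 𝓞 K) * (u : 𝓞 K) + (s : 𝓞 K) * (p : 𝓞 K) * w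

/-- The subgroup `L` of `𝓞_K` contains `1` and `n 𝓞_K`, and all its elements prime to `n` are congruent
modulo `n` to integer multiples of units. -/
def UnitsCover (K : Type*) [Field K] [NumberField K] (n : ℕ) (L : AddSubgroup (𝓞 K)) : Prop :=
  1 ∈ L ∧ (∀ z : 𝓞 K, (n : 𝓞 K) * z ∈ L) ∧ ∀ y ∈ L, IsCoprime y (n : 𝓞 K) →
    ∃ (u : (𝓞 K)ˣ) (c : ℤ) (w : 𝓞 K), y = (c : 𝓞 K) * (u : 𝓞 K) + (n : 𝓞 K) * w

/-- Leopoldt's conjecture for `K` and the prime `p`, in its elementary form: for every `k` all units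
which are close enough to `1` in the `p`-adic topology are `p ^ k`-th powers of units. -/
def LeopoldtAt (K : Type*) [Field K] [NumberField K] (p : ℕ) : Prop :=
  ∀ k : ℕ, ∃ N : ℕ, ∀ u : (𝓞 K)ˣ, (p : 𝓞 K) ^ N ∣ (u : 𝓞 K) - 1 →
    ∃ w : (𝓞 K)ˣ, w ^ (p ^ k) = u

end Pool.Agent.MP_ca7d12_nt
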