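import Pool.Agent.Lib.MP_ca7d12_nt.T.MainT

set_option autoImplicit false

namespace Pool.Agent.MP_ca7d12_nt

open NumberField

/-- The lattice `ℤ γ + N 𝓞_K`. -/
def latM (K : Type*) [Field K] [NumberField K] (γ : 𝓞 K) (N : ℕ) : Submodule ℤ (𝓞 K) :=
  Submodule.span ℤ {γ} ⊔ LinearMap.range (LinearMap.mulLeft ℤ (N : 𝓞 K))

theorem mem_latM {K : Type*} [Field K] [NumberField K] (γ : 𝓞 K) (N : ℕ) (x : 𝓞 K) :
    x ∈ latM K γ N ↔ ∃ (c : ℤ) (w : 𝓞 K), x = (c : 𝓞 K) * γ + (N : 𝓞 K) * w := by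
  rw [latM, Submodule.mem_sup]
  constructor
  · rintro ⟨y, hy, z, hz, rfl⟩
    obtain ⟨c, rfl⟩ := Submodule.mem_span_singleton.1 hy
    obtain ⟨w, rfl⟩ := hz
    exact ⟨c, w, by simp [zsmul_eq_mul]⟩
  · rintro ⟨c, w, rfl⟩
    exact ⟨(c : 𝓞 K) * γ, Submodule.mem_span_singleton.2 ⟨c, by simp [zsmul_eq_mul]⟩,
      (N : 𝓞 K) * w, ⟨w, rfl⟩, rfl⟩

theorem finrank_latM (K : Type*) [Field K] [NumberField K] (hK : Module.finrank ℚ K = 3)
    (γ : 𝓞 K) (N : ℕ) (hN : N ≠ 0) : Module.finrank ℤ (latM K γ N) = 3 := by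
  have hO : Module.finrank ℤ (𝓞 K) = 3 := by rw [RingOfIntegers.rank, hK]
  apply le_antisymm
  · rw [← hO]
    exact Submodule.finrank_le _
  · have hN' : ((N : ℕ) : 𝓞 K) ≠ 0 := Nat.cast_ne_zero.2 hN
    let f : 𝓞 K →ₗ[ℤ] latM K γ N := LinearMap.codRestrict (latM K γ N)
      (LinearMap.mulLeft ℤ (N : 𝓞 K)) (fun x => (mem_latM γ N _).2 ⟨0, x, by simp⟩)
    have hf : Function.Injective f := by
      intro x y hxy
      have h := congrArg Subtype.val hxy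
      simp only [f, LinearMap.codRestrict_apply, LinearMap.mulLeft_apply] at h
      exact mul_left_cancel₀ hN' h
    rw [← hO]
    exact LinearMap.finrank_le_finrank_of_injective hf

/-- A basis of the lattice `ℤ γ + N 𝓞_K`, `γ` prime to `N`. -/
theorem exists_lattice (K : Type*) [Field K] [NumberField K] (hK : Module.finrank ℚ K = 3)
    (γ : 𝓞 K) (N : ℕ) (hN : N ≠ 0) (hco : IsCoprime γ (N : 𝓞 K)) :
    ∃ α' : Fin 3 → 𝓞 K, LinearIndependent ℚ (fun j => (α' j : K)) ∧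
      (∀ x : 𝓞 K, x ∈ AddSubgroup.closure (Set.range α') ↔
        ∃ (c : ℤ) (w : 𝓞 K), x = (c : 𝓞 K) * γ + (N : 𝓞 K) * w) ∧
      CyclicModulo K (fun j => (α' j : K)) N ∧ Ideal.span (Set.range α') = ⊤ := by
  have hr := finrank_latM K hK γ N hN
  let b : Module.Basis (Fin 3) ℤ (latM K γ N) := Module.finBasisOfFinrankEq ℤ (latM K γ N) hr
  let α' : Fin 3 → 𝓞 K := fun j => (b j : 𝓞 K)
  have hspan : Submodule.span ℤ (Set.range α') = latM K γ N := by
    have h1 : Set.range α' = (latM K γ N).subtype '' Set.range b := by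
      rw [← Set.range_comp]; rfl
    rw [h1, Submodule.span_image, b.span_eq, Submodule.map_top, Submodule.range_subtype]
  have hmem : ∀ x : 𝓞 K, x ∈ AddSubgroup.closure (Set.range α') ↔
        ∃ (c : ℤ) (w : 𝓞 K), x = (c : 𝓞 K) * γ + (N : 𝓞 K) * w := by
    intro x
    rw [← mem_latM, ← hspan, ← Submodule.span_int_eq_addSubgroupClosure]
    rfl
  -- the image in `K`
  let ι : 𝓞 K →ₗ[ℤ] K := (algebraMap (𝓞 K) K).toAddMonoidHom.toIntLinearMap
  have hι : ∀ x : 𝓞 K, ι x = (x : K) := fun x => rfl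
  have hspanK : Submodule.span ℤ (Set.range (fun j => (α' j : K))) = (latM K γ N).map ι := by
    rw [← hspan, Submodule.map_span, ← Set.range_comp]
    rfl
  have hmemK : ∀ x : K, x ∈ Submodule.span ℤ (Set.range (fun j => (α' j : K))) ↔
      ∃ y ∈ latM K γ N, (y : K) = x := by
    intro x
    rw [hspanK, Submodule.mem_map]
    rfl
  refine ⟨α', ?_, hmem, ⟨?_, ?_⟩, ?_⟩
  · have h1 : LinearIndependent ℤ (fun j => (α' j : K)) := by
      have h2 : LinearIndependent ℤ b := b.linearIndependent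
      have h3 : LinearIndependent ℤ (((latM K γ N).subtype : latM K γ N →ₗ[ℤ] 𝓞 K) ∘ b) :=
        h2.map' _ (Submodule.ker_subtype _)
      have h4 : LinearIndependent ℤ (ι ∘ (((latM K γ N).subtype : latM K γ N →ₗ[ℤ] 𝓞 K) ∘ b)) :=
        h3.map' _ (LinearMap.ker_eq_bot.2 RingOfIntegers.coe_injective)
      exact h4
    exact (LinearIndependent.iff_fractionRing ℤ ℚ).1 h1
  · intro z x hx
    obtain ⟨y, hy, rfl⟩ := (hmemK x).1 hx
    refine (hmemK _).2 ⟨(N : 𝓞 K) * z * y, (mem_latM γ N _).2 ⟨0, z * y, by simp [mul_assoc]⟩, ?_⟩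
    simp
  · refine ⟨(γ : K), (hmemK _).2 ⟨γ, (mem_latM γ N _).2 ⟨1, 0, by simp⟩, rfl⟩, ?_⟩
    intro x hx
    obtain ⟨y, hy, rfl⟩ := (hmemK x).1 hx
    obtain ⟨c, w, rfl⟩ := (mem_latM γ N _).1 hy
    obtain ⟨A, B, hAB⟩ := hco
    refine ⟨c, ?_⟩
    have e : (((c : 𝓞 K) * γ + (N : 𝓞 K) * w : 𝓞 K) : K) - (c : K) * (γ : K) =
        (N : K) * ((w * A : 𝓞 K) : K) * (γ : K) + (N : K) * ((w * B : 𝓞 K) : K) * (N : K) := by
      have h1 : ((A * γ + B * (N : 𝓞 K) : 𝓞 K) : K) = 1 := by rw [hAB]; simp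
      simp only [map_add, map_mul, map_natCast, map_intCast] at h1 ⊢
      linear_combination ((N : K) * (w : K)) * (-h1)
    rw [e]
    refine Submodule.add_mem _ (Submodule.subset_span ⟨w * A, (γ : K), ?_, rfl⟩)
      (Submodule.subset_span ⟨w * B, (N : K), ?_, rfl⟩)
    · exact (hmemK _).2 ⟨γ, (mem_latM γ N _).2 ⟨1, 0, by simp⟩, rfl⟩
    · exact (hmemK _).2 ⟨(N : 𝓞 K), (mem_latM γ N _).2 ⟨0, 1, by simp⟩, by simp⟩
  · rw [Ideal.eq_top_iff_one]
    obtain ⟨A, B, hAB⟩ := hco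
    have hin : ∀ y ∈ latM K γ N, y ∈ Ideal.span (Set.range α') := by
      intro y hy
      rw [← hspan] at hy
      have h1 : Submodule.span ℤ (Set.range α') ≤
          (Ideal.span (Set.range α')).restrictScalars ℤ := by
        rw [Submodule.span_le]
        exact Submodule.subset_span
      exact h1 hy
    rw [← hAB]
    refine Ideal.add_mem _ (Ideal.mul_mem_left _ _ (hin _ ?_)) (Ideal.mul_mem_left _ _ (hin _ ?_))
    · exact (mem_latM γ N _).2 ⟨1, 0, by simp⟩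
    · exact (mem_latM γ N _).2 ⟨0, 1, by simp⟩

end Pool.Agent.MP_ca7d12_nt
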