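import Pool.Agent.Lib.MP_ca7d12_nt.Defs

set_option autoImplicit false

namespace Pool.Agent.MP_ca7d12_nt

open NumberField

private theorem hRank_two (K : Type*) [Field K] [NumberField K] (hK : Module.finrank ℚ K = 3)
    (σ : Fin 3 → K →+* ℝ) (hσ : Function.Injective σ) : Units.rank K = 2 := by
  classical
  have hreal : 3 ≤ InfinitePlace.nrRealPlaces K := by
    rw [← InfinitePlace.card_real_embeddings]
    have h1 : ∀ i, ComplexEmbedding.IsReal (Complex.ofRealHom.comp (σ i)) := by
      intro i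
      rw [ComplexEmbedding.isReal_iff]
      ext x
      simp
    have hinj : Function.Injective
        (fun i : Fin 3 => (⟨Complex.ofRealHom.comp (σ i), h1 i⟩ :
          {φ : K →+* ℂ // ComplexEmbedding.IsReal φ})) := by
      intro i j hij
      apply hσ
      have h2 : Complex.ofRealHom.comp (σ i) = Complex.ofRealHom.comp (σ j) :=
        congrArg Subtype.val hij
      ext x
      have h3 := congrArg (fun φ : K →+* ℂ => φ x) h2
      simpa using h3
    have := Fintype.card_le_of_injective _ hinj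
    simpa using this
  have h1 := InfinitePlace.card_add_two_mul_card_eq_rank K
  have h2 := InfinitePlace.card_eq_nrRealPlaces_add_nrComplexPlaces K
  unfold Units.rank
  omega

private theorem hRank_torsion (K : Type*) [Field K] [NumberField K] (σ : K →+* ℝ) (u : (𝓞 K)ˣ) :
    u ∈ Units.torsion K ↔ (u = 1 ∨ u = -1) := by
  constructor
  · intro h
    rw [Units.torsion, CommGroup.mem_torsion, isOfFinOrder_iff_pow_eq_one] at h
    obtain ⟨n, hn, hu⟩ := h
    have h1 : (σ ((u : 𝓞 K) : K)) ^ n = 1 := by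
      have h2 : ((u : 𝓞 K) : K) ^ n = 1 := by
        have := congrArg (fun v : (𝓞 K)ˣ => ((v : 𝓞 K) : K)) hu
        simpa using this
      rw [← map_pow, h2, map_one]
    have h3 : |σ ((u : 𝓞 K) : K)| = 1 := by
      have h4 : |σ ((u : 𝓞 K) : K)| ^ n = 1 := by rw [← abs_pow, h1, abs_one]
      exact (pow_eq_one_iff_of_nonneg (abs_nonneg _) hn.ne').1 h4
    rcases eq_or_eq_neg_of_abs_eq h3 with h5 | h5
    · left
      have h6 : ((u : 𝓞 K) : K) = 1 := σ.injective (by rw [h5, map_one])
      ext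
      simpa using h6
    · right
      have h6 : ((u : 𝓞 K) : K) = -1 := σ.injective (by rw [h5, map_neg, map_one])
      ext
      simpa using h6
  · rintro (rfl | rfl)
    · exact one_mem _
    · rw [Units.torsion, CommGroup.mem_torsion, isOfFinOrder_iff_pow_eq_one]
      exact ⟨2, two_pos, by simp⟩

private theorem hRank_exp {U : Type*} [CommGroup U] (T : Subgroup U) {r : ℕ} (hr : r = 2)
    (F : Fin r → U)
    (h : ∀ x : U, ∃! ζe : T × (Fin r → ℤ), x = ζe.1 * ∏ i, F i ^ ζe.2 i) :
    ∃ e : U → ℤ × ℤ, (∀ u v, e (u * v) = e u + e v) ∧ Function.Surjective e ∧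
      ∀ u, e u = 0 ↔ u ∈ T := by
  subst hr
  choose g hg hu using h
  have key : ∀ (u : U) (ζ : T) (f : Fin 2 → ℤ), u = ζ * ∏ i, F i ^ f i → g u = (ζ, f) :=
    fun u ζ f huf => (hu u (ζ, f) huf).symm
  refine ⟨fun u => ((g u).2 0, (g u).2 1), fun u v => ?_, ?_, fun u => ?_⟩
  · have h1 : g (u * v) = ((g u).1 * (g v).1, (g u).2 + (g v).2) := by
      refine key _ _ _ ?_
      have h2 : ∏ i, F i ^ ((g u).2 + (g v).2) i =
          (∏ i, F i ^ (g u).2 i) * ∏ i, F i ^ (g v).2 i := by
        rw [← Finset.prod_mul_distrib]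
        exact Finset.prod_congr rfl fun i _ => by rw [Pi.add_apply, zpow_add]
      rw [h2, Subgroup.coe_mul]
      conv_lhs => rw [hg u, hg v]
      exact mul_mul_mul_comm _ _ _ _
    simp only [h1, Pi.add_apply, Prod.mk_add_mk]
  · rintro ⟨m, n⟩
    refine ⟨((1 : T) : U) * ∏ i, F i ^ (![m, n] : Fin 2 → ℤ) i, ?_⟩
    beta_reduce
    rw [key _ 1 ![m, n] rfl]
    rfl
  · constructor
    · intro h
      have h0 : (g u).2 0 = 0 := congrArg Prod.fst h
      have h1 : (g u).2 1 = 0 := congrArg Prod.snd h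
      rw [hg u, Fin.prod_univ_two, h0, h1, zpow_zero, zpow_zero, mul_one, mul_one]
      exact (g u).1.2
    · intro h
      beta_reduce
      rw [key u ⟨u, h⟩ 0 (by simp)]
      rfl

/-- Dirichlet's unit theorem for a totally real cubic field: the units modulo `± 1` are `ℤ × ℤ`. -/
theorem exists_exponents (K : Type*) [Field K] [NumberField K] (hK : Module.finrank ℚ K = 3)
    (σ : Fin 3 → K →+* ℝ) (hσ : Function.Injective σ) :
    ∃ e : (𝓞 K)ˣ → ℤ × ℤ, (∀ u v, e (u * v) = e u + e v) ∧ Function.Surjective e ∧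
      ∀ u, e u = 0 ↔ (u = 1 ∨ u = -1) := by
  obtain ⟨e, h1, h2, h3⟩ := hRank_exp (Units.torsion K) (hRank_two K hK σ hσ) (Units.fundSystem K)
    (Units.exist_unique_eq_mul_prod K)
  exact ⟨e, h1, h2, fun u => (h3 u).trans (hRank_torsion K (σ 0) u)⟩

end Pool.Agent.MP_ca7d12_nt
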