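import Pool.Agent.Lib.MP_ca7d12_nt.H.Defs
import Pool.Agent.Lib.MP_ca7d12_nt.H.Rank
import Pool.Agent.Lib.MP_ca7d12_nt.ExistsUnit
import Pool.Agent.Lib.MP_ca7d12_nt.UnitsA

set_option autoImplicit false

namespace Pool.Agent.MP_ca7d12_nt

open NumberField

section LeoA

variable {K : Type*} [Field K] [NumberField K]

private theorem leoA_dvd {m n : ℤ} (h : (m : 𝓞 K) ∣ (n : 𝓞 K)) : m ∣ n := by
  have h1 : Algebra.norm ℤ (algebraMap ℤ (𝓞 K) m) ∣ Algebra.norm ℤ (algebraMap ℤ (𝓞 K) n) := by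
    refine map_dvd (Algebra.norm ℤ) ?_
    simpa using h
  rw [Algebra.norm_algebraMap, Algebra.norm_algebraMap, RingOfIntegers.rank] at h1
  exact (Int.pow_dvd_pow_iff Module.finrank_pos.ne').1 h1

private theorem leoA_not_unit {p : ℕ} (hp : p.Prime) : ¬ IsUnit ((p : ℤ) : 𝓞 K) := by
  intro h
  have h1 := isUnit_of_isUnit_intCast K (p : ℤ) h
  have h2 := Int.isUnit_iff_natAbs_eq.1 h1
  rw [Int.natAbs_natCast] at h2
  exact hp.one_lt.ne' h2

private theorem leoA_coprime {p : ℕ} {j : ℕ} {c : ℤ} {u v : 𝓞 K} (hu : IsUnit u)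
    (h : u = (c : 𝓞 K) + (p : 𝓞 K) ^ j * v) : IsCoprime c ((p : ℤ) ^ j) := by
  refine UnitsA.coprime_of_unit (isUnit_of_isUnit_intCast K) c ((p : ℤ) ^ j) u v hu ⟨1, ?_⟩
  rw [h]
  push_cast
  ring

/-- The units that are congruent to an integer modulo `p ^ j`. -/
private def leoH (K : Type*) [Field K] [NumberField K] (p j : ℕ) :
    AddSubgroup (Additive (𝓞 K)ˣ) where
  carrier := {u | ∃ (c : ℤ) (v : 𝓞 K), ((u.toMul : (𝓞 K)ˣ) : 𝓞 K) = (c : 𝓞 K) + (p : 𝓞 K) ^ j * v}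
  zero_mem' := ⟨1, 0, by simp⟩
  add_mem' := by
    rintro a b ⟨c, v, h⟩ ⟨c', v', h'⟩
    refine ⟨c * c', (c : 𝓞 K) * v' + c' * v + (p : 𝓞 K) ^ j * v * v', ?_⟩
    rw [toMul_add, Units.val_mul, h, h']
    push_cast
    ring
  neg_mem' := by
    rintro a ⟨c, v, h⟩
    obtain ⟨t, s, hts⟩ := leoA_coprime (Units.isUnit _) h
    refine ⟨t, (s : 𝓞 K) * ((a.toMul⁻¹ : (𝓞 K)ˣ) : 𝓞 K) - t * v * ((a.toMul⁻¹ : (𝓞 K)ˣ) : 𝓞 K), ?_⟩
    have h1 : ((a.toMul⁻¹ : (𝓞 K)ˣ) : 𝓞 K) * ((a.toMul : (𝓞 K)ˣ) : 𝓞 K) = 1 := by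
      rw [← Units.val_mul, inv_mul_cancel, Units.val_one]
    have h2 : (t : 𝓞 K) * c + s * (p : 𝓞 K) ^ j = 1 := by
      have := congrArg (fun x : ℤ => (x : 𝓞 K)) hts
      push_cast at this
      exact this
    rw [toMul_neg]
    rw [h] at h1
    linear_combination (-((a.toMul⁻¹ : (𝓞 K)ˣ) : 𝓞 K)) * h2 + (t : 𝓞 K) * h1

private theorem leoH_fin {p : ℕ} (hp : p.Prime) (j : ℕ) :
    Finite (Additive (𝓞 K)ˣ ⧸ leoH K p j) := by
  obtain ⟨I, hI⟩ : ∃ I : Ideal (𝓞 K), I = Ideal.span {(p : 𝓞 K) ^ j} := ⟨_, rfl⟩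
  have hI0 : I ≠ ⊥ := by
    rw [hI, Ne, Ideal.span_singleton_eq_bot]
    exact pow_ne_zero _ (Nat.cast_ne_zero.2 hp.ne_zero)
  have hfin : Finite (𝓞 K ⧸ I) := Ideal.finiteQuotientOfFreeOfNeBot I hI0
  refine Finite.of_injective
    (fun q : Additive (𝓞 K)ˣ ⧸ leoH K p j =>
      Ideal.Quotient.mk I (((q.out).toMul : (𝓞 K)ˣ) : 𝓞 K)) ?_
  intro q q' h
  have h' := Ideal.Quotient.eq.1 h
  rw [hI, Ideal.mem_span_singleton] at h'
  obtain ⟨w, hw⟩ := h'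
  rw [← QuotientAddGroup.out_eq' q, ← QuotientAddGroup.out_eq' q']
  refine QuotientAddGroup.eq.2 ?_
  refine ⟨1, -(((((q.out).toMul)⁻¹ : (𝓞 K)ˣ) : 𝓞 K) * w), ?_⟩
  have h1 : (((((q.out).toMul)⁻¹ : (𝓞 K)ˣ) : 𝓞 K)) * (((q.out).toMul : (𝓞 K)ˣ) : 𝓞 K) = 1 := by
    rw [← Units.val_mul, inv_mul_cancel, Units.val_one]
  rw [toMul_add, toMul_neg, Units.val_mul]
  push_cast
  linear_combination (-(((((q.out).toMul)⁻¹ : (𝓞 K)ˣ) : 𝓞 K))) * hw + h1

/-- `ℤ + p 𝓞`. -/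
private def leoM (K : Type*) [Field K] [NumberField K] (p : ℕ) : AddSubgroup (𝓞 K) where
  carrier := {x | ∃ (c : ℤ) (w : 𝓞 K), x = (c : 𝓞 K) + (p : 𝓞 K) * w}
  zero_mem' := ⟨0, 0, by simp⟩
  add_mem' := by
    rintro a b ⟨c, v, rfl⟩ ⟨c', v', rfl⟩
    refine ⟨c + c', v + v', ?_⟩
    push_cast
    ring
  neg_mem' := by
    rintro a ⟨c, v, rfl⟩
    refine ⟨-c, -v, ?_⟩
    push_cast
    ring

private theorem leoM_card (hK : Module.finrank ℚ K = 3) {p : ℕ} (hp : p.Prime) :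
    Finite (𝓞 K ⧸ leoM K p) ∧ p ^ 2 ≤ Nat.card (𝓞 K ⧸ leoM K p) := by
  obtain ⟨I, hI⟩ : ∃ I : Ideal (𝓞 K), I = Ideal.span {((p : ℤ) : 𝓞 K)} := ⟨_, rfl⟩
  have hI0 : I ≠ ⊥ := by
    rw [hI, Ne, Ideal.span_singleton_eq_bot]
    exact_mod_cast hp.ne_zero
  have hfin : Finite (𝓞 K ⧸ I) := Ideal.finiteQuotientOfFreeOfNeBot I hI0
  have hcard : Nat.card (𝓞 K ⧸ I) = p ^ 3 := by
    have h1 : Ideal.absNorm I = p ^ 3 := by
      rw [hI, Ideal.absNorm_span_singleton]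
      have h2 : ((p : ℤ) : 𝓞 K) = algebraMap ℤ (𝓞 K) (p : ℤ) := by simp
      rw [h2, Algebra.norm_algebraMap, RingOfIntegers.rank, hK, Int.natAbs_pow, Int.natAbs_natCast]
    rw [← h1, Ideal.absNorm_apply, Submodule.cardQuot_apply]
  have hmem : ∀ x : 𝓞 K, x ∈ I ↔ ∃ w, x = (p : 𝓞 K) * w := by
    intro x
    rw [hI, Ideal.mem_span_singleton]
    constructor
    · rintro ⟨w, hw⟩
      exact ⟨w, by rw [hw]; push_cast; ring⟩
    · rintro ⟨w, hw⟩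
      exact ⟨w, by rw [hw]; push_cast; ring⟩
  have hfin2 : Finite (𝓞 K ⧸ leoM K p) := by
    refine Finite.of_injective (fun q : 𝓞 K ⧸ leoM K p => Ideal.Quotient.mk I q.out) ?_
    intro q q' h
    obtain ⟨w, hw⟩ := (hmem _).1 (Ideal.Quotient.eq.1 h)
    rw [← QuotientAddGroup.out_eq' q, ← QuotientAddGroup.out_eq' q']
    refine QuotientAddGroup.eq.2 ⟨0, -w, ?_⟩
    push_cast
    linear_combination -hw
  refine ⟨hfin2, ?_⟩
  have hp0 : 0 < p := hp.pos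
  have hsurj : Function.Surjective (fun x : Fin p × (𝓞 K ⧸ leoM K p) =>
      Ideal.Quotient.mk I (((x.1 : ℕ) : 𝓞 K) + x.2.out)) := by
    intro y
    obtain ⟨y, rfl⟩ := Ideal.Quotient.mk_surjective y
    have h1 : -(((y : 𝓞 K ⧸ leoM K p)).out) + y ∈ leoM K p :=
      QuotientAddGroup.eq.1 (QuotientAddGroup.out_eq' (y : 𝓞 K ⧸ leoM K p))
    obtain ⟨c, w, hcw⟩ := h1
    refine ⟨(⟨(c % p).toNat, ?_⟩, (y : 𝓞 K ⧸ leoM K p)), ?_⟩
    · have h2 := Int.emod_lt_of_pos c (by exact_mod_cast hp0 : (0 : ℤ) < p)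
      have h3 := Int.emod_nonneg c (by exact_mod_cast hp0.ne' : (p : ℤ) ≠ 0)
      omega
    · refine Ideal.Quotient.eq.2 ((hmem _).2 ⟨-(c / (p : ℤ) : ℤ) - w, ?_⟩)
      have h3 := Int.emod_nonneg c (by exact_mod_cast hp0.ne' : (p : ℤ) ≠ 0)
      have h4 : (((c % p).toNat : ℕ) : 𝓞 K) = ((c % p : ℤ) : 𝓞 K) := by
        rw [← Int.cast_natCast, Int.toNat_of_nonneg h3]
      have h5 : ((c : ℤ) : 𝓞 K) = ((c % p : ℤ) : 𝓞 K) + (p : 𝓞 K) * ((c / (p : ℤ) : ℤ) : 𝓞 K) := by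
        have h6 := Int.emod_add_mul_ediv c p
        have h7 := congrArg (fun x : ℤ => (x : 𝓞 K)) h6
        push_cast at h7
        rw [← h7]
      show (((c % p).toNat : ℕ) : 𝓞 K) + (y : 𝓞 K ⧸ leoM K p).out - y = _
      rw [h4]
      linear_combination -hcw - h5
  have h := Nat.card_le_card_of_surjective _ hsurj
  rw [hcard, Nat.card_prod, Nat.card_eq_fintype_card, Fintype.card_fin] at h
  have h2 : p * p ^ 2 ≤ p * Nat.card (𝓞 K ⧸ leoM K p) := by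
    calc p * p ^ 2 = p ^ 3 := by ring
      _ ≤ _ := h
  exact Nat.le_of_mul_le_mul_left h2 hp0

/-- The index of `leoH (j + 1)` in `leoH j`. -/
private theorem leoA_rel (hK : Module.finrank ℚ K = 3) {p : ℕ} (hp : p.Prime) {D' : ℤ} {w0 : ℕ}
    (hD' : IsCoprime D' p)
    (hO : ∀ (k : ℕ) (z : 𝓞 K), ∃ (u : (𝓞 K)ˣ) (c : ℤ) (w : 𝓞 K),
      1 + ((p : 𝓞 K) ^ w0 * (D' : 𝓞 K)) * z = (c : 𝓞 K) * (u : 𝓞 K) + (p : 𝓞 K) ^ k * w)
    {j : ℕ} (hj1 : 1 ≤ j) (hjw : w0 ≤ j) :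
    p ^ 2 ≤ (leoH K p (j + 1)).relIndex (leoH K p j) := by
  obtain ⟨hfinQ, hQ⟩ := leoM_card (K := K) hK hp
  have hpp : Prime (p : ℤ) := Nat.prime_iff_prime_int.1 hp
  have hpnu := leoA_not_unit (K := K) hp
  -- the units
  have hex : ∀ z : 𝓞 K, ∃ (u : (𝓞 K)ˣ) (a : ℤ) (w : 𝓞 K), IsCoprime a (p : ℤ) ∧
      (u : 𝓞 K) = (a : 𝓞 K) + (p : 𝓞 K) ^ j * ((a : 𝓞 K) * D' * z + (p : 𝓞 K) * w) := by
    intro z
    obtain ⟨u, c, w, hu⟩ := hO (j + 1) ((p : 𝓞 K) ^ (j - w0) * z)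
    have e1 : (p : 𝓞 K) ^ w0 * (p : 𝓞 K) ^ (j - w0) = (p : 𝓞 K) ^ j := by
      rw [← pow_add, Nat.add_sub_cancel' hjw]
    have hu' : 1 + (p : 𝓞 K) ^ j * (D' : 𝓞 K) * z = (c : 𝓞 K) * (u : 𝓞 K) +
        (p : 𝓞 K) ^ (j + 1) * w := by
      rw [← hu, ← e1]
      ring
    have hcp : IsCoprime c (p : ℤ) := by
      rw [isCoprime_comm, hpp.coprime_iff_not_dvd]
      rintro ⟨c', rfl⟩
      apply hpnu
      obtain ⟨i, rfl⟩ : ∃ i, j = i + 1 := ⟨j - 1, by omega⟩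
      refine IsUnit.of_mul_eq_one ((c' : 𝓞 K) * u + (p : 𝓞 K) ^ (i + 1) * w -
        (p : 𝓞 K) ^ i * D' * z) ?_
      push_cast at hu' ⊢
      linear_combination -hu'
    have hcpj : IsCoprime c ((p : ℤ) ^ (j + 1)) := hcp.pow_right
    obtain ⟨t, s, hts⟩ := hcpj
    have hts' : (t : 𝓞 K) * c + s * (p : 𝓞 K) ^ (j + 1) = 1 := by
      have := congrArg (fun x : ℤ => (x : 𝓞 K)) hts
      push_cast at this
      exact this
    refine ⟨u, t, (s : 𝓞 K) * u - t * w, ?_, ?_⟩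
    · refine ⟨c, s * (p : ℤ) ^ j, ?_⟩
      rw [← hts]
      ring
    · linear_combination (-(u : 𝓞 K)) * hts' - (t : 𝓞 K) * hu'
  choose U A W hA hU using hex
  have hmem : ∀ z, (Additive.ofMul (U z)) ∈ leoH K p j := fun z =>
    ⟨A z, (A z : 𝓞 K) * D' * z + (p : 𝓞 K) * W z, hU z⟩
  have hfin1 := leoH_fin (K := K) hp (j + 1)
  have hfinite : Finite (leoH K p j ⧸ (leoH K p (j + 1)).addSubgroupOf (leoH K p j)) := by
    have h1 : ((leoH K p (j + 1)).addSubgroupOf (leoH K p j)).FiniteIndex := by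
      have h2 : (leoH K p (j + 1)).FiniteIndex := AddSubgroup.finiteIndex_of_finite_quotient
      infer_instance
    infer_instance
  refine hQ.trans ?_
  rw [AddSubgroup.relIndex, AddSubgroup.index]
  refine Nat.card_le_card_of_injective (fun q : 𝓞 K ⧸ leoM K p =>
    ((⟨Additive.ofMul (U q.out), hmem q.out⟩ : leoH K p j) :
      leoH K p j ⧸ (leoH K p (j + 1)).addSubgroupOf (leoH K p j))) ?_
  intro q q' hqq
  have h1 := QuotientAddGroup.eq.1 hqq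
  rw [AddSubgroup.mem_addSubgroupOf] at h1
  obtain ⟨b, y, hby⟩ := h1
  set z := q.out with hz
  set z' := q'.out with hz'
  have h2 : ((U z : (𝓞 K)ˣ) : 𝓞 K) * (((U z)⁻¹ : (𝓞 K)ˣ) : 𝓞 K) = 1 := by
    rw [← Units.val_mul, mul_inv_cancel, Units.val_one]
  have h3 : ((U z' : (𝓞 K)ˣ) : 𝓞 K) = ((U z : (𝓞 K)ˣ) : 𝓞 K) * ((b : 𝓞 K) +
      (p : 𝓞 K) ^ (j + 1) * y) := by
    rw [← hby]
    show ((U z' : (𝓞 K)ˣ) : 𝓞 K) = ((U z : (𝓞 K)ˣ) : 𝓞 K) *
      ((((U z)⁻¹ * U z' : (𝓞 K)ˣ)) : 𝓞 K)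
    rw [← Units.val_mul, mul_inv_cancel_left]
  rw [hU z, hU z'] at h3
  -- integers
  have h4 : ((p : ℤ) ^ j : ℤ) ∣ A z' - b * A z := by
    refine leoA_dvd (K := K) ⟨(b : 𝓞 K) * ((A z : 𝓞 K) * D' * z + (p : 𝓞 K) * W z) +
      ((A z : 𝓞 K) + (p : 𝓞 K) ^ j * ((A z : 𝓞 K) * D' * z + (p : 𝓞 K) * W z)) * p * y -
      ((A z' : 𝓞 K) * D' * z' + (p : 𝓞 K) * W z'), ?_⟩
    push_cast
    linear_combination h3
  obtain ⟨d, hd⟩ := h4
  have hd' : (A z' : 𝓞 K) - b * A z = (p : 𝓞 K) ^ j * d := by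
    have := congrArg (fun x : ℤ => (x : 𝓞 K)) hd
    push_cast at this
    exact this
  have hp0 : (p : 𝓞 K) ^ j ≠ 0 := pow_ne_zero _ (Nat.cast_ne_zero.2 hp.ne_zero)
  obtain ⟨i, rfl⟩ : ∃ i, j = i + 1 := ⟨j - 1, by omega⟩
  have h5 : ∃ y', (d : 𝓞 K) + D' * A z' * (z' - z) = (p : 𝓞 K) * y' := by
    refine ⟨(b : 𝓞 K) * W z - W z' - (p : 𝓞 K) ^ i * d * D' * z +
      ((A z : 𝓞 K) + (p : 𝓞 K) ^ (i + 1) * ((A z : 𝓞 K) * D' * z + (p : 𝓞 K) * W z)) * y, ?_⟩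
    apply mul_left_cancel₀ hp0
    linear_combination h3 - (1 + (p : 𝓞 K) ^ (i + 1) * D' * z) * hd'
  obtain ⟨y', hy'⟩ := h5
  have h6 : IsCoprime (D' * A z') (p : ℤ) := IsCoprime.mul_left hD' (hA z')
  obtain ⟨t, s, hts⟩ := h6
  have hts' : (t : 𝓞 K) * (D' * A z') + s * (p : 𝓞 K) = 1 := by
    have := congrArg (fun x : ℤ => (x : 𝓞 K)) hts
    push_cast at this
    exact this
  rw [← QuotientAddGroup.out_eq' q, ← QuotientAddGroup.out_eq' q']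
  refine QuotientAddGroup.eq.2 ⟨-(t * d), (t : 𝓞 K) * y' + s * (z' - z), ?_⟩
  show -z + z' = _
  push_cast
  linear_combination (-(z' - z)) * hts' + (t : 𝓞 K) * hy'

private theorem leoA_pow {p : ℕ} {j : ℕ} (hj1 : 1 ≤ j) (v : Additive (𝓞 K)ˣ)
    (hv : v ∈ leoH K p j) : p • v ∈ leoH K p (j + 1) := by
  obtain ⟨c, y, hcy⟩ := hv
  obtain ⟨i, rfl⟩ : ∃ i, j = i + 1 := ⟨j - 1, by omega⟩
  obtain ⟨e, he⟩ := Polynomial.powAddExpansion (c : 𝓞 K) ((p : 𝓞 K) ^ (i + 1) * y) p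
  refine ⟨c ^ p, (c : 𝓞 K) ^ (p - 1) * y + e * (p : 𝓞 K) ^ i * y ^ 2, ?_⟩
  rw [toMul_nsmul, Units.val_pow_eq_pow_val, hcy, he]
  push_cast
  ring

private theorem leoA_neg_one {p j : ℕ} : Additive.ofMul (-1 : (𝓞 K)ˣ) ∈ leoH K p j :=
  ⟨-1, 0, by simp⟩

private theorem leoA_step (hK : Module.finrank ℚ K = 3) {p : ℕ} (hp : p.Prime) {D' : ℤ} {w0 : ℕ}
    (hD' : IsCoprime D' p)
    (hO : ∀ (k : ℕ) (z : 𝓞 K), ∃ (u : (𝓞 K)ˣ) (c : ℤ) (w : 𝓞 K),
      1 + ((p : 𝓞 K) ^ w0 * (D' : 𝓞 K)) * z = (c : 𝓞 K) * (u : 𝓞 K) + (p : 𝓞 K) ^ k * w)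
    (e : (𝓞 K)ˣ → ℤ × ℤ) (he : ∀ u v, e (u * v) = e u + e v) (hes : Function.Surjective e)
    (hek : ∀ u, e u = 0 ↔ (u = 1 ∨ u = -1))
    {j : ℕ} (hj1 : 1 ≤ j) (hjw : w0 ≤ j) (u : Additive (𝓞 K)ˣ) (hu : u ∈ leoH K p (j + 1)) :
    ∃ v ∈ leoH K p j, u.toMul = v.toMul ^ p ∨ u.toMul = -v.toMul ^ p := by
  obtain ⟨f, hf⟩ : ∃ f : Additive (𝓞 K)ˣ →+ ℤ × ℤ, ∀ u, f u = e u.toMul :=
    ⟨AddMonoidHom.mk' (fun u => e u.toMul) (fun a b => he a.toMul b.toMul), fun _ => rfl⟩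
  have hfs : Function.Surjective f := by
    intro x
    obtain ⟨u, hu⟩ := hes x
    exact ⟨Additive.ofMul u, by rw [hf]; exact hu⟩
  obtain ⟨g, hg⟩ : ∃ g : ℤ × ℤ →+ ℤ × ℤ, ∀ x, g x = p • x :=
    ⟨nsmulAddMonoidHom p, fun _ => rfl⟩
  have hp0 : (p : ℤ) ≠ 0 := by exact_mod_cast hp.ne_zero
  obtain ⟨P, hP⟩ : ∃ P : AddSubgroup (Additive (𝓞 K)ˣ),
      P = (((leoH K p j).map f).map g).comap f := ⟨_, rfl⟩
  have hPe : ∀ u ∈ P, ∃ v ∈ leoH K p j, u.toMul = v.toMul ^ p ∨ u.toMul = -v.toMul ^ p := by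
    intro u hu
    rw [hP, AddSubgroup.mem_comap] at hu
    obtain ⟨x, ⟨v, hv, rfl⟩, hx⟩ := hu
    refine ⟨v, hv, ?_⟩
    have h1 : f (u - p • v) = 0 := by
      rw [map_sub, map_nsmul, ← hx, hg, sub_self]
    rw [hf, hek] at h1
    have h2 : (u - p • v).toMul = u.toMul * (v.toMul ^ p)⁻¹ := by
      rw [toMul_sub, toMul_nsmul, div_eq_mul_inv]
    rw [h2] at h1
    rcases h1 with h1 | h1
    · left
      exact mul_inv_eq_one.1 h1
    · right
      rw [mul_inv_eq_iff_eq_mul] at h1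
      rw [h1, neg_one_mul]
  have hPH : P ≤ leoH K p (j + 1) := by
    intro u hu
    obtain ⟨v, hv, h1⟩ := hPe u hu
    have h2 := leoA_pow hj1 v hv
    rcases h1 with h1 | h1
    · have h3 : u = p • v := by
        apply Additive.toMul.injective
        rw [toMul_nsmul]
        exact h1
      rw [h3]
      exact h2
    · have h3 : u = Additive.ofMul (-1 : (𝓞 K)ˣ) + p • v := by
        apply Additive.toMul.injective
        rw [toMul_add, toMul_nsmul, toMul_ofMul, neg_one_mul]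
        exact h1
      rw [h3]
      exact AddSubgroup.add_mem _ leoA_neg_one h2
  have hker : f.ker ≤ leoH K p j := by
    intro u hu
    rw [AddMonoidHom.mem_ker, hf, hek] at hu
    rcases hu with hu | hu
    · have h3 : u = 0 := Additive.toMul.injective hu
      rw [h3]
      exact AddSubgroup.zero_mem _
    · have h3 : u = Additive.ofMul (-1 : (𝓞 K)ˣ) := Additive.toMul.injective hu
      rw [h3]
      exact leoA_neg_one
  have hgk : g.ker = ⊥ := by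
    rw [eq_bot_iff]
    intro x hx
    rw [AddMonoidHom.mem_ker, hg] at hx
    rw [AddSubgroup.mem_bot]
    have h1 : (p : ℤ) * x.1 = 0 := by
      have := congrArg Prod.fst hx
      simpa using this
    have h2 : (p : ℤ) * x.2 = 0 := by
      have := congrArg Prod.snd hx
      simpa using this
    exact Prod.ext ((mul_eq_zero.1 h1).resolve_left hp0) ((mul_eq_zero.1 h2).resolve_left hp0)
  have hgr : g.range = (AddSubgroup.zmultiples (p : ℤ)).prod (AddSubgroup.zmultiples (p : ℤ)) := by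
    ext x
    rw [AddSubgroup.mem_prod, AddSubgroup.mem_zmultiples_iff, AddSubgroup.mem_zmultiples_iff,
      AddMonoidHom.mem_range]
    constructor
    · rintro ⟨y, rfl⟩
      rw [hg]
      exact ⟨⟨y.1, by simp [mul_comm]⟩, ⟨y.2, by simp [mul_comm]⟩⟩
    · rintro ⟨⟨a, ha⟩, ⟨b, hb⟩⟩
      refine ⟨(a, b), ?_⟩
      rw [hg]
      refine Prod.ext ?_ ?_
      · rw [← ha]
        simp [mul_comm]
      · rw [← hb]
        simp [mul_comm]
  have hidx : P.index = (leoH K p j).index * p ^ 2 := by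
    rw [hP, AddSubgroup.index_comap_of_surjective _ hfs, AddSubgroup.index_map, hgk, sup_bot_eq,
      AddSubgroup.index_map_eq _ hfs hker, hgr, AddSubgroup.index_prod, Int.index_zmultiples,
      Int.natAbs_natCast, sq]
  have hHle : leoH K p (j + 1) ≤ leoH K p j := by
    rintro x ⟨c, v, hcv⟩
    exact ⟨c, (p : 𝓞 K) * v, by rw [hcv]; ring⟩
  have hrel := leoA_rel hK hp hD' hO hj1 hjw
  have h1 := AddSubgroup.relIndex_mul_index hHle
  have h2 := AddSubgroup.relIndex_mul_index hPH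
  have hfin1 := leoH_fin (K := K) hp (j + 1)
  have hi0 : (leoH K p (j + 1)).index ≠ 0 := by
    have h3 : (leoH K p (j + 1)).FiniteIndex := AddSubgroup.finiteIndex_of_finite_quotient
    exact h3.index_ne_zero
  have h4 : P.relIndex (leoH K p (j + 1)) * (leoH K p (j + 1)).index ≤
      (leoH K p (j + 1)).index := by
    rw [h2, hidx, ← h1, mul_comm]
    exact Nat.mul_le_mul_right _ hrel
  have h5 : P.relIndex (leoH K p (j + 1)) ≤ 1 := by
    by_contra hc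
    push Not at hc
    have h6 : 2 * (leoH K p (j + 1)).index ≤
        P.relIndex (leoH K p (j + 1)) * (leoH K p (j + 1)).index := Nat.mul_le_mul_right _ hc
    omega
  have hi1 : (leoH K p j).index ≠ 0 := by
    intro hc
    rw [hc, mul_zero] at h1
    exact hi0 h1.symm
  have h7 : P.relIndex (leoH K p (j + 1)) ≠ 0 := by
    intro hc
    rw [hc, zero_mul, hidx] at h2
    rcases mul_eq_zero.1 h2.symm with h3 | h3
    · exact hi1 h3
    · exact hp.ne_zero (pow_eq_zero_iff two_ne_zero |>.1 h3)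
  have h8 : P.relIndex (leoH K p (j + 1)) = 1 := by omega
  exact hPe u (AddSubgroup.relIndex_eq_one.1 h8 hu)

end LeoA

/-- Openness of the units modulo scalars implies Leopoldt's conjecture. -/
theorem leopoldt_of_open (K : Type*) [Field K] [NumberField K] (hK : Module.finrank ℚ K = 3)
    (σ : Fin 3 → K →+* ℝ) (hσ : Function.Injective σ) (p : ℕ) (hp : p.Prime)
    (h : UnitsOpen (𝓞 K) (p : ℤ)) : LeopoldtAt K p := by
  obtain ⟨e, he, hes, hek⟩ := exists_exponents K hK σ hσ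
  obtain ⟨D, hD, hO⟩ := h
  have hpp : Prime (p : ℤ) := Nat.prime_iff_prime_int.1 hp
  obtain ⟨w0, D', hDD, hpD⟩ : ∃ (w0 : ℕ) (D' : ℤ), D = (p : ℤ) ^ w0 * D' ∧ IsCoprime D' p := by
    have h1 : FiniteMultiplicity (p : ℤ) D := Int.finiteMultiplicity_iff.2
      ⟨by rw [Int.natAbs_natCast]; exact hp.one_lt.ne', hD⟩
    obtain ⟨D', h2, h3⟩ := h1.exists_eq_pow_mul_and_not_dvd
    exact ⟨_, D', h2, (isCoprime_comm).1 ((hpp.coprime_iff_not_dvd).2 h3)⟩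
  have hO' : ∀ (k : ℕ) (z : 𝓞 K), ∃ (u : (𝓞 K)ˣ) (c : ℤ) (w : 𝓞 K),
      1 + ((p : 𝓞 K) ^ w0 * (D' : 𝓞 K)) * z = (c : 𝓞 K) * (u : 𝓞 K) + (p : 𝓞 K) ^ k * w := by
    intro k z
    obtain ⟨u, c, w, huw⟩ := hO k z
    refine ⟨u, c, w, ?_⟩
    rw [hDD] at huw
    push_cast at huw
    exact huw
  -- descent
  have hdesc : ∀ k : ℕ, ∀ u : Additive (𝓞 K)ˣ, u ∈ leoH K p (w0 + 2 + k) →
      ∃ v ∈ leoH K p (w0 + 2), u.toMul = v.toMul ^ (p ^ k) ∨ u.toMul = -v.toMul ^ (p ^ k) := by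
    intro k
    induction k with
    | zero =>
      intro u hu
      exact ⟨u, hu, Or.inl (by simp)⟩
    | succ k ih =>
      intro u hu
      obtain ⟨v, hv, h1⟩ := leoA_step hK hp hpD hO' e he hes hek (j := w0 + 2 + k) (by omega)
        (by omega) u hu
      obtain ⟨x, hx, h2⟩ := ih v hv
      refine ⟨x, hx, ?_⟩
      have h3 : ∀ y : (𝓞 K)ˣ, (-y) ^ p = y ^ p ∨ (-y) ^ p = -y ^ p := by
        intro y
        rcases Nat.even_or_odd p with hpe | hpo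
        · left
          exact hpe.neg_pow y
        · right
          exact hpo.neg_pow y
      have h4 : v.toMul ^ p = x.toMul ^ (p ^ (k + 1)) ∨ v.toMul ^ p = -x.toMul ^ (p ^ (k + 1)) := by
        rcases h2 with h2 | h2
        · left
          rw [h2, ← pow_mul, pow_succ]
        · rw [h2]
          rcases h3 (x.toMul ^ (p ^ k)) with h5 | h5
          · left
            rw [h5, ← pow_mul, pow_succ]
          · right
            rw [h5, ← pow_mul, pow_succ]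
      rcases h1 with h1 | h1
      · rw [h1]
        exact h4
      · rw [h1]
        rcases h4 with h4 | h4
        · right
          rw [h4]
        · left
          rw [h4, neg_neg]
  intro k
  refine ⟨w0 + 2 + k, fun u hu => ?_⟩
  obtain ⟨y, hy⟩ := hu
  have hmem : Additive.ofMul u ∈ leoH K p (w0 + 2 + k) := by
    refine ⟨1, y, ?_⟩
    rw [toMul_ofMul, ← hy]
    push_cast
    ring
  obtain ⟨v, ⟨c, y', hcy⟩, h1⟩ := hdesc k _ hmem
  rw [toMul_ofMul] at h1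
  rcases h1 with h1 | h1
  · exact ⟨v.toMul, h1.symm⟩
  · rcases Nat.even_or_odd p with hpe | hpo
    · have hp2 : p = 2 := (hp.even_iff).1 hpe
      subst hp2
      rcases Nat.eq_zero_or_pos k with hk | hk
      · subst hk
        exact ⟨u, by simp⟩
      · exfalso
        -- `v = c + 4 y''`, `c` odd
        have h2 : IsCoprime c ((2 : ℕ) : ℤ) := by
          have h3 := leoA_coprime (Units.isUnit _) hcy
          exact h3.of_isCoprime_of_dvd_right (dvd_pow_self _ (by omega))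
        obtain ⟨d, hd⟩ : ∃ d, c = 2 * d + 1 := by
          have h3 : ¬ (2 : ℤ) ∣ c := by
            intro h4
            have h5 := h2.isUnit_of_dvd' h4 (by norm_num)
            exact absurd (Int.isUnit_iff_natAbs_eq.1 h5) (by norm_num)
          exact ⟨c / 2, by omega⟩
        have h4 : ∃ x : 𝓞 K, ((v.toMul : (𝓞 K)ˣ) : 𝓞 K) ^ 2 = 1 + 4 * x := by
          refine ⟨(d : 𝓞 K) ^ 2 + d + 2 * c * 2 ^ w0 * y' + 4 * (2 ^ w0 * y') ^ 2, ?_⟩
          rw [hcy, hd]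
          push_cast
          ring
        obtain ⟨x, hx⟩ := h4
        have h5 : ∀ n : ℕ, ∃ x' : 𝓞 K, (1 + 4 * x) ^ n = (1 : 𝓞 K) + 4 * x' := by
          intro n
          induction n with
          | zero => exact ⟨0, by simp⟩
          | succ n ih =>
            obtain ⟨x', hx'⟩ := ih
            exact ⟨x' + x + 4 * x' * x, by rw [pow_succ, hx']; ring⟩
        obtain ⟨x', hx'⟩ := h5 (2 ^ (k - 1))
        have h6 : ((v.toMul : (𝓞 K)ˣ) : 𝓞 K) ^ (2 ^ k) = 1 + 4 * x' := by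
          rw [← hx', ← hx, ← pow_mul]
          congr 1
          obtain ⟨k', rfl⟩ : ∃ k', k = k' + 1 := ⟨k - 1, by omega⟩
          rw [Nat.add_sub_cancel, pow_succ, mul_comm]
        have h7 : (u : 𝓞 K) = -(1 + 4 * x') := by
          rw [h1, Units.val_neg, Units.val_pow_eq_pow_val, h6]
        apply leoA_not_unit (K := K) hp
        refine IsUnit.of_mul_eq_one (-(x' + 2 ^ (w0 + k) * y)) ?_
        have h8 : (2 : 𝓞 K) ≠ 0 := two_ne_zero
        apply mul_left_cancel₀ h8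
        rw [h7] at hy
        push_cast at hy ⊢
        have h9 : (2 : 𝓞 K) ^ (w0 + 2 + k) = 4 * 2 ^ (w0 + k) := by ring
        rw [h9] at hy
        linear_combination hy
    · exact ⟨-v.toMul, by rw [(hpo.pow).neg_pow, h1]⟩

end Pool.Agent.MP_ca7d12_nt
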