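import Pool.Agent.Lib.MP_ca7d12_nt.H.Defs
import Pool.Agent.Lib.MP_ca7d12_nt.H.Rank
import Pool.Agent.Lib.MP_ca7d12_nt.H.Ball
import Pool.Agent.Lib.MP_ca7d12_nt.ExistsUnit
import Pool.Agent.Lib.MP_ca7d12_nt.ExistsLevel
import Pool.Agent.Lib.MP_ca7d12_nt.SpanIndep
import Pool.Agent.Lib.MP_ca7d12_nt.CycAlg

set_option autoImplicit false

namespace Pool.Agent.MP_ca7d12_nt

open NumberField

namespace LeoB

variable {R : Type*} [CommRing R]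

/-- The `p ^ k`-th power of a unit of level `D`, `p ^ 2 ∣ D`, has level `D p ^ k`, with the same
direction modulo `p`. -/
theorem level (hR : ∀ q : ℤ, IsUnit (q : R) → IsUnit q) (p : ℕ) (D : ℤ)
    (hPD : (p : ℤ) ^ 2 ∣ D) (η : Rˣ) (c : ℤ) (v : R)
    (h : (η : R) = (c : R) + (D : R) * v) (k : ℕ) :
    ∃ (c' r : ℤ) (y : R),
      ((η ^ (p ^ k) : Rˣ) : R) =
        (c' : R) + (D : R) * (p : R) ^ k * ((r : R) * v + (p : R) * y) ∧
      IsCoprime c' D ∧ IsCoprime r (p : ℤ) := by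
  induction k with
  | zero =>
    refine ⟨c, 1, 0, by rw [pow_zero, pow_one, h]; push_cast; ring, ?_, isCoprime_one_left⟩
    exact UnitsA.coprime_of_unit hR c D (η : R) v η.isUnit ⟨1, by rw [h]; ring⟩
  | succ k ih =>
    obtain ⟨c', r, y, h1, h2, h3⟩ := ih
    obtain ⟨D', hD'⟩ := hPD
    obtain ⟨Y, hY⟩ : ∃ Y : R, Y = (r : R) * v + (p : R) * y := ⟨_, rfl⟩
    rw [← hY] at h1
    obtain ⟨e, he⟩ := Polynomial.powAddExpansion (c' : R) ((D : R) * (p : R) ^ k * Y) p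
    have hcP : IsCoprime c' (p : ℤ) := h2.of_isCoprime_of_dvd_right
      (Dvd.dvd.trans (dvd_pow_self (p : ℤ) two_ne_zero) ⟨D', hD'⟩)
    refine ⟨c' ^ p, c' ^ (p - 1) * r, (c' : R) ^ (p - 1) * y +
      e * (D' : R) * (p : R) ^ k * Y ^ 2, ?_, h2.pow_left, (hcP.pow_left).mul_left h3⟩
    rw [pow_succ, pow_mul, Units.val_pow_eq_pow_val, h1, he, hD']
    push_cast
    rw [hY]
    ring

theorem comb {p : ℕ} (hp : p.Prime) {a b : ℤ} {v₁ v₂ : R} (hv₂ : ¬ CycAlg.Sc p v₂)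
    (hab : ¬ ((p : ℤ) ∣ a ∧ (p : ℤ) ∣ b)) (h : CycAlg.Sc p ((a : R) * v₁ + (b : R) * v₂))
    (c c' : ℤ) (hc : IsCoprime c (p : ℤ)) :
    ∃ s : ℕ, CycAlg.Sc p ((c' : R) * v₁ + ((s + 1 : ℕ) : R) * (c : R) * v₂) := by
  obtain ⟨i, w, hiw⟩ := h
  have ha : ¬ (p : ℤ) ∣ a := by
    rintro ⟨a', ha'⟩
    have hb : ¬ (p : ℤ) ∣ b := fun hb => hab ⟨⟨a', ha'⟩, hb⟩
    refine hv₂ (CycAlg.Sc.of_mul (CycAlg.coprime_of_not_dvd hp hb)
      ⟨i, w - (a' : R) * v₁, ?_⟩)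
    rw [ha'] at hiw
    push_cast at hiw
    linear_combination hiw
  obtain ⟨x, y, hxy⟩ := CycAlg.coprime_of_not_dvd hp ha
  obtain ⟨x', y', hxy'⟩ := hc
  obtain ⟨s, m, hs⟩ : ∃ (s : ℕ) (m : ℤ), (s : ℤ) + 1 = c' * x * b * x' + p * m := by
    have hp0 : (p : ℤ) ≠ 0 := by exact_mod_cast hp.ne_zero
    refine ⟨((c' * x * b * x' - 1) % p).toNat, -((c' * x * b * x' - 1) / p), ?_⟩
    rw [Int.toNat_of_nonneg (Int.emod_nonneg _ hp0)]
    have := Int.emod_add_mul_ediv (c' * x * b * x' - 1) p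
    linarith
  refine ⟨s, c' * x * i, (c' : R) * (x : R) * w + (c' : R) * (y : R) * v₁ +
    ((m : R) * (c : R) - (c' : R) * (x : R) * (b : R) * (y' : R)) * v₂, ?_⟩
  have e1 : (x : R) * (a : R) + (y : R) * (p : R) = 1 := by
    have := congrArg (fun z : ℤ => (z : R)) hxy
    simpa using this
  have e2 : (x' : R) * (c : R) + (y' : R) * (p : R) = 1 := by
    have := congrArg (fun z : ℤ => (z : R)) hxy'
    simpa using this
  have e3 : (s : R) + 1 = (c' : R) * x * b * x' + p * m := by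
    have := congrArg (fun z : ℤ => (z : R)) hs
    push_cast at this
    exact this
  push_cast
  rw [e3]
  linear_combination (c' : R) * (x : R) * hiw - (c' : R) * v₁ * e1 +
    (c' : R) * (x : R) * (b : R) * v₂ * e2

theorem step {p : ℕ} {D : ℤ} (hpD : (p : ℤ) ∣ D) {x y : R} {c c' : ℤ} {v₁ v₂ : R}
    (hx : x = (c : R) + (D : R) * v₁) (hy : y = (c' : R) + (D : R) * v₂) (s : ℕ)
    (h : CycAlg.Sc p ((c' : R) * v₁ + ((s + 1 : ℕ) : R) * (c : R) * v₂)) :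
    ∃ (c'' : ℤ) (v : R), x * y ^ (s + 1) = (c'' : R) + ((D * p : ℤ) : R) * v := by
  obtain ⟨i, w, hiw⟩ := h
  obtain ⟨D', hD'⟩ := hpD
  obtain ⟨e, he⟩ := Polynomial.powAddExpansion (c' : R) ((D : R) * v₂) (s + 1)
  rw [Nat.add_sub_cancel] at he
  refine ⟨c * c' ^ (s + 1) + D * c' ^ s * i, (c' : R) ^ s * w + (D' : R) *
    (((s + 1 : ℕ) : R) * (c' : R) ^ s * v₁ * v₂ + (c : R) * e * v₂ ^ 2 +
      (D : R) * e * v₁ * v₂ ^ 2), ?_⟩
  rw [hx, hy, he]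
  have e1 : (D : R) = (p : R) * (D' : R) := by rw [hD']; push_cast; ring
  push_cast at hiw ⊢
  linear_combination (D : R) * (c' : R) ^ s * hiw + (D : R) *
    (((s : R) + 1) * (c' : R) ^ s * v₁ * v₂ + (c : R) * e * v₂ ^ 2 +
      (D : R) * e * v₁ * v₂ ^ 2) * e1

/-- Successive approximation by powers of `h`. -/
theorem approx (hR : ∀ q : ℤ, IsUnit (q : R) → IsUnit q) {p : ℕ} (hp : p.Prime) {D : ℤ}
    (hPD : (p : ℤ) ^ 2 ∣ D) {h : Rˣ} {c₀ : ℤ} {v₀ : R} (hh : (h : R) = (c₀ : R) + (D : R) * v₀)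
    (hv₀ : ¬ CycAlg.Sc p v₀)
    (hneg : ∀ (k : ℕ) (u₁ u₂ : Rˣ) (c₁ c₂ : ℤ) (v₁ v₂ : R),
      (u₁ : R) = (c₁ : R) + ((D * p ^ k : ℤ) : R) * v₁ →
      (u₂ : R) = (c₂ : R) + ((D * p ^ k : ℤ) : R) * v₂ →
      ∃ a b : ℤ, ¬ ((p : ℤ) ∣ a ∧ (p : ℤ) ∣ b) ∧ CycAlg.Sc p ((a : R) * v₁ + (b : R) * v₂))
    (g : Rˣ) (hg : ∃ (c : ℤ) (v : R), (g : R) = (c : R) + (D : R) * v) (k : ℕ) :
    ∃ (a : ℕ) (c : ℤ) (v : R),
      ((g * h ^ a : Rˣ) : R) = (c : R) + ((D * p ^ k : ℤ) : R) * v := by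
  have hpD : (p : ℤ) ∣ D := Dvd.dvd.trans (dvd_pow_self (p : ℤ) two_ne_zero) hPD
  induction k with
  | zero =>
    obtain ⟨c, v, h1⟩ := hg
    exact ⟨0, c, v, by rw [pow_zero, mul_one, h1, pow_zero, mul_one]⟩
  | succ k ih =>
    obtain ⟨a, c, v₁, h1⟩ := ih
    obtain ⟨c', r, y, h2, h3, h4⟩ := level hR p D hPD h c₀ v₀ hh k
    have h2' : ((h ^ (p ^ k) : Rˣ) : R) = (c' : R) + ((D * p ^ k : ℤ) : R) *
        ((r : R) * v₀ + (p : R) * y) := by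
      rw [h2]
      push_cast
      ring
    have hv₂ : ¬ CycAlg.Sc p ((r : R) * v₀ + (p : R) * y) := by
      rintro ⟨i, w, hiw⟩
      exact hv₀ (CycAlg.Sc.of_mul h4 ⟨i, w - y, by linear_combination hiw⟩)
    obtain ⟨a', b', hab, hsc⟩ := hneg k _ _ _ _ _ _ h1 h2'
    have hc : IsCoprime c (p : ℤ) := by
      have h5 : IsCoprime c (D * p ^ k : ℤ) :=
        UnitsA.coprime_of_unit hR c (D * p ^ k : ℤ) ((g * h ^ a : Rˣ) : R) v₁
          (Units.isUnit _) ⟨1, by rw [h1]; ring⟩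
      exact h5.of_isCoprime_of_dvd_right (hpD.mul_right _)
    obtain ⟨s, hs⟩ := comb hp hv₂ hab hsc c c' hc
    obtain ⟨c'', v, h6⟩ := step (hpD.mul_right ((p : ℤ) ^ k)) h1 h2' s hs
    refine ⟨a + p ^ k * (s + 1), c'', v, ?_⟩
    have e1 : g * h ^ (a + p ^ k * (s + 1)) = (g * h ^ a) * (h ^ (p ^ k)) ^ (s + 1) := by
      rw [pow_add, pow_mul, mul_assoc]
    rw [e1, Units.val_mul, Units.val_pow_eq_pow_val, h6, pow_succ, mul_assoc]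

/-- The norm of `c + n v` is `c ^ 3` modulo `n`. -/
theorem norm_congr (K : Type*) [Field K] [NumberField K] (hK : Module.finrank ℚ K = 3)
    (c : ℤ) (n : ℕ) (v : 𝓞 K) :
    (n : ℤ) ∣ Algebra.norm ℤ ((c : 𝓞 K) + (n : 𝓞 K) * v) - c ^ 3 := by
  classical
  have hcard : Fintype.card (Module.Free.ChooseBasisIndex ℤ (𝓞 K)) = 3 := by
    rw [← Module.finrank_eq_card_chooseBasisIndex, RingOfIntegers.rank, hK]
  obtain ⟨b, hb⟩ : ∃ b : Module.Basis (Module.Free.ChooseBasisIndex ℤ (𝓞 K)) ℤ (𝓞 K),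
      b = RingOfIntegers.basis K := ⟨_, rfl⟩
  rw [Algebra.norm_eq_matrix_det b]
  have h1 : (Int.castRingHom (ZMod n)) (Algebra.leftMulMatrix b ((c : 𝓞 K) + (n : 𝓞 K) * v)).det =
      (Int.castRingHom (ZMod n)) (c ^ 3) := by
    rw [RingHom.map_det]
    have h2 : (Int.castRingHom (ZMod n)).mapMatrix
        (Algebra.leftMulMatrix b ((c : 𝓞 K) + (n : 𝓞 K) * v)) =
        ((c : ZMod n)) • (1 : Matrix _ _ (ZMod n)) := by
      have h3 : (c : 𝓞 K) + (n : 𝓞 K) * v = c • (1 : 𝓞 K) + (n : ℤ) • v := by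
        rw [zsmul_eq_mul, zsmul_eq_mul, mul_one]
        push_cast
        rfl
      rw [h3, map_add, map_smul, map_smul, map_one]
      ext i j
      have h5 : (Int.castRingHom (ZMod n)) ((n : ℕ) : ℤ) = 0 := by simp
      rw [RingHom.mapMatrix_apply, Matrix.map_apply, Matrix.add_apply, Matrix.smul_apply,
        Matrix.smul_apply, Matrix.smul_apply, smul_eq_mul, smul_eq_mul, smul_eq_mul, map_add,
        map_mul, map_mul, h5, zero_mul, add_zero, Matrix.one_apply, Matrix.one_apply]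
      split_ifs with hij
      · simp
      · simp
    rw [h2, Matrix.det_smul, Matrix.det_one, mul_one, hcard]
    simp
  rw [← ZMod.intCast_zmod_eq_zero_iff_dvd, Int.cast_sub, sub_eq_zero]
  exact h1

/-- The sixth power of a unit which is an integer modulo `n` is `1` modulo `n`. -/
theorem pow_six (K : Type*) [Field K] [NumberField K] (hK : Module.finrank ℚ K = 3)
    (u : (𝓞 K)ˣ) (c : ℤ) (n : ℕ) (v : 𝓞 K) (h : (u : 𝓞 K) = (c : 𝓞 K) + (n : 𝓞 K) * v) :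
    (n : 𝓞 K) ∣ ((u ^ 6 : (𝓞 K)ˣ) : 𝓞 K) - 1 := by
  obtain ⟨t, ht⟩ := norm_congr K hK c n v
  rw [← h] at ht
  have h1 : IsUnit (Algebra.norm ℤ (u : 𝓞 K)) := (Units.isUnit u).map _
  have h2 : Algebra.norm ℤ (u : 𝓞 K) ^ 2 = 1 := by
    rcases Int.isUnit_iff.1 h1 with h3 | h3 <;> rw [h3] <;> norm_num
  have h4 : (n : ℤ) ∣ c ^ 6 - 1 := by
    refine ⟨-t * (c ^ 3 + Algebra.norm ℤ (u : 𝓞 K)), ?_⟩
    linear_combination -(c ^ 3 + Algebra.norm ℤ (u : 𝓞 K)) * ht + h2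
  have h5 : (n : 𝓞 K) ∣ (c : 𝓞 K) ^ 6 - 1 := by
    obtain ⟨r, hr⟩ := h4
    refine ⟨(r : 𝓞 K), ?_⟩
    have := congrArg (fun z : ℤ => (z : 𝓞 K)) hr
    push_cast at this
    exact this
  have h6 : (n : 𝓞 K) ∣ (u : 𝓞 K) ^ 6 - (c : 𝓞 K) ^ 6 :=
    Dvd.dvd.trans ⟨v, by rw [h]; ring⟩ (sub_dvd_pow_sub_pow (u : 𝓞 K) (c : 𝓞 K) 6)
  rw [Units.val_pow_eq_pow_val]
  have h7 := dvd_add h6 h5
  rwa [sub_add_sub_cancel] at h7

/-- A common power of all units is `1` modulo `D`. -/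
theorem exists_exponent (K : Type*) [Field K] [NumberField K] (D : ℤ) (hD : D ≠ 0) :
    ∃ m : ℕ, 0 < m ∧ ∀ u : (𝓞 K)ˣ, ∃ w : 𝓞 K,
      ((u ^ m : (𝓞 K)ˣ) : 𝓞 K) = 1 + (D : 𝓞 K) * w := by
  classical
  have hI : Ideal.span {(D : 𝓞 K)} ≠ ⊥ := by
    rw [Ne, Ideal.span_singleton_eq_bot]
    exact_mod_cast hD
  have hfin : Finite (𝓞 K ⧸ Ideal.span {(D : 𝓞 K)}) := Ideal.finiteQuotientOfFreeOfNeBot _ hI
  refine ⟨Nat.card (𝓞 K ⧸ Ideal.span {(D : 𝓞 K)})ˣ, Nat.card_pos, fun u => ?_⟩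
  have hun := pow_card_eq_one' (x := Units.map
    (Ideal.Quotient.mk (Ideal.span {(D : 𝓞 K)})).toMonoidHom u)
  have hmem : ((u ^ Nat.card (𝓞 K ⧸ Ideal.span {(D : 𝓞 K)})ˣ : (𝓞 K)ˣ) : 𝓞 K) - 1 ∈
      Ideal.span {(D : 𝓞 K)} := by
    rw [← Ideal.Quotient.eq]
    have h1 := congrArg (fun x : (𝓞 K ⧸ Ideal.span {(D : 𝓞 K)})ˣ =>
      (x : 𝓞 K ⧸ Ideal.span {(D : 𝓞 K)})) hun
    simp only [Units.val_pow_eq_pow_val, Units.val_one] at h1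
    rw [map_one, Units.val_pow_eq_pow_val, map_pow]
    exact h1
  obtain ⟨w, hw⟩ := Ideal.mem_span_singleton'.mp hmem
  exact ⟨w, by rw [mul_comm, hw]; ring⟩

end LeoB

/-- Leopoldt's conjecture implies openness of the units modulo scalars. -/
theorem open_of_leopoldt (K : Type*) [Field K] [NumberField K] (hK : Module.finrank ℚ K = 3)
    (σ : Fin 3 → K →+* ℝ) (hσ : Function.Injective σ) (p : ℕ) (hp : p.Prime)
    (h : LeopoldtAt K p) : UnitsOpen (𝓞 K) (p : ℤ) := by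
  classical
  have hR : ∀ q : ℤ, IsUnit (q : 𝓞 K) → IsUnit q := isUnit_of_isUnit_intCast K
  have hp0 : (p : ℤ) ≠ 0 := by exact_mod_cast hp.ne_zero
  obtain ⟨e, he, hsurj, -⟩ := exists_exponents K hK σ hσ
  have hone : e 1 = 0 := by
    have h1 := he 1 1
    rw [mul_one] at h1
    exact left_eq_add.1 h1
  have hpow : ∀ (u : (𝓞 K)ˣ) (n : ℕ), e (u ^ n) = n • e u := by
    intro u n
    induction n with
    | zero => rw [pow_zero, zero_smul, hone]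
    | succ n ih => rw [pow_succ, he, ih, succ_nsmul]
  obtain ⟨η, hη⟩ := exists_unit K hK σ hσ
  obtain ⟨η', c₀, D, v₀, hD, hfD, hη', hprim⟩ := exists_level K η hη ((p : ℤ) ^ 2)
    (pow_ne_zero 2 hp0)
  have hv₀ : ¬ CycAlg.Sc p v₀ := by
    rintro ⟨i, w, hiw⟩
    exact hprim p hp i w hiw
  by_cases hneg : ∀ (k : ℕ) (u₁ u₂ : (𝓞 K)ˣ) (c₁ c₂ : ℤ) (v₁ v₂ : 𝓞 K),
      (u₁ : 𝓞 K) = (c₁ : 𝓞 K) + ((D * p ^ k : ℤ) : 𝓞 K) * v₁ →
      (u₂ : 𝓞 K) = (c₂ : 𝓞 K) + ((D * p ^ k : ℤ) : 𝓞 K) * v₂ →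
      ∃ a b : ℤ, ¬ ((p : ℤ) ∣ a ∧ (p : ℤ) ∣ b) ∧
        CycAlg.Sc p ((a : 𝓞 K) * v₁ + (b : 𝓞 K) * v₂)
  · exfalso
    obtain ⟨m, hm, hmu⟩ := LeoB.exists_exponent K D hD
    obtain ⟨N, hN⟩ := h (36 * m ^ 2)
    have key : ∀ g : (𝓞 K)ˣ, ∃ (a : ℕ) (w : (𝓞 K)ˣ),
        (p ^ (36 * m ^ 2)) • e w = 6 • (m • e g + a • e η') := by
      intro g
      obtain ⟨w₀, hw₀⟩ := hmu g
      obtain ⟨a, c, v, h1⟩ := LeoB.approx hR hp hfD hη' hv₀ hneg (g ^ m)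
        ⟨1, w₀, by rw [hw₀]; push_cast; ring⟩ N
      have h2 : ((g ^ m * η' ^ a : (𝓞 K)ˣ) : 𝓞 K) = (c : 𝓞 K) + ((p ^ N : ℕ) : 𝓞 K) *
          ((D : 𝓞 K) * v) := by
        rw [h1]
        push_cast
        ring
      have h3 := LeoB.pow_six K hK _ c (p ^ N) _ h2
      rw [Nat.cast_pow] at h3
      obtain ⟨w, hw⟩ := hN _ h3
      refine ⟨a, w, ?_⟩
      rw [← hpow, hw, hpow, he, hpow, hpow]
    obtain ⟨g₁, hg₁⟩ := hsurj (1, 0)
    obtain ⟨g₂, hg₂⟩ := hsurj (0, 1)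
    obtain ⟨a₁, w₁, k₁⟩ := key g₁
    obtain ⟨a₂, w₂, k₂⟩ := key g₂
    rw [hg₁] at k₁
    rw [hg₂] at k₂
    obtain ⟨Q, hQ⟩ : ∃ Q : ℕ, Q = p ^ (36 * m ^ 2) := ⟨_, rfl⟩
    rw [← hQ] at k₁ k₂
    have e1 : (Q : ℤ) * (e w₁).1 = 6 * (m * 1 + a₁ * (e η').1) := by
      have h9 := congrArg Prod.fst k₁
      simp only [Prod.smul_fst, Prod.fst_add] at h9
      simpa only [nsmul_eq_mul, Nat.cast_ofNat] using h9
    have e2 : (Q : ℤ) * (e w₁).2 = 6 * (m * 0 + a₁ * (e η').2) := by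
      have h9 := congrArg Prod.snd k₁
      simp only [Prod.smul_snd, Prod.snd_add] at h9
      simpa only [nsmul_eq_mul, Nat.cast_ofNat] using h9
    have e3 : (Q : ℤ) * (e w₂).1 = 6 * (m * 0 + a₂ * (e η').1) := by
      have h9 := congrArg Prod.fst k₂
      simp only [Prod.smul_fst, Prod.fst_add] at h9
      simpa only [nsmul_eq_mul, Nat.cast_ofNat] using h9
    have e4 : (Q : ℤ) * (e w₂).2 = 6 * (m * 1 + a₂ * (e η').2) := by
      have h9 := congrArg Prod.snd k₂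
      simp only [Prod.smul_snd, Prod.snd_add] at h9
      simpa only [nsmul_eq_mul, Nat.cast_ofNat] using h9
    have h5 : (Q : ℤ) ∣ ((36 * m ^ 2 : ℕ) : ℤ) := by
      refine ⟨(e w₁).1 * (6 * m) - (e w₂).2 * (6 * a₁ * (e η').1) +
        (Q : ℤ) * (e w₁).2 * (e w₂).1, ?_⟩
      push_cast
      linear_combination (-(6 * (m : ℤ))) * e1 + (6 * (a₁ : ℤ) * (e η').1) * e4 -
        (Q : ℤ) * (e w₂).1 * e2 - (6 * (a₁ : ℤ) * (e η').2) * e3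
    have h6 : Q ∣ 36 * m ^ 2 := by exact_mod_cast h5
    have h7 : Q ≤ 36 * m ^ 2 := Nat.le_of_dvd (by positivity) h6
    have h8 : 36 * m ^ 2 < p ^ (36 * m ^ 2) := Nat.lt_pow_self hp.one_lt
    omega
  · push Not at hneg
    obtain ⟨k, u₁, u₂, c₁, c₂, v₁, v₂, h1, h2, h3⟩ := hneg
    have hind : ∀ (i a b : ℤ) (w : 𝓞 K),
        (i : 𝓞 K) + (a : 𝓞 K) * v₁ + (b : 𝓞 K) * v₂ = (p : 𝓞 K) * w →
        (p : ℤ) ∣ i ∧ (p : ℤ) ∣ a ∧ (p : ℤ) ∣ b := by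
      intro i a b w hw
      have hab : (p : ℤ) ∣ a ∧ (p : ℤ) ∣ b := by
        by_contra hcon
        exact h3 a b (fun h4 h5 => hcon ⟨h4, h5⟩) ⟨-i, w, by push_cast; linear_combination hw⟩
      obtain ⟨⟨a', ha'⟩, ⟨b', hb'⟩⟩ := hab
      refine ⟨?_, ⟨a', ha'⟩, ⟨b', hb'⟩⟩
      refine CycAlg.int_dvd hR p hp i (w - (a' : 𝓞 K) * v₁ - (b' : 𝓞 K) * v₂) ?_
      rw [ha', hb'] at hw
      push_cast at hw
      linear_combination hw
    have hspan := fun z => span_of_indep K hK {p} (by simpa using hp) v₁ v₂ (by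
      intro q hq
      rw [Finset.mem_singleton] at hq
      subst hq
      exact hind) z
    simp only [Finset.prod_singleton] at hspan
    refine unitsOpen_of_two hR (p : ℤ) (D * p ^ k) hp0 (mul_ne_zero hD (pow_ne_zero _ hp0))
      (hfD.mul_right _) u₁ u₂ c₁ c₂ v₁ v₂ h1 h2 hspan

end Pool.Agent.MP_ca7d12_nt
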