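import Pool.Agent.Lib.MP_ca7d12_nt.H.Ball
import Pool.Agent.Lib.MP_ca7d12_nt.ExistsUnit

set_option autoImplicit false

namespace Pool.Agent.MP_ca7d12_nt

open NumberField UnitsA

/-- One full level gives openness. -/
theorem open_of_level {R : Type*} [CommRing R] (hR : ∀ q : ℤ, IsUnit (q : R) → IsUnit q)
    (P i : ℕ) (hP : P ≠ 0) (hi : 2 ≤ i)
    (h : ∀ z : R, ∃ (u : Rˣ) (c : ℤ) (w : R),
      1 + ((P ^ i : ℕ) : R) * z = (c : R) * (u : R) + ((P ^ (i + 1) : ℕ) : R) * w) :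
    UnitsOpen R (P : ℤ) := by
  have hi0 : i ≠ 0 := by omega
  refine ⟨((P ^ i : ℕ) : ℤ), by exact_mod_cast pow_ne_zero i hP, fun k z => ?_⟩
  obtain ⟨u, c, w, hu⟩ := fill_ball hR (P ^ i) P
    (fun h2 => by
      have h3 : (2 : ℕ) ^ 2 ∣ P ^ i := (pow_dvd_pow_of_dvd h2 2).trans (pow_dvd_pow P hi)
      simpa using h3)
    (fun p hp hpP => ⟨hpP.trans (dvd_pow_self P hi0), fun z => by
      obtain ⟨e, he⟩ := hpP
      obtain ⟨u, c, w, hu⟩ := h z
      refine ⟨u, c, (e : R) * w, ?_⟩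
      rw [hu, pow_succ]
      have he' : (P : R) = (p : R) * (e : R) := by exact_mod_cast congrArg (Nat.cast : ℕ → R) he
      push_cast
      linear_combination (P : R) ^ i * w * he'⟩)
    (P ^ k) (pow_ne_zero k hP) (fun q hq hqP => hq.dvd_of_dvd_pow hqP) z
  refine ⟨u, c, ((P ^ i : ℕ) : R) * w, ?_⟩
  push_cast at hu ⊢
  linear_combination hu

/-- Openness at a divisor. -/
theorem open_of_dvd {R : Type*} [CommRing R] (P Q : ℤ) (hQ : Q ∣ P) (h : UnitsOpen R P) :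
    UnitsOpen R Q := by
  obtain ⟨D, hD, h⟩ := h
  obtain ⟨e, rfl⟩ := hQ
  refine ⟨D, hD, fun k z => ?_⟩
  obtain ⟨u, c, w, hu⟩ := h k z
  refine ⟨u, c, ((e ^ k : ℤ) : R) * w, ?_⟩
  rw [hu]
  push_cast
  ring

namespace OpenProd

private theorem cpart (a : ℕ) (N : ℕ) (hN : N ≠ 0) :
    ∃ s m q : ℕ, N * m = a ^ s * q ∧ q.Coprime a := by
  induction N using Nat.strong_induction_on with
  | _ N ih =>
    by_cases hc : N.Coprime a
    · exact ⟨0, 1, N, by simp, hc⟩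
    · obtain ⟨p, hp, h1, h2⟩ := Nat.Prime.not_coprime_iff_dvd.1 hc
      obtain ⟨N', rfl⟩ := h1
      obtain ⟨a', ha'⟩ := h2
      have hN' : N' ≠ 0 := right_ne_zero_of_mul hN
      obtain ⟨s, m, q, h3, h4⟩ := ih N' (by
        have := hp.two_le
        have h5 : 0 < N' := Nat.pos_of_ne_zero hN'
        nlinarith) hN'
      refine ⟨s + 1, m * a', q, ?_, h4⟩
      calc p * N' * (m * a') = (N' * m) * (p * a') := by ring
        _ = a ^ s * q * a := by rw [h3, ← ha']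
        _ = a ^ (s + 1) * q := by ring

private theorem pow_two_terms {R : Type*} [CommRing R] (x : R) (n : ℕ) :
    ∃ t : R, (1 + x) ^ n = 1 + (n : R) * x + x ^ 2 * t := by
  induction n with
  | zero => exact ⟨0, by simp⟩
  | succ n ih =>
    obtain ⟨t, ht⟩ := ih
    refine ⟨(n : R) + t * (1 + x), ?_⟩
    rw [pow_succ, ht]
    push_cast
    ring

private theorem pow_add_dvd {R : Type*} [CommRing R] (x y : R) (n : ℕ) :
    ∃ t : R, (x + y) ^ n = x ^ n + y * t := by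
  have h1 : y ∣ (x + y) ^ n - x ^ n := by
    have h2 := sub_dvd_pow_sub_pow (x + y) x n
    rwa [add_sub_cancel_left] at h2
  obtain ⟨t, ht⟩ := h1
  exact ⟨t, by rw [← ht]; ring⟩

private theorem level {R : Type*} [CommRing R] (a b e0 : ℕ) (he0 : e0 ≠ 0)
    (he : ∀ u : Rˣ, (b : R) ∣ (u : R) ^ e0 - 1) (h : UnitsOpen R (a : ℤ)) :
    ∃ i0 : ℕ, ∀ i : ℕ, i0 ≤ i → ∀ z : R, ∃ (u : Rˣ) (c : ℤ),
      (a : R) ^ (i + 1) ∣ 1 + ((a : R) * b) ^ i * z - c * u ∧ (b : R) ^ (i + 1) ∣ (u : R) - 1 := by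
  obtain ⟨D, hD, h⟩ := h
  obtain ⟨d, hd0, hd⟩ : ∃ d : ℕ, d ≠ 0 ∧ (D = d ∨ D = -d) :=
    ⟨D.natAbs, Int.natAbs_ne_zero.2 hD, Int.natAbs_eq D⟩
  obtain ⟨s, m, q, h1, h2⟩ := cpart a (e0 * d) (mul_ne_zero he0 hd0)
  have h' : ∀ (k : ℕ) (z : R), ∃ (u : Rˣ) (c : ℤ) (w : R),
      1 + (d : R) * z = (c : R) * (u : R) + (a : R) ^ k * w := by
    intro k z
    rcases hd with h3 | h3
    · obtain ⟨u, c, w, hu⟩ := h k z
      refine ⟨u, c, w, ?_⟩
      rw [h3] at hu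
      push_cast at hu
      exact hu
    · obtain ⟨u, c, w, hu⟩ := h k (-z)
      refine ⟨u, c, w, ?_⟩
      rw [h3] at hu
      push_cast at hu
      rw [← hu]
      ring
  obtain ⟨q', l, hq⟩ : ∃ q' l : ℤ, (q : ℤ) * q' = 1 + a * l := by
    have h4 : IsCoprime (q : ℤ) (a : ℤ) := Nat.isCoprime_iff_coprime.2 h2
    obtain ⟨x, y, hxy⟩ := h4
    exact ⟨x, -y, by linear_combination hxy⟩
  refine ⟨2 * s + 1, fun i hi z => ?_⟩
  obtain ⟨u0, c0, w0, hu0⟩ := h' (i + 1) ((m : R) * (a : R) ^ (i - s) * (q' : R) * z)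
  set e := e0 * b ^ i with hedef
  obtain ⟨t1, ht1⟩ := pow_two_terms ((d : R) * ((m : R) * (a : R) ^ (i - s) * (q' : R) * z)) e
  obtain ⟨t2, ht2⟩ := pow_add_dvd ((c0 : R) * (u0 : R)) ((a : R) ^ (i + 1) * w0) e
  rw [← hu0, ht1] at ht2
  refine ⟨u0 ^ e, c0 ^ e, ?_, ?_⟩
  · have hN : (e0 : R) * (d : R) * (m : R) = (a : R) ^ s * (q : R) := by
      have := congrArg (Nat.cast : ℕ → R) h1
      push_cast at this
      exact this
    have hq' : (q : R) * (q' : R) = 1 + (a : R) * (l : R) := by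
      have := congrArg (Int.cast : ℤ → R) hq
      push_cast at this
      exact this
    have ha1 : (a : R) ^ (i - s) * (a : R) ^ s = (a : R) ^ i := by
      rw [← pow_add]
      congr 1
      omega
    have ha2 : ((a : R) ^ (i - s)) ^ 2 = (a : R) ^ (i + 1) * (a : R) ^ (i - 2 * s - 1) := by
      rw [← pow_mul, ← pow_add]
      congr 1
      omega
    have heX : (e : R) * ((d : R) * ((m : R) * (a : R) ^ (i - s) * (q' : R) * z)) =
        ((a : R) * b) ^ i * z + (a : R) ^ (i + 1) * ((b : R) ^ i * l * z) := by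
      rw [hedef]
      push_cast
      calc (e0 : R) * (b : R) ^ i * ((d : R) * ((m : R) * (a : R) ^ (i - s) * (q' : R) * z))
          = ((e0 : R) * (d : R) * (m : R)) * (b : R) ^ i * (a : R) ^ (i - s) *
            (q' : R) * z := by ring
        _ = ((a : R) ^ (i - s) * (a : R) ^ s) * ((q : R) * (q' : R)) * (b : R) ^ i * z := by
            rw [hN]
            ring
        _ = ((a : R) * b) ^ i * z + (a : R) ^ (i + 1) * ((b : R) ^ i * l * z) := by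
            rw [ha1, hq', mul_pow]
            ring
    refine ⟨w0 * t2 - (b : R) ^ i * l * z -
      (a : R) ^ (i - 2 * s - 1) * ((d : R) * ((m : R) * (q' : R) * z)) ^ 2 * t1, ?_⟩
    rw [Units.val_pow_eq_pow_val, Int.cast_pow, ← mul_pow]
    rw [heX] at ht2
    linear_combination ht2 - ((d : R) * ((m : R) * (q' : R) * z)) ^ 2 * t1 * ha2
  · rw [Units.val_pow_eq_pow_val, hedef, pow_mul]
    have h5 := dvd_sub_pow_of_dvd_sub (he u0) i
    rwa [one_pow] at h5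

private theorem exists_e0 (K : Type*) [Field K] [NumberField K] (b : ℕ) (hb : b ≠ 0) :
    ∃ e0 : ℕ, e0 ≠ 0 ∧ ∀ u : (𝓞 K)ˣ, (b : 𝓞 K) ∣ (u : 𝓞 K) ^ e0 - 1 := by
  have hb' : (b : 𝓞 K) ≠ 0 := Nat.cast_ne_zero.2 hb
  have hne : Ideal.span {(b : 𝓞 K)} ≠ ⊥ := by
    rw [Ne, Ideal.span_singleton_eq_bot]
    exact hb'
  have hfin : Finite (𝓞 K ⧸ Ideal.span {(b : 𝓞 K)}) :=
    Ideal.finiteQuotientOfFreeOfNeBot _ hne
  refine ⟨Nat.card (𝓞 K ⧸ Ideal.span {(b : 𝓞 K)})ˣ, Nat.card_pos.ne', fun u => ?_⟩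
  rw [← Ideal.mem_span_singleton, ← Ideal.Quotient.eq_zero_iff_mem, map_sub, map_pow, map_one,
    sub_eq_zero]
  have h1 : (Units.map (Ideal.Quotient.mk (Ideal.span {(b : 𝓞 K)})).toMonoidHom u) ^
      Nat.card (𝓞 K ⧸ Ideal.span {(b : 𝓞 K)})ˣ = 1 := pow_card_eq_one'
  have h2 := congrArg Units.val h1
  rw [Units.val_pow_eq_pow_val, Units.val_one] at h2
  exact h2

private theorem pair (K : Type*) [Field K] [NumberField K] (a b : ℕ) (ha : a ≠ 0) (hb : b ≠ 0)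
    (hab : a.Coprime b) (h1 : UnitsOpen (𝓞 K) (a : ℤ)) (h2 : UnitsOpen (𝓞 K) (b : ℤ)) :
    UnitsOpen (𝓞 K) ((a * b : ℕ) : ℤ) := by
  obtain ⟨ea, hea0, hea⟩ := exists_e0 K a ha
  obtain ⟨eb, heb0, heb⟩ := exists_e0 K b hb
  obtain ⟨i1, hi1⟩ := level a b eb heb0 heb h1
  obtain ⟨i2, hi2⟩ := level b a ea hea0 hea h2
  refine open_of_level (isUnit_of_isUnit_intCast K) (a * b) (i1 + i2 + 2) (mul_ne_zero ha hb)
    (by omega) fun z => ?_
  set i := i1 + i2 + 2 with hi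
  obtain ⟨ua, ca, ⟨wa, hwa⟩, ⟨wa', hwa'⟩⟩ := hi1 i (by omega) z
  obtain ⟨ub, cb, ⟨wb, hwb⟩, ⟨wb', hwb'⟩⟩ := hi2 i (by omega) z
  obtain ⟨r, t, hrt⟩ : IsCoprime ((a : ℤ) ^ (i + 1)) ((b : ℤ) ^ (i + 1)) :=
    (Nat.isCoprime_iff_coprime.2 hab).pow
  have hrt' : (r : 𝓞 K) * (a : 𝓞 K) ^ (i + 1) + (t : 𝓞 K) * (b : 𝓞 K) ^ (i + 1) = 1 := by
    have := congrArg (Int.cast : ℤ → 𝓞 K) hrt
    push_cast at this
    exact this
  have hcop : IsCoprime ((a : 𝓞 K) ^ (i + 1)) ((b : 𝓞 K) ^ (i + 1)) := ⟨r, t, hrt'⟩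
  have hd : (a : 𝓞 K) ^ (i + 1) * (b : 𝓞 K) ^ (i + 1) ∣
      1 + (((a * b) ^ i : ℕ) : 𝓞 K) * z -
        ((ca * (t * (b : ℤ) ^ (i + 1)) + cb * (r * (a : ℤ) ^ (i + 1)) : ℤ) : 𝓞 K) *
          ((ua * ub : (𝓞 K)ˣ) : 𝓞 K) := by
    refine hcop.mul_dvd ?_ ?_
    · refine ⟨wa + (ca : 𝓞 K) * r * ua * ub - cb * r * ua * ub - ca * ua * wb', ?_⟩
      push_cast
      linear_combination hwa - (ca : 𝓞 K) * ua * hwb' - (ca : 𝓞 K) * ua * ub * hrt'
    · refine ⟨wb + (cb : 𝓞 K) * t * ua * ub - ca * t * ua * ub - cb * ub * wa', ?_⟩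
      push_cast
      linear_combination hwb - (cb : 𝓞 K) * ub * hwa' - (cb : 𝓞 K) * ua * ub * hrt'
  obtain ⟨w, hw⟩ := hd
  refine ⟨ua * ub, ca * (t * (b : ℤ) ^ (i + 1)) + cb * (r * (a : ℤ) ^ (i + 1)), w, ?_⟩
  have h6 : (((a * b) ^ (i + 1) : ℕ) : 𝓞 K) = (a : 𝓞 K) ^ (i + 1) * (b : 𝓞 K) ^ (i + 1) := by
    push_cast
    ring
  rw [h6]
  linear_combination hw

end OpenProd

/-- Openness at each prime of a finite set gives openness at the product. -/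
theorem open_prod (K : Type*) [Field K] [NumberField K] (S : Finset ℕ) (hS : ∀ p ∈ S, p.Prime)
    (h : ∀ p ∈ S, UnitsOpen (𝓞 K) (p : ℤ)) : UnitsOpen (𝓞 K) (∏ p ∈ S, (p : ℤ)) := by
  classical
  have key : ∀ T : Finset ℕ, T ⊆ S → UnitsOpen (𝓞 K) ((∏ p ∈ T, p : ℕ) : ℤ) := by
    intro T
    induction T using Finset.induction_on with
    | empty =>
      intro _
      exact ⟨1, one_ne_zero, fun k z => ⟨1, 1, z, by simp⟩⟩
    | insert p T hp ih =>
      intro hT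
      rw [Finset.prod_insert hp]
      have hpS : p ∈ S := hT (Finset.mem_insert_self p T)
      have hTS : T ⊆ S := (Finset.subset_insert p T).trans hT
      refine OpenProd.pair K p _ (hS p hpS).ne_zero
        (Finset.prod_ne_zero_iff.2 fun q hq => (hS q (hTS hq)).ne_zero) ?_ (h p hpS) (ih hTS)
      refine Nat.Coprime.prod_right fun q hq => ?_
      refine (Nat.coprime_primes (hS p hpS) (hS q (hTS hq))).2 ?_
      rintro rfl
      exact hp hq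
  have := key S subset_rfl
  push_cast at this
  exact this

end Pool.Agent.MP_ca7d12_nt
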