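import Pool.Agent.Lib.MP_ca7d12_nt.ExistsUnit
import Pool.Agent.Lib.MP_ca7d12_nt.ExistsLevel
import Pool.Agent.Lib.MP_ca7d12_nt.T.IndepS

set_option autoImplicit false

namespace Pool.Agent.MP_ca7d12_nt

open NumberField

/-- A divisor of `P ^ k` that is at most `B` divides `P ^ B`. -/
private theorem pg_dvd {P d k B : ℕ} (hP : P ≠ 0) (hd : d ≠ 0) (h : d ∣ P ^ k) (hB : d ≤ B) :
    d ∣ P ^ B := by
  rw [← Nat.factorization_le_iff_dvd hd (pow_ne_zero _ hP)]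
  intro p
  by_cases hp : p.Prime
  · by_cases hpd : p ∣ d
    · have h1 : p ∣ P := hp.dvd_of_dvd_pow (hpd.trans h)
      have h2 : 1 ≤ P.factorization p := hp.factorization_pos_of_dvd hP h1
      have h3 := Nat.factorization_lt p hd
      rw [Nat.factorization_pow]
      change _ ≤ B * P.factorization p
      nlinarith
    · rw [Nat.factorization_eq_zero_of_not_dvd hpd]
      exact Nat.zero_le _
  · rw [Nat.factorization_eq_zero_of_not_prime _ hp]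
    exact Nat.zero_le _

private theorem pg_norm (K : Type*) [Field K] [NumberField K] (hK : Module.finrank ℚ K = 3)
    (n : ℕ) : Algebra.norm ℤ ((n : ℕ) : 𝓞 K) = (n : ℤ) ^ 3 := by
  have h2 := Algebra.norm_algebraMap_of_basis (RingOfIntegers.basis K) (n : ℤ)
  rw [← Module.finrank_eq_card_basis (RingOfIntegers.basis K), RingOfIntegers.rank, hK] at h2
  rw [← h2]
  congr 1
  simp

/-- A natural number dividing a nonzero element of norm at most `B` is at most `B`. -/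
private theorem pg_le (K : Type*) [Field K] [NumberField K] (hK : Module.finrank ℚ K = 3)
    {d B : ℕ} (hd : d ≠ 0) {x y : 𝓞 K} (hx : x = (d : 𝓞 K) * y) (hx0 : x ≠ 0)
    (hB : |Algebra.norm ℤ x| ≤ (B : ℤ)) : d ≤ B := by
  have hy0 : y ≠ 0 := by
    rintro rfl
    exact hx0 (by rw [hx, mul_zero])
  have h1 : Algebra.norm ℤ y ≠ 0 := by
    rw [Ne, Algebra.norm_eq_zero_iff]
    exact hy0
  have h2 : (1 : ℤ) ≤ |Algebra.norm ℤ y| := Int.one_le_abs h1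
  rw [hx, map_mul, pg_norm K hK, abs_mul, abs_of_nonneg (by positivity)] at hB
  have h3 : (1 : ℤ) ≤ (d : ℤ) := by
    have := Nat.pos_of_ne_zero hd
    exact_mod_cast this
  have h4 : (d : ℤ) ≤ (d : ℤ) ^ 3 := by nlinarith [mul_self_nonneg ((d : ℤ) - 1)]
  have h5 : (d : ℤ) ≤ B := by nlinarith
  exact_mod_cast h5

/-- A natural number dividing an integer in the ring of integers divides it. -/
private theorem pg_int (K : Type*) [Field K] [NumberField K] {d : ℕ} (hd : d ≠ 0) {a : ℤ}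
    (h : (d : 𝓞 K) ∣ (a : 𝓞 K)) : (d : ℤ) ∣ a := by
  obtain ⟨w, hw⟩ := h
  have hd' : ((d : ℕ) : ℤ) ≠ 0 := by exact_mod_cast hd
  obtain ⟨n, hn⟩ := exists_int_of_mul_eq K w (d : ℤ) a hd' (by push_cast; exact hw.symm)
  refine ⟨n, ?_⟩
  rw [hn] at hw
  have : ((a : ℤ) : 𝓞 K) = (((d : ℤ) * n : ℤ) : 𝓞 K) := by
    rw [hw]
    push_cast
    ring
  exact_mod_cast this

/-- The core computation. -/
private theorem pg_core (K : Type*) [Field K] [NumberField K] (hK : Module.finrank ℚ K = 3)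
    (P : ℕ) (hP : 2 ≤ P) (B i i' k k' : ℕ) (hk : k = i + 1 + B) (hi' : i + 1 ≤ i') (hk' : k ≤ k')
    (z z' w w' : 𝓞 K) (a a' : ℤ) (ε : (𝓞 K)ˣ)
    (h0 : (a : 𝓞 K) * (1 + ((P ^ i : ℕ) : 𝓞 K) * z) + ((P ^ k : ℕ) : 𝓞 K) * w ≠ 0)
    (hB : |Algebra.norm ℤ ((a : 𝓞 K) * (1 + ((P ^ i : ℕ) : 𝓞 K) * z) +
      ((P ^ k : ℕ) : 𝓞 K) * w)| ≤ (B : ℤ))
    (hε : (a : 𝓞 K) * (1 + ((P ^ i : ℕ) : 𝓞 K) * z) + ((P ^ k : ℕ) : 𝓞 K) * w =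
      (ε : 𝓞 K) * ((a' : 𝓞 K) * (1 + ((P ^ i' : ℕ) : 𝓞 K) * z') + ((P ^ k' : ℕ) : 𝓞 K) * w')) :
    ∃ (c : ℤ) (v : 𝓞 K), 1 + ((P ^ i : ℕ) : 𝓞 K) * z =
      (c : 𝓞 K) * (ε : 𝓞 K) + ((P ^ (i + 1) : ℕ) : 𝓞 K) * v := by
  have hP0 : P ≠ 0 := by omega
  -- the gcd
  obtain ⟨d, hd⟩ : ∃ d : ℕ, d = Int.gcd a ((P ^ k : ℕ) : ℤ) := ⟨_, rfl⟩
  have hPk : ((P ^ k : ℕ) : ℤ) ≠ 0 := by exact_mod_cast pow_ne_zero k hP0
  have hd0 : d ≠ 0 := by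
    rw [hd]
    intro h
    exact hPk (Int.gcd_eq_zero_iff.1 h).2
  have hda : (d : ℤ) ∣ a := by
    rw [hd]
    exact Int.gcd_dvd_left ..
  have hdP : (d : ℤ) ∣ ((P ^ k : ℕ) : ℤ) := by
    rw [hd]
    exact Int.gcd_dvd_right ..
  have hdP' : d ∣ P ^ k := by exact_mod_cast hdP
  obtain ⟨a1, ha1⟩ := hda
  obtain ⟨m, hm⟩ := hdP'
  have ha1' : (a : 𝓞 K) = (d : 𝓞 K) * (a1 : 𝓞 K) := by
    rw [ha1]
    push_cast
    ring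
  have hm' : ((P ^ k : ℕ) : 𝓞 K) = (d : 𝓞 K) * (m : 𝓞 K) := by
    rw [hm]
    push_cast
    ring
  have hdB : d ≤ B := by
    refine pg_le K hK hd0 (x := _) (y := (a1 : 𝓞 K) * (1 + ((P ^ i : ℕ) : 𝓞 K) * z) +
      (m : 𝓞 K) * w) ?_ h0 hB
    rw [ha1', hm']
    ring
  obtain ⟨e, he⟩ := pg_dvd hP0 hd0 (Dvd.intro m hm.symm) hdB
  have hme : m = P ^ (i + 1) * e := by
    have h1 : d * m = d * (P ^ (i + 1) * e) := by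
      rw [← hm, hk, pow_add, he]
      ring
    exact Nat.eq_of_mul_eq_mul_left (Nat.pos_of_ne_zero hd0) h1
  have hme' : (m : 𝓞 K) = ((P ^ (i + 1) : ℕ) : 𝓞 K) * (e : 𝓞 K) := by
    rw [hme]
    push_cast
    ring
  -- `d` divides `a'`
  have hkk : ((P ^ k' : ℕ) : 𝓞 K) = ((P ^ k : ℕ) : 𝓞 K) * ((P ^ (k' - k) : ℕ) : 𝓞 K) := by
    rw [← Nat.cast_mul, ← pow_add, Nat.add_sub_cancel' hk']
  have hii : ((P ^ i' : ℕ) : 𝓞 K) = ((P ^ (i + 1) : ℕ) : 𝓞 K) * ((P ^ (i' - (i + 1)) : ℕ) : 𝓞 K) := by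
    rw [← Nat.cast_mul, ← pow_add, Nat.add_sub_cancel' hi']
  have hεinv : ((ε⁻¹ : (𝓞 K)ˣ) : 𝓞 K) * (ε : 𝓞 K) = 1 := by
    rw [← Units.val_mul, inv_mul_cancel, Units.val_one]
  have hcop : IsCoprime (d : 𝓞 K) (1 + ((P ^ i' : ℕ) : 𝓞 K) * z') := by
    have h1 : IsCoprime ((P : ℕ) : 𝓞 K) (1 + ((P ^ i' : ℕ) : 𝓞 K) * z') := by
      refine ⟨-(((P ^ (i' - 1) : ℕ) : 𝓞 K) * z'), 1, ?_⟩
      have h2 : ((P ^ i' : ℕ) : 𝓞 K) = ((P ^ (i' - 1) : ℕ) : 𝓞 K) * ((P : ℕ) : 𝓞 K) := by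
        rw [← Nat.cast_mul, ← pow_succ, Nat.sub_add_cancel (by omega)]
      rw [h2]
      ring
    have h3 : IsCoprime (((P ^ k : ℕ)) : 𝓞 K) (1 + ((P ^ i' : ℕ) : 𝓞 K) * z') := by
      have := h1.pow_left (m := k)
      push_cast at this ⊢
      exact this
    rw [hm'] at h3
    exact h3.of_mul_left_left
  have hda' : (d : ℤ) ∣ a' := by
    refine pg_int K hd0 (hcop.dvd_of_dvd_mul_right
      (?_ : (d : 𝓞 K) ∣ (a' : 𝓞 K) * (1 + ((P ^ i' : ℕ) : 𝓞 K) * z')))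
    refine ⟨((ε⁻¹ : (𝓞 K)ˣ) : 𝓞 K) * ((a1 : 𝓞 K) * (1 + ((P ^ i : ℕ) : 𝓞 K) * z) +
      (m : 𝓞 K) * w) - (m : 𝓞 K) * ((P ^ (k' - k) : ℕ) : 𝓞 K) * w', ?_⟩
    rw [ha1', hkk, hm'] at hε
    linear_combination (-((ε⁻¹ : (𝓞 K)ˣ) : 𝓞 K)) * hε - ((a' : 𝓞 K) *
      (1 + ((P ^ i' : ℕ) : 𝓞 K) * z') + (d : 𝓞 K) * (m : 𝓞 K) *
        ((P ^ (k' - k) : ℕ) : 𝓞 K) * w') * hεinv
  obtain ⟨a1', ha1'2⟩ := hda'
  have ha2 : (a' : 𝓞 K) = (d : 𝓞 K) * (a1' : 𝓞 K) := by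
    rw [ha1'2]
    push_cast
    ring
  have hdR : (d : 𝓞 K) ≠ 0 := by exact_mod_cast hd0
  -- cancel `d`
  have hE : (a1 : 𝓞 K) * (1 + ((P ^ i : ℕ) : 𝓞 K) * z) + (m : 𝓞 K) * w =
      (ε : 𝓞 K) * ((a1' : 𝓞 K) * (1 + ((P ^ i' : ℕ) : 𝓞 K) * z') +
        (m : 𝓞 K) * ((P ^ (k' - k) : ℕ) : 𝓞 K) * w') := by
    apply mul_left_cancel₀ hdR
    rw [ha1', ha2, hkk, hm'] at hε
    linear_combination hε
  -- Bezout
  have hbez : IsCoprime a1 (m : ℤ) := by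
    rw [Int.isCoprime_iff_gcd_eq_one]
    have h1 : d = d * Int.gcd a1 (m : ℤ) := by
      conv_lhs => rw [hd, ha1, hm]
      push_cast
      rw [Int.gcd_mul_left, Int.natAbs_natCast]
    have h2 : d * 1 = d * Int.gcd a1 (m : ℤ) := by rw [mul_one]; exact h1
    exact (Nat.eq_of_mul_eq_mul_left (Nat.pos_of_ne_zero hd0) h2).symm
  obtain ⟨s, t, hst⟩ := hbez
  have hst' : (s : 𝓞 K) * (a1 : 𝓞 K) + (t : 𝓞 K) * (m : 𝓞 K) = 1 := by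
    have := congrArg (fun x : ℤ => (x : 𝓞 K)) hst
    push_cast at this
    exact this
  refine ⟨s * a1', (s : 𝓞 K) * (a1' : 𝓞 K) * (ε : 𝓞 K) * ((P ^ (i' - (i + 1)) : ℕ) : 𝓞 K) * z' +
    (e : 𝓞 K) * ((t : 𝓞 K) * (1 + ((P ^ i : ℕ) : 𝓞 K) * z) +
      (s : 𝓞 K) * ((ε : 𝓞 K) * ((P ^ (k' - k) : ℕ) : 𝓞 K) * w' - w)), ?_⟩
  rw [hii, hme'] at hE
  rw [hme'] at hst'
  push_cast at hE hst' ⊢
  linear_combination (s : 𝓞 K) * hE - (1 + (P : 𝓞 K) ^ i * z) * hst'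

/-- If all lattices `ℤ (1 + P z) + P ^ k 𝓞_K` contain a nonzero element of norm at most `B`, then for
some large `i` every `1 + P ^ i z` is modulo `P ^ (i + 1)` an integer times a unit. -/
theorem fill_of_small (K : Type*) [Field K] [NumberField K] (hK : Module.finrank ℚ K = 3)
    (P : ℕ) (hP : 2 ≤ P) (B : ℕ)
    (h : ∀ (k : ℕ) (z : 𝓞 K), ∃ (c : ℤ) (w : 𝓞 K),
      (c : 𝓞 K) * (1 + (P : 𝓞 K) * z) + ((P ^ k : ℕ) : 𝓞 K) * w ≠ 0 ∧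
      |Algebra.norm ℤ ((c : 𝓞 K) * (1 + (P : 𝓞 K) * z) + ((P ^ k : ℕ) : 𝓞 K) * w)| ≤ (B : ℤ))
    (i₀ : ℕ) :
    ∃ i : ℕ, i₀ ≤ i ∧ ∀ z : 𝓞 K, ∃ (u : (𝓞 K)ˣ) (c : ℤ) (w : 𝓞 K),
      1 + ((P ^ i : ℕ) : 𝓞 K) * z = (c : 𝓞 K) * (u : 𝓞 K) + ((P ^ (i + 1) : ℕ) : 𝓞 K) * w := by
  by_contra hcon
  push Not at hcon
  -- the elements for each level `i₀ + 1 + j`
  have h1 : ∀ j : ℕ, ∃ (z : 𝓞 K) (c : ℤ) (w : 𝓞 K),
      (∀ (u : (𝓞 K)ˣ) (c : ℤ) (w : 𝓞 K), 1 + ((P ^ (i₀ + 1 + j) : ℕ) : 𝓞 K) * z ≠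
        (c : 𝓞 K) * (u : 𝓞 K) + ((P ^ (i₀ + 1 + j + 1) : ℕ) : 𝓞 K) * w) ∧
      (c : 𝓞 K) * (1 + ((P ^ (i₀ + 1 + j) : ℕ) : 𝓞 K) * z) +
        ((P ^ (i₀ + 1 + j + 1 + B) : ℕ) : 𝓞 K) * w ≠ 0 ∧
      |Algebra.norm ℤ ((c : 𝓞 K) * (1 + ((P ^ (i₀ + 1 + j) : ℕ) : 𝓞 K) * z) +
        ((P ^ (i₀ + 1 + j + 1 + B) : ℕ) : 𝓞 K) * w)| ≤ (B : ℤ) := by
    intro j
    obtain ⟨z, hz⟩ := hcon (i₀ + 1 + j) (by omega)
    obtain ⟨c, w, h2, h3⟩ := h (i₀ + 1 + j + 1 + B) (((P ^ (i₀ + j) : ℕ) : 𝓞 K) * z)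
    have h4 : (P : 𝓞 K) * (((P ^ (i₀ + j) : ℕ) : 𝓞 K) * z) =
        ((P ^ (i₀ + 1 + j) : ℕ) : 𝓞 K) * z := by
      have h5 : i₀ + 1 + j = i₀ + j + 1 := by ring
      rw [h5, ← mul_assoc, ← Nat.cast_mul, ← pow_succ']
    rw [h4] at h2 h3
    exact ⟨z, c, w, hz, h2, h3⟩
  choose z c w hz hne hno using h1
  -- two of them generate the same ideal
  obtain ⟨X, hX⟩ : ∃ X : ℕ → 𝓞 K, ∀ j, X j = (c j : 𝓞 K) *
      (1 + ((P ^ (i₀ + 1 + j) : ℕ) : 𝓞 K) * z j) +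
        ((P ^ (i₀ + 1 + j + 1 + B) : ℕ) : 𝓞 K) * w j := ⟨_, fun j => rfl⟩
  have hfin : Finite {I : Ideal (𝓞 K) // Ideal.absNorm I ≤ B} :=
    (Ideal.finite_setOfPred_absNorm_le (S := 𝓞 K) B).to_subtype
  let f : ℕ → {I : Ideal (𝓞 K) // Ideal.absNorm I ≤ B} := fun j =>
    ⟨Ideal.span {X j}, by
      rw [Ideal.absNorm_span_singleton, hX]
      have h6 := hno j
      rw [← Int.natCast_natAbs] at h6
      exact_mod_cast h6⟩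
  obtain ⟨j, j', hjj, hf⟩ := Finite.exists_ne_map_eq_of_infinite f
  have key : ∀ j j' : ℕ, j < j' → Ideal.span {X j} = Ideal.span {X j'} → False := by
    intro j j' hlt hs
    rw [Ideal.span_singleton_eq_span_singleton] at hs
    obtain ⟨ε, hε⟩ := hs.symm
    have hne' := hne j
    have hno' := hno j
    obtain ⟨a, v, hav⟩ := pg_core K hK P hP B (i₀ + 1 + j) (i₀ + 1 + j') (i₀ + 1 + j + 1 + B)
      (i₀ + 1 + j' + 1 + B) rfl (by omega) (by omega) (z j) (z j') (w j) (w j') (c j) (c j') ε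
      hne' hno' (by rw [← hX, ← hX, ← hε, mul_comm])
    exact hz j ε a v hav
  have hf' : Ideal.span {X j} = Ideal.span {X j'} := congrArg Subtype.val hf
  rcases Nat.lt_or_gt_of_ne hjj with hlt | hlt
  · exact key j j' hlt hf'
  · exact key j' j hlt hf'.symm

end Pool.Agent.MP_ca7d12_nt
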