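import Pool.Agent.Lib.MP_ca7d12_nt.V.Exact

set_option autoImplicit false

namespace Pool.Agent.MP_ca7d12_nt

open NumberField

private theorem small_value (K : Type*) [Field K] [NumberField K] (hK : Module.finrank ℚ K = 3)
    (σ : Fin 3 → K →+* ℝ) (hσ : Function.Injective σ) (α : Fin 3 → 𝓞 K)
    (hα : LinearIndependent ℚ (fun j => (α j : K))) :
    LinearIndependent ℤ α ∧ ∃ x ∈ AddSubgroup.closure (Set.range α), x ≠ 0 ∧
      markovMin (fun i j => σ i (α j : K)) =
      ((|Algebra.norm ℤ x| : ℤ) : ℝ) / |Matrix.det (Matrix.of fun i j => σ i (α j : K))| := by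
  classical
  set A : Matrix (Fin 3) (Fin 3) ℝ := fun i j => σ i (α j : K) with hA
  have hAof : Matrix.det (Matrix.of fun i j => σ i (α j : K)) = A.det := rfl
  have hval : ∀ x : Fin 3 → ℤ, ∏ i : Fin 3, ∑ j : Fin 3, A i j * (x j : ℝ) =
      ((Algebra.norm ℤ (∑ j, x j • α j) : ℤ) : ℝ) := by
    intro x
    rw [← prod_embeddings K hK σ hσ]
    refine Finset.prod_congr rfl fun i _ => ?_
    have h1 : ((∑ j, x j • α j : 𝓞 K) : K) = ∑ j, (α j : K) * (x j : K) := by
      simp only [map_sum, zsmul_eq_mul, map_mul, map_intCast]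
      exact Finset.sum_congr rfl fun j _ => mul_comm _ _
    rw [h1, map_sum]
    refine Finset.sum_congr rfl fun j _ => ?_
    rw [map_mul, map_intCast]
  have hne : ∀ x : Fin 3 → ℤ, x ≠ 0 → (∑ j, x j • α j) ≠ 0 := by
    intro x hx h0
    apply hx
    have h1 : ∑ j, (x j : ℚ) • (α j : K) = 0 := by
      have h2 : ((∑ j, x j • α j : 𝓞 K) : K) = ∑ j, (x j : K) * (α j : K) := by
        simp only [map_sum, zsmul_eq_mul, map_mul, map_intCast]
      have h3 : ((0 : 𝓞 K) : K) = 0 := rfl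
      rw [h0, h3] at h2
      rw [h2]
      refine Finset.sum_congr rfl fun j _ => ?_
      rw [Rat.smul_def]
      push_cast
      rfl
    have h2 := Fintype.linearIndependent_iff.1 hα (fun j => (x j : ℚ)) h1
    funext j
    have := h2 j
    exact_mod_cast this
  set S : Set ℕ := {n | ∃ x : Fin 3 → ℤ, x ≠ 0 ∧ n = (Algebra.norm ℤ (∑ j, x j • α j)).natAbs}
    with hS
  have hliZ : LinearIndependent ℤ α := by
    rw [Fintype.linearIndependent_iff]
    intro g hg i
    by_contra hi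
    exact hne g (fun h => hi (congrFun h i)) hg
  have hSne : S.Nonempty := ⟨_, fun _ => 1, fun h => one_ne_zero (congrFun h 0), rfl⟩
  have hleast : IsLeast {r : ℝ | ∃ x : Fin 3 → ℤ, x ≠ 0 ∧
      r = |(∏ i : Fin 3, ∑ j : Fin 3, A i j * (x j : ℝ)) / A.det|} ((sInf S : ℕ) / |A.det|) := by
    constructor
    · obtain ⟨x, hx0, hx⟩ := Nat.sInf_mem hSne
      refine ⟨x, hx0, ?_⟩
      rw [hval, abs_div, hx]
      congr 1
      rw [Nat.cast_natAbs, Int.cast_abs]
    · rintro r ⟨x, hx0, rfl⟩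
      rw [hval, abs_div]
      refine div_le_div_of_nonneg_right ?_ (abs_nonneg _)
      have h1 : sInf S ≤ (Algebra.norm ℤ (∑ j, x j • α j)).natAbs := Nat.sInf_le ⟨x, hx0, rfl⟩
      have h2 : ((sInf S : ℕ) : ℝ) ≤ (((Algebra.norm ℤ (∑ j, x j • α j)).natAbs : ℕ) : ℝ) := by
        exact_mod_cast h1
      rwa [Nat.cast_natAbs, Int.cast_abs] at h2
  obtain ⟨x, hx0, hx⟩ := Nat.sInf_mem hSne
  refine ⟨hliZ, ∑ j, x j • α j, ?_, hne x hx0, ?_⟩
  · exact AddSubgroup.sum_mem _ fun j _ =>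
      AddSubgroup.zsmul_mem _ (AddSubgroup.subset_closure (Set.mem_range_self j)) _
  · rw [hAof]
    have h1 : markovMin A = ((sInf S : ℕ) : ℝ) / |A.det| := hleast.csInf_eq
    rw [h1, hx, Nat.cast_natAbs]

/-- From a bound for `m(F) [𝓞_K M : M]` to an element of small norm. -/
theorem exists_small_of_bound (K : Type*) [Field K] [NumberField K]
    (hK : Module.finrank ℚ K = 3) (σ : Fin 3 → K →+* ℝ) (hσ : Function.Injective σ) :
    ∃ δ : ℝ, 0 < δ ∧ ∀ α' : Fin 3 → 𝓞 K, LinearIndependent ℚ (fun j => (α' j : K)) →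
      Ideal.span (Set.range α') = ⊤ → ∀ B : ℝ,
      markovMin (fun i j => σ i (α' j : K)) * (latticeIndex K (fun j => (α' j : K)) : ℝ) ≤ B →
      ∃ x ∈ AddSubgroup.closure (Set.range α'), x ≠ 0 ∧
        ((|Algebra.norm ℤ x| : ℤ) : ℝ) ≤ δ * B := by
  classical
  obtain ⟨δ, hδ, hdet⟩ := det_eq_index K hK σ hσ
  refine ⟨δ, hδ, ?_⟩
  intro α' hα' hspan B hB
  obtain ⟨hli, x, hx, hx0, hval⟩ := small_value K hK σ hσ α' hα'
  refine ⟨x, hx, hx0, ?_⟩
  have hidx := MainW.index_eq (fun j => (α' j : K)) 1 one_ne_zero α' (fun j => (one_mul _).symm)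
    ⊤ hspan
  rw [Ideal.absNorm_top, mul_one] at hidx
  have hidx0 : (AddSubgroup.closure (Set.range α')).index ≠ 0 := by
    have h1 : Module.finrank ℤ (Submodule.span ℤ (Set.range α')) = Module.finrank ℤ (𝓞 K) := by
      rw [finrank_span_eq_card hli, RingOfIntegers.rank, hK, Fintype.card_fin]
    have h2 := Submodule.finiteQuotientOfFreeOfRankEq _ h1
    have h3 : (Submodule.span ℤ (Set.range α')).toAddSubgroup =
        AddSubgroup.closure (Set.range α') := Submodule.span_int_eq_addSubgroupClosure _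
    rw [← h3]
    have h4 : Finite (𝓞 K ⧸ (Submodule.span ℤ (Set.range α')).toAddSubgroup) := h2
    exact AddSubgroup.index_ne_zero_of_finite
  have hpos : (0 : ℝ) < ((AddSubgroup.closure (Set.range α')).index : ℝ) := by
    exact_mod_cast Nat.pos_of_ne_zero hidx0
  rw [← hidx, hval, hdet α'] at hB
  have h5 : ((|Algebra.norm ℤ x| : ℤ) : ℝ) /
      (δ * ((AddSubgroup.closure (Set.range α')).index : ℝ)) *
      ((AddSubgroup.closure (Set.range α')).index : ℝ) = ((|Algebra.norm ℤ x| : ℤ) : ℝ) / δ := by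
    field_simp
  rw [h5, div_le_iff₀ hδ] at hB
  linarith

end Pool.Agent.MP_ca7d12_nt
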