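import Pool.Agent.Lib.MP_ca7d12_nt.H.Defs
import Pool.Agent.Lib.MP_ca7d12_nt.H.Lat
import Pool.Agent.Lib.MP_ca7d12_nt.H.Small
import Pool.Agent.Lib.MP_ca7d12_nt.H.Pigeon
import Pool.Agent.Lib.MP_ca7d12_nt.H.OpenProd
import Pool.Agent.Lib.MP_ca7d12_nt.H.LeoA
import Pool.Agent.Lib.MP_ca7d12_nt.H.LeoB
import Pool.Agent.Lib.MP_ca7d12_nt.V.Exact
import Pool.Agent.Lib.MP_ca7d12_nt.Main

set_option autoImplicit false

namespace Pool.Agent.MP_ca7d12_nt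

open NumberField UnitsA

/-- Boundedness at the invertible modules gives full levels. -/
theorem level_of_bounded (K : Type*) [Field K] [NumberField K] (hK : Module.finrank ℚ K = 3)
    (σ : Fin 3 → K →+* ℝ) (hσ : Function.Injective σ) (P : ℕ) (hP : 2 ≤ P) (B : ℝ)
    (hB : ∀ (α : Fin 3 → K) (k : ℕ), LinearIndependent ℚ α → CyclicModulo K α (P ^ k) →
      markovMin (fun i j => σ i (α j)) * (latticeIndex K α : ℝ) ≤ B) (i₀ : ℕ) :
    ∃ i : ℕ, i₀ ≤ i ∧ ∀ z : 𝓞 K, ∃ (u : (𝓞 K)ˣ) (c : ℤ) (w : 𝓞 K),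
      1 + ((P ^ i : ℕ) : 𝓞 K) * z = (c : 𝓞 K) * (u : 𝓞 K) + ((P ^ (i + 1) : ℕ) : 𝓞 K) * w := by
  obtain ⟨δ, hδ, hsmall⟩ := exists_small_of_bound K hK σ hσ
  refine fill_of_small K hK P hP ⌈δ * B⌉₊ ?_ i₀
  intro k z
  have hco : IsCoprime (1 + (P : 𝓞 K) * z) ((P ^ k : ℕ) : 𝓞 K) := by
    have h1 : IsCoprime (1 + (P : 𝓞 K) * z) (P : 𝓞 K) := ⟨1, -z, by ring⟩
    have h2 := h1.pow_right (n := k)
    exact_mod_cast h2
  obtain ⟨α', hli, hmem, hcyc, hspan⟩ := exists_lattice K hK (1 + (P : 𝓞 K) * z) (P ^ k)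
    (pow_ne_zero k (by omega)) hco
  obtain ⟨x, hx, hx0, hxN⟩ := hsmall α' hli hspan B (hB _ k hli hcyc)
  obtain ⟨c, w, hxe⟩ := (hmem x).1 hx
  refine ⟨c, w, hxe ▸ hx0, ?_⟩
  rw [← hxe]
  have h1 : ((|Algebra.norm ℤ x| : ℤ) : ℝ) ≤ ((⌈δ * B⌉₊ : ℕ) : ℝ) := hxN.trans (Nat.le_ceil _)
  exact_mod_cast h1

/-- Boundedness at the invertible modules gives openness of the units. -/
theorem open_of_bounded (K : Type*) [Field K] [NumberField K] (hK : Module.finrank ℚ K = 3)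
    (σ : Fin 3 → K →+* ℝ) (hσ : Function.Injective σ) (S : Finset ℕ) (hS : ∀ p ∈ S, p.Prime)
    (B : ℝ)
    (hB : ∀ (α : Fin 3 → K) (n : ℕ), LinearIndependent ℚ α → IsSNumber S n → CyclicModulo K α n →
      markovMin (fun i j => σ i (α j)) * (latticeIndex K α : ℝ) ≤ B) :
    UnitsOpen (𝓞 K) (∏ p ∈ S, (p : ℤ)) := by
  rcases Finset.eq_empty_or_nonempty S with rfl | ⟨p₀, hp₀⟩
  · refine ⟨1, one_ne_zero, fun k z => ⟨1, 0, 1 + z, ?_⟩⟩
    simp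
  obtain ⟨P, hPdef⟩ : ∃ P : ℕ, P = ∏ p ∈ S, p := ⟨_, rfl⟩
  have hPZ : (∏ p ∈ S, (p : ℤ)) = (P : ℤ) := by
    rw [hPdef]
    push_cast
    rfl
  have hP0 : P ≠ 0 := by
    rw [hPdef]
    exact Finset.prod_ne_zero_iff.2 fun p hp => (hS p hp).ne_zero
  have hP2 : 2 ≤ P := by
    have h1 : p₀ ∣ P := by
      rw [hPdef]
      exact Finset.dvd_prod_of_mem _ hp₀
    exact (hS p₀ hp₀).two_le.trans (Nat.le_of_dvd (Nat.pos_of_ne_zero hP0) h1)
  rw [hPZ]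
  obtain ⟨i, hi, hfill⟩ := level_of_bounded K hK σ hσ P hP2 B (fun α k hα hcyc =>
    hB α (P ^ k) hα ⟨pow_ne_zero k hP0, fun q hq hqP => by
      have h1 : q ∣ ∏ p ∈ S, p := hPdef ▸ hq.dvd_of_dvd_pow hqP
      obtain ⟨p, hp, hqp⟩ := (Prime.dvd_finsetProd_iff hq.prime _).1 h1
      rw [(Nat.prime_dvd_prime_iff_eq hq (hS p hp)).1 hqp]
      exact hp⟩ hcyc) 2
  exact open_of_level (isUnit_of_isUnit_intCast K) P i hP0 hi hfill

/-- The equivalence. -/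
theorem equiv_H (K : Type*) [Field K] [NumberField K] (hK : Module.finrank ℚ K = 3)
    (σ : Fin 3 → K →+* ℝ) (hσ : Function.Injective σ) (S : Finset ℕ) (hS : ∀ p ∈ S, p.Prime) :
    List.TFAE [
      ∀ p ∈ S, LeopoldtAt K p,
      ∃ V : Finset ℝ, (∀ v ∈ V, 0 < v) ∧ ∀ (α : Fin 3 → K) (n : ℕ), LinearIndependent ℚ α →
        IsSNumber S n → StableUnder K α n →
          markovMin (fun i j => σ i (α j)) * (latticeIndex K α : ℝ) ∈ V,
      ∃ B : ℝ, ∀ (α : Fin 3 → K) (n : ℕ), LinearIndependent ℚ α → IsSNumber S n →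
        CyclicModulo K α n → markovMin (fun i j => σ i (α j)) * (latticeIndex K α : ℝ) ≤ B] := by
  tfae_have 1 → 2 := by
    intro h
    obtain ⟨V, hV, h⟩ := finite_products K hK σ hσ S hS
      (open_prod K S hS fun p hp => open_of_leopoldt K hK σ hσ p (hS p hp) (h p hp))
    exact ⟨V, hV, fun α n hα hn hst => (h α n hα hn hst).2⟩
  tfae_have 2 → 3 := by
    rintro ⟨V, hV, h⟩
    refine ⟨∑ v ∈ V, v, fun α n hα hn hcyc => ?_⟩
    exact Finset.single_le_sum (f := fun v : ℝ => v) (fun v hv => (hV v hv).le)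
      (h α n hα hn hcyc.1)
  tfae_have 3 → 1 := by
    rintro ⟨B, hB⟩ p hp
    refine leopoldt_of_open K hK σ hσ p (hS p hp) ?_
    exact open_of_dvd _ _ (Finset.dvd_prod_of_mem (fun q : ℕ => (q : ℤ)) hp)
      (open_of_bounded K hK σ hσ S hS B hB)
  tfae_finish

/-- Leopoldt's conjecture for the primes of `S` gives the finiteness. -/
theorem finite_of_leopoldt (K : Type*) [Field K] [NumberField K] (hK : Module.finrank ℚ K = 3)
    (σ : Fin 3 → K →+* ℝ) (hσ : Function.Injective σ) (S : Finset ℕ) (hS : ∀ p ∈ S, p.Prime)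
    (h : ∀ p ∈ S, LeopoldtAt K p) (ε : ℝ) (hε : 0 < ε) :
    {m : ℝ | ∃ (α : Fin 3 → K) (n : ℕ), LinearIndependent ℚ α ∧ IsSNumber S n ∧
      StableUnder K α n ∧ m = markovMin (fun i j => σ i (α j)) ∧ ε ≤ m}.Finite := by
  refine (main_of_unitsOpen K hK σ hσ S hS
    (open_prod K S hS fun p hp => open_of_leopoldt K hK σ hσ p (hS p hp) (h p hp)) ε hε).subset ?_
  rintro m ⟨α, n, hα, hn, hst, hm, hεm⟩
  exact ⟨α, hα, ⟨n, hn, hst⟩, hm, hεm⟩

/-- Leopoldt's conjecture for `p` gives the filled levels. -/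
theorem fill_of_leopoldt (K : Type*) [Field K] [NumberField K] (hK : Module.finrank ℚ K = 3)
    (σ : Fin 3 → K →+* ℝ) (hσ : Function.Injective σ) (p : ℕ) (hp : p.Prime) :
    LeopoldtAt K p ↔ ∃ w : ℕ, 2 ≤ w ∧ ∀ j b : ℕ, UnitsFill K (p ^ (w + j)) (p ^ b) := by
  constructor
  · intro h
    obtain ⟨B, hB⟩ := ((equiv_H K hK σ hσ {p} (by simpa using hp)).out 0 2).1 (by simpa using h)
    obtain ⟨w, hw, hfill⟩ := level_of_bounded K hK σ hσ p hp.two_le B (fun α k hα hcyc =>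
      hB α (p ^ k) hα ⟨pow_ne_zero k hp.ne_zero, fun q hq hqP => by
        rw [(Nat.prime_dvd_prime_iff_eq hq hp).1 (hq.dvd_of_dvd_pow hqP)]
        simp⟩ hcyc) 2
    refine ⟨w, hw, fun j b q hq hqb => ?_⟩
    rw [(Nat.prime_dvd_prime_iff_eq hq hp).1 (hq.dvd_of_dvd_pow hqb)]
    refine ⟨dvd_pow_self p (by omega), fun z => ?_⟩
    obtain ⟨u, c, w', hu⟩ := fill_all (R := 𝓞 K) (p ^ w) p
      (fun h2 => by
        have h3 : (2 : ℕ) ^ 2 ∣ p ^ w := (pow_dvd_pow_of_dvd h2 2).trans (pow_dvd_pow p hw)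
        simpa using h3)
      (fun r hr hrp => by
        rw [(Nat.prime_dvd_prime_iff_eq hr hp).1 hrp]
        refine ⟨dvd_pow_self p (by omega), fun z => ?_⟩
        obtain ⟨u, c, w', hu⟩ := hfill z
        exact ⟨u, c, w', by rw [hu, pow_succ]; push_cast; ring⟩)
      (p ^ j) (pow_ne_zero j hp.ne_zero) (fun r hr hrp => hr.dvd_of_dvd_pow hrp) p hp dvd_rfl z
    refine ⟨u, c, w', ?_⟩
    rw [pow_add]
    push_cast at hu ⊢
    linear_combination hu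
  · rintro ⟨w, hw, h⟩
    refine leopoldt_of_open K hK σ hσ p hp (open_of_level (isUnit_of_isUnit_intCast K) p w
      hp.ne_zero hw fun z => ?_)
    obtain ⟨u, c, w', hu⟩ := (h 0 1 p hp (by simp)).2 z
    refine ⟨u, c, w', ?_⟩
    rw [pow_succ]
    push_cast at hu ⊢
    linear_combination hu

end Pool.Agent.MP_ca7d12_nt
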