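import Pool.Agent.Lib.MP_ca7d12_nt.H.Defs
import Pool.Agent.Lib.MP_ca7d12_nt.ExistsUnit
import Pool.Agent.Lib.MP_ca7d12_nt.ExistsLevel
import Pool.Agent.Lib.MP_ca7d12_nt.UnitsA

set_option autoImplicit false

namespace Pool.Agent.MP_ca7d12_nt

open NumberField

private theorem fbD_int (K : Type*) [Field K] [NumberField K] {d : ℕ} (hd : d ≠ 0) {a : ℤ}
    (h : (d : 𝓞 K) ∣ (a : 𝓞 K)) : (d : ℤ) ∣ a := by
  obtain ⟨w, hw⟩ := h
  have hd' : ((d : ℕ) : ℤ) ≠ 0 := by exact_mod_cast hd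
  obtain ⟨n, hn⟩ := exists_int_of_mul_eq K w (d : ℤ) a hd' (by push_cast; exact hw.symm)
  refine ⟨n, ?_⟩
  rw [hn] at hw
  have : ((a : ℤ) : 𝓞 K) = (((d : ℤ) * n : ℤ) : 𝓞 K) := by
    rw [hw]
    push_cast
    ring
  exact_mod_cast this

private theorem fbD_norm (K : Type*) [Field K] [NumberField K] (hK : Module.finrank ℚ K = 3)
    (n : ℕ) : Ideal.absNorm (Ideal.span {(n : 𝓞 K)}) = n ^ 3 := by
  rw [Ideal.absNorm_span_singleton]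
  have h1 : Algebra.norm ℤ ((n : ℤ) : 𝓞 K) = (n : ℤ) ^ 3 := by
    have h2 := Algebra.norm_algebraMap_of_basis (RingOfIntegers.basis K) (n : ℤ)
    rw [← Module.finrank_eq_card_basis (RingOfIntegers.basis K), RingOfIntegers.rank, hK] at h2
    rw [← h2]
    rfl
  have h3 : ((n : ℕ) : 𝓞 K) = ((n : ℤ) : 𝓞 K) := by push_cast; rfl
  rw [h3, h1, Int.natAbs_pow, Int.natAbs_natCast]

/-- An integer prime to `m` in the ring of integers is prime to `m`. -/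
private theorem fbD_cop (K : Type*) [Field K] [NumberField K] {c : ℤ} {m : ℕ}
    (h : IsCoprime (c : 𝓞 K) (m : 𝓞 K)) : IsCoprime c (m : ℤ) := by
  rw [Int.isCoprime_iff_gcd_eq_one]
  have h1 : ((Int.gcd c (m : ℤ) : ℤ) : 𝓞 K) ∣ (c : 𝓞 K) := by
    obtain ⟨x, hx⟩ := Int.gcd_dvd_left c (m : ℤ)
    refine ⟨(x : 𝓞 K), ?_⟩
    conv_lhs => rw [hx]
    push_cast
    ring
  have h2 : ((Int.gcd c (m : ℤ) : ℤ) : 𝓞 K) ∣ (m : 𝓞 K) := by
    obtain ⟨x, hx⟩ := Int.gcd_dvd_right c (m : ℤ)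
    refine ⟨(x : 𝓞 K), ?_⟩
    have h3 := congrArg (fun y : ℤ => (y : 𝓞 K)) hx
    simpa using h3
  have h3 := isUnit_of_isUnit_intCast K _ (h.isUnit_of_dvd' h1 h2)
  have h4 := Int.natAbs_of_isUnit h3
  simpa using h4

/-- The kernel of the reduction of the units. -/
private theorem fbD_ker (n d m : ℕ) (hn : n ≠ 0) (hnm : n = d * m) (hm : m ∣ n) :
    d.totient ≤ Nat.card (ZMod.unitsMap hm).ker := by
  have : NeZero n := ⟨hn⟩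
  have hm0 : m ≠ 0 := by
    rintro rfl
    rw [mul_zero] at hnm
    exact hn hnm
  have : NeZero m := ⟨hm0⟩
  have h1 := Subgroup.card_eq_card_quotient_mul_card_subgroup (ZMod.unitsMap hm).ker
  have h2 : Nat.card ((ZMod n)ˣ ⧸ (ZMod.unitsMap hm).ker) = Nat.card (ZMod m)ˣ :=
    Nat.card_congr (QuotientGroup.quotientKerEquivOfSurjective (ZMod.unitsMap hm)
      (ZMod.unitsMap_surjective hm)).toEquiv
  rw [h2, Nat.card_eq_fintype_card, Nat.card_eq_fintype_card, ZMod.card_units_eq_totient,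
    ZMod.card_units_eq_totient] at h1
  have h3 := Nat.totient_super_multiplicative m d
  rw [mul_comm m d, ← hnm, h1] at h3
  exact le_of_mul_le_mul_left h3 (Nat.totient_pos.2 (Nat.pos_of_ne_zero hm0))

/-- At most `d ^ 3 / φ(d)` inequivalent classes modulo `n` agree modulo `n / d`. -/
theorem fibre_card (K : Type*) [Field K] [NumberField K] (hK : Module.finrank ℚ K = 3)
    (n d : ℕ) (hn : n ≠ 0) (hd : d ∣ n) (γ₀ : 𝓞 K) (H : Finset (𝓞 K))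
    (hco : ∀ γ ∈ H, IsCoprime γ (n : 𝓞 K))
    (hineq : ∀ γ ∈ H, ∀ γ' ∈ H, ∀ (u : (𝓞 K)ˣ) (c : ℤ) (v : 𝓞 K),
      γ = (c : 𝓞 K) * ((u : 𝓞 K) * γ') + (n : 𝓞 K) * v → γ = γ')
    (hf : ∀ γ ∈ H, ∃ (u : (𝓞 K)ˣ) (c : ℤ) (v : 𝓞 K),
      γ = (c : 𝓞 K) * ((u : 𝓞 K) * γ₀) + ((n / d : ℕ) : 𝓞 K) * v) :
    H.card * d.totient ≤ d ^ 3 := by
  classical
  have hn1 : NeZero n := ⟨hn⟩
  obtain ⟨m, hm⟩ : ∃ m : ℕ, m = n / d := ⟨_, rfl⟩
  have hnm : n = d * m := by rw [hm, Nat.mul_div_cancel' hd]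
  have hmn : m ∣ n := ⟨d, by rw [hnm, mul_comm]⟩
  have hd0 : d ≠ 0 := by
    rintro rfl
    rw [zero_mul] at hnm
    exact hn hnm
  have hm0 : m ≠ 0 := by
    rintro rfl
    rw [mul_zero] at hnm
    exact hn hnm
  have hm1 : NeZero m := ⟨hm0⟩
  rw [← hm] at hf
  have hnmR : (n : 𝓞 K) = (d : 𝓞 K) * (m : 𝓞 K) := by
    rw [hnm]
    push_cast
    ring
  choose! U c v hUcv using hf
  -- `c` is prime to `m`
  have hcm : ∀ γ ∈ H, IsCoprime (c γ) (m : ℤ) := by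
    intro γ hγ
    apply fbD_cop K
    have h1 : IsCoprime γ (m : 𝓞 K) := by
      have := hco γ hγ
      rw [hnmR] at this
      exact this.of_mul_right_right
    rw [hUcv γ hγ] at h1
    have h2 : IsCoprime ((c γ : 𝓞 K) * ((U γ : 𝓞 K) * γ₀)) (m : 𝓞 K) :=
      IsCoprime.of_add_mul_left_left h1
    exact h2.of_mul_left_left
  -- the units
  have hA : ∀ γ ∈ H, ∃ A : (ZMod n)ˣ, ((ZMod.unitsMap hmn A : (ZMod m)ˣ) : ZMod m) *
      ((c γ : ℤ) : ZMod m) = 1 := by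
    intro γ hγ
    obtain ⟨s, t, hst⟩ := hcm γ hγ
    have h1 : ((s : ℤ) : ZMod m) * ((c γ : ℤ) : ZMod m) = 1 := by
      have := congrArg (fun x : ℤ => (x : ZMod m)) hst
      push_cast at this
      simpa using this
    obtain ⟨A, hA⟩ := ZMod.unitsMap_surjective hmn (Units.mkOfMulEqOne _ _ h1)
    refine ⟨A, ?_⟩
    rw [hA]
    exact h1
  choose! A hA using hA
  -- representatives
  let b : 𝓞 K → (ZMod n)ˣ → ℕ := fun γ z => ((z * A γ : (ZMod n)ˣ) : ZMod n).val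
  have hb : ∀ γ ∈ H, ∀ z ∈ (ZMod.unitsMap hmn).ker, (m : ℤ) ∣ (b γ z : ℤ) * c γ - 1 := by
    intro γ hγ z hz
    rw [← ZMod.intCast_zmod_eq_zero_iff_dvd]
    have h1 : ((b γ z : ℕ) : ZMod m) = ((ZMod.unitsMap hmn (z * A γ) : (ZMod m)ˣ) : ZMod m) := by
      rw [ZMod.unitsMap_val]
      exact ZMod.natCast_val _
    rw [map_mul, MonoidHom.mem_ker.1 hz, one_mul] at h1
    push_cast
    rw [h1, hA γ hγ, sub_self]
  have hUi : ∀ γ, (((U γ)⁻¹ : (𝓞 K)ˣ) : 𝓞 K) * (U γ : 𝓞 K) = 1 := by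
    intro γ
    rw [← Units.val_mul, inv_mul_cancel, Units.val_one]
  have hρ : ∀ γ ∈ H, ∀ z ∈ (ZMod.unitsMap hmn).ker, ∃ ρ : 𝓞 K,
      (b γ z : 𝓞 K) * (((U γ)⁻¹ : (𝓞 K)ˣ) : 𝓞 K) * γ = γ₀ + (m : 𝓞 K) * ρ := by
    intro γ hγ z hz
    obtain ⟨t, ht⟩ := hb γ hγ z hz
    have ht' : (b γ z : 𝓞 K) * (c γ : 𝓞 K) - 1 = (m : 𝓞 K) * (t : 𝓞 K) := by
      have := congrArg (fun x : ℤ => (x : 𝓞 K)) ht
      push_cast at this
      exact this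
    have h1 := hUcv γ hγ
    have h2 := hUi γ
    refine ⟨(t : 𝓞 K) * γ₀ + (b γ z : 𝓞 K) * (((U γ)⁻¹ : (𝓞 K)ˣ) : 𝓞 K) * v γ, ?_⟩
    linear_combination ((b γ z : 𝓞 K) * (((U γ)⁻¹ : (𝓞 K)ˣ) : 𝓞 K)) * h1 +
      ((b γ z : 𝓞 K) * (c γ : 𝓞 K) * γ₀) * h2 + γ₀ * ht'
  choose! ρ hρ using hρ
  let f : (↥H) × ((ZMod.unitsMap hmn).ker) → 𝓞 K ⧸ Ideal.span {(d : 𝓞 K)} := fun x =>
    Ideal.Quotient.mk _ (ρ x.1.1 x.2.1)
  have hinj : Function.Injective f := by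
    rintro ⟨⟨γ, hγ⟩, ⟨z, hz⟩⟩ ⟨⟨γ', hγ'⟩, ⟨z', hz'⟩⟩ h
    have h1 : ρ γ z - ρ γ' z' ∈ Ideal.span {(d : 𝓞 K)} := Ideal.Quotient.eq.1 h
    obtain ⟨w, hw⟩ := Ideal.mem_span_singleton'.1 h1
    have e1 := hρ γ hγ z hz
    have e2 := hρ γ' hγ' z' hz'
    have u1 := hUi γ
    have u2 := hUi γ'
    have key : (b γ z : 𝓞 K) * (((U γ)⁻¹ : (𝓞 K)ˣ) : 𝓞 K) * γ =
        (b γ' z' : 𝓞 K) * (((U γ')⁻¹ : (𝓞 K)ˣ) : 𝓞 K) * γ' + (n : 𝓞 K) * w := by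
      rw [hnmR]
      linear_combination e1 - e2 - (m : 𝓞 K) * hw
    have hbc : IsCoprime ((b γ z : ℕ) : ℤ) (n : ℤ) :=
      Nat.isCoprime_iff_coprime.2 (ZMod.val_coe_unit_coprime (z * A γ))
    obtain ⟨e, t, het⟩ := hbc
    have het' : (e : 𝓞 K) * (b γ z : 𝓞 K) + (t : 𝓞 K) * (n : 𝓞 K) = 1 := by
      have := congrArg (fun x : ℤ => (x : 𝓞 K)) het
      push_cast at this
      exact this
    have hγγ : γ = γ' := by
      refine hineq γ hγ γ' hγ' (U γ * (U γ')⁻¹) (e * (b γ' z' : ℤ))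
        ((e : 𝓞 K) * (U γ : 𝓞 K) * w + (t : 𝓞 K) * γ) ?_
      rw [Units.val_mul]
      push_cast
      linear_combination ((e : 𝓞 K) * (U γ : 𝓞 K)) * key - γ * het' -
        ((e : 𝓞 K) * (b γ z : 𝓞 K) * γ) * u1
    subst hγγ
    have h2 : (n : 𝓞 K) ∣ (((b γ z : ℤ) - (b γ z' : ℤ) : ℤ) : 𝓞 K) := by
      refine (hco γ hγ).symm.dvd_of_dvd_mul_right
        (?_ : (n : 𝓞 K) ∣ (((b γ z : ℤ) - (b γ z' : ℤ) : ℤ) : 𝓞 K) * γ)
      refine ⟨(U γ : 𝓞 K) * w, ?_⟩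
      push_cast
      linear_combination (U γ : 𝓞 K) * key - (((b γ z : 𝓞 K) - (b γ z' : 𝓞 K)) * γ) * u1
    have h3 := fbD_int K hn h2
    have h4 : ((b γ z : ℕ) : ZMod n) = ((b γ z' : ℕ) : ZMod n) := by
      have h5 := (ZMod.intCast_zmod_eq_zero_iff_dvd _ n).2 h3
      push_cast at h5
      exact sub_eq_zero.1 h5
    have h5 : ∀ y : (ZMod n)ˣ, ((b γ y : ℕ) : ZMod n) = ((y * A γ : (ZMod n)ˣ) : ZMod n) :=
      fun y => ZMod.natCast_zmod_val _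
    rw [h5, h5] at h4
    have h6 : z = z' := mul_right_cancel (Units.ext h4)
    subst h6
    rfl
  have hcard : Nat.card (𝓞 K ⧸ Ideal.span {(d : 𝓞 K)}) = d ^ 3 := fbD_norm K hK d
  have : Finite (𝓞 K ⧸ Ideal.span {(d : 𝓞 K)}) :=
    Nat.finite_of_card_ne_zero (by rw [hcard]; exact pow_ne_zero 3 hd0)
  have h7 := Nat.card_le_card_of_injective f hinj
  rw [hcard, Nat.card_prod, Nat.card_eq_fintype_card, Fintype.card_coe] at h7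
  exact (Nat.mul_le_mul_left _ (fbD_ker n d m hn hnm hmn)).trans h7

end Pool.Agent.MP_ca7d12_nt
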