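import Pool.Agent.Lib.MP_ca7d12_nt.H.Defs
import Pool.Agent.Lib.MP_ca7d12_nt.ExistsUnit

set_option autoImplicit false

namespace Pool.Agent.MP_ca7d12_nt

open NumberField

/-- Some algebraic integer is not congruent to a rational integer modulo `p`. -/
theorem exists_not_int (K : Type*) [Field K] [NumberField K] (hK : Module.finrank ℚ K = 3)
    (p : ℕ) (hp : p.Prime) : ∃ z : 𝓞 K, ∀ (i : ℤ) (w : 𝓞 K), z ≠ (i : 𝓞 K) + (p : 𝓞 K) * w := by
  by_contra hcon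
  push Not at hcon
  obtain ⟨I, hI⟩ : ∃ I : Ideal (𝓞 K), I = Ideal.span {((p : ℤ) : 𝓞 K)} := ⟨_, rfl⟩
  have hcard : Nat.card (𝓞 K ⧸ I) = p ^ 3 := by
    have h1 : Ideal.absNorm I = p ^ 3 := by
      rw [hI, Ideal.absNorm_span_singleton]
      have h2 : ((p : ℤ) : 𝓞 K) = algebraMap ℤ (𝓞 K) (p : ℤ) := by simp
      rw [h2, Algebra.norm_algebraMap, RingOfIntegers.rank, hK, Int.natAbs_pow,
        Int.natAbs_natCast]
    rw [← h1, Ideal.absNorm_apply, Submodule.cardQuot_apply]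
  have hp0 : (p : ℤ) ≠ 0 := by exact_mod_cast hp.ne_zero
  have hpos : (0 : ℤ) < p := by exact_mod_cast hp.pos
  have hsurj : Function.Surjective
      fun k : Fin p => Ideal.Quotient.mk I (((k : ℕ) : ℤ) : 𝓞 K) := by
    intro x
    obtain ⟨z, rfl⟩ := Ideal.Quotient.mk_surjective x
    obtain ⟨i, w, hz⟩ := hcon z
    have h0 := Int.emod_nonneg i hp0
    have h1 := Int.emod_lt_of_pos i hpos
    have h2 := Int.toNat_of_nonneg h0
    have hk : (i % (p : ℤ)).toNat < p := by omega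
    refine ⟨⟨(i % (p : ℤ)).toNat, hk⟩, ?_⟩
    apply Ideal.Quotient.eq.2
    rw [hI, Ideal.mem_span_singleton]
    refine ⟨-((i / (p : ℤ) : ℤ) : 𝓞 K) - w, ?_⟩
    simp only
    rw [h2]
    have h3 : (i : 𝓞 K) = ((i % (p : ℤ) : ℤ) : 𝓞 K) +
        ((p : ℤ) : 𝓞 K) * ((i / (p : ℤ) : ℤ) : 𝓞 K) := by
      have := Int.emod_add_mul_ediv i (p : ℤ)
      exact_mod_cast this.symm
    rw [hz, h3, Int.cast_natCast]
    ring
  have h3 : Nat.card (𝓞 K ⧸ I) ≤ Nat.card (Fin p) := Nat.card_le_card_of_surjective _ hsurj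
  rw [hcard, Nat.card_eq_fintype_card, Fintype.card_fin] at h3
  have h4 : p ^ 1 < p ^ 3 := Nat.pow_lt_pow_right hp.one_lt (by norm_num)
  rw [pow_one] at h4
  omega

/-- A filled level contains a unit of exact level. -/
theorem hasUnit_of_fill (K : Type*) [Field K] [NumberField K] (hK : Module.finrank ℚ K = 3)
    (p : ℕ) (hp : p.Prime) (j : ℕ) (hj : 1 ≤ j) (h : UnitsFill K (p ^ j) p) :
    HasUnit K (p ^ j) p := by
  obtain ⟨z, hz⟩ := exists_not_int K hK p hp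
  obtain ⟨-, h2⟩ := h p hp dvd_rfl
  obtain ⟨u, c, w, hw⟩ := h2 z
  have hps : (p : 𝓞 K) ∣ ((p ^ j : ℕ) : 𝓞 K) := by
    rw [Nat.cast_pow]
    exact dvd_pow_self _ (by omega)
  have hpc : ¬ (p : ℤ) ∣ c := by
    rintro ⟨d, rfl⟩
    have h3 : (p : 𝓞 K) ∣ 1 := by
      have e : (1 : 𝓞 K) = (p : 𝓞 K) * ((d : 𝓞 K) * (u : 𝓞 K)) +
          ((p ^ j : ℕ) : 𝓞 K) * ((p : 𝓞 K) * w - z) := by
        push_cast at hw ⊢
        linear_combination hw
      rw [e]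
      exact dvd_add (dvd_mul_right _ _) (hps.mul_right _)
    have h4 : IsUnit (((p : ℕ) : ℤ) : 𝓞 K) := by
      rw [Int.cast_natCast]
      exact isUnit_of_dvd_one h3
    have h5 := isUnit_of_isUnit_intCast K _ h4
    exact (Nat.prime_iff_prime_int.1 hp).not_isUnit h5
  have hco : IsCoprime (p : ℤ) c :=
    (Nat.prime_iff_prime_int.1 hp).irreducible.coprime_iff_not_dvd.2 hpc
  obtain ⟨b, e, hbe⟩ : IsCoprime c ((p : ℤ) ^ (j + 1)) := hco.symm.pow_right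
  have hbe' : (b : 𝓞 K) * (c : 𝓞 K) + (e : 𝓞 K) * (p : 𝓞 K) ^ (j + 1) = 1 := by
    have := congrArg (fun x : ℤ => (x : 𝓞 K)) hbe
    push_cast at this
    exact this
  refine ⟨u, b, (b : 𝓞 K) * z + (p : 𝓞 K) * ((e : 𝓞 K) * (u : 𝓞 K) - (b : 𝓞 K) * w), ?_, ?_⟩
  · push_cast at hw ⊢
    linear_combination (-(u : 𝓞 K)) * hbe' - (b : 𝓞 K) * hw
  · intro q hq hqp i w' hv
    have hqe : q = p := (Nat.prime_dvd_prime_iff_eq hq hp).1 hqp
    rw [hqe] at hv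
    obtain ⟨x, y, hxy⟩ : IsCoprime b (p : ℤ) := ⟨c, e * (p : ℤ) ^ j, by
      rw [← hbe]
      ring⟩
    have hxy' : (x : 𝓞 K) * (b : 𝓞 K) + (y : 𝓞 K) * (p : 𝓞 K) = 1 := by
      have := congrArg (fun t : ℤ => (t : 𝓞 K)) hxy
      push_cast at this
      exact this
    refine hz (x * i) ((x : 𝓞 K) * (w' - (e : 𝓞 K) * (u : 𝓞 K) + (b : 𝓞 K) * w) +
      (y : 𝓞 K) * z) ?_
    push_cast
    linear_combination (-z) * hxy' + (x : 𝓞 K) * hv

end Pool.Agent.MP_ca7d12_nt
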