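import Pool.Agent.Lib.MP_ca7d12_nt.H.MainC
import Pool.Agent.Lib.MP_ca7d12_nt.H.CycH
import Pool.Agent.Lib.MP_ca7d12_nt.T.KeyT

set_option autoImplicit false

namespace Pool.Agent.MP_ca7d12_nt

open NumberField MainG MainW

/-- A unit of exact level `n / f`, `f ^ 2 ∣ n`, gives a covered subgroup of index at most
`n ^ 2 / f`. -/
theorem cover_of_unit (K : Type*) [Field K] [NumberField K] (hK : Module.finrank ℚ K = 3)
    (n f : ℕ) (hn : n ≠ 0) (hfn : f ^ 2 ∣ n) (h : HasUnit K (n / f) f) :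
    ∃ L : AddSubgroup (𝓞 K), L.index * f ≤ n ^ 2 ∧ UnitsCover K n L := by
  have hR : ∀ q : ℤ, IsUnit (q : 𝓞 K) → IsUnit q := isUnit_of_isUnit_intCast K
  obtain ⟨u, cs, v, hu, hprim⟩ := h
  have hf0 : f ≠ 0 := by
    rintro rfl
    exact hn (by simpa using hfn)
  obtain ⟨e₀, he₀⟩ := hfn
  set s : ℕ := n / f with hs
  have hsf : n = s * f := by
    rw [hs, Nat.div_mul_cancel]
    exact ⟨f * e₀, by rw [he₀]; ring⟩
  have hfs : s = f * e₀ := by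
    have h1 : s * f = (f * e₀) * f := by rw [← hsf, he₀]; ring
    exact Nat.eq_of_mul_eq_mul_right (Nat.pos_of_ne_zero hf0) h1
  have hs0 : s ≠ 0 := by
    intro h0
    rw [h0, zero_mul] at hsf
    exact hn hsf
  have hns : n ∣ s ^ 2 := ⟨e₀, by
    calc s ^ 2 = s * s := by ring
      _ = s * (f * e₀) := by rw [← hfs]
      _ = (s * f) * e₀ := by ring
      _ = n * e₀ := by rw [← hsf]⟩
  have hnR : (n : 𝓞 K) = (s : 𝓞 K) * (f : 𝓞 K) := by rw [hsf]; push_cast; rfl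
  have hind : ∀ x y : ℤ, (n : 𝓞 K) ∣ (x : 𝓞 K) + (s : 𝓞 K) * (y : 𝓞 K) * v →
      (n : ℤ) ∣ x ∧ (f : ℤ) ∣ y := by
    rintro x y ⟨w, hw⟩
    have h1 : ((s : ℤ) : 𝓞 K) * ((f : 𝓞 K) * w - (y : 𝓞 K) * v) = (x : 𝓞 K) := by
      rw [hnR] at hw
      push_cast
      linear_combination -hw
    obtain ⟨x', hx'⟩ := exists_int_of_mul_eq K _ (s : ℤ) x (by exact_mod_cast hs0) h1
    rw [hx'] at h1
    have h2 : x = (s : ℤ) * x' := by
      have : (((s : ℤ) * x' : ℤ) : 𝓞 K) = (x : 𝓞 K) := by push_cast at h1 ⊢; exact h1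
      exact_mod_cast this.symm
    have h3 : (f : 𝓞 K) ∣ (x' : 𝓞 K) + (y : 𝓞 K) * v := ⟨w, by linear_combination -hx'⟩
    obtain ⟨h4, h5⟩ := indepS hR v f hf0 hprim x' y h3
    refine ⟨?_, h5⟩
    rw [h2, hsf]
    push_cast
    exact mul_dvd_mul_left _ h4
  have hgen : ∀ y ∈ (⊤ : Ideal (𝓞 K)), ∃ z : 𝓞 K, ∃ y' ∈ (⊤ : Ideal (𝓞 K)),
      y = 1 * z + (n : 𝓞 K) * y' := fun y _ => ⟨y, 0, Submodule.mem_top, by ring⟩
  have hidx := (index_G K hK ⊤ (by simp) n s f hn hf0 1 v hgen hind).2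
  rw [Ideal.absNorm_top, one_mul] at hidx
  refine ⟨LL K ⊤ n 1 v 1 s, hidx, ⟨1, 0, 0, Submodule.mem_top, by push_cast; ring⟩,
    fun z => ⟨0, 0, z, Submodule.mem_top, by push_cast; ring⟩, ?_⟩
  rintro y ⟨a, t, z, hz, hyz⟩ hco
  have hcs : IsCoprime cs (n : ℤ) := by
    have h1 : IsCoprime cs (s : ℤ) := UnitsA.coprime_of_unit hR cs (s : ℤ) (u : 𝓞 K) v u.isUnit
      ⟨1, by rw [hu]; push_cast; ring⟩
    have h2 : (n : ℤ) ∣ (s : ℤ) ^ 2 := by exact_mod_cast hns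
    exact (h1.pow_right (n := 2)).of_isCoprime_of_dvd_right h2
  have hac : IsCoprime a (n : ℤ) := by
    rw [Int.isCoprime_iff_nat_coprime]
    simp only [Int.natAbs_natCast]
    refine Nat.Coprime.symm (Nat.coprime_of_dvd ?_)
    intro q hqp hqn hqa
    obtain ⟨a', ha'⟩ := Int.natCast_dvd.2 hqa
    obtain ⟨s', hs'⟩ : q ∣ s := hqp.dvd_of_dvd_pow (hqn.trans hns)
    obtain ⟨n', hn'⟩ := hqn
    obtain ⟨x, x', hx⟩ := hco
    have h1 : IsUnit ((q : ℤ) : 𝓞 K) := by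
      refine IsUnit.of_mul_eq_one (x * ((a' : 𝓞 K) + (s' : 𝓞 K) * (t : 𝓞 K) * v +
        (n' : 𝓞 K) * z) + x' * (n' : 𝓞 K)) ?_
      have e1 : (a : 𝓞 K) = (q : 𝓞 K) * (a' : 𝓞 K) := by rw [ha']; push_cast; rfl
      have e2 : (s : 𝓞 K) = (q : 𝓞 K) * (s' : 𝓞 K) := by rw [hs']; push_cast; rfl
      have e3 : (n : 𝓞 K) = (q : 𝓞 K) * (n' : 𝓞 K) := by rw [hn']; push_cast; rfl
      rw [hyz, e1, e2, e3] at hx
      push_cast at hx ⊢
      linear_combination hx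
    exact (Nat.prime_iff_prime_int.1 hqp).not_isUnit (hR _ h1)
  have hy : y = 1 * ((a : 𝓞 K) + ((1 : ℤ) : 𝓞 K) * (s : 𝓞 K) * (t : 𝓞 K) * v) +
      (n : 𝓞 K) * z := by
    rw [hyz]
    push_cast
    ring
  obtain ⟨u', c', b₁, b₂, e, hfin⟩ := KeyT.unit_part u cs 1 t a s n hn v 1 y z
    (by rw [hu]; push_cast; ring) hns hcs hac hy
  exact ⟨u', c', b₁ * y + b₂ * z + e * 1, by linear_combination hfin⟩

/-- Covered subgroups: the bounds, the finiteness, and the existence of covered subgroups. -/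
theorem final_C (K : Type*) [Field K] [NumberField K] (hK : Module.finrank ℚ K = 3)
    (σ : Fin 3 → K →+* ℝ) (hσ : Function.Injective σ) :
    (∃ C : ℝ, ∀ (n : ℕ) (L : AddSubgroup (𝓞 K)), n ≠ 0 → UnitsCover K n L →
      ∀ α : Fin 3 → K, LinearIndependent ℚ α →
      (StableUnder K α n → markovMin (fun i j => σ i (α j)) * (latticeIndex K α : ℝ) ≤
        C ^ (1 + n.primeFactors.card) * (L.index : ℝ)) ∧
      (CyclicModulo K α n → markovMin (fun i j => σ i (α j)) * (n : ℝ) ^ 2 ≤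
        C ^ (1 + n.primeFactors.card) * (L.index : ℝ))) ∧
    (∀ δ ε : ℝ, 0 < δ → 0 < ε →
      {m : ℝ | ∃ (n : ℕ) (L : AddSubgroup (𝓞 K)) (α : Fin 3 → K), n ≠ 0 ∧ UnitsCover K n L ∧
        LinearIndependent ℚ α ∧ StableUnder K α n ∧
        (L.index : ℝ) * (n : ℝ) ^ δ ≤ (latticeIndex K α : ℝ) ∧
        m = markovMin (fun i j => σ i (α j)) ∧ ε ≤ m}.Finite) ∧
    (∀ n f : ℕ, n ≠ 0 → f ^ 2 ∣ n → HasUnit K (n / f) f →
      ∃ L : AddSubgroup (𝓞 K), L.index * f ≤ n ^ 2 ∧ UnitsCover K n L) ∧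
    (∀ s n : ℕ, n ≠ 0 → s ∣ n → (2 ∣ n → 4 ∣ s) → UnitsFill K s n →
      ∃ L : AddSubgroup (𝓞 K), L.index ≤ s ^ 2 ∧ UnitsCover K n L) ∧
    (IsGalois ℚ K → ∀ s n : ℕ, s ≠ 0 → (∀ p : ℕ, p.Prime → p ∣ n → p % 3 = 2 ∧ p ∣ s) →
      HasUnit K s n → UnitsFill K s n) ∧
    (∀ p : ℕ, p.Prime → ∃ w : ℕ, ∀ j b : ℕ, HasUnit K (p ^ (w + j)) (p ^ b)) ∧
    (∀ p w : ℕ, p.Prime → 3 ≤ p → 1 ≤ w → HasUnit K (p ^ w) p →
      ∀ j b : ℕ, HasUnit K (p ^ (w + j)) (p ^ b)) := by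
  refine ⟨?_, fun δ ε hδ hε => finite_C K hK σ hσ δ ε hδ hε,
    fun n f hn hfn h => cover_of_unit K hK n f hn hfn h,
    fun s n hn hsn h4 h => cover_of_fill K hK s n hn hsn h4 h, fun hG s n hs0 hn h => ?_,
    fun p hp => hasUnit_prime K hK σ hσ p hp,
    fun p w hp hp3 hw h j b => hasUnit_odd K p hp hp3 w hw h j b⟩
  · obtain ⟨C, hC1, hC⟩ := bound_C K hK σ hσ
    exact ⟨C, fun n L hn hcov α hα => ⟨fun hst => hC n L hn hcov α hα hst,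
      fun hcy => cyclic_C K hK σ _ α n hα hn hcy (hC n L hn hcov α hα hcy.1)⟩⟩
  · haveI := hG
    exact fill_of_cyclic K hK s n hs0 hn h

end Pool.Agent.MP_ca7d12_nt
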