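import Pool.Agent.Lib.MP_ca7d12_nt.H.Defs
import Pool.Agent.Lib.MP_ca7d12_nt.ExistsUnit
import Pool.Agent.Lib.MP_ca7d12_nt.UnitsA

set_option autoImplicit false

namespace Pool.Agent.MP_ca7d12_nt

open NumberField

/-- The units of the order `ℤ + n 𝓞_K`: the units of `𝓞_K` which are congruent to an integer
modulo `n`. -/
def unitsMod (K : Type*) [Field K] [NumberField K] (n : ℕ) : Subgroup (𝓞 K)ˣ where
  carrier := {u | ∃ c : ℤ, (n : 𝓞 K) ∣ (u : 𝓞 K) - (c : 𝓞 K)}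
  mul_mem' := by
    rintro u u' ⟨c, v, hv⟩ ⟨c', v', hv'⟩
    refine ⟨c * c', v * (u' : 𝓞 K) + (c : 𝓞 K) * v', ?_⟩
    push_cast
    linear_combination (u' : 𝓞 K) * hv + (c : 𝓞 K) * hv'
  one_mem' := ⟨1, 0, by push_cast; ring⟩
  inv_mem' := by
    rintro u ⟨c, v, hv⟩
    obtain ⟨b, e, hb⟩ := UnitsA.coprime_of_unit (isUnit_of_isUnit_intCast K) c (n : ℤ) (u : 𝓞 K) v
      u.isUnit ⟨1, by push_cast; linear_combination hv⟩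
    have hb' : (b : 𝓞 K) * (c : 𝓞 K) + (e : 𝓞 K) * (n : 𝓞 K) = 1 := by
      have := congrArg (fun z : ℤ => (z : 𝓞 K)) hb
      simpa using this
    have huu : ((u⁻¹ : (𝓞 K)ˣ) : 𝓞 K) * (u : 𝓞 K) = 1 := Units.inv_mul u
    refine ⟨b, ((u⁻¹ : (𝓞 K)ˣ) : 𝓞 K) * ((e : 𝓞 K) - (b : 𝓞 K) * v), ?_⟩
    linear_combination (-((u⁻¹ : (𝓞 K)ˣ) : 𝓞 K)) * hb' -
      ((u⁻¹ : (𝓞 K)ˣ) : 𝓞 K) * (b : 𝓞 K) * hv + (b : 𝓞 K) * huu

end Pool.Agent.MP_ca7d12_nt
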