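import Pool.Agent.Lib.MP_ca7d12_nt.H.CardUnits
import Pool.Agent.Lib.MP_ca7d12_nt.H.UnitIndex

set_option autoImplicit false

namespace Pool.Agent.MP_ca7d12_nt

open NumberField

/-- The invertible classes represented by integers. -/
private def rpZ (Q : Type*) [CommRing Q] [Finite Qˣ] : Subgroup Qˣ where
  carrier := {g | ∃ c : ℤ, (g : Q) = (c : Q)}
  mul_mem' := by
    rintro g g' ⟨c, hc⟩ ⟨c', hc'⟩
    exact ⟨c * c', by push_cast; rw [hc, hc']⟩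
  one_mem' := ⟨1, by simp⟩
  inv_mem' := by
    rintro g ⟨c, hc⟩
    refine ⟨c ^ (orderOf g - 1), ?_⟩
    have h1 : 0 < orderOf g := orderOf_pos g
    have h2 : g⁻¹ = g ^ (orderOf g - 1) := by
      rw [inv_eq_iff_mul_eq_one]
      conv_lhs => rw [← pow_one g]
      rw [pow_one, ← pow_succ', Nat.sub_add_cancel h1, pow_orderOf_eq_one]
    rw [h2]
    push_cast
    rw [hc]

private theorem rpZ_card (Q : Type*) [CommRing Q] [Finite Qˣ] (n : ℕ) (hn : n ≠ 0)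
    (h0 : (n : Q) = 0) : Nat.card (rpZ Q) ≤ n := by
  have : NeZero n := ⟨hn⟩
  have h1 : ∀ g : rpZ Q, ∃ c : ℤ, ((g : Qˣ) : Q) = (c : Q) := fun g => g.2
  choose c hc using h1
  have hinj : Function.Injective fun g : rpZ Q => ((c g : ℤ) : ZMod n) := by
    intro g g' h
    have h2 : ((c g : ℤ) : ZMod n) = ((c g' : ℤ) : ZMod n) := h
    rw [ZMod.intCast_eq_intCast_iff_dvd_sub] at h2
    obtain ⟨d, hd⟩ := h2
    have h3 : ((c g' : ℤ) : Q) = ((c g : ℤ) : Q) := by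
      have h4 : c g' = c g + (n : ℤ) * d := by linarith
      rw [h4]
      push_cast
      rw [h0]
      ring
    apply Subtype.ext
    apply Units.ext
    rw [hc g, hc g', h3]
  have h5 := Nat.card_le_card_of_injective _ hinj
  rwa [Nat.card_zmod] at h5

/-- Many elements prime to `n`, pairwise inequivalent modulo `n`, integers and units. -/
theorem exists_reps_mod (K : Type*) [Field K] [NumberField K] (hK : Module.finrank ℚ K = 3)
    (n : ℕ) (hn : n ≠ 0) :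
    ∃ H : Finset (𝓞 K), n ^ 2 ≤ H.card * 16 ^ n.primeFactors.card * (unitsMod K n).index ∧
      (∀ γ ∈ H, IsCoprime γ (n : 𝓞 K)) ∧
      ∀ γ ∈ H, ∀ γ' ∈ H, ∀ (u : (𝓞 K)ˣ) (c : ℤ) (v : 𝓞 K),
        γ = (c : 𝓞 K) * ((u : 𝓞 K) * γ') + (n : 𝓞 K) * v → γ = γ' := by
  classical
  have hcard := card_units_quot K hK n hn
  obtain ⟨Q, hQ⟩ : ∃ Q, Q = (𝓞 K ⧸ Ideal.span {(n : 𝓞 K)}) := ⟨_, rfl⟩
  have hG : 0 < Nat.card (𝓞 K ⧸ Ideal.span {(n : 𝓞 K)})ˣ := by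
    rcases Nat.eq_zero_or_pos (Nat.card (𝓞 K ⧸ Ideal.span {(n : 𝓞 K)})ˣ) with h | h
    · rw [h, zero_mul] at hcard
      have := pow_pos (Nat.pos_of_ne_zero hn) 3
      omega
    · exact h
  have hfin : Finite (𝓞 K ⧸ Ideal.span {(n : 𝓞 K)})ˣ := Nat.finite_of_card_ne_zero hG.ne'
  have hn0 : ((n : ℕ) : 𝓞 K ⧸ Ideal.span {(n : 𝓞 K)}) = 0 := by
    have h1 : Ideal.Quotient.mk (Ideal.span {(n : 𝓞 K)}) (n : 𝓞 K) = 0 :=
      Ideal.Quotient.eq_zero_iff_mem.2 (Ideal.mem_span_singleton_self _)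
    rwa [map_natCast] at h1
  let mk := Ideal.Quotient.mk (Ideal.span {(n : 𝓞 K)})
  let φ : (𝓞 K)ˣ →* (𝓞 K ⧸ Ideal.span {(n : 𝓞 K)})ˣ := Units.map mk.toMonoidHom
  have hφ : ∀ u : (𝓞 K)ˣ, ((φ u : (𝓞 K ⧸ Ideal.span {(n : 𝓞 K)})ˣ) :
      𝓞 K ⧸ Ideal.span {(n : 𝓞 K)}) = mk (u : 𝓞 K) := fun u => rfl
  let Z := rpZ (𝓞 K ⧸ Ideal.span {(n : 𝓞 K)})
  have hZc : Nat.card Z ≤ n := rpZ_card _ n hn hn0
  let N := Z ⊔ φ.range
  -- the units congruent to integers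
  have hU : ∀ u : (𝓞 K)ˣ, u ∈ unitsMod K n ↔ φ u ∈ Z := by
    intro u
    constructor
    · rintro ⟨c, hc⟩
      refine ⟨c, ?_⟩
      rw [hφ]
      have h1 : mk ((u : 𝓞 K) - (c : 𝓞 K)) = 0 :=
        Ideal.Quotient.eq_zero_iff_mem.2 (Ideal.mem_span_singleton.2 hc)
      rw [map_sub, map_intCast, sub_eq_zero] at h1
      exact h1
    · rintro ⟨c, hc⟩
      refine ⟨c, ?_⟩
      rw [hφ] at hc
      have h1 : mk ((u : 𝓞 K) - (c : 𝓞 K)) = 0 := by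
        rw [map_sub, map_intCast, hc, sub_self]
      exact Ideal.mem_span_singleton.1 (Ideal.Quotient.eq_zero_iff_mem.1 h1)
  have hker : φ.ker ≤ unitsMod K n := fun u hu => (hU u).2 (by
    rw [MonoidHom.mem_ker] at hu
    rw [hu]
    exact Z.one_mem)
  have hkf : φ.ker.FiniteIndex := inferInstance
  have hUf : (unitsMod K n).FiniteIndex := Subgroup.finiteIndex_of_le hker
  have hUfin : Finite ((𝓞 K)ˣ ⧸ unitsMod K n) := inferInstance
  -- the order of `N`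
  have hN : Nat.card N ≤ n * (unitsMod K n).index := by
    have hsurj : Function.Surjective fun p : Z × ((𝓞 K)ˣ ⧸ unitsMod K n) =>
        (⟨(p.1 : (𝓞 K ⧸ Ideal.span {(n : 𝓞 K)})ˣ) * φ p.2.out,
          Subgroup.mul_mem_sup p.1.2 ⟨_, rfl⟩⟩ : N) := by
      rintro ⟨g, hg⟩
      obtain ⟨z, hz, y, ⟨u, rfl⟩, hzy⟩ := Subgroup.mem_sup.1 hg
      have h1 : (QuotientGroup.mk u : (𝓞 K)ˣ ⧸ unitsMod K n).out⁻¹ * u ∈ unitsMod K n := by
        rw [← QuotientGroup.eq, QuotientGroup.out_eq']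
      have h2 := (hU _).1 h1
      refine ⟨⟨⟨z * φ ((QuotientGroup.mk u : (𝓞 K)ˣ ⧸ unitsMod K n).out⁻¹ * u),
        Z.mul_mem hz h2⟩, QuotientGroup.mk u⟩, ?_⟩
      apply Subtype.ext
      show z * φ ((QuotientGroup.mk u : (𝓞 K)ˣ ⧸ unitsMod K n).out⁻¹ * u) *
        φ (QuotientGroup.mk u : (𝓞 K)ˣ ⧸ unitsMod K n).out = g
      rw [← hzy, map_mul, map_inv]
      rw [mul_assoc, mul_assoc, mul_comm (φ u), ← mul_assoc (φ _)⁻¹, inv_mul_cancel, one_mul]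
    have h3 := Nat.card_le_card_of_surjective _ hsurj
    rw [Nat.card_prod] at h3
    exact h3.trans (Nat.mul_le_mul_right _ hZc)
  -- the representatives
  have hlift : ∀ q : (𝓞 K ⧸ Ideal.span {(n : 𝓞 K)})ˣ ⧸ N, ∃ γ : 𝓞 K, mk γ =
      ((q.out : (𝓞 K ⧸ Ideal.span {(n : 𝓞 K)})ˣ) : 𝓞 K ⧸ Ideal.span {(n : 𝓞 K)}) :=
    fun q => Ideal.Quotient.mk_surjective _
  choose γ hγ using hlift
  have hGN : Fintype ((𝓞 K ⧸ Ideal.span {(n : 𝓞 K)})ˣ ⧸ N) := Fintype.ofFinite _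
  have hinj : Function.Injective γ := by
    intro q q' h
    have h1 : q.out = q'.out := by
      apply Units.ext
      rw [← hγ q, ← hγ q', h]
    rw [← QuotientGroup.out_eq' q, ← QuotientGroup.out_eq' q', h1]
  refine ⟨Finset.univ.image γ, ?_, ?_, ?_⟩
  · have hH : (Finset.univ.image γ).card = N.index := by
      rw [Finset.card_image_of_injective _ hinj, Finset.card_univ, ← Nat.card_eq_fintype_card]
      rfl
    rw [hH]
    have h1 := Subgroup.card_mul_index N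
    have h2 : n * n ^ 2 ≤ n * (N.index * 16 ^ n.primeFactors.card * (unitsMod K n).index) := by
      calc n * n ^ 2 = n ^ 3 := by ring
        _ ≤ Nat.card (𝓞 K ⧸ Ideal.span {(n : 𝓞 K)})ˣ * 16 ^ n.primeFactors.card := hcard
        _ = Nat.card N * N.index * 16 ^ n.primeFactors.card := by rw [h1]
        _ ≤ (n * (unitsMod K n).index) * N.index * 16 ^ n.primeFactors.card := by
            gcongr
        _ = _ := by ring
    exact Nat.le_of_mul_le_mul_left h2 (Nat.pos_of_ne_zero hn)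
  · intro x hx
    obtain ⟨q, -, rfl⟩ := Finset.mem_image.1 hx
    obtain ⟨δ, hδ⟩ := Ideal.Quotient.mk_surjective
      ((q.out⁻¹ : (𝓞 K ⧸ Ideal.span {(n : 𝓞 K)})ˣ) : 𝓞 K ⧸ Ideal.span {(n : 𝓞 K)})
    have h1 : mk (δ * γ q - 1) = 0 := by
      rw [map_sub, map_mul, map_one, hγ]
      have h2 : mk δ = ((q.out⁻¹ : (𝓞 K ⧸ Ideal.span {(n : 𝓞 K)})ˣ) :
        𝓞 K ⧸ Ideal.span {(n : 𝓞 K)}) := hδ
      rw [h2, Units.inv_mul, sub_self]
    obtain ⟨e, he⟩ := Ideal.mem_span_singleton.1 (Ideal.Quotient.eq_zero_iff_mem.1 h1)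
    exact ⟨δ, -e, by linear_combination he⟩
  · intro x hx x' hx' u c v h
    obtain ⟨q, -, rfl⟩ := Finset.mem_image.1 hx
    obtain ⟨q', -, rfl⟩ := Finset.mem_image.1 hx'
    have h1 : ((q.out : (𝓞 K ⧸ Ideal.span {(n : 𝓞 K)})ˣ) : 𝓞 K ⧸ Ideal.span {(n : 𝓞 K)}) =
        (c : 𝓞 K ⧸ Ideal.span {(n : 𝓞 K)}) * (((φ u : (𝓞 K ⧸ Ideal.span {(n : 𝓞 K)})ˣ) :
          𝓞 K ⧸ Ideal.span {(n : 𝓞 K)}) * (q'.out : (𝓞 K ⧸ Ideal.span {(n : 𝓞 K)})ˣ)) := by
      rw [← hγ q, ← hγ q', hφ, h, map_add, map_mul, map_mul, map_mul, map_intCast]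
      have h2 : mk (n : 𝓞 K) = 0 := by
        rw [map_natCast]
        exact hn0
      rw [h2, zero_mul, add_zero]
    have h3 : q.out * (φ u * q'.out)⁻¹ ∈ Z := by
      refine ⟨c, ?_⟩
      rw [Units.val_mul, h1, mul_assoc, ← Units.val_mul, ← Units.val_mul, mul_inv_cancel,
        Units.val_one, mul_one]
    have h4 : q'.out⁻¹ * q.out ∈ N := by
      have h5 : q'.out⁻¹ * q.out = (q.out * (φ u * q'.out)⁻¹) * φ u := by
        rw [mul_inv, mul_comm (φ u)⁻¹, ← mul_assoc, mul_assoc _ (φ u)⁻¹, inv_mul_cancel, mul_one,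
          mul_comm]
      rw [h5]
      exact Subgroup.mul_mem_sup h3 ⟨_, rfl⟩
    have h6 : q = q' := by
      rw [← QuotientGroup.out_eq' q, ← QuotientGroup.out_eq' q']
      exact (QuotientGroup.eq.2 h4).symm
    rw [h6]

end Pool.Agent.MP_ca7d12_nt
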