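import Pool.Agent.Lib.MP_ca7d12_nt.H.PigeonD
import Pool.Agent.Lib.MP_ca7d12_nt.H.Reps2
import Pool.Agent.Lib.MP_ca7d12_nt.H.Lat
import Pool.Agent.Lib.MP_ca7d12_nt.H.Small
import Pool.Agent.Lib.MP_ca7d12_nt.G.IndexG

set_option autoImplicit false

namespace Pool.Agent.MP_ca7d12_nt

open NumberField

/-- The index of a lattice `ℤ γ + n 𝓞_K` is at most `n ^ 2`. -/
private theorem latIndex_le (K : Type*) [Field K] [NumberField K] (hK : Module.finrank ℚ K = 3)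
    (γ : 𝓞 K) (n : ℕ) (hn : n ≠ 0) (hco : IsCoprime γ (n : 𝓞 K)) (α' : Fin 3 → 𝓞 K)
    (hmem : ∀ x : 𝓞 K, x ∈ AddSubgroup.closure (Set.range α') ↔
      ∃ (c : ℤ) (w : 𝓞 K), x = (c : 𝓞 K) * γ + (n : 𝓞 K) * w)
    (hspan : Ideal.span (Set.range α') = ⊤) :
    latticeIndex K (fun j => (α' j : K)) ≤ n ^ 2 := by
  have hidx := MainW.index_eq (fun j => (α' j : K)) 1 one_ne_zero α' (fun j => (one_mul _).symm)
    ⊤ hspan
  rw [Ideal.absNorm_top, mul_one] at hidx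
  rw [← hidx]
  have hgen : ∀ y ∈ (⊤ : Ideal (𝓞 K)), ∃ z : 𝓞 K, ∃ y' ∈ (⊤ : Ideal (𝓞 K)),
      y = γ * z + (n : 𝓞 K) * y' := by
    intro y _
    obtain ⟨A, B, hAB⟩ := hco
    exact ⟨A * y, B * y, Submodule.mem_top, by linear_combination (-y) * hAB⟩
  have hind : ∀ x y : ℤ, (n : 𝓞 K) ∣ (x : 𝓞 K) + (n : 𝓞 K) * (y : 𝓞 K) * 0 →
      (n : ℤ) ∣ x ∧ ((1 : ℕ) : ℤ) ∣ y := by
    rintro x y ⟨w, hw⟩
    refine ⟨?_, by simp⟩
    have h1 : ((n : ℤ) : 𝓞 K) * w = (x : 𝓞 K) := by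
      push_cast
      linear_combination -hw
    obtain ⟨x', hx'⟩ := exists_int_of_mul_eq K _ (n : ℤ) x (by exact_mod_cast hn) h1
    rw [hx'] at h1
    refine ⟨x', ?_⟩
    have h2 : (((n : ℤ) * x' : ℤ) : 𝓞 K) = (x : 𝓞 K) := by push_cast at h1 ⊢; exact h1
    exact_mod_cast h2.symm
  have h := (index_G K hK ⊤ (by simp) n n 1 hn one_ne_zero γ 0 hgen hind).2
  rw [Ideal.absNorm_top, one_mul, mul_one] at h
  have heq : AddSubgroup.closure (Set.range α') = LL K ⊤ n γ 0 1 n := by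
    ext x
    rw [hmem]
    constructor
    · rintro ⟨c, w, rfl⟩
      exact ⟨c, 0, w, Submodule.mem_top, by push_cast; ring⟩
    · rintro ⟨c, t, w, _, hx⟩
      exact ⟨c, w, by rw [hx]; push_cast; ring⟩
  rw [heq]
  exact h

/-- The lower bound for every `n`: some invertible module over `ℤ + n 𝓞_K` has
`m(F) ≥ 1 / (C ^ (1 + ω(n)) [E : E_n])`. -/
theorem lower_all (K : Type*) [Field K] [NumberField K] (hK : Module.finrank ℚ K = 3)
    (σ : Fin 3 → K →+* ℝ) (hσ : Function.Injective σ) :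
    ∃ C : ℝ, ∀ n : ℕ, n ≠ 0 → ∃ α : Fin 3 → K, LinearIndependent ℚ α ∧ CyclicModulo K α n ∧
      1 ≤ C ^ (1 + n.primeFactors.card) * ((unitsMod K n).index : ℝ) *
        markovMin (fun i j => σ i (α j)) := by
  obtain ⟨δ, hδ, hsmall⟩ := exists_small_of_bound K hK σ hσ
  obtain ⟨C0, hC0⟩ := card_le_of_small_mod K hK
  obtain ⟨C, hC⟩ : ∃ C : ℝ, C = 64 * ((C0 : ℝ) * δ + 1) := ⟨_, rfl⟩
  have hC64 : 64 ≤ C := by
    have : 0 ≤ (C0 : ℝ) * δ := by positivity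
    rw [hC]
    linarith
  have hCpos : 0 < C := by linarith
  refine ⟨C, fun n hn => ?_⟩
  obtain ⟨H, hHcard, hco, hineq⟩ := exists_reps_mod K hK n hn
  obtain ⟨ω, hω⟩ : ∃ ω, ω = n.primeFactors.card := ⟨_, rfl⟩
  obtain ⟨d, hd⟩ : ∃ d, d = (unitsMod K n).index := ⟨_, rfl⟩
  rw [← hω, ← hd] at hHcard
  rw [← hω, ← hd]
  have hn2 : 0 < n ^ 2 := by positivity
  have hd0 : d ≠ 0 := by
    rintro rfl
    simp at hHcard
    exact hn hHcard
  have hdpos : (0 : ℝ) < (d : ℝ) := by exact_mod_cast Nat.pos_of_ne_zero hd0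
  have hHne : H.Nonempty := by
    rw [Finset.nonempty_iff_ne_empty]
    rintro rfl
    simp at hHcard
    exact hn hHcard
  by_contra hcon
  push Not at hcon
  obtain ⟨D, hD⟩ : ∃ D : ℝ, D = C ^ (1 + ω) * (d : ℝ) := ⟨_, rfl⟩
  have hDpos : 0 < D := by rw [hD]; positivity
  have hnR : (0 : ℝ) < (n : ℝ) ^ 2 := by
    have : (0 : ℝ) < (n : ℝ) := by exact_mod_cast Nat.pos_of_ne_zero hn
    positivity
  obtain ⟨B, hB⟩ : ∃ B : ℝ, B = (n : ℝ) ^ 2 / D := ⟨_, rfl⟩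
  have hB0 : 0 < B := by rw [hB]; positivity
  obtain ⟨X, hX⟩ : ∃ X : ℕ, X = ⌊δ * B⌋₊ := ⟨_, rfl⟩
  have hnat : ∀ γ ∈ H, ∃ (a : ℤ) (v : 𝓞 K), (a : 𝓞 K) * γ + (n : 𝓞 K) * v ≠ 0 ∧
      |Algebra.norm ℤ ((a : 𝓞 K) * γ + (n : 𝓞 K) * v)| ≤ (X : ℤ) := by
    intro γ hγ
    obtain ⟨α', hli, hmem, hcyc, hspan⟩ := exists_lattice K hK γ n hn (hco γ hγ)
    have hI := latIndex_le K hK γ n hn (hco γ hγ) α' hmem hspan
    have hI' : (latticeIndex K (fun j => (α' j : K)) : ℝ) ≤ (n : ℝ) ^ 2 := by exact_mod_cast hI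
    have hm := hcon _ hli hcyc
    rw [← hD] at hm
    have hm' : markovMin (fun i j => σ i (α' j : K)) ≤ 1 / D := by
      rw [le_div_iff₀ hDpos, mul_comm]
      exact hm.le
    have hbd : markovMin (fun i j => σ i (α' j : K)) *
        (latticeIndex K (fun j => (α' j : K)) : ℝ) ≤ B := by
      calc markovMin (fun i j => σ i (α' j : K)) * (latticeIndex K (fun j => (α' j : K)) : ℝ)
          ≤ 1 / D * (latticeIndex K (fun j => (α' j : K)) : ℝ) :=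
            mul_le_mul_of_nonneg_right hm' (Nat.cast_nonneg _)
        _ ≤ 1 / D * (n : ℝ) ^ 2 := mul_le_mul_of_nonneg_left hI' (by positivity)
        _ = B := by rw [hB]; ring
    obtain ⟨x, hx, hx0, hxN⟩ := hsmall α' hli hspan B hbd
    obtain ⟨a, v, hxe⟩ := (hmem x).1 hx
    refine ⟨a, v, hxe ▸ hx0, ?_⟩
    rw [← hxe]
    have h3 : (Algebra.norm ℤ x).natAbs ≤ X := by
      rw [hX]
      refine Nat.le_floor ?_
      rw [Nat.cast_natAbs]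
      exact hxN
    rw [← Int.natCast_natAbs]
    exact_mod_cast h3
  have hX1 : 1 ≤ X := by
    obtain ⟨γ, hγ⟩ := hHne
    obtain ⟨a, v, h1, h2⟩ := hnat γ hγ
    have h3 : Algebra.norm ℤ ((a : 𝓞 K) * γ + (n : 𝓞 K) * v) ≠ 0 :=
      Algebra.norm_ne_zero_iff.2 h1
    have h4 := Int.one_le_abs h3
    omega
  have hXle : (X : ℝ) ≤ δ * B := by rw [hX]; exact Nat.floor_le (by positivity)
  have h1 := hC0 n X hn hX1 H hco hineq hnat
  rw [← hω] at h1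
  have h2 : (H.card : ℝ) ≤ (C0 : ℝ) * 4 ^ ω * (X : ℝ) := by exact_mod_cast h1
  have h3 : (n : ℝ) ^ 2 ≤ (H.card : ℝ) * 16 ^ ω * (d : ℝ) := by exact_mod_cast hHcard
  have h4 : (n : ℝ) ^ 2 ≤ (C0 : ℝ) * 4 ^ ω * (δ * B) * 16 ^ ω * (d : ℝ) := by
    refine h3.trans ?_
    refine mul_le_mul_of_nonneg_right (mul_le_mul_of_nonneg_right ?_ (by positivity)) hdpos.le
    exact h2.trans (mul_le_mul_of_nonneg_left hXle (by positivity))
  have h5 : (C0 : ℝ) * 4 ^ ω * (δ * B) * 16 ^ ω * (d : ℝ) =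
      ((C0 : ℝ) * δ * 64 ^ ω / C ^ (1 + ω)) * (n : ℝ) ^ 2 := by
    have e : (64 : ℝ) ^ ω = 4 ^ ω * 16 ^ ω := by rw [← mul_pow]; norm_num
    rw [hB, hD, e]
    field_simp
  have h6 : (C0 : ℝ) * δ * 64 ^ ω / C ^ (1 + ω) < 1 := by
    rw [div_lt_one (by positivity), pow_add, pow_one]
    have h7 : (64 : ℝ) ^ ω ≤ C ^ ω := pow_le_pow_left₀ (by norm_num) hC64 ω
    have h8 : (C0 : ℝ) * δ < C := by
      have : 0 ≤ (C0 : ℝ) * δ := by positivity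
      rw [hC]
      linarith
    have h9 : (0 : ℝ) < 64 ^ ω := by positivity
    calc (C0 : ℝ) * δ * 64 ^ ω < C * 64 ^ ω := mul_lt_mul_of_pos_right h8 h9
      _ ≤ C * C ^ ω := mul_le_mul_of_nonneg_left h7 hCpos.le
  rw [h5] at h4
  nlinarith

end Pool.Agent.MP_ca7d12_nt
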