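import Pool.Agent.Lib.MP_ca7d12_nt.H.FinalC
import Pool.Agent.Lib.MP_ca7d12_nt.H.LowerAll

set_option autoImplicit false

namespace Pool.Agent.MP_ca7d12_nt

open NumberField

/-- Covered subgroups: the bounds, the finiteness, the existence of covered subgroups, and the lower
bound for all `n`. -/
theorem final_C2 (K : Type) [Field K] [NumberField K] (hK : Module.finrank ℚ K = 3)
    (σ : Fin 3 → K →+* ℝ) (hσ : Function.Injective σ) :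
    (∃ C : ℝ, ∀ (n : ℕ) (L : AddSubgroup (𝓞 K)), n ≠ 0 → UnitsCover K n L →
      ∀ α : Fin 3 → K, LinearIndependent ℚ α →
      (StableUnder K α n → markovMin (fun i j => σ i (α j)) * (latticeIndex K α : ℝ) ≤
        C ^ (1 + n.primeFactors.card) * (L.index : ℝ)) ∧
      (CyclicModulo K α n → markovMin (fun i j => σ i (α j)) * (n : ℝ) ^ 2 ≤
        C ^ (1 + n.primeFactors.card) * (L.index : ℝ))) ∧
    (∀ δ ε : ℝ, 0 < δ → 0 < ε →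
      {m : ℝ | ∃ (n : ℕ) (L : AddSubgroup (𝓞 K)) (α : Fin 3 → K), n ≠ 0 ∧ UnitsCover K n L ∧
        LinearIndependent ℚ α ∧ StableUnder K α n ∧
        (L.index : ℝ) * (n : ℝ) ^ δ ≤ (latticeIndex K α : ℝ) ∧
        m = markovMin (fun i j => σ i (α j)) ∧ ε ≤ m}.Finite) ∧
    (∀ n f : ℕ, n ≠ 0 → f ^ 2 ∣ n → HasUnit K (n / f) f →
      ∃ L : AddSubgroup (𝓞 K), L.index * f ≤ n ^ 2 ∧ UnitsCover K n L) ∧
    (∀ s n : ℕ, n ≠ 0 → s ∣ n → (2 ∣ n → 4 ∣ s) → UnitsFill K s n →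
      ∃ L : AddSubgroup (𝓞 K), L.index ≤ s ^ 2 ∧ UnitsCover K n L) ∧
    (IsGalois ℚ K → ∀ s n : ℕ, s ≠ 0 → (∀ p : ℕ, p.Prime → p ∣ n → p % 3 = 2 ∧ p ∣ s) →
      HasUnit K s n → UnitsFill K s n) ∧
    (∀ p : ℕ, p.Prime → ∃ w : ℕ, ∀ j b : ℕ, HasUnit K (p ^ (w + j)) (p ^ b)) ∧
    (∀ p w : ℕ, p.Prime → 3 ≤ p → 1 ≤ w → HasUnit K (p ^ w) p →
      ∀ j b : ℕ, HasUnit K (p ^ (w + j)) (p ^ b)) ∧
    (∃ C : ℝ, ∀ n : ℕ, n ≠ 0 → ∃ α : Fin 3 → K, LinearIndependent ℚ α ∧ CyclicModulo K α n ∧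
      1 ≤ C ^ (1 + n.primeFactors.card) * ((unitsMod K n).index : ℝ) *
        markovMin (fun i j => σ i (α j))) :=
  let ⟨h1, h2, h3, h4, h5, h6, h7⟩ := final_C K hK σ hσ
  ⟨h1, h2, h3, h4, h5, h6, h7, lower_all K hK σ hσ⟩

end Pool.Agent.MP_ca7d12_nt
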