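import Pool.Agent.Lib.MP_ca7d12_nt.H.Reps

set_option autoImplicit false

namespace Pool.Agent.MP_ca7d12_nt

open NumberField

private theorem tree_key {R : Type*} [CommRing R] [IsDomain R] {p : ℕ}
    (hp0 : (p : R) ≠ 0) (k : ℕ) (z ζ ζ' : R) (u : Rˣ) (c : ℤ) (v : R)
    (h : (1 + (p : R) * z) + (p : R) ^ (k + 1) * ζ =
      (c : R) * ((u : R) * ((1 + (p : R) * z) + (p : R) ^ (k + 1) * ζ')) +
        (p : R) ^ (k + 2) * v) :
    ∃ Y : R, 1 + (p : R) ^ (k + 1) * (ζ - ζ') = (c : R) * (u : R) + (p : R) ^ (k + 2) * Y := by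
  have h1 : (p : R) ^ (k + 1) ∣ (1 + (p : R) * z) * (1 - (c : R) * (u : R)) :=
    ⟨(c : R) * (u : R) * ζ' - ζ + (p : R) * v, by
      linear_combination h⟩
  have hcop : IsCoprime ((p : R) ^ (k + 1)) (1 + (p : R) * z) :=
    IsCoprime.pow_left ⟨-z, 1, by ring⟩
  obtain ⟨V, hV⟩ := hcop.dvd_of_dvd_mul_left h1
  have h2 : (1 + (p : R) * z) * V = (c : R) * (u : R) * ζ' - ζ + (p : R) * v := by
    apply mul_left_cancel₀ (pow_ne_zero (k + 1) hp0)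
    linear_combination h - (1 + (p : R) * z) * hV
  refine ⟨-((p : R) ^ k * V * ζ') + v - z * V, ?_⟩
  have h3 : V = (ζ' - ζ) + (p : R) * (-((p : R) ^ k * V * ζ') + v - z * V) := by
    linear_combination h2 - ζ' * hV
  linear_combination hV + (p : R) ^ (k + 1) * h3

open Classical in
private theorem tree_aux (K : Type*) [Field K] [NumberField K] (p : ℕ) (hp : p.Prime) (k : ℕ)
    (R : ℕ → Finset (𝓞 K))
    (hR : ∀ j : ℕ, 1 ≤ j → j < k + 1 → NoDir K p j (R j) ∧ (R j).card ≤ p ^ 2) :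
    ∃ H : Finset (𝓞 K), H.card = ∏ j ∈ Finset.Ico 1 (k + 1), (R j).card ∧
      (∀ γ ∈ H, ∃ z : 𝓞 K, γ = 1 + (p : 𝓞 K) * z) ∧
      ∀ i : ℕ, i ≤ k + 1 → ∀ γ₀ ∈ H, (H.filter fun γ => ∃ (u : (𝓞 K)ˣ) (c : ℤ) (v : 𝓞 K),
        γ = (c : 𝓞 K) * ((u : 𝓞 K) * γ₀) + ((p ^ i : ℕ) : 𝓞 K) * v).card ≤
          p ^ (2 * (k + 1 - i)) := by
  induction k with
  | zero =>
    refine ⟨{1}, by simp, ?_, ?_⟩
    · intro γ hγ
      rw [Finset.mem_singleton] at hγ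
      exact ⟨0, by rw [hγ, mul_zero, add_zero]⟩
    · intro i _ γ₀ _
      refine (Finset.card_filter_le _ _).trans ?_
      rw [Finset.card_singleton]
      exact Nat.one_le_pow _ _ hp.pos
  | succ k ih =>
    obtain ⟨H, hcard, hone, hin⟩ := ih fun j h1 h2 => hR j h1 (by omega)
    have hp0 : (p : 𝓞 K) ≠ 0 := by exact_mod_cast hp.ne_zero
    obtain ⟨hND, hRc⟩ := hR (k + 1) (by omega) (by omega)
    have key : ∀ γ ∈ H, ∀ γ' ∈ H, ∀ ζ ∈ R (k + 1), ∀ ζ' ∈ R (k + 1),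
        ∀ (u : (𝓞 K)ˣ) (c : ℤ) (v : 𝓞 K),
        γ + (p : 𝓞 K) ^ (k + 1) * ζ =
          (c : 𝓞 K) * ((u : 𝓞 K) * (γ' + (p : 𝓞 K) ^ (k + 1) * ζ')) +
            (p : 𝓞 K) ^ (k + 2) * v → γ = γ' ∧ ζ = ζ' := by
      intro γ hγ γ' hγ' ζ hζ ζ' hζ' u c v hv
      have hγγ : γ = γ' := by
        have h1 := hin (k + 1) le_rfl γ' hγ'
        rw [Nat.sub_self, mul_zero, pow_zero, Finset.card_le_one] at h1
        refine h1 γ ?_ γ' ?_
        · refine Finset.mem_filter.2 ⟨hγ, u, c,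
            (c : 𝓞 K) * (u : 𝓞 K) * ζ' - ζ + (p : 𝓞 K) * v, ?_⟩
          push_cast
          linear_combination hv
        · refine Finset.mem_filter.2 ⟨hγ', 1, 1, 0, ?_⟩
          simp
      refine ⟨hγγ, ?_⟩
      subst hγγ
      obtain ⟨z, rfl⟩ := hone γ hγ
      obtain ⟨Y, hY⟩ := tree_key hp0 k z ζ ζ' u c v hv
      refine hND ζ hζ ζ' hζ' ⟨u, c, Y, ?_⟩
      push_cast
      exact hY
    refine ⟨(H ×ˢ R (k + 1)).image fun x => x.1 + (p : 𝓞 K) ^ (k + 1) * x.2, ?_, ?_, ?_⟩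
    · rw [Finset.card_image_of_injOn, Finset.card_product, hcard,
        Finset.prod_Ico_succ_top (by omega : 1 ≤ k + 1)]
      rintro ⟨γ, ζ⟩ hx ⟨γ', ζ'⟩ hx' hxx
      rw [Finset.mem_coe, Finset.mem_product] at hx hx'
      have h3 := key γ hx.1 γ' hx'.1 ζ hx.2 ζ' hx'.2 1 1 0 (by
        simp only [Int.cast_one, Units.val_one, one_mul, mul_zero, add_zero]
        exact hxx)
      exact Prod.ext h3.1 h3.2
    · intro γ hγ
      rw [Finset.mem_image] at hγ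
      obtain ⟨⟨γ0, ζ⟩, hx, rfl⟩ := hγ
      rw [Finset.mem_product] at hx
      obtain ⟨z, hz⟩ := hone γ0 hx.1
      refine ⟨z + (p : 𝓞 K) ^ k * ζ, ?_⟩
      change γ0 + (p : 𝓞 K) ^ (k + 1) * ζ = _
      rw [hz]
      ring
    · intro i hi γ₀' hγ₀'
      rw [Finset.mem_image] at hγ₀'
      obtain ⟨⟨γ₀, ζ₀⟩, hx₀, rfl⟩ := hγ₀'
      rw [Finset.mem_product] at hx₀
      rcases Nat.lt_or_ge (k + 1) i with h1 | h1
      · obtain rfl : i = k + 2 := by omega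
        have h2 : k + 1 + 1 - (k + 2) = 0 := by omega
        rw [h2, mul_zero, pow_zero, Finset.card_le_one]
        have h3 : ∀ γ ∈ ((H ×ˢ R (k + 1)).image fun x => x.1 + (p : 𝓞 K) ^ (k + 1) * x.2).filter
            (fun γ => ∃ (u : (𝓞 K)ˣ) (c : ℤ) (v : 𝓞 K),
              γ = (c : 𝓞 K) * ((u : 𝓞 K) * (γ₀ + (p : 𝓞 K) ^ (k + 1) * ζ₀)) +
                ((p ^ (k + 2) : ℕ) : 𝓞 K) * v),
            γ = γ₀ + (p : 𝓞 K) ^ (k + 1) * ζ₀ := by
          intro γ hγ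
          obtain ⟨hγ1, u, c, v, hv⟩ := Finset.mem_filter.1 hγ
          obtain ⟨⟨γ1, ζ1⟩, hx, rfl⟩ := Finset.mem_image.1 hγ1
          rw [Finset.mem_product] at hx
          push_cast at hv
          obtain ⟨h4, h5⟩ := key γ1 hx.1 γ₀ hx₀.1 ζ1 hx.2 ζ₀ hx₀.2 u c v hv
          change γ1 + (p : 𝓞 K) ^ (k + 1) * ζ1 = _
          rw [h4, h5]
        intro a ha b hb
        rw [h3 a ha, h3 b hb]
      · have h2 : ((H ×ˢ R (k + 1)).image fun x => x.1 + (p : 𝓞 K) ^ (k + 1) * x.2).filter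
            (fun γ => ∃ (u : (𝓞 K)ˣ) (c : ℤ) (v : 𝓞 K),
              γ = (c : 𝓞 K) * ((u : 𝓞 K) * (γ₀ + (p : 𝓞 K) ^ (k + 1) * ζ₀)) +
                ((p ^ i : ℕ) : 𝓞 K) * v) ⊆
            ((H.filter fun γ => ∃ (u : (𝓞 K)ˣ) (c : ℤ) (v : 𝓞 K),
              γ = (c : 𝓞 K) * ((u : 𝓞 K) * γ₀) + ((p ^ i : ℕ) : 𝓞 K) * v) ×ˢ R (k + 1)).image
              fun x => x.1 + (p : 𝓞 K) ^ (k + 1) * x.2 := by
          intro γ hγ
          obtain ⟨hγ1, u, c, v, hv⟩ := Finset.mem_filter.1 hγ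
          obtain ⟨⟨γ1, ζ1⟩, hx, rfl⟩ := Finset.mem_image.1 hγ1
          rw [Finset.mem_product] at hx
          refine Finset.mem_image.2 ⟨(γ1, ζ1), Finset.mem_product.2 ⟨Finset.mem_filter.2
            ⟨hx.1, u, c, v + (p : 𝓞 K) ^ (k + 1 - i) * ((c : 𝓞 K) * (u : 𝓞 K) * ζ₀ - ζ1), ?_⟩,
            hx.2⟩, rfl⟩
          have h3 : (p : 𝓞 K) ^ (k + 1) = (p : 𝓞 K) ^ i * (p : 𝓞 K) ^ (k + 1 - i) := by
            rw [← pow_add]
            congr 1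
            omega
          push_cast at hv ⊢
          change γ1 + (p : 𝓞 K) ^ (k + 1) * ζ1 = _ at hv
          linear_combination hv + ((c : 𝓞 K) * (u : 𝓞 K) * ζ₀ - ζ1) * h3
        refine (Finset.card_le_card h2).trans (Finset.card_image_le.trans ?_)
        rw [Finset.card_product]
        calc _ ≤ p ^ (2 * (k + 1 - i)) * p ^ 2 :=
              Nat.mul_le_mul (hin i h1 γ₀ hx₀.1) hRc
          _ = p ^ (2 * (k + 1 + 1 - i)) := by
              rw [← pow_add]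
              congr 1
              omega

open Classical in
/-- Representatives `1 + p ζ₁ + … + p ^ (w - 1) ζ_(w-1)` with `ζ_j ∈ R j`: at most `p ^ (2 (w - i))` of
them are equivalent to a given one modulo `p ^ i`, integers and units. -/
theorem exists_tree (K : Type*) [Field K] [NumberField K] (p : ℕ) (hp : p.Prime) (w : ℕ)
    (R : ℕ → Finset (𝓞 K))
    (hR : ∀ j : ℕ, 1 ≤ j → j < w → NoDir K p j (R j) ∧ (R j).card ≤ p ^ 2) :
    ∃ H : Finset (𝓞 K), H.card = ∏ j ∈ Finset.Ico 1 w, (R j).card ∧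
      (∀ γ ∈ H, ∃ z : 𝓞 K, γ = 1 + (p : 𝓞 K) * z) ∧
      ∀ i : ℕ, i ≤ w → ∀ γ₀ ∈ H, (H.filter fun γ => ∃ (u : (𝓞 K)ˣ) (c : ℤ) (v : 𝓞 K),
        γ = (c : 𝓞 K) * ((u : 𝓞 K) * γ₀) + ((p ^ i : ℕ) : 𝓞 K) * v).card ≤ p ^ (2 * (w - i)) := by
  cases w with
  | zero =>
    refine ⟨{1}, by simp, ?_, ?_⟩
    · intro γ hγ
      rw [Finset.mem_singleton] at hγ
      exact ⟨0, by rw [hγ, mul_zero, add_zero]⟩
    · intro i _ γ₀ _
      refine (Finset.card_filter_le _ _).trans ?_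
      rw [Finset.card_singleton]
      exact Nat.one_le_pow _ _ hp.pos
  | succ k => exact tree_aux K p hp k R hR

end Pool.Agent.MP_ca7d12_nt
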