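import Pool.Agent.Lib.MP_ca7d12_nt.H.PigeonC
import Pool.Agent.Lib.MP_ca7d12_nt.H.Tree
import Pool.Agent.Lib.MP_ca7d12_nt.H.CoverTwo
import Pool.Agent.Lib.MP_ca7d12_nt.H.FillUnit
import Pool.Agent.Lib.MP_ca7d12_nt.H.Lat
import Pool.Agent.Lib.MP_ca7d12_nt.H.Small

set_option autoImplicit false

namespace Pool.Agent.MP_ca7d12_nt

open NumberField MainG MainW

theorem stable_mul (K : Type*) [Field K] [NumberField K] (α : Fin 3 → K) (n m : ℕ)
    (h : StableUnder K α n) : StableUnder K α (n * m) := by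
  intro z x hx
  have h1 := h ((m : 𝓞 K) * z) x hx
  have h2 : (((m : 𝓞 K) * z : 𝓞 K) : K) = (m : K) * (z : K) := by
    rw [MainT.coe_mul', MainT.coe_nat]
  rw [h2] at h1
  have h3 : ((n * m : ℕ) : K) * (z : K) * x = (n : K) * ((m : K) * (z : K)) * x := by
    push_cast
    ring
  rw [h3]
  exact h1

/-- Reached levels `p ^ w > 2` stay reached. -/
theorem hasUnit_up (K : Type*) [Field K] [NumberField K] (p : ℕ) (hp : p.Prime)
    (w : ℕ) (hw : 3 ≤ p ^ w) (h : HasUnit K (p ^ w) p) (j : ℕ) : HasUnit K (p ^ (w + j)) p := by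
  by_cases hp3 : 3 ≤ p
  · have hw1 : 1 ≤ w := by
      rcases w with _ | w
      · simp at hw
      · omega
    have h1 := hasUnit_odd K p hp hp3 w hw1 h j 1
    rwa [pow_one] at h1
  · have hp2 : p = 2 := by
      have := hp.two_le
      omega
    subst hp2
    have hw2 : 2 ≤ w := by
      rcases w with _ | _ | w
      · simp at hw
      · simp at hw
      · omega
    have hR : ∀ q : ℤ, IsUnit (q : 𝓞 K) → IsUnit q := isUnit_of_isUnit_intCast K
    induction j with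
    | zero => simpa using h
    | succ j ih =>
      obtain ⟨u, c, v, h1, h2⟩ := ih
      obtain ⟨m, hm⟩ : ∃ m, w + j = m + 2 := ⟨w + j - 2, by omega⟩
      have hm' : w + (j + 1) = m + 3 := by omega
      rw [hm] at h1
      have hcop : IsCoprime c (2 : ℤ) := by
        refine UnitsA.coprime_of_unit hR c 2 (u : 𝓞 K) ((2 : 𝓞 K) ^ (m + 1) * v) u.isUnit ⟨1, ?_⟩
        rw [h1]
        push_cast
        ring
      rw [hm']
      refine ⟨u ^ 2, c ^ 2, (c : 𝓞 K) * v + (2 : 𝓞 K) * ((2 : 𝓞 K) ^ m * v ^ 2), ?_, ?_⟩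
      · rw [Units.val_pow_eq_pow_val, h1]
        push_cast
        ring
      · intro q hq hq2 i w' hcon
        have hq2' : q = 2 := (Nat.prime_dvd_prime_iff_eq hq hp).1 hq2
        subst hq2'
        obtain ⟨s, t, hst⟩ := hcop
        have hst' : (s : 𝓞 K) * (c : 𝓞 K) + (t : 𝓞 K) * 2 = 1 := by
          have := congrArg (fun z : ℤ => (z : 𝓞 K)) hst
          push_cast at this
          exact this
        refine h2 2 hp dvd_rfl (s * i) ((s : 𝓞 K) * w' - (s : 𝓞 K) * ((2 : 𝓞 K) ^ m * v ^ 2) +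
          (t : 𝓞 K) * v) ?_
        push_cast at hcon ⊢
        linear_combination (s : 𝓞 K) * hcon - v * hst'

/-- The refined upper bound. -/
theorem upper_two (K : Type*) [Field K] [NumberField K] (hK : Module.finrank ℚ K = 3)
    (σ : Fin 3 → K →+* ℝ) (hσ : Function.Injective σ) :
    ∃ C : ℝ, ∀ p v w : ℕ, p.Prime → 3 ≤ p ^ v → v ≤ w → HasUnit K (p ^ v) p →
      UnitsFill K (p ^ w) p →
      ∀ (k : ℕ) (α : Fin 3 → K), LinearIndependent ℚ α → StableUnder K α (p ^ k) →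
        markovMin (fun i j => σ i (α j)) * (latticeIndex K α : ℝ) ≤
          C * (p : ℝ) ^ (w + max v ((w + 1) / 2)) := by
  obtain ⟨C, hC1, hC⟩ := bound_C K hK σ hσ
  refine ⟨C ^ 2, fun p v w hp hp3 hvw hun hfill k α hα hst => ?_⟩
  have hv : 1 ≤ v := by
    rcases v with _ | v
    · simp at hp3
    · omega
  have hv2 : p = 2 → 2 ≤ v := by
    rintro rfl
    rcases v with _ | _ | v
    · simp at hp3
    · simp at hp3
    · omega
  have hn0 : p ^ (w + k) ≠ 0 := pow_ne_zero _ hp.ne_zero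
  obtain ⟨a, ha⟩ : ∃ a, a = max v ((w + 1) / 2) := ⟨_, rfl⟩
  rw [← ha]
  have hva : v ≤ a := ha ▸ le_max_left _ _
  have hwa : (w + 1) / 2 ≤ a := ha ▸ le_max_right _ _
  have haw : a ≤ w := by
    rw [ha]
    exact max_le hvw (by omega)
  have hun' : HasUnit K (p ^ a) p := by
    have h1 := hasUnit_up K p hp v hp3 hun (a - v)
    rwa [Nat.add_sub_cancel' hva] at h1
  obtain ⟨L, hLidx, hcov⟩ := cover_of_unit_fill K hK p hp w a (w + k)
    (fun h2 => (hv2 h2).trans hvw) haw (by omega) (by omega) (by omega) hun' hfill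
  have hst' : StableUnder K α (p ^ (w + k)) := by
    have h1 := stable_mul K α (p ^ k) (p ^ w) hst
    rwa [← pow_add, add_comm k w] at h1
  have h1 := hC (p ^ (w + k)) L hn0 hcov α hα hst'
  have h2 : (p ^ (w + k)).primeFactors.card ≤ 1 := by
    rw [Nat.primeFactors_prime_pow (by omega) hp]
    simp
  have h3 : C ^ (1 + (p ^ (w + k)).primeFactors.card) ≤ C ^ 2 :=
    pow_le_pow_right₀ hC1 (by omega)
  have h4 : (L.index : ℝ) ≤ (p : ℝ) ^ (w + a) := by exact_mod_cast hLidx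
  calc markovMin (fun i j => σ i (α j)) * (latticeIndex K α : ℝ)
      ≤ C ^ (1 + (p ^ (w + k)).primeFactors.card) * (L.index : ℝ) := h1
    _ ≤ C ^ 2 * (p : ℝ) ^ (w + a) :=
        mul_le_mul h3 h4 (Nat.cast_nonneg _) (by positivity)

theorem prod_reps (p v w : ℕ) (hv : 1 ≤ v) (hvw : v ≤ w) (r : ℕ → ℕ)
    (h1 : ∀ j, 1 ≤ j → j < v → r j = p ^ 2) (h2 : ∀ j, v ≤ j → j < w → r j = p) :
    ∏ j ∈ Finset.Ico 1 w, r j = p ^ (w + v - 2) := by
  rw [← Finset.prod_Ico_consecutive _ hv hvw]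
  have e1 : ∏ j ∈ Finset.Ico 1 v, r j = p ^ (2 * (v - 1)) := by
    rw [Finset.prod_congr rfl fun j hj => h1 j (Finset.mem_Ico.1 hj).1 (Finset.mem_Ico.1 hj).2]
    rw [Finset.prod_const, Nat.card_Ico, ← pow_mul]
  have e2 : ∏ j ∈ Finset.Ico v w, r j = p ^ (w - v) := by
    rw [Finset.prod_congr rfl fun j hj => h2 j (Finset.mem_Ico.1 hj).1 (Finset.mem_Ico.1 hj).2]
    rw [Finset.prod_const, Nat.card_Ico]
  rw [e1, e2, ← pow_add]
  congr 1
  omega

/-- The sharp lower bound. -/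
theorem lower_two (K : Type*) [Field K] [NumberField K] (hK : Module.finrank ℚ K = 3)
    (σ : Fin 3 → K →+* ℝ) (hσ : Function.Injective σ) :
    ∃ c : ℝ, 0 < c ∧ ∀ p v w : ℕ, p.Prime → 1 ≤ v → v ≤ w →
      (∀ j : ℕ, 1 ≤ j → j < v → ¬ HasUnit K (p ^ j) p) →
      (∀ j : ℕ, 1 ≤ j → j < w → ¬ UnitsFill K (p ^ j) p) →
      ∀ k : ℕ, w ≤ k → ∃ α : Fin 3 → K, LinearIndependent ℚ α ∧ CyclicModulo K α (p ^ k) ∧
        c * (p : ℝ) ^ (w + v - 2) ≤
          markovMin (fun i j => σ i (α j)) * (latticeIndex K α : ℝ) := by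
  classical
  obtain ⟨δ, hδ, hsmall⟩ := exists_small_of_bound K hK σ hσ
  obtain ⟨C, hC⟩ := card_le_of_small_tree K hK
  have hc0 : 0 < 1 / (2 * δ * ((C : ℝ) + 1)) := by positivity
  refine ⟨1 / (2 * δ * ((C : ℝ) + 1)), hc0, ?_⟩
  intro p v w hp hv hvw hnun hunf k hk
  -- the representatives
  have hRex : ∀ j : ℕ, ∃ R : Finset (𝓞 K), (1 ≤ j → j < v → R.card = p ^ 2 ∧ NoDir K p j R) ∧
      (v ≤ j → j < w → R.card = p ∧ NoDir K p j R) := by
    intro j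
    by_cases hj : j < v
    · by_cases hj1 : 1 ≤ j
      · obtain ⟨R, hR⟩ := reps_nounit K hK p hp j hj1 (hnun j hj1 hj)
        exact ⟨R, fun _ _ => hR, fun h => absurd h (by omega)⟩
      · exact ⟨∅, fun h => absurd h hj1, fun h => absurd h (by omega)⟩
    · by_cases hjw : j < w
      · obtain ⟨R, hR⟩ := reps_unfilled K p hp j (by omega) (hunf j (by omega) hjw)
        exact ⟨R, fun _ h => absurd h hj, fun _ _ => hR⟩
      · exact ⟨∅, fun _ h => absurd h hj, fun _ h => absurd h hjw⟩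
  choose R hR1 hR2 using hRex
  have hp1' : 1 ≤ p := hp.one_lt.le
  obtain ⟨H, hHcard, hH1, hHin⟩ := exists_tree K p hp w R (fun j hj1 hjw => by
    rcases Nat.lt_or_ge j v with h | h
    · obtain ⟨h1, h2⟩ := hR1 j hj1 h
      exact ⟨h2, h1.le⟩
    · obtain ⟨h1, h2⟩ := hR2 j h hjw
      refine ⟨h2, ?_⟩
      rw [h1, pow_two]
      exact Nat.le_mul_of_pos_right p hp.pos)
  have hHcard' : H.card = p ^ (w + v - 2) := by
    rw [hHcard]
    exact prod_reps p v w hv hvw _ (fun j h1 h2 => (hR1 j h1 h2).1) (fun j h1 h2 => (hR2 j h1 h2).1)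
  have hco : ∀ γ ∈ H, IsCoprime γ ((p ^ k : ℕ) : 𝓞 K) := by
    intro γ hγ
    obtain ⟨z, rfl⟩ := hH1 γ hγ
    have h1 : IsCoprime (1 + (p : 𝓞 K) * z) (p : 𝓞 K) := ⟨1, -z, by ring⟩
    have h2 := h1.pow_right (n := k)
    exact_mod_cast h2
  by_contra hcon
  push Not at hcon
  set c : ℝ := 1 / (2 * δ * ((C : ℝ) + 1)) with hc
  set B : ℝ := c * (p : ℝ) ^ (w + v - 2) with hB
  have hp0 : (0 : ℝ) < (p : ℝ) := by exact_mod_cast hp.pos
  have hB0 : 0 < B := by positivity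
  set X : ℕ := ⌊δ * B⌋₊ with hX
  have hnat : ∀ γ ∈ H, ∃ (a : ℤ) (v : 𝓞 K), (a : 𝓞 K) * γ + ((p ^ k : ℕ) : 𝓞 K) * v ≠ 0 ∧
      |Algebra.norm ℤ ((a : 𝓞 K) * γ + ((p ^ k : ℕ) : 𝓞 K) * v)| ≤ (X : ℤ) := by
    intro γ hγ
    obtain ⟨α', hli, hmem, hcyc, hspan⟩ := exists_lattice K hK γ (p ^ k)
      (pow_ne_zero k hp.ne_zero) (hco γ hγ)
    obtain ⟨x, hx, hx0, hxN⟩ := hsmall α' hli hspan B (hcon _ hli hcyc).le
    obtain ⟨a, v, hxe⟩ := (hmem x).1 hx
    refine ⟨a, v, hxe ▸ hx0, ?_⟩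
    rw [← hxe]
    have h3 : (Algebra.norm ℤ x).natAbs ≤ X := by
      refine Nat.le_floor ?_
      rw [Nat.cast_natAbs]
      exact hxN
    rw [← Int.natCast_natAbs]
    exact_mod_cast h3
  have hHne : H.Nonempty := by
    rw [← Finset.card_pos, hHcard']
    exact pow_pos hp.pos _
  have hX1 : 1 ≤ X := by
    obtain ⟨γ, hγ⟩ := hHne
    obtain ⟨a, v, h1, h2⟩ := hnat γ hγ
    have h3 : Algebra.norm ℤ ((a : 𝓞 K) * γ + ((p ^ k : ℕ) : 𝓞 K) * v) ≠ 0 :=
      Algebra.norm_ne_zero_iff.2 h1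
    have h4 := Int.one_le_abs h3
    omega
  have hXle : (X : ℝ) ≤ δ * B := Nat.floor_le (by positivity)
  have hδc : δ * c * ((C : ℝ) + 1) = 1 / 2 := by
    rw [hc]
    field_simp
  have h1 := hC p w k X hp hk hX1 H hH1 (fun i hi γ₀ hγ₀ => by convert hHin i hi γ₀ hγ₀) hnat
  rw [hHcard'] at h1
  have h2 : (p : ℝ) ^ (w + v - 2) ≤ (C : ℝ) * (X : ℝ) := by exact_mod_cast h1
  have h3 : (C : ℝ) * (X : ℝ) ≤ (C : ℝ) * (δ * B) := mul_le_mul_of_nonneg_left hXle (Nat.cast_nonneg _)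
  have h4 : (C : ℝ) * (δ * B) = (δ * c * (C : ℝ)) * (p : ℝ) ^ (w + v - 2) := by rw [hB]; ring
  have h5 : δ * c * (C : ℝ) ≤ 1 / 2 := by
    have : δ * c * (C : ℝ) = 1 / 2 - δ * c := by linarith [hδc, mul_add (δ * c) (C : ℝ) 1]
    have h6 : 0 ≤ δ * c := by positivity
    linarith
  have h6 : (0 : ℝ) < (p : ℝ) ^ (w + v - 2) := by positivity
  nlinarith

/-- Cyclic cubic fields, `p ≡ 2 (mod 3)`: the bounds are sharp up to `p ^ 2`. -/
theorem sharp_cyclic (K : Type*) [Field K] [NumberField K] (hK : Module.finrank ℚ K = 3)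
    (hG : IsGalois ℚ K) (σ : Fin 3 → K →+* ℝ) (hσ : Function.Injective σ) :
    ∃ c C : ℝ, 0 < c ∧ ∀ p w : ℕ, p.Prime → 3 ≤ p → p % 3 = 2 → 1 ≤ w → HasUnit K (p ^ w) p →
      (∀ j : ℕ, 1 ≤ j → j < w → ¬ HasUnit K (p ^ j) p) → ∀ k : ℕ, w ≤ k →
      (∃ α : Fin 3 → K, LinearIndependent ℚ α ∧ CyclicModulo K α (p ^ k) ∧
        c * (p : ℝ) ^ (2 * w - 2) ≤
          markovMin (fun i j => σ i (α j)) * (latticeIndex K α : ℝ)) ∧
      ∀ α : Fin 3 → K, LinearIndependent ℚ α → StableUnder K α (p ^ k) →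
        markovMin (fun i j => σ i (α j)) * (latticeIndex K α : ℝ) ≤ C * (p : ℝ) ^ (2 * w) := by
  haveI := hG
  obtain ⟨C, hC⟩ := upper_two K hK σ hσ
  obtain ⟨c, hc0, hc⟩ := lower_two K hK σ hσ
  refine ⟨c, C, hc0, fun p w hp hp3 hpm hw hun hnun k hk => ⟨?_, fun α hα hst => ?_⟩⟩
  · have h1 := hc p w w hp hw le_rfl hnun (fun j hj1 hjw hf => hnun j hj1 hjw
      (hasUnit_of_fill K hK p hp j hj1 hf)) k hk
    rwa [← two_mul] at h1
  · have hfill : UnitsFill K (p ^ w) p := fill_of_cyclic K hK (p ^ w) p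
      (pow_ne_zero w hp.ne_zero) (fun q hq hqp => by
        rw [(Nat.prime_dvd_prime_iff_eq hq hp).1 hqp]
        exact ⟨hpm, dvd_pow_self p (by omega)⟩) hun
    have h1 := hC p w w hp (hp3.trans (Nat.le_self_pow (by omega) p)) le_rfl hun hfill k α hα hst
    have h2 : w + max w ((w + 1) / 2) = 2 * w := by
      rw [max_eq_left (by omega)]
      ring
    rwa [h2] at h1

end Pool.Agent.MP_ca7d12_nt
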