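import Pool.Agent.Lib.MP_ca7d12_nt.H.EquivH
import Pool.Agent.Lib.MP_ca7d12_nt.H.Sharp

set_option autoImplicit false

namespace Pool.Agent.MP_ca7d12_nt

open NumberField MainG MainW

/-- Filled levels stay filled. -/
theorem fill_up (K : Type*) [Field K] [NumberField K] (p w : ℕ) (hp : p.Prime) (hw : 1 ≤ w)
    (hw2 : p = 2 → 2 ≤ w) (hfill : UnitsFill K (p ^ w) p) (j b : ℕ) :
    UnitsFill K (p ^ (w + j)) (p ^ b) := by
  intro q hq hqb
  rw [(Nat.prime_dvd_prime_iff_eq hq hp).1 (hq.dvd_of_dvd_pow hqb)]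
  refine ⟨dvd_pow_self p (by omega), fun z => ?_⟩
  obtain ⟨u, c, w', hu⟩ := fill_all (R := 𝓞 K) (p ^ w) p
    (fun h2 => by
      have h2p : p = 2 := ((Nat.prime_dvd_prime_iff_eq Nat.prime_two hp).1 h2).symm
      have h3 : (2 : ℕ) ^ 2 ∣ p ^ w := (pow_dvd_pow_of_dvd h2 2).trans (pow_dvd_pow p (hw2 h2p))
      simpa using h3)
    (fun r hr hrp => by
      rw [(Nat.prime_dvd_prime_iff_eq hr hp).1 hrp]
      refine ⟨dvd_pow_self p (by omega), fun z => ?_⟩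
      obtain ⟨u, c, w', hu⟩ := (hfill p hp dvd_rfl).2 z
      exact ⟨u, c, w', by rw [hu]; push_cast; ring⟩)
    (p ^ j) (pow_ne_zero j hp.ne_zero) (fun r hr hrp => hr.dvd_of_dvd_pow hrp) p hp dvd_rfl z
  refine ⟨u, c, w', ?_⟩
  rw [pow_add]
  push_cast at hu ⊢
  linear_combination hu

/-- The rate and Leopoldt's conjecture. -/
theorem final_H (K : Type*) [Field K] [NumberField K] (hK : Module.finrank ℚ K = 3)
    (σ : Fin 3 → K →+* ℝ) (hσ : Function.Injective σ) :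
    (∀ S : Finset ℕ, (∀ p ∈ S, p.Prime) → List.TFAE [
      ∀ p ∈ S, LeopoldtAt K p,
      ∃ V : Finset ℝ, (∀ v ∈ V, 0 < v) ∧ ∀ (α : Fin 3 → K) (n : ℕ), LinearIndependent ℚ α →
        IsSNumber S n → StableUnder K α n →
          markovMin (fun i j => σ i (α j)) * (latticeIndex K α : ℝ) ∈ V,
      ∃ B : ℝ, ∀ (α : Fin 3 → K) (n : ℕ), LinearIndependent ℚ α → IsSNumber S n →
        CyclicModulo K α n → markovMin (fun i j => σ i (α j)) * (latticeIndex K α : ℝ) ≤ B]) ∧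
    (∀ S : Finset ℕ, (∀ p ∈ S, p.Prime) → (∀ p ∈ S, LeopoldtAt K p) → ∀ ε : ℝ, 0 < ε →
      {m : ℝ | ∃ (α : Fin 3 → K) (n : ℕ), LinearIndependent ℚ α ∧ IsSNumber S n ∧
        StableUnder K α n ∧ m = markovMin (fun i j => σ i (α j)) ∧ ε ≤ m}.Finite) ∧
    (∀ p : ℕ, p.Prime → (LeopoldtAt K p ↔ ∃ w : ℕ, 2 ≤ w ∧ UnitsFill K (p ^ w) p)) ∧
    (∃ C : ℝ, ∀ p v w : ℕ, p.Prime → 3 ≤ p ^ v → v ≤ w → HasUnit K (p ^ v) p →
      UnitsFill K (p ^ w) p →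
      ∀ (k : ℕ) (α : Fin 3 → K), LinearIndependent ℚ α → StableUnder K α (p ^ k) →
        markovMin (fun i j => σ i (α j)) * (latticeIndex K α : ℝ) ≤
          C * (p : ℝ) ^ (w + max v ((w + 1) / 2))) ∧
    (∃ c : ℝ, 0 < c ∧ ∀ p v w : ℕ, p.Prime → 1 ≤ v → v ≤ w →
      (∀ j : ℕ, 1 ≤ j → j < v → ¬ HasUnit K (p ^ j) p) →
      (∀ j : ℕ, 1 ≤ j → j < w → ¬ UnitsFill K (p ^ j) p) →
      ∀ k : ℕ, w ≤ k → ∃ α : Fin 3 → K, LinearIndependent ℚ α ∧ CyclicModulo K α (p ^ k) ∧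
        c * (p : ℝ) ^ (w + v - 2) ≤
          markovMin (fun i j => σ i (α j)) * (latticeIndex K α : ℝ)) ∧
    (IsGalois ℚ K → ∀ p w : ℕ, p.Prime → p % 3 = 2 → 1 ≤ w →
      (HasUnit K (p ^ w) p ↔ UnitsFill K (p ^ w) p)) := by
  refine ⟨fun S hS => equiv_H K hK σ hσ S hS,
    fun S hS h ε hε => finite_of_leopoldt K hK σ hσ S hS h ε hε, fun p hp => ?_,
    upper_two K hK σ hσ, lower_two K hK σ hσ, fun hG p w hp hpm hw => ⟨fun h => ?_,
      fun h => hasUnit_of_fill K hK p hp w hw h⟩⟩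
  · rw [fill_of_leopoldt K hK σ hσ p hp]
    constructor
    · rintro ⟨w, hw, h⟩
      exact ⟨w, hw, by simpa using h 0 1⟩
    · rintro ⟨w, hw, h⟩
      exact ⟨w, hw, fun j b => fill_up K p w hp (by omega) (fun _ => hw) h j b⟩
  · have := hG
    exact fill_of_cyclic K hK (p ^ w) p (pow_ne_zero w hp.ne_zero) (fun q hq hqp => by
      rw [(Nat.prime_dvd_prime_iff_eq hq hp).1 hqp]
      exact ⟨hpm, dvd_pow_self p (by omega)⟩) h

end Pool.Agent.MP_ca7d12_nt
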