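import Pool.Agent.Lib.MP_ca7d12_nt.Defs

set_option autoImplicit false

namespace Pool.Agent.MP_ca7d12_nt

open NumberField

/-- The subgroup `g Λ₀ + n I`. -/
def gLat {K : Type*} [Field K] [NumberField K] (I : Ideal (𝓞 K)) (n : ℕ) (g : 𝓞 K)
    (L₀ : AddSubgroup (𝓞 K)) : AddSubgroup (𝓞 K) where
  carrier := {y | ∃ x ∈ L₀, ∃ z ∈ I, y = g * x + (n : 𝓞 K) * z}
  add_mem' := by
    rintro _ _ ⟨x, hx, z, hz, rfl⟩ ⟨x', hx', z', hz', rfl⟩
    exact ⟨x + x', L₀.add_mem hx hx', z + z', I.add_mem hz hz', by ring⟩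
  zero_mem' := ⟨0, L₀.zero_mem, 0, I.zero_mem, by ring⟩
  neg_mem' := by
    rintro _ ⟨x, hx, z, hz, rfl⟩
    exact ⟨-x, L₀.neg_mem hx, -z, I.neg_mem hz, by ring⟩

theorem index_ne_zero_of_mul_mem (K : Type*) [Field K] [NumberField K] (n : ℕ) (hn : n ≠ 0)
    (L₀ : AddSubgroup (𝓞 K)) (hL : ∀ z : 𝓞 K, (n : 𝓞 K) * z ∈ L₀) : L₀.index ≠ 0 := by
  have hle : Submodule.toAddSubgroup (Ideal.span {(n : 𝓞 K)}) ≤ L₀ := by
    intro x hx
    obtain ⟨z, rfl⟩ := Ideal.mem_span_singleton'.1 hx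
    rw [mul_comm]
    exact hL z
  have h1 := AddSubgroup.relIndex_mul_index hle
  have h2 : (Submodule.toAddSubgroup (Ideal.span {(n : 𝓞 K)})).index =
      Ideal.absNorm (Ideal.span {(n : 𝓞 K)}) := rfl
  have h3 : Ideal.absNorm (Ideal.span {(n : 𝓞 K)}) ≠ 0 := by
    rw [Ne, Ideal.absNorm_eq_zero_iff, Ideal.span_singleton_eq_bot]
    exact Nat.cast_ne_zero.mpr hn
  rw [h2] at h1
  rw [← h1] at h3
  exact right_ne_zero_of_mul h3

theorem index_le_of_mul_mem (K : Type*) [Field K] [NumberField K] (hK : Module.finrank ℚ K = 3)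
    (n : ℕ) (hn : n ≠ 0) (L₀ : AddSubgroup (𝓞 K)) (hL : ∀ z : 𝓞 K, (n : 𝓞 K) * z ∈ L₀) :
    L₀.index ≤ n ^ 3 := by
  have hle : Submodule.toAddSubgroup (Ideal.span {(n : 𝓞 K)}) ≤ L₀ := by
    intro x hx
    obtain ⟨z, rfl⟩ := Ideal.mem_span_singleton'.1 hx
    rw [mul_comm]
    exact hL z
  have h2 : (Submodule.toAddSubgroup (Ideal.span {(n : 𝓞 K)})).index =
      Ideal.absNorm (Ideal.span {(n : 𝓞 K)}) := rfl
  have h3 : Ideal.absNorm (Ideal.span {(n : 𝓞 K)}) = n ^ 3 := by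
    rw [Ideal.absNorm_span_singleton]
    have h1 : Algebra.norm ℤ ((n : ℤ) : 𝓞 K) = (n : ℤ) ^ 3 := by
      have h2 := Algebra.norm_algebraMap_of_basis (RingOfIntegers.basis K) (n : ℤ)
      rw [← Module.finrank_eq_card_basis (RingOfIntegers.basis K), RingOfIntegers.rank, hK] at h2
      rw [← h2]
      rfl
    have h3 : ((n : ℕ) : 𝓞 K) = ((n : ℤ) : 𝓞 K) := by push_cast; rfl
    rw [h3, h1, Int.natAbs_pow, Int.natAbs_natCast]
  rw [← h3, ← h2]
  refine Nat.le_of_dvd (Nat.pos_of_ne_zero ?_) (AddSubgroup.index_dvd_of_le hle)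
  rw [h2, h3]
  exact pow_ne_zero 3 hn

/-- The index of `g Λ₀ + n I`. -/
theorem index_gLat (K : Type*) [Field K] [NumberField K] (I : Ideal (𝓞 K)) (hI : I ≠ ⊥)
    (n : ℕ) (hn : n ≠ 0) (g : 𝓞 K) (hg : g ∈ I) (L₀ : AddSubgroup (𝓞 K))
    (hL : ∀ z : 𝓞 K, (n : 𝓞 K) * z ∈ L₀)
    (hgen : ∀ y ∈ I, ∃ z : 𝓞 K, ∃ y' ∈ I, y = g * z + (n : 𝓞 K) * y') :
    (gLat I n g L₀).index ≠ 0 ∧ (gLat I n g L₀).index ≤ Ideal.absNorm I * L₀.index := by
  classical
  have hL0 := index_ne_zero_of_mul_mem K n hn L₀ hL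
  have hI0 : Ideal.absNorm I ≠ 0 := fun h => hI (Ideal.absNorm_eq_zero_iff.1 h)
  have hle : gLat I n g L₀ ≤ Submodule.toAddSubgroup I := by
    rintro _ ⟨x, hx, z, hz, rfl⟩
    exact I.add_mem (I.mul_mem_right _ hg) (I.mul_mem_left _ hz)
  have h1 := AddSubgroup.relIndex_mul_index hle
  have h2 : (Submodule.toAddSubgroup I).index = Ideal.absNorm I := rfl
  have hfin : Finite (𝓞 K ⧸ L₀) := Nat.finite_of_card_ne_zero hL0
  -- the surjection
  let φ : 𝓞 K →+ (Submodule.toAddSubgroup I) ⧸ (gLat I n g L₀).addSubgroupOf (Submodule.toAddSubgroup I) :=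
    { toFun := fun x => QuotientAddGroup.mk ⟨g * x, I.mul_mem_right _ hg⟩
      map_zero' := by
        rw [QuotientAddGroup.eq_zero_iff]
        show g * 0 ∈ gLat I n g L₀
        rw [mul_zero]
        exact (gLat I n g L₀).zero_mem
      map_add' := fun x y => by
        rw [← QuotientAddGroup.mk_add]
        congr 1
        exact Subtype.ext (mul_add g x y) }
  have hφ : ∀ x ∈ L₀, φ x = 0 := by
    intro x hx
    show QuotientAddGroup.mk _ = _
    rw [QuotientAddGroup.eq_zero_iff]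
    show g * x ∈ gLat I n g L₀
    exact ⟨x, hx, 0, I.zero_mem, by ring⟩
  have hsurj : Function.Surjective (QuotientAddGroup.lift L₀ φ hφ) := by
    intro q
    obtain ⟨⟨y, hy⟩, rfl⟩ := QuotientAddGroup.mk_surjective q
    obtain ⟨z, y', hy', hyz⟩ := hgen y hy
    refine ⟨QuotientAddGroup.mk z, ?_⟩
    rw [QuotientAddGroup.lift_mk]
    show QuotientAddGroup.mk _ = _
    rw [QuotientAddGroup.eq]
    show -(g * z) + y ∈ gLat I n g L₀
    exact ⟨0, L₀.zero_mem, y', hy', by rw [hyz]; ring⟩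
  have hcard : (gLat I n g L₀).relIndex (Submodule.toAddSubgroup I) ≤ L₀.index :=
    Nat.card_le_card_of_surjective _ hsurj
  have hfin2 : Finite ((Submodule.toAddSubgroup I) ⧸
      (gLat I n g L₀).addSubgroupOf (Submodule.toAddSubgroup I)) := Finite.of_surjective _ hsurj
  have hrel : (gLat I n g L₀).relIndex (Submodule.toAddSubgroup I) ≠ 0 := Nat.card_pos.ne'
  rw [h2] at h1
  refine ⟨?_, ?_⟩
  · rw [← h1]
    exact mul_ne_zero hrel hI0
  · rw [← h1, mul_comm]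
    exact Nat.mul_le_mul_left _ hcard

end Pool.Agent.MP_ca7d12_nt
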