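import Pool.Agent.Lib.MP_ca7d12_nt.H.Cheb3
import Pool.Agent.Lib.MP_ca7d12_nt.H.Defs
import Pool.Agent.Lib.MP_ca7d12_nt.H.IndexC
import Pool.Agent.Lib.MP_ca7d12_nt.ExistsUnit
import Pool.Agent.Lib.MP_ca7d12_nt.G.OddA

set_option autoImplicit false

namespace Pool.Agent.MP_ca7d12_nt

open NumberField

namespace KeyC

theorem exists_primes_fin3 (K : Type*) [Field K] [NumberField K] (hK : Module.finrank ℚ K = 3)
    (q : ℕ) (hq : q.Prime) : ∃ P : Fin 3 → Ideal (𝓞 K), (∀ i, (P i).IsPrime ∧ (q : 𝓞 K) ∈ P i) ∧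
      ∀ Q : Ideal (𝓞 K), Q.IsPrime → (q : 𝓞 K) ∈ Q → ∃ i, P i = Q := by
  classical
  obtain ⟨T, hT3, hT⟩ := card_primes_le K hK q hq
  have hne : Ideal.span {(q : 𝓞 K)} ≠ ⊤ := by
    rw [Ne, Ideal.span_singleton_eq_top]
    intro h
    have h1 := isUnit_of_isUnit_intCast K (q : ℤ) (by exact_mod_cast h)
    exact (Nat.prime_iff_prime_int.1 hq).not_isUnit h1
  obtain ⟨Q₀, hQ₀max, hQ₀⟩ := Ideal.exists_le_maximal _ hne
  have hQ₀T : Q₀ ∈ T := (hT Q₀).1 ⟨hQ₀max.isPrime, hQ₀ (Ideal.mem_span_singleton_self _)⟩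
  refine ⟨fun i => T.toList.getD i Q₀, fun i => ?_, fun Q hQ hqQ => ?_⟩
  · rw [hT]
    show T.toList.getD i Q₀ ∈ T
    by_cases h : (i : ℕ) < T.toList.length
    · rw [List.getD_eq_getElem _ _ h]
      exact Finset.mem_toList.1 (List.getElem_mem h)
    · rw [List.getD_eq_default _ _ (by omega)]
      exact hQ₀T
  · have h1 : Q ∈ T.toList := Finset.mem_toList.2 ((hT Q).1 ⟨hQ, hqQ⟩)
    obtain ⟨i, hi, hiQ⟩ := List.mem_iff_getElem.1 h1
    have h2 : T.toList.length ≤ 3 := by rwa [Finset.length_toList]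
    refine ⟨⟨i, by omega⟩, ?_⟩
    show T.toList.getD i Q₀ = Q
    rw [List.getD_eq_getElem _ _ hi, hiQ]

theorem exists_prime_mem {R : Type*} [CommRing R] (Q : Ideal R) (hQ : Q.IsPrime) :
    ∀ n : ℕ, n ≠ 0 → (n : R) ∈ Q → ∃ p : ℕ, p.Prime ∧ p ∣ n ∧ (p : R) ∈ Q := by
  intro n
  induction n using Nat.strong_induction_on with
  | _ n ih =>
    intro hn hmem
    by_cases h1 : n = 1
    · subst h1
      rw [Nat.cast_one] at hmem
      exact absurd ((Ideal.eq_top_iff_one Q).2 hmem) hQ.ne_top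
    · have hp := Nat.minFac_prime h1
      obtain ⟨m, hm⟩ := Nat.minFac_dvd n
      have hm0 : m ≠ 0 := by
        rintro rfl
        rw [mul_zero] at hm
        exact hn hm
      have hcast : (n : R) = (n.minFac : R) * (m : R) := by
        conv_lhs => rw [hm]
        push_cast
        rfl
      rw [hcast] at hmem
      rcases hQ.mem_or_mem hmem with h | h
      · exact ⟨n.minFac, hp, Nat.minFac_dvd n, h⟩
      · have hlt : m < n := by
          have h2 := hp.two_le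
          have : 0 < m := Nat.pos_of_ne_zero hm0
          calc m < n.minFac * m := by nlinarith
            _ = n := hm.symm
        obtain ⟨p, hp', hpm, hpQ⟩ := ih m hlt hm0 h
        exact ⟨p, hp', hpm.trans ⟨n.minFac, by rw [mul_comm]; exact hm⟩, hpQ⟩

/-- A nonzero ideal `I` is not contained in `Q I`. -/
theorem not_le_mul {K : Type*} [Field K] [NumberField K] (I Q : Ideal (𝓞 K)) (hI : I ≠ ⊥)
    (hQ : Q.IsPrime) : ¬ I ≤ Q * I := by
  intro h1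
  have h2 : Q * I ∣ 1 * I := by
    rw [one_mul, Ideal.dvd_iff_le]
    exact h1
  have h3 : Q ∣ 1 := (mul_dvd_mul_iff_right (by rwa [Ne, Ideal.zero_eq_bot])).1 h2
  rw [Ideal.dvd_iff_le, Ideal.one_eq_top, top_le_iff] at h3
  exact hQ.ne_top h3

end KeyC

open KeyC

/-- Key lemma: if the units cover the subgroup `L` modulo `n` then a subgroup `M` which contains `n I`
and a generator `g` of `I` modulo `n I` has a nonzero element of norm at most
`C ^ (1 + ω(n)) absNorm I [𝓞_K : L]`. -/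
theorem exists_small_C (K : Type*) [Field K] [NumberField K] (hK : Module.finrank ℚ K = 3)
    (σ : Fin 3 → K →+* ℝ) (hσ : Function.Injective σ) :
    ∃ C : ℝ, 1 ≤ C ∧ ∀ (n : ℕ) (L : AddSubgroup (𝓞 K)), n ≠ 0 → UnitsCover K n L →
      ∀ (I : Ideal (𝓞 K)), I ≠ ⊥ → ∀ M : AddSubgroup (𝓞 K), (∀ x ∈ M, x ∈ I) →
      (∀ y ∈ I, (n : 𝓞 K) * y ∈ M) →
      (∃ g ∈ M, ∀ y ∈ I, ∃ z : 𝓞 K, ∃ y' ∈ I, y = g * z + (n : 𝓞 K) * y') →
      ∃ x ∈ M, x ≠ 0 ∧ ((|Algebra.norm ℤ x| : ℤ) : ℝ) ≤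
        C ^ (1 + n.primeFactors.card) * (Ideal.absNorm I : ℝ) * (L.index : ℝ) := by
  classical
  obtain ⟨C₀, hC₀, hout⟩ := small_outside3 K hK σ hσ
  refine ⟨max (28672 ^ 3) (64 * C₀), le_trans (by norm_num) (le_max_left _ _), ?_⟩
  rintro n L hn ⟨h1L, hnL, hcov⟩ I hI M hMI hnM ⟨g, hgM, hgen⟩
  obtain ⟨xI, hxI, hxI0⟩ := Submodule.exists_mem_ne_zero_of_ne_bot hI
  have hgI : g ∈ I := hMI g hgM
  obtain ⟨hidx0, hidx⟩ := index_gLat K I hI n hn g hgI L hnL hgen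
  set Λ : AddSubgroup (𝓞 K) := gLat I n g L with hΛ
  set Q : Finset ℕ := n.primeFactors with hQ
  have hQp : ∀ q ∈ Q, q.Prime := fun q hq => Nat.prime_of_mem_primeFactors hq
  have hQn : ∀ q ∈ Q, q ∣ n := fun q hq => Nat.dvd_of_mem_primeFactors hq
  have hΛI : ∀ ξ ∈ Λ, ξ ∈ I := by
    rintro ξ ⟨x, hx, z, hz, rfl⟩
    exact I.add_mem (I.mul_mem_right _ hgI) (I.mul_mem_left _ hz)
  have hPex : ∀ q : ℕ, ∃ P : Fin 3 → Ideal (𝓞 K), q ∈ Q → (∀ i, (P i).IsPrime ∧ (q : 𝓞 K) ∈ P i) ∧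
      ∀ Q : Ideal (𝓞 K), Q.IsPrime → (q : 𝓞 K) ∈ Q → ∃ i, P i = Q := by
    intro q
    by_cases hq : q ∈ Q
    · obtain ⟨P, hP⟩ := exists_primes_fin3 K hK q (hQp q hq)
      exact ⟨P, fun _ => hP⟩
    · exact ⟨fun _ => ⊤, fun h => absurd h hq⟩
  choose P hP using hPex
  obtain ⟨y, hyΛ, hy0, hyq, hyN⟩ := hout Λ hidx0 Q hQp
    (fun q i => Submodule.toAddSubgroup (P q i * I))
    (fun q hq i ξ hξ => Ideal.mul_mem_mul ((hP q hq).1 i).2 (hΛI ξ hξ))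
    (by
      by_cases hn1 : n = 1
      · refine ⟨xI, ⟨0, L.zero_mem, xI, hxI, ?_⟩, hxI0, ?_⟩
        · rw [hn1]
          push_cast
          ring
        · intro q hq
          rw [hQ, hn1] at hq
          simp at hq
      · have hgq : ∀ q ∈ Q, ∀ i, g ∉ P q i * I := by
          intro q hq i hmem
          refine not_le_mul I (P q i) hI ((hP q hq).1 i).1 fun y hy => ?_
          obtain ⟨z, y', hy', rfl⟩ := hgen y hy
          refine Ideal.add_mem _ (Ideal.mul_mem_right _ _ hmem) ?_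
          refine Ideal.mul_mem_mul ?_ hy'
          obtain ⟨m, hm⟩ := hQn q hq
          rw [hm]
          push_cast
          exact Ideal.mul_mem_right _ _ ((hP q hq).1 i).2
        refine ⟨g, ⟨1, h1L, 0, I.zero_mem, by ring⟩, ?_, hgq⟩
        rintro rfl
        obtain ⟨q, hqp, hqn⟩ := Nat.exists_prime_and_dvd hn1
        exact hgq q (Nat.mem_primeFactors.2 ⟨hqp, hqn, hn⟩) 0 (Ideal.zero_mem _))
  obtain ⟨γ, hγL, z, hz, hy⟩ := hyΛ
  have hco : IsCoprime γ (n : 𝓞 K) := by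
    rw [← Ideal.isCoprime_span_singleton_iff, Ideal.isCoprime_iff_sup_eq]
    by_contra hne
    obtain ⟨P₀, hP₀max, hP₀⟩ := Ideal.exists_le_maximal _ hne
    have hγP : γ ∈ P₀ := hP₀ (Ideal.mem_sup_left (Ideal.mem_span_singleton_self _))
    have hnP : (n : 𝓞 K) ∈ P₀ := hP₀ (Ideal.mem_sup_right (Ideal.mem_span_singleton_self _))
    obtain ⟨q, hqp, hqn, hqP⟩ := exists_prime_mem P₀ hP₀max.isPrime n hn hnP
    have hqQ : q ∈ Q := Nat.mem_primeFactors.2 ⟨hqp, hqn, hn⟩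
    obtain ⟨i, hi⟩ := (hP q hqQ).2 P₀ hP₀max.isPrime hqP
    refine hyq q hqQ i ?_
    rw [hi, hy, mul_comm g]
    show _ ∈ P₀ * I
    exact Ideal.add_mem _ (Ideal.mul_mem_mul hγP hgI) (Ideal.mul_mem_mul hnP hz)
  obtain ⟨u, c, w, hu⟩ := hcov γ hγL hco
  have huu : ((u⁻¹ : (𝓞 K)ˣ) : 𝓞 K) * (u : 𝓞 K) = 1 := Units.inv_mul u
  refine ⟨((u⁻¹ : (𝓞 K)ˣ) : 𝓞 K) * y, ?_, mul_ne_zero (Units.ne_zero _) hy0, ?_⟩
  · have h1 : ((u⁻¹ : (𝓞 K)ˣ) : 𝓞 K) * y = c • g +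
        (n : 𝓞 K) * (((u⁻¹ : (𝓞 K)ˣ) : 𝓞 K) * (w * g + z)) := by
      rw [zsmul_eq_mul, hy, hu]
      linear_combination (c : 𝓞 K) * g * huu
    rw [h1]
    refine M.add_mem (M.zsmul_mem hgM _) (hnM _ (I.mul_mem_left _ ?_))
    exact I.add_mem (I.mul_mem_left _ hgI) hz
  · rw [map_mul, abs_mul]
    have h1 : IsUnit (Algebra.norm ℤ ((u⁻¹ : (𝓞 K)ˣ) : 𝓞 K)) := (Units.isUnit _).map _
    rw [Int.isUnit_iff_abs_eq.mp h1, one_mul]
    set ω : ℕ := Q.card with hω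
    set N : ℝ := ((|Algebra.norm ℤ y| : ℤ) : ℝ) with hN
    have hidx' : (Λ.index : ℝ) ≤ (Ideal.absNorm I : ℝ) * (L.index : ℝ) := by
      exact_mod_cast hidx
    set C : ℝ := max (28672 ^ 3) (64 * C₀) with hC
    have hC1 : (0 : ℝ) ≤ C := le_trans (by norm_num) (le_max_left _ _)
    have hB : C₀ * (4 * 28672 ^ ω : ℝ) ^ 3 ≤ C ^ (1 + ω) := by
      calc C₀ * (4 * 28672 ^ ω : ℝ) ^ 3 = (64 * C₀) * (28672 ^ 3 : ℝ) ^ ω := by
            rw [← pow_mul, mul_pow, ← pow_mul]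
            ring
        _ ≤ C * C ^ ω := by
            refine mul_le_mul (le_max_right _ _)
              (pow_le_pow_left₀ (by norm_num) (le_max_left _ _) _) (by positivity) hC1
        _ = C ^ (1 + ω) := by ring
    calc N ≤ C₀ * (4 * 28672 ^ ω : ℝ) ^ 3 * (Λ.index : ℝ) := hyN
      _ ≤ C ^ (1 + ω) * ((Ideal.absNorm I : ℝ) * (L.index : ℝ)) :=
          mul_le_mul hB hidx' (by positivity) (by positivity)
      _ = _ := by ring

end Pool.Agent.MP_ca7d12_nt
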