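import Pool.Agent.Lib.MP_ca7d12_nt.H.PigeonB
import Pool.Agent.Lib.MP_ca7d12_nt.H.Build
import Pool.Agent.Lib.MP_ca7d12_nt.H.Lat
import Pool.Agent.Lib.MP_ca7d12_nt.H.Small

set_option autoImplicit false

namespace Pool.Agent.MP_ca7d12_nt

open NumberField

/-- Lower bound: if the levels `p, …, p ^ (w - 1)` are not filled then for all `k ≥ 2 w` there is an
invertible module over `ℤ + p ^ k 𝓞_K` with `m(F) [𝓞_K M : M] ≥ c p ^ (w - 1)`. -/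
theorem lower_H (K : Type*) [Field K] [NumberField K] (hK : Module.finrank ℚ K = 3)
    (σ : Fin 3 → K →+* ℝ) (hσ : Function.Injective σ) :
    ∃ c : ℝ, 0 < c ∧ ∀ p w : ℕ, p.Prime → (∀ j : ℕ, 1 ≤ j → j < w → ¬ UnitsFill K (p ^ j) p) →
      ∀ k : ℕ, 2 * w ≤ k → ∃ α : Fin 3 → K, LinearIndependent ℚ α ∧ CyclicModulo K α (p ^ k) ∧
        c * (p : ℝ) ^ (w - 1) ≤
          markovMin (fun i j => σ i (α j)) * (latticeIndex K α : ℝ) := by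
  obtain ⟨δ, hδ, hsmall⟩ := exists_small_of_bound K hK σ hσ
  obtain ⟨C, hC⟩ := card_le_of_small K hK
  have hc0 : 0 < 1 / (2 * δ * ((C : ℝ) + 1)) := by positivity
  refine ⟨1 / (2 * δ * ((C : ℝ) + 1)), hc0, ?_⟩
  intro p w hp hunf k hk
  obtain ⟨H, hHcard, hH1, hHin⟩ := exists_inequiv K p hp w hunf
  have hp1 : (1 : ℝ) ≤ (p : ℝ) := by exact_mod_cast hp.one_lt.le
  have hco : ∀ γ ∈ H, IsCoprime γ ((p ^ k : ℕ) : 𝓞 K) := by
    intro γ hγ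
    obtain ⟨z, rfl⟩ := hH1 γ hγ
    have h1 : IsCoprime (1 + (p : 𝓞 K) * z) (p : 𝓞 K) := ⟨1, -z, by ring⟩
    have h2 := h1.pow_right (n := k)
    exact_mod_cast h2
  by_contra hcon
  push Not at hcon
  set c : ℝ := 1 / (2 * δ * ((C : ℝ) + 1)) with hc
  set B : ℝ := c * (p : ℝ) ^ (w - 1) with hB
  have hB0 : 0 < B := by positivity
  have hx : ∀ γ ∈ H, ∃ (a : ℤ) (v : 𝓞 K), (a : 𝓞 K) * γ + ((p ^ k : ℕ) : 𝓞 K) * v ≠ 0 ∧
      ((|Algebra.norm ℤ ((a : 𝓞 K) * γ + ((p ^ k : ℕ) : 𝓞 K) * v)| : ℤ) : ℝ) ≤ δ * B := by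
    intro γ hγ
    obtain ⟨α', hli, hmem, hcyc, hspan⟩ := exists_lattice K hK γ (p ^ k)
      (pow_ne_zero k hp.ne_zero) (hco γ hγ)
    obtain ⟨x, hx, hx0, hxN⟩ := hsmall α' hli hspan B (hcon _ hli hcyc).le
    obtain ⟨a, v, hxe⟩ := (hmem x).1 hx
    refine ⟨a, v, hxe ▸ hx0, ?_⟩
    rw [← hxe]
    exact hxN
  have hHne : H.Nonempty := by
    rw [← Finset.card_pos, hHcard]
    exact pow_pos hp.pos _
  set X : ℕ := ⌊δ * B⌋₊ with hX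
  have hnat : ∀ γ ∈ H, ∃ (a : ℤ) (v : 𝓞 K), (a : 𝓞 K) * γ + ((p ^ k : ℕ) : 𝓞 K) * v ≠ 0 ∧
      |Algebra.norm ℤ ((a : 𝓞 K) * γ + ((p ^ k : ℕ) : 𝓞 K) * v)| ≤ (X : ℤ) := by
    intro γ hγ
    obtain ⟨a, v, h1, h2⟩ := hx γ hγ
    refine ⟨a, v, h1, ?_⟩
    have h3 : (Algebra.norm ℤ ((a : 𝓞 K) * γ + ((p ^ k : ℕ) : 𝓞 K) * v)).natAbs ≤ X := by
      refine Nat.le_floor ?_
      rw [Nat.cast_natAbs]
      exact h2
    rw [← Int.natCast_natAbs]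
    exact_mod_cast h3
  have hX1 : 1 ≤ X := by
    obtain ⟨γ, hγ⟩ := hHne
    obtain ⟨a, v, h1, h2⟩ := hnat γ hγ
    have h3 : Algebra.norm ℤ ((a : 𝓞 K) * γ + ((p ^ k : ℕ) : 𝓞 K) * v) ≠ 0 :=
      Algebra.norm_ne_zero_iff.2 h1
    have h4 := Int.one_le_abs h3
    omega
  have hXle : (X : ℝ) ≤ δ * B := Nat.floor_le (by positivity)
  have hδc : δ * c * ((C : ℝ) + 1) = 1 / 2 := by
    rw [hc]
    field_simp
  have hδc1 : δ * c ≤ 1 := by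
    have h1 : (1 : ℝ) ≤ (C : ℝ) + 1 := by
      have : (0 : ℝ) ≤ (C : ℝ) := Nat.cast_nonneg _
      linarith
    have h2 : 0 ≤ δ * c := by positivity
    nlinarith
  have hXpw : X ≤ p ^ w := by
    have h1 : (X : ℝ) ≤ (p : ℝ) ^ w := by
      calc (X : ℝ) ≤ δ * B := hXle
        _ = δ * c * (p : ℝ) ^ (w - 1) := by rw [hB]; ring
        _ ≤ 1 * (p : ℝ) ^ w := mul_le_mul hδc1 (pow_le_pow_right₀ hp1 (Nat.sub_le w 1))
            (by positivity) zero_le_one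
        _ = (p : ℝ) ^ w := one_mul _
    exact_mod_cast h1
  have h1 := hC p w k X hp hk hX1 hXpw H hH1 hHin hnat
  rw [hHcard] at h1
  have h2 : (p : ℝ) ^ (w - 1) ≤ (C : ℝ) * (X : ℝ) := by exact_mod_cast h1
  have h3 : (C : ℝ) * (X : ℝ) ≤ (C : ℝ) * (δ * B) := mul_le_mul_of_nonneg_left hXle (Nat.cast_nonneg _)
  have h4 : (C : ℝ) * (δ * B) = (δ * c * (C : ℝ)) * (p : ℝ) ^ (w - 1) := by rw [hB]; ring
  have h5 : δ * c * (C : ℝ) ≤ 1 / 2 := by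
    have : δ * c * (C : ℝ) = 1 / 2 - δ * c := by linarith [hδc, mul_add (δ * c) (C : ℝ) 1]
    have h6 : 0 ≤ δ * c := by positivity
    linarith
  have h6 : (0 : ℝ) < (p : ℝ) ^ (w - 1) := by positivity
  nlinarith

end Pool.Agent.MP_ca7d12_nt
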