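import Pool.Agent.Lib.MP_ca7d12_nt.H.KeyC
import Pool.Agent.Lib.MP_ca7d12_nt.H.Ball
import Pool.Agent.Lib.MP_ca7d12_nt.G.AllG

set_option autoImplicit false

namespace Pool.Agent.MP_ca7d12_nt

open NumberField MainG MainW UnitsA

/-- From the filling of the level `s` to the ball. -/
theorem ball_of_fill (K : Type*) [Field K] [NumberField K] (s n : ℕ) (hn : n ≠ 0) (hsn : s ∣ n)
    (h4 : 2 ∣ n → 4 ∣ s) (h : UnitsFill K s n) (z : 𝓞 K) :
    TT (n : ℤ) (1 + (s : 𝓞 K) * z) := by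
  obtain ⟨m, hm⟩ := hsn
  have h1 := fill_ball (isUnit_of_isUnit_intCast K) s n h4 (fun p hp hpn => ⟨(h p hp hpn).1,
    fun z => by
      obtain ⟨u, c, w, hu⟩ := (h p hp hpn).2 z
      exact ⟨u, c, w, by rw [hu]; push_cast; ring⟩⟩) m (by
        rintro rfl
        exact hn (by simpa using hm)) (fun q _ hqm => hm ▸ hqm.mul_left s) z
  rwa [← hm] at h1

/-- A filled level `s` gives the covered subgroup `ℤ + s 𝓞_K`, of index at most `s ^ 2`. -/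
theorem cover_of_fill (K : Type*) [Field K] [NumberField K] (hK : Module.finrank ℚ K = 3)
    (s n : ℕ) (hn : n ≠ 0) (hsn : s ∣ n) (h4 : 2 ∣ n → 4 ∣ s) (h : UnitsFill K s n) :
    ∃ L : AddSubgroup (𝓞 K), L.index ≤ s ^ 2 ∧ UnitsCover K n L := by
  obtain ⟨f, hf⟩ := hsn
  have hs0 : s ≠ 0 := by
    rintro rfl
    exact hn (by simpa using hf)
  have hnR : (n : 𝓞 K) = (s : 𝓞 K) * (f : 𝓞 K) := by rw [hf]; push_cast; rfl
  have hgens : ∀ y ∈ (⊤ : Ideal (𝓞 K)), ∃ z : 𝓞 K, ∃ y' ∈ (⊤ : Ideal (𝓞 K)),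
      y = 1 * z + (s : 𝓞 K) * y' := fun y _ => ⟨y, 0, Submodule.mem_top, by ring⟩
  have hind : ∀ x y : ℤ, (s : 𝓞 K) ∣ (x : 𝓞 K) + (s : 𝓞 K) * (y : 𝓞 K) * 0 →
      (s : ℤ) ∣ x ∧ ((1 : ℕ) : ℤ) ∣ y := by
    rintro x y ⟨w, hw⟩
    refine ⟨?_, by simp⟩
    have h1 : ((s : ℤ) : 𝓞 K) * w = (x : 𝓞 K) := by
      push_cast
      linear_combination -hw
    obtain ⟨x', hx'⟩ := exists_int_of_mul_eq K _ (s : ℤ) x (by exact_mod_cast hs0) h1
    rw [hx'] at h1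
    refine ⟨x', ?_⟩
    have : (((s : ℤ) * x' : ℤ) : 𝓞 K) = (x : 𝓞 K) := by push_cast at h1 ⊢; exact h1
    exact_mod_cast this.symm
  have hidx := (index_G K hK ⊤ (by simp) s s 1 hs0 one_ne_zero 1 0 hgens hind).2
  rw [Ideal.absNorm_top, one_mul, mul_one] at hidx
  refine ⟨LL K ⊤ s 1 0 1 s, hidx, ⟨1, 0, 0, Submodule.mem_top, by push_cast; ring⟩, fun z => ?_, ?_⟩
  · exact ⟨0, 0, (f : 𝓞 K) * z, Submodule.mem_top, by rw [hnR]; push_cast; ring⟩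
  rintro _ ⟨a, t, ζ, -, rfl⟩ hco
  have hy : (1 : 𝓞 K) * (((1 : ℕ) : 𝓞 K) * (a : 𝓞 K) + (s : 𝓞 K) * (t : 𝓞 K) * 0) +
      (s : 𝓞 K) * ζ = (a : 𝓞 K) + (s : 𝓞 K) * ζ := by
    push_cast
    ring
  rw [hy] at hco ⊢
  have hac : IsCoprime a (n : ℤ) := by
    rw [Int.isCoprime_iff_nat_coprime]
    simp only [Int.natAbs_natCast]
    refine Nat.Coprime.symm (Nat.coprime_of_dvd ?_)
    intro q hqp hqn hqa
    obtain ⟨a', ha'⟩ := Int.natCast_dvd.2 hqa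
    obtain ⟨s', hs'⟩ := (h q hqp hqn).1
    obtain ⟨n', hn'⟩ := hqn
    obtain ⟨x, x', hx⟩ := hco
    have h1 : IsUnit ((q : ℤ) : 𝓞 K) := by
      refine IsUnit.of_mul_eq_one (x * ((a' : 𝓞 K) + (s' : 𝓞 K) * ζ) + x' * (n' : 𝓞 K)) ?_
      have e1 : (a : 𝓞 K) = (q : 𝓞 K) * (a' : 𝓞 K) := by rw [ha']; push_cast; rfl
      have e2 : (s : 𝓞 K) = (q : 𝓞 K) * (s' : 𝓞 K) := by rw [hs']; push_cast; rfl
      have e3 : (n : 𝓞 K) = (q : 𝓞 K) * (n' : 𝓞 K) := by rw [hn']; push_cast; rfl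
      rw [e1, e2, e3] at hx
      push_cast
      linear_combination hx
    exact (Nat.prime_iff_prime_int.1 hqp).not_isUnit (isUnit_of_isUnit_intCast K _ h1)
  obtain ⟨b, e, hb⟩ := hac
  have hb' : (b : 𝓞 K) * (a : 𝓞 K) + (e : 𝓞 K) * (n : 𝓞 K) = 1 := by
    have := congrArg (fun z : ℤ => (z : 𝓞 K)) hb
    simpa using this
  obtain ⟨u, c, w, hu⟩ := ball_of_fill K s n hn ⟨f, hf⟩ h4 h ((b : 𝓞 K) * ζ)
  refine ⟨u, a * c, (a : 𝓞 K) * w + (e : 𝓞 K) * ((s : 𝓞 K) * ζ), ?_⟩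
  push_cast at hu ⊢
  linear_combination (a : 𝓞 K) * hu - (s : 𝓞 K) * ζ * hb'

/-- The uniform bound. -/
theorem bound_C (K : Type*) [Field K] [NumberField K] (hK : Module.finrank ℚ K = 3)
    (σ : Fin 3 → K →+* ℝ) (hσ : Function.Injective σ) :
    ∃ C : ℝ, 1 ≤ C ∧ ∀ (n : ℕ) (L : AddSubgroup (𝓞 K)), n ≠ 0 → UnitsCover K n L →
      ∀ α : Fin 3 → K, LinearIndependent ℚ α → StableUnder K α n →
      markovMin (fun i j => σ i (α j)) * (latticeIndex K α : ℝ) ≤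
        C ^ (1 + n.primeFactors.card) * (L.index : ℝ) := by
  obtain ⟨T, hT0, hT⟩ := exists_reduction K
  obtain ⟨δ, hδ, hdet⟩ := det_eq_index K hK σ hσ
  obtain ⟨C, hC1, hkey⟩ := exists_small_C K hK σ hσ
  set A : ℝ := 512 * ∑ I ∈ T, (Ideal.absNorm I : ℝ) with hA
  have hA0 : 0 ≤ A := mul_nonneg (by norm_num) (Finset.sum_nonneg fun I _ => Nat.cast_nonneg _)
  refine ⟨C * (A / δ + 1), ?_, ?_⟩
  · have h1 : 0 ≤ A / δ := by positivity
    nlinarith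
  intro n L hn hcov α hα hst
  obtain ⟨I, hI, lam, α', hlam, hα', hspan, hclo⟩ := hT α n hα hst
  obtain ⟨I', M', hMM, hI'0, hI'N, hMI, hnM, hgen⟩ := reduce_any K hK I (hT0 I hI) n hn _
    (MainT.span_closure I α' hspan) hclo
  obtain ⟨x, hxM, hx0, hxN⟩ := hkey n L hn hcov I' hI'0 M' hMI hnM hgen
  have h1 := value_bound hK σ hσ δ hδ hdet α lam hlam α' hα' I (hT0 I hI) hspan x (hMM hxM) hx0
  have hIA : (Ideal.absNorm I' : ℝ) ≤ A := by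
    have h2 : (Ideal.absNorm I : ℝ) ≤ ∑ I ∈ T, (Ideal.absNorm I : ℝ) :=
      Finset.single_le_sum (f := fun I => (Ideal.absNorm I : ℝ)) (fun J _ => Nat.cast_nonneg _) hI
    have h3 : (Ideal.absNorm I' : ℝ) ≤ 512 * (Ideal.absNorm I : ℝ) := by exact_mod_cast hI'N
    rw [hA]
    linarith
  set ω : ℕ := n.primeFactors.card with hω
  have hAδ : 0 ≤ A / δ := by positivity
  have hpow : A / δ ≤ (A / δ + 1) ^ (1 + ω) := by
    have h2 : (1 : ℝ) ≤ A / δ + 1 := by linarith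
    calc A / δ ≤ A / δ + 1 := by linarith
      _ = (A / δ + 1) ^ 1 := (pow_one _).symm
      _ ≤ (A / δ + 1) ^ (1 + ω) := pow_le_pow_right₀ h2 (by omega)
  have hCp : (0 : ℝ) ≤ C ^ (1 + ω) := by positivity
  calc markovMin (fun i j => σ i (α j)) * (latticeIndex K α : ℝ)
      ≤ ((|Algebra.norm ℤ x| : ℤ) : ℝ) / δ := h1
    _ ≤ C ^ (1 + ω) * (Ideal.absNorm I' : ℝ) * (L.index : ℝ) / δ := by gcongr
    _ ≤ C ^ (1 + ω) * A * (L.index : ℝ) / δ := by gcongr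
    _ = C ^ (1 + ω) * (A / δ) * (L.index : ℝ) := by ring
    _ ≤ C ^ (1 + ω) * (A / δ + 1) ^ (1 + ω) * (L.index : ℝ) := by gcongr
    _ = (C * (A / δ + 1)) ^ (1 + ω) * (L.index : ℝ) := by rw [mul_pow]

/-- Finiteness. -/
theorem finite_C (K : Type*) [Field K] [NumberField K] (hK : Module.finrank ℚ K = 3)
    (σ : Fin 3 → K →+* ℝ) (hσ : Function.Injective σ) (δ ε : ℝ) (hδ : 0 < δ) (hε : 0 < ε) :
    {m : ℝ | ∃ (n : ℕ) (L : AddSubgroup (𝓞 K)) (α : Fin 3 → K), n ≠ 0 ∧ UnitsCover K n L ∧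
      LinearIndependent ℚ α ∧ StableUnder K α n ∧
      (L.index : ℝ) * (n : ℝ) ^ δ ≤ (latticeIndex K α : ℝ) ∧
      m = markovMin (fun i j => σ i (α j)) ∧ ε ≤ m}.Finite := by
  obtain ⟨C, hC1, hC⟩ := bound_C K hK σ hσ
  obtain ⟨C', hC'0, hC'⟩ := omega_bound C hC1 (δ / 2) (by linarith)
  set D : ℝ := C * C' / ε with hD
  have hD0 : 0 < D := by positivity
  set N₀ : ℝ := D ^ (2 / δ) with hN₀
  set B : ℕ := ⌊D * N₀ ^ (3 + δ / 2)⌋₊ with hB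
  obtain ⟨-, hV⟩ := finite_of_index K hK σ hσ B
  refine (hV ε hε).subset ?_
  rintro m ⟨n, L, α, hn, hcov, hα, hst, hidx, hm, hεm⟩
  refine ⟨α, n, hα, hn, hst, ?_, hm, hεm⟩
  have hn0 : (0 : ℝ) < (n : ℝ) := by exact_mod_cast Nat.pos_of_ne_zero hn
  have hL0 := index_ne_zero_of_mul_mem K n hn L hcov.2.1
  have hL1 : (0 : ℝ) < (L.index : ℝ) := by exact_mod_cast Nat.pos_of_ne_zero hL0
  have hLn : (L.index : ℝ) ≤ (n : ℝ) ^ 3 := by
    exact_mod_cast index_le_of_mul_mem K hK n hn L hcov.2.1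
  have h1 := hC n L hn hcov α hα hst
  have h2 : C ^ (1 + n.primeFactors.card) ≤ C * (C' * (n : ℝ) ^ (δ / 2)) := by
    rw [pow_add, pow_one]
    exact mul_le_mul_of_nonneg_left (hC' n hn) (by linarith)
  have h3 : ε * (latticeIndex K α : ℝ) ≤ C * (C' * (n : ℝ) ^ (δ / 2)) * (L.index : ℝ) := by
    calc ε * (latticeIndex K α : ℝ) ≤
          markovMin (fun i j => σ i (α j)) * (latticeIndex K α : ℝ) :=
          mul_le_mul_of_nonneg_right (hm ▸ hεm) (by positivity)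
      _ ≤ C ^ (1 + n.primeFactors.card) * (L.index : ℝ) := h1
      _ ≤ _ := mul_le_mul_of_nonneg_right h2 (by positivity)
  have h5 : (latticeIndex K α : ℝ) ≤ D * ((n : ℝ) ^ (δ / 2) * (L.index : ℝ)) := by
    rw [hD, div_mul_eq_mul_div, le_div_iff₀ hε]
    linarith
  have h6 : (n : ℝ) ^ (δ / 2) ≤ D := by
    have h7 : ((L.index : ℝ) * (n : ℝ) ^ (δ / 2)) * (n : ℝ) ^ (δ / 2) ≤
        ((L.index : ℝ) * (n : ℝ) ^ (δ / 2)) * D := by
      calc ((L.index : ℝ) * (n : ℝ) ^ (δ / 2)) * (n : ℝ) ^ (δ / 2)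
          = (L.index : ℝ) * ((n : ℝ) ^ (δ / 2) * (n : ℝ) ^ (δ / 2)) := by ring
        _ = (L.index : ℝ) * (n : ℝ) ^ δ := by
            rw [← Real.rpow_add hn0]
            congr 2
            ring
        _ ≤ (latticeIndex K α : ℝ) := hidx
        _ ≤ D * ((n : ℝ) ^ (δ / 2) * (L.index : ℝ)) := h5
        _ = _ := by ring
    exact le_of_mul_le_mul_left h7 (by positivity)
  have h8 : (n : ℝ) ≤ N₀ := by
    rw [hN₀]
    calc (n : ℝ) = ((n : ℝ) ^ (δ / 2)) ^ (2 / δ) := by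
          rw [← Real.rpow_mul hn0.le]
          have : δ / 2 * (2 / δ) = 1 := by field_simp
          rw [this, Real.rpow_one]
      _ ≤ D ^ (2 / δ) := Real.rpow_le_rpow (by positivity) h6 (by positivity)
  apply Nat.le_floor
  calc (latticeIndex K α : ℝ) ≤ D * ((n : ℝ) ^ (δ / 2) * (L.index : ℝ)) := h5
    _ ≤ D * ((n : ℝ) ^ (δ / 2) * (n : ℝ) ^ 3) := by gcongr
    _ = D * (n : ℝ) ^ (3 + δ / 2) := by
        rw [← Real.rpow_natCast (n : ℝ) 3, ← Real.rpow_add hn0]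
        congr 2
        push_cast
        ring
    _ ≤ D * N₀ ^ (3 + δ / 2) :=
        mul_le_mul_of_nonneg_left (Real.rpow_le_rpow hn0.le h8 (by positivity)) hD0.le

/-- The rate for invertible modules over `ℤ + n 𝓞_K`. -/
theorem cyclic_C (K : Type*) [Field K] [NumberField K] (hK : Module.finrank ℚ K = 3)
    (σ : Fin 3 → K →+* ℝ) (B : ℝ) (α : Fin 3 → K) (n : ℕ)
    (hα : LinearIndependent ℚ α) (hn : n ≠ 0) (hcy : CyclicModulo K α n)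
    (h : markovMin (fun i j => σ i (α j)) * (latticeIndex K α : ℝ) ≤ B) :
    markovMin (fun i j => σ i (α j)) * (n : ℝ) ^ 2 ≤ B := by
  have h2 : (n : ℝ) ^ 2 ≤ (latticeIndex K α : ℝ) := by
    exact_mod_cast latticeIndex_ge K hK α n hn hα hcy
  exact (mul_le_mul_of_nonneg_left h2 (markovMin_nonneg _)).trans h

end Pool.Agent.MP_ca7d12_nt
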