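import Pool.Agent.Lib.MP_ca7d12_nt.H.Count
import Pool.Agent.Lib.MP_ca7d12_nt.ExistsUnit
import Pool.Agent.Lib.MP_ca7d12_nt.ExistsLevel
import Pool.Agent.Lib.MP_ca7d12_nt.T.IndepS

set_option autoImplicit false

namespace Pool.Agent.MP_ca7d12_nt

open NumberField

private theorem pgB_norm (K : Type*) [Field K] [NumberField K] (hK : Module.finrank ℚ K = 3)
    (n : ℕ) : Algebra.norm ℤ ((n : ℕ) : 𝓞 K) = (n : ℤ) ^ 3 := by
  have h2 := Algebra.norm_algebraMap_of_basis (RingOfIntegers.basis K) (n : ℤ)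
  rw [← Module.finrank_eq_card_basis (RingOfIntegers.basis K), RingOfIntegers.rank, hK] at h2
  rw [← h2]
  congr 1
  simp

/-- The cube of a natural number dividing a nonzero element of norm at most `B` is at most `B`. -/
private theorem pgB_le (K : Type*) [Field K] [NumberField K] (hK : Module.finrank ℚ K = 3)
    {d B : ℕ} {x y : 𝓞 K} (hx : x = (d : 𝓞 K) * y) (hx0 : x ≠ 0)
    (hB : |Algebra.norm ℤ x| ≤ (B : ℤ)) : d ^ 3 ≤ B := by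
  have hy0 : y ≠ 0 := by
    rintro rfl
    exact hx0 (by rw [hx, mul_zero])
  have h1 : Algebra.norm ℤ y ≠ 0 := by
    rw [Ne, Algebra.norm_eq_zero_iff]
    exact hy0
  have h2 : (1 : ℤ) ≤ |Algebra.norm ℤ y| := Int.one_le_abs h1
  rw [hx, map_mul, pgB_norm K hK, abs_mul, abs_of_nonneg (by positivity)] at hB
  have h3 : (0 : ℤ) ≤ (d : ℤ) ^ 3 := by positivity
  have h5 : (d : ℤ) ^ 3 ≤ B := by nlinarith
  exact_mod_cast h5

/-- A natural number dividing an integer in the ring of integers divides it. -/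
private theorem pgB_int (K : Type*) [Field K] [NumberField K] {d : ℕ} (hd : d ≠ 0) {a : ℤ}
    (h : (d : 𝓞 K) ∣ (a : 𝓞 K)) : (d : ℤ) ∣ a := by
  obtain ⟨w, hw⟩ := h
  have hd' : ((d : ℕ) : ℤ) ≠ 0 := by exact_mod_cast hd
  obtain ⟨n, hn⟩ := exists_int_of_mul_eq K w (d : ℤ) a hd' (by push_cast; exact hw.symm)
  refine ⟨n, ?_⟩
  rw [hn] at hw
  have : ((a : ℤ) : 𝓞 K) = (((d : ℤ) * n : ℤ) : 𝓞 K) := by
    rw [hw]
    push_cast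
    ring
  exact_mod_cast this

/-- The core computation. -/
private theorem pgB_core (K : Type*) [Field K] [NumberField K] (hK : Module.finrank ℚ K = 3)
    (p : ℕ) (hp : p.Prime) (w k X : ℕ) (hk : 2 * w ≤ k) (hX : X ≤ p ^ w)
    (γ γ' z' v v' : 𝓞 K) (a a' : ℤ) (ε : (𝓞 K)ˣ) (hγ' : γ' = 1 + (p : 𝓞 K) * z')
    (h0 : (a : 𝓞 K) * γ + ((p ^ k : ℕ) : 𝓞 K) * v ≠ 0)
    (hB : |Algebra.norm ℤ ((a : 𝓞 K) * γ + ((p ^ k : ℕ) : 𝓞 K) * v)| ≤ (X : ℤ))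
    (hε : (a : 𝓞 K) * γ + ((p ^ k : ℕ) : 𝓞 K) * v =
      (ε : 𝓞 K) * ((a' : 𝓞 K) * γ' + ((p ^ k : ℕ) : 𝓞 K) * v')) :
    ∃ (c : ℤ) (y : 𝓞 K), γ = (c : 𝓞 K) * ((ε : 𝓞 K) * γ') + ((p ^ w : ℕ) : 𝓞 K) * y := by
  have hp0 : p ≠ 0 := hp.ne_zero
  -- the gcd
  obtain ⟨d, hd⟩ : ∃ d : ℕ, d = Int.gcd a ((p ^ k : ℕ) : ℤ) := ⟨_, rfl⟩
  have hpk : ((p ^ k : ℕ) : ℤ) ≠ 0 := by exact_mod_cast pow_ne_zero k hp0
  have hd0 : d ≠ 0 := by
    rw [hd]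
    intro h
    exact hpk (Int.gcd_eq_zero_iff.1 h).2
  have hda : (d : ℤ) ∣ a := by
    rw [hd]
    exact Int.gcd_dvd_left ..
  have hdP : (d : ℤ) ∣ ((p ^ k : ℕ) : ℤ) := by
    rw [hd]
    exact Int.gcd_dvd_right ..
  have hdP' : d ∣ p ^ k := by exact_mod_cast hdP
  obtain ⟨a1, ha1⟩ := hda
  obtain ⟨m, hm⟩ := id hdP'
  have ha1' : (a : 𝓞 K) = (d : 𝓞 K) * (a1 : 𝓞 K) := by
    rw [ha1]
    push_cast
    ring
  have hm' : ((p ^ k : ℕ) : 𝓞 K) = (d : 𝓞 K) * (m : 𝓞 K) := by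
    rw [hm]
    push_cast
    ring
  have hdB : d ^ 3 ≤ X := by
    refine pgB_le K hK (x := _) (y := (a1 : 𝓞 K) * γ + (m : 𝓞 K) * v) ?_ h0 hB
    rw [ha1', hm']
    ring
  obtain ⟨b, hbk, hdb⟩ := (Nat.dvd_prime_pow hp).1 hdP'
  have h3b : 3 * b ≤ w := by
    have h1 : p ^ (3 * b) ≤ p ^ w := by
      refine le_trans (le_of_eq ?_) (hdB.trans hX)
      rw [hdb, mul_comm, pow_mul]
    exact (Nat.pow_le_pow_iff_right hp.one_lt).1 h1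
  have hme : m = p ^ w * p ^ (k - b - w) := by
    have h1 : d * m = d * (p ^ w * p ^ (k - b - w)) := by
      rw [← hm, hdb, ← pow_add, ← pow_add]
      congr 1
      omega
    exact Nat.eq_of_mul_eq_mul_left (Nat.pos_of_ne_zero hd0) h1
  obtain ⟨e, he⟩ : ∃ e : ℕ, e = p ^ (k - b - w) := ⟨_, rfl⟩
  rw [← he] at hme
  have hme' : (m : 𝓞 K) = ((p ^ w : ℕ) : 𝓞 K) * (e : 𝓞 K) := by
    rw [hme]
    push_cast
    ring
  -- `d` divides `a'`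
  have hεinv : ((ε⁻¹ : (𝓞 K)ˣ) : 𝓞 K) * (ε : 𝓞 K) = 1 := by
    rw [← Units.val_mul, inv_mul_cancel, Units.val_one]
  have hcop : IsCoprime (d : 𝓞 K) γ' := by
    have h1 : IsCoprime ((p : ℕ) : 𝓞 K) γ' := by
      refine ⟨-z', 1, ?_⟩
      rw [hγ']
      ring
    have h3 : IsCoprime (((p ^ k : ℕ)) : 𝓞 K) γ' := by
      have := h1.pow_left (m := k)
      push_cast at this ⊢
      exact this
    rw [hm'] at h3
    exact h3.of_mul_left_left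
  have hda' : (d : ℤ) ∣ a' := by
    refine pgB_int K hd0 (hcop.dvd_of_dvd_mul_right
      (?_ : (d : 𝓞 K) ∣ (a' : 𝓞 K) * γ'))
    refine ⟨((ε⁻¹ : (𝓞 K)ˣ) : 𝓞 K) * ((a1 : 𝓞 K) * γ +
      (m : 𝓞 K) * v) - (m : 𝓞 K) * v', ?_⟩
    rw [ha1', hm'] at hε
    linear_combination (-((ε⁻¹ : (𝓞 K)ˣ) : 𝓞 K)) * hε - ((a' : 𝓞 K) *
      γ' + (d : 𝓞 K) * (m : 𝓞 K) * v') * hεinv
  obtain ⟨a1', ha1'2⟩ := hda'
  have ha2 : (a' : 𝓞 K) = (d : 𝓞 K) * (a1' : 𝓞 K) := by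
    rw [ha1'2]
    push_cast
    ring
  have hdR : (d : 𝓞 K) ≠ 0 := by exact_mod_cast hd0
  -- cancel `d`
  have hE : (a1 : 𝓞 K) * γ + (m : 𝓞 K) * v =
      (ε : 𝓞 K) * ((a1' : 𝓞 K) * γ' + (m : 𝓞 K) * v') := by
    apply mul_left_cancel₀ hdR
    rw [ha1', ha2, hm'] at hε
    linear_combination hε
  -- Bezout
  have hbez : IsCoprime a1 (m : ℤ) := by
    rw [Int.isCoprime_iff_gcd_eq_one]
    have h1 : d = d * Int.gcd a1 (m : ℤ) := by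
      conv_lhs => rw [hd, ha1, hm]
      push_cast
      rw [Int.gcd_mul_left, Int.natAbs_natCast]
    have h2 : d * 1 = d * Int.gcd a1 (m : ℤ) := by rw [mul_one]; exact h1
    exact (Nat.eq_of_mul_eq_mul_left (Nat.pos_of_ne_zero hd0) h2).symm
  obtain ⟨s, t, hst⟩ := hbez
  have hst' : (s : 𝓞 K) * (a1 : 𝓞 K) + (t : 𝓞 K) * (m : 𝓞 K) = 1 := by
    have := congrArg (fun x : ℤ => (x : 𝓞 K)) hst
    push_cast at this
    exact this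
  refine ⟨s * a1', (e : 𝓞 K) * ((t : 𝓞 K) * γ +
      (s : 𝓞 K) * ((ε : 𝓞 K) * v' - v)), ?_⟩
  rw [hme'] at hE hst'
  push_cast at hE hst' ⊢
  linear_combination (s : 𝓞 K) * hE - γ * hst'

/-- Many inequivalent lattices cannot all have elements of small norm. -/
theorem card_le_of_small (K : Type*) [Field K] [NumberField K] (hK : Module.finrank ℚ K = 3) :
    ∃ C : ℕ, ∀ (p w k X : ℕ), p.Prime → 2 * w ≤ k → 1 ≤ X → X ≤ p ^ w →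
      ∀ H : Finset (𝓞 K), (∀ γ ∈ H, ∃ z : 𝓞 K, γ = 1 + (p : 𝓞 K) * z) →
      (∀ γ ∈ H, ∀ γ' ∈ H, ∀ (u : (𝓞 K)ˣ) (c : ℤ) (v : 𝓞 K),
        γ = (c : 𝓞 K) * ((u : 𝓞 K) * γ') + ((p ^ w : ℕ) : 𝓞 K) * v → γ = γ') →
      (∀ γ ∈ H, ∃ (c : ℤ) (v : 𝓞 K), (c : 𝓞 K) * γ + ((p ^ k : ℕ) : 𝓞 K) * v ≠ 0 ∧
        |Algebra.norm ℤ ((c : 𝓞 K) * γ + ((p ^ k : ℕ) : 𝓞 K) * v)| ≤ (X : ℤ)) →
      H.card ≤ C * X := by
  classical
  obtain ⟨C, hC⟩ := exists_card_ideals K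
  refine ⟨C, ?_⟩
  intro p w k X hp hk hX1 hX H h1 h2 h3
  choose! c v hne hno using h3
  let x : 𝓞 K → 𝓞 K := fun γ => (c γ : 𝓞 K) * γ + ((p ^ k : ℕ) : 𝓞 K) * v γ
  have hinj : Set.InjOn (fun γ => (Ideal.span {x γ} : Ideal (𝓞 K))) (H : Set (𝓞 K)) := by
    intro γ hγ γ' hγ' hs
    have hγH : γ ∈ H := hγ
    have hγH' : γ' ∈ H := hγ'
    have hs' : (Ideal.span {x γ'} : Ideal (𝓞 K)) = Ideal.span {x γ} := hs.symm
    rw [Ideal.span_singleton_eq_span_singleton] at hs'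
    obtain ⟨ε, hε⟩ := hs'
    obtain ⟨z', hz'⟩ := h1 γ' hγH'
    obtain ⟨b, y, hby⟩ := pgB_core K hK p hp w k X hk hX γ γ' z' (v γ) (v γ') (c γ) (c γ') ε hz'
      (hne γ hγH) (hno γ hγH) (by rw [mul_comm] at hε; exact hε.symm)
    exact h2 γ hγH γ' hγH' ε b y hby
  rw [← Finset.card_image_of_injOn hinj]
  refine hC X hX1 _ ?_
  intro I hI
  obtain ⟨γ, hγ, rfl⟩ := Finset.mem_image.1 hI
  refine ⟨?_, ?_⟩
  · intro h
    rw [Ideal.span_singleton_eq_bot] at h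
    exact hne γ hγ h
  · rw [Ideal.absNorm_span_singleton]
    have h6 := hno γ hγ
    rw [← Int.natCast_natAbs] at h6
    exact_mod_cast h6

end Pool.Agent.MP_ca7d12_nt
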