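import Pool.Agent.Lib.MP_ca7d12_nt.H.Count
import Pool.Agent.Lib.MP_ca7d12_nt.ExistsUnit
import Pool.Agent.Lib.MP_ca7d12_nt.ExistsLevel
import Pool.Agent.Lib.MP_ca7d12_nt.T.IndepS

set_option autoImplicit false

namespace Pool.Agent.MP_ca7d12_nt

open NumberField

private theorem pgC_norm (K : Type*) [Field K] [NumberField K] (hK : Module.finrank ℚ K = 3)
    (n : ℕ) : Algebra.norm ℤ ((n : ℕ) : 𝓞 K) = (n : ℤ) ^ 3 := by
  have h2 := Algebra.norm_algebraMap_of_basis (RingOfIntegers.basis K) (n : ℤ)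
  rw [← Module.finrank_eq_card_basis (RingOfIntegers.basis K), RingOfIntegers.rank, hK] at h2
  rw [← h2]
  congr 1
  simp

/-- Dividing by the greatest common divisor. -/
private theorem pgC_key (K : Type*) [Field K] [NumberField K] (hK : Module.finrank ℚ K = 3)
    (p : ℕ) (hp : p.Prime) (k X : ℕ) (γ : 𝓞 K) (c : ℤ) (v : 𝓞 K)
    (h0 : (c : 𝓞 K) * γ + ((p ^ k : ℕ) : 𝓞 K) * v ≠ 0)
    (hB : |Algebra.norm ℤ ((c : 𝓞 K) * γ + ((p ^ k : ℕ) : 𝓞 K) * v)| ≤ (X : ℤ)) :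
    ∃ (a : ℕ) (e : ℤ), a ≤ k ∧ IsCoprime e ((p ^ (k - a) : ℕ) : ℤ) ∧
      (e : 𝓞 K) * γ + ((p ^ (k - a) : ℕ) : 𝓞 K) * v ≠ 0 ∧
      p ^ (3 * a) * (Algebra.norm ℤ ((e : 𝓞 K) * γ + ((p ^ (k - a) : ℕ) : 𝓞 K) * v)).natAbs
        ≤ X := by
  have hp0 : p ≠ 0 := hp.ne_zero
  obtain ⟨d, hd⟩ : ∃ d : ℕ, d = Int.gcd c ((p ^ k : ℕ) : ℤ) := ⟨_, rfl⟩
  have hpk : ((p ^ k : ℕ) : ℤ) ≠ 0 := by exact_mod_cast pow_ne_zero k hp0
  have hd0 : d ≠ 0 := by
    rw [hd]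
    intro h
    exact hpk (Int.gcd_eq_zero_iff.1 h).2
  have hda : (d : ℤ) ∣ c := by
    rw [hd]
    exact Int.gcd_dvd_left ..
  have hdP : (d : ℤ) ∣ ((p ^ k : ℕ) : ℤ) := by
    rw [hd]
    exact Int.gcd_dvd_right ..
  have hdP' : d ∣ p ^ k := by exact_mod_cast hdP
  obtain ⟨e, he⟩ := hda
  obtain ⟨m, hm⟩ := id hdP'
  obtain ⟨a, hak, hda⟩ := (Nat.dvd_prime_pow hp).1 hdP'
  have hmk : m = p ^ (k - a) := by
    have h1 : d * m = d * p ^ (k - a) := by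
      rw [← hm, hda, ← pow_add]
      congr 1
      omega
    exact Nat.eq_of_mul_eq_mul_left (Nat.pos_of_ne_zero hd0) h1
  have hc' : (c : 𝓞 K) = (d : 𝓞 K) * (e : 𝓞 K) := by
    rw [he]
    push_cast
    ring
  have hm' : ((p ^ k : ℕ) : 𝓞 K) = (d : 𝓞 K) * ((p ^ (k - a) : ℕ) : 𝓞 K) := by
    rw [hm, hmk]
    push_cast
    ring
  have hx : (c : 𝓞 K) * γ + ((p ^ k : ℕ) : 𝓞 K) * v =
      (d : 𝓞 K) * ((e : 𝓞 K) * γ + ((p ^ (k - a) : ℕ) : 𝓞 K) * v) := by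
    rw [hc', hm']
    ring
  refine ⟨a, e, hak, ?_, ?_, ?_⟩
  · rw [Int.isCoprime_iff_gcd_eq_one, ← hmk]
    have h1 : d = d * Int.gcd e (m : ℤ) := by
      conv_lhs => rw [hd, he, hm]
      push_cast
      rw [Int.gcd_mul_left, Int.natAbs_natCast]
    have h2 : d * 1 = d * Int.gcd e (m : ℤ) := by rw [mul_one]; exact h1
    exact (Nat.eq_of_mul_eq_mul_left (Nat.pos_of_ne_zero hd0) h2).symm
  · intro h
    exact h0 (by rw [hx, h, mul_zero])
  · rw [hx, map_mul, pgC_norm K hK, abs_mul, abs_of_nonneg (by positivity),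
      Int.abs_eq_natAbs] at hB
    have h3 : p ^ (3 * a) = d ^ 3 := by
      rw [hda, mul_comm, pow_mul]
    rw [h3]
    exact_mod_cast hB

open Classical in
/-- Many inequivalent lattices cannot all have elements of small norm (all `k ≥ w`). -/
theorem card_le_of_small_tree (K : Type*) [Field K] [NumberField K]
    (hK : Module.finrank ℚ K = 3) :
    ∃ C : ℕ, ∀ (p w k X : ℕ), p.Prime → w ≤ k → 1 ≤ X →
      ∀ H : Finset (𝓞 K), (∀ γ ∈ H, ∃ z : 𝓞 K, γ = 1 + (p : 𝓞 K) * z) →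
      (∀ i : ℕ, i ≤ w → ∀ γ₀ ∈ H, (H.filter fun γ => ∃ (u : (𝓞 K)ˣ) (c : ℤ) (v : 𝓞 K),
        γ = (c : 𝓞 K) * ((u : 𝓞 K) * γ₀) + ((p ^ i : ℕ) : 𝓞 K) * v).card ≤ p ^ (2 * (w - i))) →
      (∀ γ ∈ H, ∃ (c : ℤ) (v : 𝓞 K), (c : 𝓞 K) * γ + ((p ^ k : ℕ) : 𝓞 K) * v ≠ 0 ∧
        |Algebra.norm ℤ ((c : 𝓞 K) * γ + ((p ^ k : ℕ) : 𝓞 K) * v)| ≤ (X : ℤ)) →
      H.card ≤ C * X := by
  obtain ⟨C0, hC0⟩ := exists_card_ideals K
  refine ⟨C0 * 2, ?_⟩
  intro p w k X hp hwk hX1 H _ htree h3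
  have h4 : ∀ γ ∈ H, ∃ (a : ℕ) (e : ℤ) (v : 𝓞 K), a ≤ k ∧ IsCoprime e ((p ^ (k - a) : ℕ) : ℤ) ∧
      (e : 𝓞 K) * γ + ((p ^ (k - a) : ℕ) : 𝓞 K) * v ≠ 0 ∧
      p ^ (3 * a) * (Algebra.norm ℤ ((e : 𝓞 K) * γ + ((p ^ (k - a) : ℕ) : 𝓞 K) * v)).natAbs
        ≤ X := by
    intro γ hγ
    obtain ⟨c, v, h0, hB⟩ := h3 γ hγ
    obtain ⟨a, e, h5⟩ := pgC_key K hK p hp k X γ c v h0 hB
    exact ⟨a, e, v, h5⟩
  choose! a e v hak hcop hne hno using h4
  let x : 𝓞 K → 𝓞 K := fun γ => (e γ : 𝓞 K) * γ + ((p ^ (k - a γ) : ℕ) : 𝓞 K) * v γ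
  -- one value of `a`
  have hone : ∀ b : ℕ, p ^ b * (H.filter fun γ => a γ = b).card ≤ C0 * X := by
    intro b
    rcases (H.filter fun γ => a γ = b).eq_empty_or_nonempty with hemp | ⟨γ1, hγ1⟩
    · rw [hemp]
      simp
    · rw [Finset.mem_filter] at hγ1
      have hbk : b ≤ k := hγ1.2 ▸ hak γ1 hγ1.1
      have hpb : p ^ (3 * b) ≤ X := by
        have h5 := hno γ1 hγ1.1
        have h6 : 0 < (Algebra.norm ℤ ((e γ1 : 𝓞 K) * γ1 +
            ((p ^ (k - a γ1) : ℕ) : 𝓞 K) * v γ1)).natAbs := by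
          rw [Int.natAbs_pos, Ne, Algebra.norm_eq_zero_iff]
          exact hne γ1 hγ1.1
        rw [hγ1.2] at h5 h6
        exact le_trans (Nat.le_mul_of_pos_right _ h6) h5
      have hp3 : 0 < p ^ (3 * b) := pow_pos hp.pos _
      have hXb : 1 ≤ X / p ^ (3 * b) := (Nat.one_le_div_iff hp3).2 hpb
      have hcard : (H.filter fun γ => a γ = b).card ≤ p ^ (2 * b) *
          ((H.filter fun γ => a γ = b).image
            (fun γ => (Ideal.span {x γ} : Ideal (𝓞 K)))).card := by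
        apply Finset.card_le_mul_card_image
        intro I hI
        obtain ⟨γ0, hγ0, hI0⟩ := Finset.mem_image.1 hI
        rw [Finset.mem_filter] at hγ0
        obtain ⟨i, hi⟩ : ∃ i, i = min (k - b) w := ⟨_, rfl⟩
        have hiw : i ≤ w := hi ▸ min_le_right _ _
        have hik : i ≤ k - b := hi ▸ min_le_left _ _
        refine le_trans (Finset.card_le_card ?_) (le_trans (htree i hiw γ0 hγ0.1)
          (Nat.pow_le_pow_right hp.pos (by omega)))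
        intro γ hγ
        rw [Finset.mem_filter, Finset.mem_filter] at hγ
        obtain ⟨⟨hγH, hγa⟩, hγI⟩ := hγ
        rw [Finset.mem_filter]
        refine ⟨hγH, ?_⟩
        have hs : (Ideal.span {x γ0} : Ideal (𝓞 K)) = Ideal.span {x γ} := by
          rw [hI0]
          exact hγI.symm
        rw [Ideal.span_singleton_eq_span_singleton] at hs
        obtain ⟨ε, hε⟩ := hs
        obtain ⟨s, t, hst⟩ := hcop γ hγH
        have hst' : (s : 𝓞 K) * (e γ : 𝓞 K) + (t : 𝓞 K) * ((p ^ (k - b) : ℕ) : 𝓞 K) = 1 := by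
          rw [hγa] at hst
          have := congrArg (fun x : ℤ => (x : 𝓞 K)) hst
          push_cast at this ⊢
          exact this
        have hε' : ((e γ0 : 𝓞 K) * γ0 + ((p ^ (k - b) : ℕ) : 𝓞 K) * v γ0) * (ε : 𝓞 K) =
            (e γ : 𝓞 K) * γ + ((p ^ (k - b) : ℕ) : 𝓞 K) * v γ := by
          have h7 : ((e γ0 : 𝓞 K) * γ0 + ((p ^ (k - a γ0) : ℕ) : 𝓞 K) * v γ0) * (ε : 𝓞 K) =
            (e γ : 𝓞 K) * γ + ((p ^ (k - a γ) : ℕ) : 𝓞 K) * v γ := hε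
          rw [hγ0.2, hγa] at h7
          exact h7
        have hpi : ((p ^ (k - b) : ℕ) : 𝓞 K) =
            ((p ^ i : ℕ) : 𝓞 K) * ((p ^ (k - b - i) : ℕ) : 𝓞 K) := by
          rw [← Nat.cast_mul, ← pow_add]
          congr 2
          omega
        refine ⟨ε, s * e γ0, ((p ^ (k - b - i) : ℕ) : 𝓞 K) * ((t : 𝓞 K) * γ +
          (s : 𝓞 K) * ((ε : 𝓞 K) * v γ0 - v γ)), ?_⟩
        rw [hpi] at hε' hst'
        push_cast at hε' hst' ⊢
        linear_combination (-(s : 𝓞 K)) * hε' - γ * hst'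
      have himg : ((H.filter fun γ => a γ = b).image
          (fun γ => (Ideal.span {x γ} : Ideal (𝓞 K)))).card ≤ C0 * (X / p ^ (3 * b)) := by
        apply hC0 _ hXb
        intro I hI
        obtain ⟨γ, hγ, rfl⟩ := Finset.mem_image.1 hI
        rw [Finset.mem_filter] at hγ
        refine ⟨?_, ?_⟩
        · intro h
          rw [Ideal.span_singleton_eq_bot] at h
          exact hne γ hγ.1 h
        · rw [Ideal.absNorm_span_singleton, Nat.le_div_iff_mul_le hp3, mul_comm]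
          have h6 := hno γ hγ.1
          have h7 : (Algebra.norm ℤ (x γ)).natAbs = (Algebra.norm ℤ ((e γ : 𝓞 K) * γ +
            ((p ^ (k - a γ) : ℕ) : 𝓞 K) * v γ)).natAbs := rfl
          rw [h7, ← hγ.2]
          exact h6
      calc p ^ b * (H.filter fun γ => a γ = b).card
          ≤ p ^ b * (p ^ (2 * b) * (C0 * (X / p ^ (3 * b)))) :=
            Nat.mul_le_mul_left _ (hcard.trans (Nat.mul_le_mul_left _ himg))
        _ = C0 * (p ^ (3 * b) * (X / p ^ (3 * b))) := by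
            have : p ^ (3 * b) = p ^ b * p ^ (2 * b) := by rw [← pow_add]; congr 1; ring
            rw [this]
            ring
        _ ≤ C0 * X := Nat.mul_le_mul_left _ (Nat.mul_div_le _ _)
  have hone' : ∀ b : ℕ, (H.filter fun γ => a γ = b).card ≤ C0 * X / 2 ^ b := by
    intro b
    rw [Nat.le_div_iff_mul_le (by positivity), mul_comm]
    exact le_trans (Nat.mul_le_mul_right _ (Nat.pow_le_pow_left hp.two_le b)) (hone b)
  have hsum : H.card = ∑ b ∈ Finset.range (k + 1), (H.filter fun γ => a γ = b).card :=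
    Finset.card_eq_sum_card_fiberwise (fun γ hγ => by
      have h5 : a γ ≤ k := hak γ hγ
      simpa [Nat.lt_succ_iff] using h5)
  rw [hsum]
  refine (Finset.sum_le_sum fun b _ => hone' b).trans ?_
  have h8 := Nat.geom_sum_le (le_refl 2) (C0 * X) (k + 1)
  refine h8.trans (le_of_eq ?_)
  rw [Nat.div_one]
  ring

end Pool.Agent.MP_ca7d12_nt
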