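import Mathlib

set_option autoImplicit false

namespace Pool.Agent.MP_ca7d12_nt

private theorem tots_mul {a b : ℕ} (hab : a.Coprime b) :
    ∑ d ∈ (a * b).divisors, (1 : ℝ) / (d.totient : ℝ) =
      (∑ d ∈ a.divisors, (1 : ℝ) / (d.totient : ℝ)) *
        ∑ d ∈ b.divisors, (1 : ℝ) / (d.totient : ℝ) := by
  rw [Nat.divisors_mul, Finset.mul_def, Finset.sum_image hab.mul_injOn_divisors,
    Finset.sum_product, Finset.sum_mul_sum]
  refine Finset.sum_congr rfl fun x hx => Finset.sum_congr rfl fun y hy => ?_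
  have hxy : x.Coprime y := Nat.Coprime.of_dvd (Nat.dvd_of_mem_divisors hx)
    (Nat.dvd_of_mem_divisors hy) hab
  show (1 : ℝ) / ((x * y).totient : ℝ) = _
  rw [Nat.totient_mul hxy, Nat.cast_mul, one_div_mul_one_div]

private theorem tots_pow {p : ℕ} (hp : p.Prime) (k : ℕ) :
    ∑ i ∈ Finset.range (k + 1), (1 : ℝ) / ((p ^ i).totient : ℝ) ≤ 3 - 2 * (1 / 2) ^ k := by
  induction k with
  | zero => simp; norm_num
  | succ k ih =>
    rw [Finset.sum_range_succ]
    have h1 : (2 : ℝ) ^ k ≤ ((p ^ (k + 1)).totient : ℝ) := by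
      rw [Nat.totient_prime_pow_succ hp]
      have h2 : 2 ^ k * 1 ≤ p ^ k * (p - 1) :=
        Nat.mul_le_mul (Nat.pow_le_pow_left hp.two_le k) (by have := hp.two_le; omega)
      rw [mul_one] at h2
      exact_mod_cast h2
    have h3 : (1 : ℝ) / ((p ^ (k + 1)).totient : ℝ) ≤ (1 / 2) ^ k := by
      rw [one_div_pow]
      exact one_div_le_one_div_of_le (by positivity) h1
    have h4 : (1 / 2 : ℝ) ^ (k + 1) = (1 / 2) ^ k * (1 / 2) := pow_succ _ _
    linarith

/-- `∑_{d ∣ n} 1 / φ(d) ≤ 4 ^ ω(n)`. -/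
theorem sum_inv_totient (n : ℕ) (hn : n ≠ 0) :
    ∑ d ∈ n.divisors, (1 : ℝ) / (d.totient : ℝ) ≤ 4 ^ n.primeFactors.card := by
  induction n using Nat.recOnPosPrimePosCoprime with
  | zero => exact absurd rfl hn
  | one => simp
  | prime_pow p k hp hk =>
    rw [Nat.sum_divisors_prime_pow hp, Nat.primeFactors_prime_pow hk.ne' hp,
      Finset.card_singleton, pow_one]
    have h1 := tots_pow hp k
    have h2 : (0 : ℝ) ≤ (1 / 2) ^ k := by positivity
    linarith
  | coprime a b ha hb hab iha ihb =>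
    rw [tots_mul hab, hab.primeFactors_mul,
      Finset.card_union_of_disjoint hab.disjoint_primeFactors, pow_add]
    exact mul_le_mul (iha (by omega)) (ihb (by omega))
      (Finset.sum_nonneg fun d _ => by positivity) (by positivity)

end Pool.Agent.MP_ca7d12_nt
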