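import Pool.Agent.Lib.MP_ca7d12_nt.H.Count
import Pool.Agent.Lib.MP_ca7d12_nt.H.FibreD
import Pool.Agent.Lib.MP_ca7d12_nt.H.TotientSum
import Pool.Agent.Lib.MP_ca7d12_nt.ExistsLevel
import Pool.Agent.Lib.MP_ca7d12_nt.T.IndepS

set_option autoImplicit false

namespace Pool.Agent.MP_ca7d12_nt

open NumberField

private theorem pgD_norm (K : Type*) [Field K] [NumberField K] (hK : Module.finrank ℚ K = 3)
    (n : ℕ) : Algebra.norm ℤ ((n : ℕ) : 𝓞 K) = (n : ℤ) ^ 3 := by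
  have h2 := Algebra.norm_algebraMap_of_basis (RingOfIntegers.basis K) (n : ℤ)
  rw [← Module.finrank_eq_card_basis (RingOfIntegers.basis K), RingOfIntegers.rank, hK] at h2
  rw [← h2]
  congr 1
  simp

/-- Dividing by the greatest common divisor. -/
private theorem pgD_key (K : Type*) [Field K] [NumberField K] (hK : Module.finrank ℚ K = 3)
    (n X : ℕ) (hn : n ≠ 0) (γ : 𝓞 K) (c : ℤ) (v : 𝓞 K)
    (h0 : (c : 𝓞 K) * γ + (n : 𝓞 K) * v ≠ 0)
    (hB : |Algebra.norm ℤ ((c : 𝓞 K) * γ + (n : 𝓞 K) * v)| ≤ (X : ℤ)) :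
    ∃ (d : ℕ) (e : ℤ), d ∣ n ∧ IsCoprime e ((n / d : ℕ) : ℤ) ∧
      (e : 𝓞 K) * γ + ((n / d : ℕ) : 𝓞 K) * v ≠ 0 ∧
      d ^ 3 * (Algebra.norm ℤ ((e : 𝓞 K) * γ + ((n / d : ℕ) : 𝓞 K) * v)).natAbs ≤ X := by
  obtain ⟨d, hd⟩ : ∃ d : ℕ, d = Int.gcd c (n : ℤ) := ⟨_, rfl⟩
  have hn' : (n : ℤ) ≠ 0 := by exact_mod_cast hn
  have hd0 : d ≠ 0 := by
    rw [hd]
    intro h
    exact hn' (Int.gcd_eq_zero_iff.1 h).2
  have hda : (d : ℤ) ∣ c := by
    rw [hd]
    exact Int.gcd_dvd_left ..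
  have hdP : (d : ℤ) ∣ (n : ℤ) := by
    rw [hd]
    exact Int.gcd_dvd_right ..
  have hdP' : d ∣ n := by exact_mod_cast hdP
  obtain ⟨e, he⟩ := hda
  obtain ⟨m, hm⟩ := id hdP'
  have hmk : n / d = m := by
    rw [hm, Nat.mul_div_cancel_left _ (Nat.pos_of_ne_zero hd0)]
  have hc' : (c : 𝓞 K) = (d : 𝓞 K) * (e : 𝓞 K) := by
    rw [he]
    push_cast
    ring
  have hm' : (n : 𝓞 K) = (d : 𝓞 K) * (m : 𝓞 K) := by
    rw [hm]
    push_cast
    ring
  have hx : (c : 𝓞 K) * γ + (n : 𝓞 K) * v = (d : 𝓞 K) * ((e : 𝓞 K) * γ + (m : 𝓞 K) * v) := by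
    rw [hc', hm']
    ring
  refine ⟨d, e, hdP', ?_, ?_, ?_⟩
  · rw [Int.isCoprime_iff_gcd_eq_one, hmk]
    have h1 : d = d * Int.gcd e (m : ℤ) := by
      conv_lhs => rw [hd, he, hm]
      push_cast
      rw [Int.gcd_mul_left, Int.natAbs_natCast]
    have h2 : d * 1 = d * Int.gcd e (m : ℤ) := by rw [mul_one]; exact h1
    exact (Nat.eq_of_mul_eq_mul_left (Nat.pos_of_ne_zero hd0) h2).symm
  · rw [hmk]
    intro h
    exact h0 (by rw [hx, h, mul_zero])
  · rw [hx, map_mul, pgD_norm K hK, abs_mul, abs_of_nonneg (by positivity),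
      Int.abs_eq_natAbs] at hB
    rw [hmk]
    exact_mod_cast hB

/-- Many inequivalent lattices modulo `n` cannot all have elements of small norm. -/
theorem card_le_of_small_mod (K : Type*) [Field K] [NumberField K]
    (hK : Module.finrank ℚ K = 3) :
    ∃ C : ℕ, ∀ (n X : ℕ), n ≠ 0 → 1 ≤ X →
      ∀ H : Finset (𝓞 K), (∀ γ ∈ H, IsCoprime γ (n : 𝓞 K)) →
      (∀ γ ∈ H, ∀ γ' ∈ H, ∀ (u : (𝓞 K)ˣ) (c : ℤ) (v : 𝓞 K),
        γ = (c : 𝓞 K) * ((u : 𝓞 K) * γ') + (n : 𝓞 K) * v → γ = γ') →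
      (∀ γ ∈ H, ∃ (c : ℤ) (v : 𝓞 K), (c : 𝓞 K) * γ + (n : 𝓞 K) * v ≠ 0 ∧
        |Algebra.norm ℤ ((c : 𝓞 K) * γ + (n : 𝓞 K) * v)| ≤ (X : ℤ)) →
      H.card ≤ C * 4 ^ n.primeFactors.card * X := by
  classical
  obtain ⟨C0, hC0⟩ := exists_card_ideals K
  refine ⟨C0, ?_⟩
  intro n X hn hX1 H hco hineq h3
  have h4 : ∀ γ ∈ H, ∃ (d : ℕ) (e : ℤ) (v : 𝓞 K), d ∣ n ∧ IsCoprime e ((n / d : ℕ) : ℤ) ∧
      (e : 𝓞 K) * γ + ((n / d : ℕ) : 𝓞 K) * v ≠ 0 ∧
      d ^ 3 * (Algebra.norm ℤ ((e : 𝓞 K) * γ + ((n / d : ℕ) : 𝓞 K) * v)).natAbs ≤ X := by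
    intro γ hγ
    obtain ⟨c, v, h0, hB⟩ := h3 γ hγ
    obtain ⟨d, e, h5⟩ := pgD_key K hK n X hn γ c v h0 hB
    exact ⟨d, e, v, h5⟩
  choose! d e v hdn hcop hne hno using h4
  let x : 𝓞 K → 𝓞 K := fun γ => (e γ : 𝓞 K) * γ + ((n / d γ : ℕ) : 𝓞 K) * v γ
  -- one value of `d`
  have hone : ∀ b : ℕ, (H.filter fun γ => d γ = b).card * b.totient ≤ C0 * X := by
    intro b
    rcases (H.filter fun γ => d γ = b).eq_empty_or_nonempty with hemp | ⟨γ1, hγ1⟩
    · rw [hemp]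
      simp
    · rw [Finset.mem_filter] at hγ1
      have hbn : b ∣ n := hγ1.2 ▸ hdn γ1 hγ1.1
      have hb0 : 0 < b := Nat.pos_of_dvd_of_pos hbn (Nat.pos_of_ne_zero hn)
      have hpb : b ^ 3 ≤ X := by
        have h5 := hno γ1 hγ1.1
        have h6 : 0 < (Algebra.norm ℤ ((e γ1 : 𝓞 K) * γ1 +
            ((n / d γ1 : ℕ) : 𝓞 K) * v γ1)).natAbs := by
          rw [Int.natAbs_pos, Ne, Algebra.norm_eq_zero_iff]
          exact hne γ1 hγ1.1
        rw [hγ1.2] at h5 h6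
        exact le_trans (Nat.le_mul_of_pos_right _ h6) h5
      have hp3 : 0 < b ^ 3 := pow_pos hb0 _
      have hXb : 1 ≤ X / b ^ 3 := (Nat.one_le_div_iff hp3).2 hpb
      obtain ⟨T, hT⟩ : ∃ T, T = (H.filter fun γ => d γ = b).image
          (fun γ => (Ideal.span {x γ} : Ideal (𝓞 K))) := ⟨_, rfl⟩
      have hcard : (H.filter fun γ => d γ = b).card * b.totient ≤ T.card * b ^ 3 := by
        rw [Finset.card_eq_sum_card_fiberwise (t := T)
          (f := fun γ => (Ideal.span {x γ} : Ideal (𝓞 K))) (fun γ hγ => by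
            rw [hT]
            exact Finset.mem_coe.2 (Finset.mem_image_of_mem _ hγ)), Finset.sum_mul]
        refine (Finset.sum_le_card_nsmul _ _ (b ^ 3) fun I hI => ?_).trans (le_of_eq ?_)
        · rw [hT] at hI
          obtain ⟨γ0, hγ0, hI0⟩ := Finset.mem_image.1 hI
          rw [Finset.mem_filter] at hγ0
          refine fibre_card K hK n b hn hbn γ0 _ (fun γ hγ => ?_) (fun γ hγ γ' hγ' => ?_)
            (fun γ hγ => ?_)
          · rw [Finset.mem_filter, Finset.mem_filter] at hγ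
            exact hco γ hγ.1.1
          · rw [Finset.mem_filter, Finset.mem_filter] at hγ hγ'
            exact hineq γ hγ.1.1 γ' hγ'.1.1
          · rw [Finset.mem_filter, Finset.mem_filter] at hγ
            obtain ⟨⟨hγH, hγa⟩, hγI⟩ := hγ
            have hs : (Ideal.span {x γ0} : Ideal (𝓞 K)) = Ideal.span {x γ} := by
              rw [hI0]
              exact hγI.symm
            rw [Ideal.span_singleton_eq_span_singleton] at hs
            obtain ⟨ε, hε⟩ := hs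
            obtain ⟨s, t, hst⟩ := hcop γ hγH
            have hst' : (s : 𝓞 K) * (e γ : 𝓞 K) + (t : 𝓞 K) * ((n / b : ℕ) : 𝓞 K) = 1 := by
              rw [hγa] at hst
              have := congrArg (fun x : ℤ => (x : 𝓞 K)) hst
              simpa only [Int.cast_add, Int.cast_mul, Int.cast_natCast, Int.cast_one] using this
            have hε' : ((e γ0 : 𝓞 K) * γ0 + ((n / b : ℕ) : 𝓞 K) * v γ0) * (ε : 𝓞 K) =
                (e γ : 𝓞 K) * γ + ((n / b : ℕ) : 𝓞 K) * v γ := by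
              have h7 : ((e γ0 : 𝓞 K) * γ0 + ((n / d γ0 : ℕ) : 𝓞 K) * v γ0) * (ε : 𝓞 K) =
                (e γ : 𝓞 K) * γ + ((n / d γ : ℕ) : 𝓞 K) * v γ := hε
              rw [hγ0.2, hγa] at h7
              exact h7
            refine ⟨ε, s * e γ0, (t : 𝓞 K) * γ +
              (s : 𝓞 K) * ((ε : 𝓞 K) * v γ0 - v γ), ?_⟩
            rw [Int.cast_mul]
            linear_combination (-(s : 𝓞 K)) * hε' - γ * hst'
        · rw [smul_eq_mul]
      have himg : T.card ≤ C0 * (X / b ^ 3) := by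
        apply hC0 _ hXb
        intro I hI
        rw [hT] at hI
        obtain ⟨γ, hγ, rfl⟩ := Finset.mem_image.1 hI
        rw [Finset.mem_filter] at hγ
        refine ⟨?_, ?_⟩
        · intro h
          rw [Ideal.span_singleton_eq_bot] at h
          exact hne γ hγ.1 h
        · rw [Ideal.absNorm_span_singleton, Nat.le_div_iff_mul_le hp3, mul_comm]
          have h6 := hno γ hγ.1
          have h7 : (Algebra.norm ℤ (x γ)).natAbs = (Algebra.norm ℤ ((e γ : 𝓞 K) * γ +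
            ((n / d γ : ℕ) : 𝓞 K) * v γ)).natAbs := rfl
          rw [h7, ← hγ.2]
          exact h6
      calc (H.filter fun γ => d γ = b).card * b.totient
          ≤ T.card * b ^ 3 := hcard
        _ ≤ C0 * (X / b ^ 3) * b ^ 3 := Nat.mul_le_mul_right _ himg
        _ = C0 * (b ^ 3 * (X / b ^ 3)) := by ring
        _ ≤ C0 * X := Nat.mul_le_mul_left _ (Nat.mul_div_le _ _)
  have hsum : H.card = ∑ b ∈ n.divisors, (H.filter fun γ => d γ = b).card :=
    Finset.card_eq_sum_card_fiberwise (fun γ hγ => by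
      have h5 : d γ ∣ n := hdn γ hγ
      exact Finset.mem_coe.2 (Nat.mem_divisors.2 ⟨h5, hn⟩))
  have hreal : (H.card : ℝ) ≤ (C0 : ℝ) * 4 ^ n.primeFactors.card * X := by
    rw [hsum]
    push_cast
    have h6 : ∀ b ∈ n.divisors, ((H.filter fun γ => d γ = b).card : ℝ) ≤
        (C0 : ℝ) * X * (1 / (b.totient : ℝ)) := by
      intro b hb
      have hb0 : 0 < b := Nat.pos_of_mem_divisors hb
      have ht : (0 : ℝ) < (b.totient : ℝ) := by exact_mod_cast Nat.totient_pos.2 hb0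
      rw [mul_one_div, le_div_iff₀ ht]
      exact_mod_cast hone b
    refine (Finset.sum_le_sum h6).trans ?_
    rw [← Finset.mul_sum]
    have h7 := sum_inv_totient n hn
    have h8 : (0 : ℝ) ≤ (C0 : ℝ) * X := by positivity
    calc (C0 : ℝ) * X * ∑ b ∈ n.divisors, (1 : ℝ) / (b.totient : ℝ)
        ≤ (C0 : ℝ) * X * 4 ^ n.primeFactors.card := mul_le_mul_of_nonneg_left h7 h8
      _ = (C0 : ℝ) * 4 ^ n.primeFactors.card * X := by ring
  exact_mod_cast hreal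

end Pool.Agent.MP_ca7d12_nt
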