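import Pool.Agent.Lib.MP_ca7d12_nt.H.Defs
import Pool.Agent.Lib.MP_ca7d12_nt.ExistsUnit

set_option autoImplicit false

namespace Pool.Agent.MP_ca7d12_nt

open NumberField

/-- The differences of the elements of `R` are not directions of units at the level `p ^ j`. -/
def NoDir (K : Type*) [Field K] [NumberField K] (p j : ℕ) (R : Finset (𝓞 K)) : Prop :=
  ∀ ζ ∈ R, ∀ ζ' ∈ R, (∃ (u : (𝓞 K)ˣ) (c : ℤ) (v : 𝓞 K),
    1 + ((p ^ j : ℕ) : 𝓞 K) * (ζ - ζ') = (c : 𝓞 K) * (u : 𝓞 K) + ((p ^ (j + 1) : ℕ) : 𝓞 K) * v) →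
    ζ = ζ'

private theorem reps_one_add_pow {R : Type*} [CommRing R] (x : R) (b : ℕ) :
    ∃ r : R, (1 + x) ^ b = 1 + b * x + x ^ 2 * r := by
  induction b with
  | zero => exact ⟨0, by simp⟩
  | succ b ih =>
    obtain ⟨r, hr⟩ := ih
    refine ⟨b + r + x * r, ?_⟩
    rw [pow_succ, hr]
    push_cast
    ring

private theorem reps_inv {p : ℕ} (hp : p.Prime) {a a' : ℕ} (ha : a < p) (ha' : a' < p)
    (hne : a ≠ a') : ∃ (b : ℕ) (m : ℤ), (b : ℤ) * ((a : ℤ) - a') = 1 + p * m := by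
  have hcop : IsCoprime ((a : ℤ) - a') (p : ℤ) := by
    refine ((Nat.prime_iff_prime_int.1 hp).coprime_iff_not_dvd.2 ?_).symm
    intro hd
    have h1 : (a : ℤ) - a' ≠ 0 := by omega
    have h2 := Int.le_of_dvd (abs_pos.2 h1) ((dvd_abs _ _).2 hd)
    have h3 : |(a : ℤ) - a'| < p := by
      rw [abs_lt]
      constructor <;> omega
    omega
  obtain ⟨s, t, hst⟩ := hcop
  have hp0 : (0 : ℤ) < p := by exact_mod_cast hp.pos
  refine ⟨(s % p).toNat, -t - (s / p) * ((a : ℤ) - a'), ?_⟩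
  rw [Int.toNat_of_nonneg (Int.emod_nonneg _ hp0.ne')]
  have h4 : s % p = s - p * (s / p) := by
    have := Int.emod_add_mul_ediv s p
    linarith
  rw [h4]
  linear_combination hst

private theorem reps_key1 {R : Type*} [CommRing R] {p : ℕ} (hp : p.Prime) (k : ℕ) (ζ : R)
    (hζ : ∀ (u : Rˣ) (c : ℤ) (w : R),
      1 + (p : R) ^ (k + 1) * ζ ≠ (c : R) * (u : R) + (p : R) ^ (k + 1) * (p : R) * w)
    {a a' : ℕ} (ha : a < p) (ha' : a' < p) (u : Rˣ) (c : ℤ) (v : R)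
    (h : 1 + (p : R) ^ (k + 1) * ((a : R) * ζ - (a' : R) * ζ) =
      (c : R) * (u : R) + (p : R) ^ (k + 2) * v) : a = a' := by
  by_contra hne
  obtain ⟨b, m, hb⟩ := reps_inv hp ha ha' hne
  obtain ⟨T, hT⟩ : ∃ T : R, T = ((a : R) - (a' : R)) * ζ - (p : R) * v := ⟨_, rfl⟩
  have h4 : (c : R) * (u : R) = 1 + (p : R) ^ (k + 1) * T := by
    rw [hT]
    linear_combination -h
  obtain ⟨r, hr⟩ := reps_one_add_pow ((p : R) ^ (k + 1) * T) b
  have hb' : (b : R) * ((a : R) - (a' : R)) = 1 + (p : R) * (m : R) := by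
    have := congrArg (Int.cast : ℤ → R) hb
    push_cast at this
    exact this
  refine hζ (u ^ b) (c ^ b) (-((m : R) * ζ - (b : R) * v) - (p : R) ^ k * T ^ 2 * r) ?_
  have h5 : ((c ^ b : ℤ) : R) * ((u ^ b : Rˣ) : R) = ((c : R) * (u : R)) ^ b := by
    push_cast
    rw [mul_pow]
  rw [h5, h4, hr]
  have h6 : (b : R) * T = ζ + (p : R) * (m : R) * ζ - (b : R) * (p : R) * v := by
    rw [hT]
    linear_combination ζ * hb'
  linear_combination -(p : R) ^ (k + 1) * h6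

private theorem reps_key2 {R : Type*} [CommRing R] (hR : ∀ q : ℤ, IsUnit (q : R) → IsUnit q)
    {p : ℕ} (hp : p.Prime) (k : ℕ)
    (h : ∀ (u : Rˣ) (c : ℤ) (v : R), (u : R) = (c : R) + (p : R) ^ (k + 1) * v →
      ∃ (i : ℤ) (w : R), v = (i : R) + (p : R) * w)
    (δ : R) (u : Rˣ) (c : ℤ) (v : R)
    (hu : 1 + (p : R) ^ (k + 1) * δ = (c : R) * (u : R) + (p : R) ^ (k + 2) * v) :
    ∃ (i : ℤ) (w : R), δ = (i : R) + (p : R) * w := by
  have hp' : Prime (p : ℤ) := Nat.prime_iff_prime_int.1 hp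
  have hnd : ¬ (p : ℤ) ∣ c := by
    rintro ⟨c', rfl⟩
    have h1 : IsUnit (((p : ℤ)) : R) := by
      refine IsUnit.of_mul_eq_one ((c' : R) * (u : R) + (p : R) ^ (k + 1) * v - (p : R) ^ k * δ) ?_
      push_cast at hu ⊢
      linear_combination -hu
    exact hp'.not_isUnit (hR _ h1)
  have hcop : IsCoprime c ((p : ℤ) ^ (k + 2)) := ((hp'.coprime_iff_not_dvd.2 hnd).symm).pow_right
  obtain ⟨x, y, hxy⟩ := hcop
  have hxyR : (x : R) * (c : R) + (y : R) * (p : R) ^ (k + 2) = 1 := by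
    have := congrArg (Int.cast : ℤ → R) hxy
    push_cast at this
    exact this
  obtain ⟨i, w, hw⟩ := h u x ((x : R) * δ - (p : R) * (x : R) * v + (p : R) * (y : R) * (u : R)) (by
    linear_combination (-(u : R)) * hxyR - (x : R) * hu)
  refine ⟨c * i, (c : R) * (w + (x : R) * v - (y : R) * (u : R)) + (y : R) * (p : R) ^ (k + 1) * δ,
    ?_⟩
  push_cast
  linear_combination (-δ) * hxyR + (c : R) * hw

/-- An unfilled level has `p` representatives. -/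
theorem reps_unfilled (K : Type*) [Field K] [NumberField K] (p : ℕ) (hp : p.Prime) (j : ℕ)
    (hj : 1 ≤ j) (h : ¬ UnitsFill K (p ^ j) p) :
    ∃ R : Finset (𝓞 K), R.card = p ∧ NoDir K p j R := by
  classical
  obtain ⟨k, rfl⟩ : ∃ k, j = k + 1 := ⟨j - 1, by omega⟩
  obtain ⟨ζ, hζ⟩ : ∃ ζ : 𝓞 K, ∀ (u : (𝓞 K)ˣ) (c : ℤ) (w : 𝓞 K),
      1 + (p : 𝓞 K) ^ (k + 1) * ζ ≠
        (c : 𝓞 K) * (u : 𝓞 K) + (p : 𝓞 K) ^ (k + 1) * (p : 𝓞 K) * w := by
    by_contra hcon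
    push Not at hcon
    refine h fun q hq hqp => ?_
    obtain rfl : q = p := (Nat.prime_dvd_prime_iff_eq hq hp).1 hqp
    refine ⟨dvd_pow_self q (Nat.succ_ne_zero k), fun z => ?_⟩
    obtain ⟨u, c, w, hw⟩ := hcon z
    refine ⟨u, c, w, ?_⟩
    push_cast
    exact hw
  refine ⟨(Finset.range p).image fun a : ℕ => (a : 𝓞 K) * ζ, ?_, ?_⟩
  · rw [Finset.card_image_of_injOn, Finset.card_range]
    intro a ha a' ha' haa
    rw [Finset.mem_coe, Finset.mem_range] at ha ha'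
    have haa' : (a : 𝓞 K) * ζ = (a' : 𝓞 K) * ζ := haa
    refine reps_key1 hp k ζ hζ ha ha' 1 1 0 ?_
    rw [haa', sub_self]
    push_cast
    ring
  · rintro x hx y hy ⟨u, c, v, huv⟩
    rw [Finset.mem_image] at hx hy
    obtain ⟨a, ha, rfl⟩ := hx
    obtain ⟨a', ha', rfl⟩ := hy
    rw [Finset.mem_range] at ha ha'
    push_cast at huv
    rw [reps_key1 hp k ζ hζ ha ha' u c v huv]

/-- A level without units has `p ^ 2` representatives. -/
theorem reps_nounit (K : Type*) [Field K] [NumberField K] (hK : Module.finrank ℚ K = 3)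
    (p : ℕ) (hp : p.Prime) (j : ℕ) (hj : 1 ≤ j) (h : ¬ HasUnit K (p ^ j) p) :
    ∃ R : Finset (𝓞 K), R.card = p ^ 2 ∧ NoDir K p j R := by
  classical
  obtain ⟨k, rfl⟩ : ∃ k, j = k + 1 := ⟨j - 1, by omega⟩
  have h' : ∀ (u : (𝓞 K)ˣ) (c : ℤ) (v : 𝓞 K), (u : 𝓞 K) = (c : 𝓞 K) + (p : 𝓞 K) ^ (k + 1) * v →
      ∃ (i : ℤ) (w : 𝓞 K), v = (i : 𝓞 K) + (p : 𝓞 K) * w := by
    intro u c v huv
    by_contra hcon
    push Not at hcon
    refine h ⟨u, c, v, ?_, fun q hq hqp => ?_⟩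
    · push_cast
      exact huv
    · obtain rfl : q = p := (Nat.prime_dvd_prime_iff_eq hq hp).1 hqp
      exact hcon
  -- the subgroup `ℤ + p 𝓞`
  obtain ⟨H, hH⟩ : ∃ H : AddSubgroup (𝓞 K), ∀ x, x ∈ H ↔ ∃ (i : ℤ) (w : 𝓞 K),
      x = (i : 𝓞 K) + (p : 𝓞 K) * w :=
    ⟨{ carrier := {x | ∃ (i : ℤ) (w : 𝓞 K), x = (i : 𝓞 K) + (p : 𝓞 K) * w}
       zero_mem' := ⟨0, 0, by simp⟩
       add_mem' := by
        rintro x y ⟨i, w, rfl⟩ ⟨i', w', rfl⟩
        exact ⟨i + i', w + w', by push_cast; ring⟩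
       neg_mem' := by
        rintro x ⟨i, w, rfl⟩
        exact ⟨-i, -w, by push_cast; ring⟩ }, fun x => Iff.rfl⟩
  obtain ⟨P, hP⟩ : ∃ P : AddSubgroup (𝓞 K),
      P = Submodule.toAddSubgroup (Ideal.span {(p : 𝓞 K)}) := ⟨_, rfl⟩
  have hmem : ∀ x, x ∈ P ↔ ∃ w : 𝓞 K, x = (p : 𝓞 K) * w := by
    intro x
    rw [hP, Submodule.mem_toAddSubgroup, Ideal.mem_span_singleton]
    exact Iff.rfl
  have hPidx : P.index = p ^ 3 := by
    have h1 : P.index = Ideal.absNorm (Ideal.span {(p : 𝓞 K)}) := by rw [hP]; rfl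
    have h2 : ((p : ℕ) : 𝓞 K) = algebraMap ℤ (𝓞 K) (p : ℤ) := by simp
    rw [h1, Ideal.absNorm_span_singleton, h2, Algebra.norm_algebraMap, RingOfIntegers.rank, hK,
      Int.natAbs_pow, Int.natAbs_natCast]
  have hle : P ≤ H := by
    intro x hx
    obtain ⟨w, rfl⟩ := (hmem x).1 hx
    exact (hH _).2 ⟨0, w, by push_cast; ring⟩
  have hmul := AddSubgroup.relIndex_mul_index hle
  rw [hPidx] at hmul
  have hp0 : 0 < p := hp.pos
  have hrel : P.relIndex H ≤ p := by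
    let φ : Fin p → H ⧸ (P.addSubgroupOf H) := fun i =>
      QuotientAddGroup.mk ⟨((i : ℕ) : 𝓞 K), (hH _).2 ⟨((i : ℕ) : ℤ), 0, by push_cast; ring⟩⟩
    have hsurj : Function.Surjective φ := by
      intro q
      obtain ⟨⟨x, hx⟩, rfl⟩ := QuotientAddGroup.mk_surjective q
      obtain ⟨i, w, rfl⟩ := (hH x).1 hx
      have hpz : (0 : ℤ) < p := by exact_mod_cast hp0
      have h1 := Int.emod_nonneg i hpz.ne'
      have h2 := Int.emod_lt_of_pos i hpz
      refine ⟨⟨(i % p).toNat, by omega⟩, ?_⟩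
      refine QuotientAddGroup.eq.2 ?_
      rw [AddSubgroup.mem_addSubgroupOf, hmem]
      refine ⟨((i / p : ℤ) : 𝓞 K) + w, ?_⟩
      have h3 : (((i % p).toNat : ℕ) : 𝓞 K) = ((i % p : ℤ) : 𝓞 K) := by
        have h4 : (((i % p).toNat : ℕ) : ℤ) = i % p := Int.toNat_of_nonneg h1
        have h5 := congrArg (Int.cast : ℤ → 𝓞 K) h4
        rw [← h5]
        push_cast
        rfl
      have h6 : (i : 𝓞 K) = ((i % p : ℤ) : 𝓞 K) + (p : 𝓞 K) * ((i / p : ℤ) : 𝓞 K) := by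
        have h7 := congrArg (Int.cast : ℤ → 𝓞 K) (Int.emod_add_mul_ediv i p)
        rw [← h7]
        push_cast
        ring
      change -(((i % p).toNat : ℕ) : 𝓞 K) + ((i : 𝓞 K) + (p : 𝓞 K) * w) = _
      rw [h3]
      linear_combination h6
    have h1 := Nat.card_le_card_of_surjective φ hsurj
    rw [Nat.card_fin] at h1
    exact h1
  have hidx : p ^ 2 ≤ H.index := by
    have h1 : p * p ^ 2 ≤ p * H.index := by
      calc p * p ^ 2 = P.relIndex H * H.index := by rw [hmul]; ring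
        _ ≤ p * H.index := Nat.mul_le_mul_right _ hrel
    exact Nat.le_of_mul_le_mul_left h1 hp0
  have hne : Nat.card (𝓞 K ⧸ H) ≠ 0 := by
    have h1 : 0 < p ^ 2 := by positivity
    have h2 : Nat.card (𝓞 K ⧸ H) = H.index := rfl
    omega
  have hfin : Finite (𝓞 K ⧸ H) := Nat.finite_of_card_ne_zero hne
  have _ : Fintype (𝓞 K ⧸ H) := Fintype.ofFinite _
  have hcard : p ^ 2 ≤ (Finset.univ : Finset (𝓞 K ⧸ H)).card := by
    rw [Finset.card_univ, ← Nat.card_eq_fintype_card]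
    exact hidx
  obtain ⟨T, -, hT⟩ := Finset.exists_subset_card_eq hcard
  refine ⟨T.image Quotient.out, ?_, ?_⟩
  · rw [Finset.card_image_of_injective _ Quotient.out_injective, hT]
  · rintro x hx y hy ⟨u, c, v, huv⟩
    rw [Finset.mem_image] at hx hy
    obtain ⟨a, -, rfl⟩ := hx
    obtain ⟨b, -, rfl⟩ := hy
    push_cast at huv
    have h1 := reps_key2 (isUnit_of_isUnit_intCast K) hp k h' _ u c v huv
    have h2 : Quotient.out b + -Quotient.out a ∈ H := by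
      have h3 := H.neg_mem ((hH _).2 h1)
      rwa [neg_sub, sub_eq_add_neg] at h3
    have h4 : a = b := by
      have h5 : (QuotientAddGroup.mk (Quotient.out a) : 𝓞 K ⧸ H) =
          QuotientAddGroup.mk (Quotient.out b) := by
        refine QuotientAddGroup.eq.2 ?_
        rwa [add_comm]
      rwa [QuotientAddGroup.out_eq', QuotientAddGroup.out_eq'] at h5
    rw [h4]

end Pool.Agent.MP_ca7d12_nt
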