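import Pool.Agent.Lib.MP_ca7d12_nt.G.Sieve

set_option autoImplicit false

namespace Pool.Agent.MP_ca7d12_nt

theorem sieve3_pow (w : ℕ) : 6 * w + 1 ≤ 7 ^ w := by
  induction w with
  | zero => simp
  | succ v ih =>
    rw [pow_succ]
    omega

/-- A small positive integer avoiding six nonzero residue classes modulo each prime of `Q`. -/
theorem sieve3 (Q : Finset ℕ) (hQ : ∀ q ∈ Q, q.Prime) (r : ℕ → Fin 3 → ℤ)
    (hr : ∀ q ∈ Q, ∀ i, ¬ ((q : ℤ) ∣ r q i)) :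
    ∃ k : ℕ, 0 < k ∧ k ≤ 4 * 28672 ^ Q.card ∧
      ∀ q ∈ Q, ∀ i, ¬ ((q : ℤ) ∣ (k : ℤ) - r q i) ∧ ¬ ((q : ℤ) ∣ (k : ℤ) + r q i) := by
  classical
  set w := Q.card with hw
  set J := 6 * w + 1 with hJ
  set M0 := ∏ q ∈ Q.filter (fun q => q ≤ J), q with hM0
  have hM0pos : 0 < M0 := Finset.prod_pos fun q hq => (hQ q (Finset.mem_filter.1 hq).1).pos
  have hM0le : M0 ≤ 4 ^ J := by
    refine le_trans ?_ (primorial_le_four_pow J)
    unfold primorial
    refine Finset.prod_le_prod_of_subset_of_one_le' ?_ ?_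
    · intro q hq
      rw [Finset.mem_filter] at hq ⊢
      exact ⟨Finset.mem_range.2 (Nat.lt_succ_of_le hq.2), hQ q hq.1⟩
    · intro q hq _
      exact (Finset.mem_filter.1 hq).2.one_lt.le
  have hcop : ∀ q ∈ Q, J < q → ¬ q ∣ M0 := by
    intro q hq hlt hdvd
    obtain ⟨p, hp, hpd⟩ := (Nat.prime_iff.1 (hQ q hq)).exists_mem_finset_dvd hdvd
    rw [Finset.mem_filter] at hp
    have h1 := (Nat.prime_dvd_prime_iff_eq (hQ q hq) (hQ p hp.1)).1 hpd
    omega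
  let B : ℕ → Finset ℕ := fun q => Finset.univ.biUnion fun i : Fin 3 =>
    ((Finset.Icc 1 J).filter fun j : ℕ => (q : ℤ) ∣ ((M0 * j : ℕ) : ℤ) - r q i) ∪
      ((Finset.Icc 1 J).filter fun j : ℕ => (q : ℤ) ∣ ((M0 * j : ℕ) : ℤ) - -r q i)
  have hB : ∀ q ∈ Q.filter (fun q => J < q), (B q).card ≤ 6 := by
    intro q hq
    rw [Finset.mem_filter] at hq
    have h0 : (B q).card ≤ (Finset.univ : Finset (Fin 3)).card * 2 := by
      refine Finset.card_biUnion_le_card_mul _ _ _ fun i _ => ?_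
      have h1 := sieve_card_le_one (hQ q hq.1) (hcop q hq.1 hq.2) hq.2 (r q i)
      have h2 := sieve_card_le_one (hQ q hq.1) (hcop q hq.1 hq.2) hq.2 (-r q i)
      exact (Finset.card_union_le _ _).trans (by omega)
    simpa using h0
  have hcard : ((Q.filter (fun q => J < q)).biUnion B).card < (Finset.Icc 1 J).card := by
    have h1 : ((Q.filter (fun q => J < q)).biUnion B).card ≤
        (Q.filter (fun q => J < q)).card * 6 := Finset.card_biUnion_le_card_mul _ _ _ hB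
    have h2 : (Q.filter (fun q => J < q)).card ≤ w := Finset.card_filter_le _ _
    rw [Nat.card_Icc]
    omega
  obtain ⟨j, hj, hjB⟩ := Finset.exists_mem_notMem_of_card_lt_card hcard
  rw [Finset.mem_Icc] at hj
  refine ⟨M0 * j, Nat.mul_pos hM0pos (by omega), ?_, fun q hq i => ?_⟩
  · have h1 : 6 * w + 1 ≤ 7 ^ w := sieve3_pow w
    calc M0 * j ≤ 4 ^ J * J := Nat.mul_le_mul hM0le hj.2
      _ ≤ 4 ^ J * 7 ^ w := Nat.mul_le_mul_left _ h1
      _ = 4 * 28672 ^ w := by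
        rw [hJ, pow_succ, pow_mul, show (28672 : ℕ) = 4 ^ 6 * 7 by norm_num, mul_pow]
        ring
  · rcases Nat.lt_or_ge J q with h | h
    · have h1 : j ∉ B q := fun hmem => hjB
        (Finset.mem_biUnion.2 ⟨q, Finset.mem_filter.2 ⟨hq, h⟩, hmem⟩)
      have h2 : j ∉ ((Finset.Icc 1 J).filter fun j : ℕ => (q : ℤ) ∣ ((M0 * j : ℕ) : ℤ) - r q i) ∪
          ((Finset.Icc 1 J).filter fun j : ℕ => (q : ℤ) ∣ ((M0 * j : ℕ) : ℤ) - -r q i) :=
        fun hmem => h1 (Finset.mem_biUnion.2 ⟨i, Finset.mem_univ _, hmem⟩)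
      rw [Finset.mem_union, Finset.mem_filter, Finset.mem_filter, not_or] at h2
      refine ⟨fun h3 => h2.1 ⟨Finset.mem_Icc.2 hj, h3⟩, fun h3 => h2.2 ⟨Finset.mem_Icc.2 hj, ?_⟩⟩
      rwa [sub_neg_eq_add]
    · have h1 : (q : ℤ) ∣ ((M0 * j : ℕ) : ℤ) := by
        have h2 : q ∣ M0 := Finset.dvd_prod_of_mem _ (Finset.mem_filter.2 ⟨hq, h⟩)
        exact_mod_cast h2.mul_right j
      refine ⟨fun h3 => hr q hq i ?_, fun h3 => hr q hq i ?_⟩
      · exact (dvd_sub_right h1).1 h3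
      · exact (dvd_add_right h1).1 h3

end Pool.Agent.MP_ca7d12_nt
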